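import Pool.Agent.H46.MT.Defs
import Pool.Agent.H72.ZS.Rect

/-!
# Argument principle with a weight on a rectangle
-/

set_option autoImplicit false

namespace Pool.Agent.H46.MT.Arg

open Pool.Agent.H46.MT Pool.Agent.H72.ZS

theorem arg : ArgSt := by
  intro F f U a b c d Z hab hcd hU hsub hF hf hb hZ
  have e1 : RC (⟨a, c⟩ : ℂ) ⟨b, d⟩ = Set.Icc a b ×ℂ Set.Icc c d := rfl
  have e2 : RO (⟨a, c⟩ : ℂ) ⟨b, d⟩ = Set.Ioo a b ×ℂ Set.Ioo c d := rfl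
  have hFa : AnalyticOnNhd ℂ F (RC (⟨a, c⟩ : ℂ) ⟨b, d⟩) := (hF.analyticOnNhd hU).mono hsub
  have hfa : AnalyticOnNhd ℂ f (RC (⟨a, c⟩ : ℂ) ⟨b, d⟩) := (hf.analyticOnNhd hU).mono hsub
  obtain ⟨Z', hZ', h⟩ := rect_arg (a := ⟨a, c⟩) (b := ⟨b, d⟩) hab hcd hFa hfa (by
    intro z hz h0
    by_contra h1
    exact hb z hz h1 h0)
  have hZZ : Z = Z' := by
    ext z
    rw [hZ, hZ', e2]
  rw [hZZ, ← h]
  unfold rectInt
  simp only [logDeriv_apply, smul_eq_mul]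
  simp only [mul_comm (f _)]

end Pool.Agent.H46.MT.Arg
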