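import Pool.Agent.H46.MT.Defs

/-!
# Bad points: all but two per interval of length `8π/L` (MP_cb7589_nt)
-/

namespace Pool.Agent.H46.MT.Comb

open Finset

theorem comb_three {c₀ b L : ℝ} (hst : KStab c₀) (hb : 0 < b) (hb1 : b ≤ 1) (hL : 0 < L)
    {x₁ x₂ x₃ : ℝ} (h12 : x₁ < x₂) (h23 : x₂ < x₃) (h13 : x₃ - x₁ ≤ 8 * Real.pi / L) :
    c₀ ≤ ‖K ((b * L : ℝ) * ((x₂ : ℂ) - x₁))‖ ∨ c₀ ≤ ‖K ((b * L : ℝ) * ((x₃ : ℂ) - x₂))‖ ∨
      c₀ ≤ ‖K ((b * L : ℝ) * ((x₃ : ℂ) - x₁))‖ := by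
  have hbL : 0 < b * L := mul_pos hb hL
  have hπ := Real.pi_pos
  have h1 : 0 ≤ b * L * (x₂ - x₁) := mul_nonneg hbL.le (by linarith)
  have h2 : 0 ≤ b * L * (x₃ - x₂) := mul_nonneg hbL.le (by linarith)
  have h3 : b * L * (x₂ - x₁) + b * L * (x₃ - x₂) ≤ 8 * Real.pi := by
    have e1 : b * L * (x₂ - x₁) + b * L * (x₃ - x₂) = b * (L * (x₃ - x₁)) := by ring
    have e2 : L * (x₃ - x₁) ≤ 8 * Real.pi := by
      rw [le_div_iff₀ hL] at h13
      linarith
    have e3 : 0 ≤ L * (x₃ - x₁) := mul_nonneg hL.le (by linarith)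
    rw [e1]
    nlinarith
  have c1 : ((b * L * (x₂ - x₁) : ℝ) : ℂ) = ((b * L : ℝ) : ℂ) * ((x₂ : ℂ) - x₁) := by
    push_cast; ring
  have c2 : ((b * L * (x₃ - x₂) : ℝ) : ℂ) = ((b * L : ℝ) : ℂ) * ((x₃ : ℂ) - x₂) := by
    push_cast; ring
  have c3 : ((b * L * (x₂ - x₁) + b * L * (x₃ - x₂) : ℝ) : ℂ)
      = ((b * L : ℝ) : ℂ) * ((x₃ : ℂ) - x₁) := by
    push_cast; ring
  have h := hst _ _ h1 h2 h3
  rw [c1, c2, c3] at h
  exact h

theorem comb (_hK : KBasicSt) : CombSt := by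
  classical
  intro c₀ b L T S _hc₀ hst hb hb1 hL hT hS
  have hπ := Real.pi_pos
  set d : ℝ := 8 * Real.pi / L with hd
  have hd0 : 0 < d := by positivity
  set B : Finset ℝ := S.filter (fun x => ∃ y ∈ S, y ≠ x ∧
    c₀ ≤ ‖K ((b * L : ℝ) * ((x : ℂ) - y))‖) with hB
  have hBS : B ⊆ S := filter_subset _ _
  refine ⟨B, hBS, ?_, ?_⟩
  · intro x hx
    rw [hB, mem_filter] at hx
    exact hx.2
  · -- the other points
    have hG : ∀ x ∈ S \ B, ∀ y ∈ S \ B, y < x → ¬ c₀ ≤ ‖K ((b * L : ℝ) * ((x : ℂ) - y))‖ := by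
      intro x hx y hy hyx hc
      rw [mem_sdiff] at hx hy
      exact hx.2 (by rw [hB, mem_filter]; exact ⟨hx.1, y, hy.1, hyx.ne, hc⟩)
    have hG3 : ∀ x₁ ∈ S \ B, ∀ x₂ ∈ S \ B, ∀ x₃ ∈ S \ B, x₁ < x₂ → x₂ < x₃ →
        ¬ x₃ - x₁ ≤ d := by
      intro x₁ h1 x₂ h2 x₃ h3 h12 h23 h13
      rcases comb_three hst hb hb1 hL h12 h23 h13 with h | h | h
      · exact hG x₂ h2 x₁ h1 h12 h
      · exact hG x₃ h3 x₂ h2 h23 h
      · exact hG x₃ h3 x₁ h1 (h12.trans h23) h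
    have hfib : ∀ j ∈ (S \ B).image (fun x => ⌈(x - T) / d⌉₊),
        ((S \ B).filter (fun x => ⌈(x - T) / d⌉₊ = j)).card ≤ 2 := by
      intro j _
      by_contra hcon
      push Not at hcon
      have hdist : ∀ x ∈ (S \ B).filter (fun x => ⌈(x - T) / d⌉₊ = j),
          ∀ y ∈ (S \ B).filter (fun x => ⌈(x - T) / d⌉₊ = j), x - y ≤ d := by
        intro x hx y hy
        rw [mem_filter] at hx hy
        have hy0 : 0 < (y - T) / d := by
          have := (hS y (mem_sdiff.mp hy.1).1).1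
          apply div_pos (by linarith) hd0
        have h1 : (x - T) / d ≤ j := by
          rw [← hx.2]
          exact Nat.le_ceil _
        have h2 : (j : ℝ) < (y - T) / d + 1 := by
          rw [← hy.2]
          exact Nat.ceil_lt_add_one hy0.le
        have h3 : (x - T) / d ≤ (y - T) / d + 1 := h1.trans h2.le
        rw [div_le_iff₀ hd0, add_mul, div_mul_cancel₀ _ hd0.ne', one_mul] at h3
        linarith
      obtain ⟨x, hx, y, hy, z, hz, hxy, hxz, hyz⟩ := two_lt_card.mp hcon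
      have hx' := (mem_filter.mp hx).1
      have hy' := (mem_filter.mp hy).1
      have hz' := (mem_filter.mp hz).1
      rcases lt_or_gt_of_ne hxy with h1 | h1 <;> rcases lt_or_gt_of_ne hxz with h2 | h2 <;>
        rcases lt_or_gt_of_ne hyz with h3 | h3
      · exact hG3 x hx' y hy' z hz' h1 h3 (hdist z hz x hx)
      · exact hG3 x hx' z hz' y hy' h2 h3 (hdist y hy x hx)
      · exact absurd (h1.trans h3) (not_lt.mpr h2.le)
      · exact hG3 z hz' x hx' y hy' h2 h1 (hdist y hy z hz)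
      · exact hG3 y hy' x hx' z hz' h1 h2 (hdist z hz y hy)
      · exact absurd (h2.trans h3) (not_lt.mpr h1.le)
      · exact hG3 y hy' z hz' x hx' h3 h2 (hdist x hx y hy)
      · exact hG3 z hz' y hy' x hx' h3 h1 (hdist x hx z hz)
    have hcard := card_le_mul_card_image (S \ B) 2 hfib
    have himg : (S \ B).image (fun x => ⌈(x - T) / d⌉₊) ⊆ Icc 1 ⌈T / d⌉₊ := by
      intro j hj
      rw [mem_image] at hj
      obtain ⟨x, hx, rfl⟩ := hj
      have h1 := hS x (mem_sdiff.mp hx).1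
      rw [mem_Icc]
      refine ⟨Nat.one_le_ceil_iff.mpr (div_pos (by linarith) hd0), ?_⟩
      apply Nat.ceil_le_ceil
      exact div_le_div_of_nonneg_right (by linarith) hd0.le
    have hcard2 := card_le_card himg
    rw [Nat.card_Icc, Nat.add_sub_cancel] at hcard2
    have h1 : ((S \ B).card : ℝ) ≤ 2 * (⌈T / d⌉₊ : ℝ) := by
      have : (S \ B).card ≤ 2 * ⌈T / d⌉₊ := hcard.trans (Nat.mul_le_mul_left 2 hcard2)
      exact_mod_cast this
    have h2 : (⌈T / d⌉₊ : ℝ) < T / d + 1 := Nat.ceil_lt_add_one (by positivity)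
    have h3 : T / d = T * L / (8 * Real.pi) := by
      rw [hd]
      field_simp
    have h4 : ((S \ B).card : ℝ) = S.card - B.card := by
      rw [card_sdiff_of_subset hBS, Nat.cast_sub (card_le_card hBS)]
    rw [h3] at h1 h2
    linarith

end Pool.Agent.H46.MT.Comb
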