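import Mathlib

/-!
# Simple critical-line zeros of zeta: definitions and the statements of all modules (MP_cb7589_nt)
-/

namespace Pool.Agent.H46.MT

open MeasureTheory Filter Topology
open scoped ComplexConjugate

/-! ## The objects of the problem -/

/-- The nontrivial zeros `ρ` of the Riemann zeta function with `T₁ < Im ρ ≤ T₂`. -/
def zeroSet (T₁ T₂ : ℝ) : Set ℂ :=
  {ρ : ℂ | riemannZeta ρ = 0 ∧ 0 < ρ.re ∧ ρ.re < 1 ∧ T₁ < ρ.im ∧ ρ.im ≤ T₂}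

/-- The multiplicity of `ρ`: its order as a zero of the analytic function zeta. -/
noncomputable def mult (ρ : ℂ) : ℕ := analyticOrderNatAt riemannZeta ρ

/-- `N(T₁, T₂)`: the number of nontrivial zeros with ordinate in `(T₁, T₂]`, with multiplicity. -/
noncomputable def zeroCount (T₁ T₂ : ℝ) : ℕ := ∑ᶠ ρ ∈ zeroSet T₁ T₂, mult ρ

/-- The simple zeros on the critical line with ordinate in `(T₁, T₂]`. -/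
def simpleSet (T₁ T₂ : ℝ) : Set ℂ :=
  {ρ : ℂ | ρ ∈ zeroSet T₁ T₂ ∧ ρ.re = 1 / 2 ∧ mult ρ = 1}

/-- `N_s(T₁, T₂)`: the number of simple zeros on the critical line with ordinate in `(T₁, T₂]`. -/
noncomputable def simpleCount (T₁ T₂ : ℝ) : ℕ := (simpleSet T₁ T₂).ncard

/-- The Montgomery-Taylor constant. -/
noncomputable def cMT : ℝ :=
  √2 * Real.tan (1 / √2) / (1 + Real.tan (1 / √2) / √2)

theorem zeroSet_finite (T₁ T₂ : ℝ) : (zeroSet T₁ T₂).Finite := by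
  have hc : IsCompact (Set.Icc (0 : ℝ) 1 ×ℂ Set.Icc T₁ T₂) :=
    isCompact_Icc.reProdIm isCompact_Icc
  refine (hc.inter_riemannZetaZeros_finite).subset ?_
  intro ρ hρ
  obtain ⟨h0, h1, h2, h3, h4⟩ := hρ
  exact ⟨Complex.mem_reProdIm.mpr ⟨⟨h1.le, h2.le⟩, ⟨h3.le, h4⟩⟩, h0⟩

/-- The zeros as a finset. -/
noncomputable def Zf (T₁ T₂ : ℝ) : Finset ℂ := (zeroSet_finite T₁ T₂).toFinset

theorem mem_Zf {T₁ T₂ : ℝ} {ρ : ℂ} : ρ ∈ Zf T₁ T₂ ↔ ρ ∈ zeroSet T₁ T₂ := by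
  simp [Zf]

theorem zeroCount_eq (T₁ T₂ : ℝ) : zeroCount T₁ T₂ = ∑ ρ ∈ Zf T₁ T₂, mult ρ := by
  unfold zeroCount Zf
  rw [finsum_mem_eq_finite_toFinset_sum _ (zeroSet_finite T₁ T₂)]

/-- `z = (ρ - 1/2)/i = Im ρ - i (Re ρ - 1/2)`. -/
noncomputable def zOf (ρ : ℂ) : ℂ := (ρ - 1 / 2) / Complex.I

/-! ## The Montgomery-Taylor kernel -/

/-- normalising constant of the kernel -/
noncomputable def kC : ℝ := 1 / (√2 * Real.sin (1 / √2))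

/-- the kernel density, used on `[-1/2, 1/2]` only -/
noncomputable def kh (x : ℝ) : ℝ := kC * Real.cos (√2 * x)

/-- `K(z) = ∫_{-1/2}^{1/2} kh(x) e^{ixz} dx` -/
noncomputable def K (z : ℂ) : ℂ :=
  ∫ x in (-(1 / 2) : ℝ)..(1 / 2), (kh x : ℂ) * Complex.exp (Complex.I * x * z)

/-- the convolution `kh * kh` (of the density cut off at `±1/2`) -/
noncomputable def g (β : ℝ) : ℝ :=
  if |β| ≤ 1 then
    kC ^ 2 / 2 * ((1 - |β|) * Real.cos (√2 * β) + Real.sin (√2 * (1 - |β|)) / √2)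
  else 0

/-- the value of the pair functional for the kernel dilated to `[-b/2, b/2]` -/
noncomputable def Jb (b : ℝ) : ℝ := g 0 / b + 2 * b * ∫ β in (0 : ℝ)..1, β * g β

/-! ## Weights and exponential sums -/

/-- smoothed indicator of `[T, 2T]` -/
noncomputable def wt (T Δ : ℝ) (z : ℂ) : ℂ :=
  ((1 / (√Real.pi * Δ) : ℝ) : ℂ) *
    ∫ t in T..(2 * T), Complex.exp (-(((t : ℂ) - z) / Δ) ^ 2)

/-- Fourier transform of `wt` -/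
noncomputable def Wh (T Δ ξ : ℝ) : ℂ :=
  (∫ t in T..(2 * T), Complex.exp (-(Complex.I * ξ * t))) * (Real.exp (-(Δ ^ 2 * ξ ^ 2 / 4)) : ℂ)

/-- `δ = (1-b)/3` -/
noncomputable def dl (b : ℝ) : ℝ := (1 - b) / 3

/-- the width `Δ = T^(b+δ)` of the smoothing -/
noncomputable def Dl (b T : ℝ) : ℝ := T ^ (b + dl b)

/-- the length `H = T^(1-δ)` of the edges, `H / Δ = T^δ` -/
noncomputable def Hh (b T : ℝ) : ℝ := T ^ (1 - dl b)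

/-- the test function `s ↦ w((s-1/2)/i) e^{u(s-1/2)}` -/
noncomputable def ff (T Δ u : ℝ) (s : ℂ) : ℂ := wt T Δ (zOf s) * Complex.exp (u * (s - 1 / 2))

/-- `S(u) = ∑_ρ m_ρ w(z) e^{iuz}` -/
noncomputable def expSum (T Δ T₁ T₂ u : ℝ) : ℂ :=
  ∑ ρ ∈ Zf T₁ T₂, (mult ρ : ℂ) * ff T Δ u ρ

/-- the pair sum `∑_{ρ,ρ'} m m' w w' K(b log T (z - z'))^2` -/
noncomputable def pairSum (b T T₁ T₂ : ℝ) : ℂ :=
  ∑ ρ ∈ Zf T₁ T₂, ∑ ρ' ∈ Zf T₁ T₂, (mult ρ : ℂ) * (mult ρ' : ℂ) *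
    (wt T (Dl b T) (zOf ρ) * wt T (Dl b T) (zOf ρ')) *
      K (((b * Real.log T : ℝ) : ℂ) * (zOf ρ - zOf ρ')) ^ 2

/-- the prime sum -/
noncomputable def primeSum (T Δ u : ℝ) : ℂ :=
  ∑' n : ℕ, ((ArithmeticFunction.vonMangoldt n / √(n : ℝ) : ℝ) : ℂ) *
    (Wh T Δ (Real.log n - u) + Wh T Δ (-Real.log n - u))

/-- the main term -/
noncomputable def mainSum (T Δ u : ℝ) : ℂ :=
  ((1 / (2 * Real.pi) : ℝ) : ℂ) * ((Real.log T : ℂ) * Wh T Δ (-u) - primeSum T Δ u)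

/-- `κ(t) = 2 Re (Γ_ℝ'/Γ_ℝ)(1/2 + it)` -/
noncomputable def kap (t : ℝ) : ℝ :=
  2 * (logDeriv Complex.Gammaℝ (1 / 2 + t * Complex.I)).re

/-- a good height: no zero of zeta has this ordinate and `ζ'/ζ` is polynomially bounded there -/
def GoodHt (C t : ℝ) : Prop :=
  (∀ σ : ℝ, riemannZeta (σ + t * Complex.I) ≠ 0) ∧
    ∀ σ : ℝ, 1 / 2 ≤ σ → σ ≤ 2 → ‖logDeriv riemannZeta (σ + t * Complex.I)‖ ≤ t ^ C

/-- the ranges of the two heights -/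
def Rng (b T T₁ T₂ : ℝ) : Prop :=
  T - 2 * Hh b T ≤ T₁ ∧ T₁ ≤ T - Hh b T ∧ 2 * T + Hh b T ≤ T₂ ∧ T₂ ≤ 2 * T + 2 * Hh b T

/-! ## Statements: zeta -/

/-- zeros off the real axis lie in the open critical strip -/
def StripSt : Prop := ∀ s : ℂ, s.im ≠ 0 → riemannZeta s = 0 → 0 < s.re ∧ s.re < 1

/-- the reflection `ρ ↦ 1 - conj ρ` -/
def ZSymSt : Prop := ∀ T₁ T₂ : ℝ, 0 ≤ T₁ → ∀ ρ ∈ zeroSet T₁ T₂,
  1 - conj ρ ∈ zeroSet T₁ T₂ ∧ mult (1 - conj ρ) = mult ρ ∧ 1 ≤ mult ρ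

def GrowSt : Prop := ∀ σ₀ : ℝ, 0 < σ₀ → ∃ C : ℝ, 0 < C ∧ ∀ s : ℂ, σ₀ ≤ s.re → 1 ≤ |s.im| →
  ‖riemannZeta s‖ ≤ C * ‖s‖

def Zeta2St : Prop := ∀ s : ℂ, 2 ≤ s.re → ‖riemannZeta s - 1‖ ≤ 2 / 3

/-- local zero count -/
def LocSt : Prop := ∃ C t₀ : ℝ, 0 < C ∧ 2 ≤ t₀ ∧ ∀ t : ℝ, t₀ ≤ t →
  (zeroCount t (t + 1) : ℝ) ≤ C * Real.log t

/-- good heights -/
def GHSt : Prop := ∃ C t₀ : ℝ, 0 < C ∧ 2 ≤ t₀ ∧ ∀ t : ℝ, t₀ ≤ t →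
  ∃ t' : ℝ, t ≤ t' ∧ t' ≤ t + 1 ∧ GoodHt C t'

/-- Gamma factor -/
def DigSt : Prop := ∃ C : ℝ, 0 < C ∧ ∀ σ t : ℝ, 1 / 2 ≤ σ → σ ≤ 2 → 2 ≤ t →
  ‖logDeriv Complex.Gammaℝ (σ + t * Complex.I)‖ ≤ C * Real.log t ∧ |kap t - Real.log t| ≤ C

/-- series for the digamma function -/
def DigSerSt : Prop := ∀ s : ℂ, 0 < s.re →
  Summable (fun k : ℕ => Complex.log (1 + 1 / (s + k)) - 1 / (s + k)) ∧
  Complex.digamma s =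
    Complex.log s + ∑' k : ℕ, (Complex.log (1 + 1 / (s + k)) - 1 / (s + k))

/-- argument principle with a weight on a rectangle -/
def ArgSt : Prop := ∀ (F f : ℂ → ℂ) (U : Set ℂ) (a b c d : ℝ) (Z : Finset ℂ), a < b → c < d →
  IsOpen U → Set.Icc a b ×ℂ Set.Icc c d ⊆ U → DifferentiableOn ℂ F U → DifferentiableOn ℂ f U →
  (∀ z ∈ Set.Icc a b ×ℂ Set.Icc c d, z ∉ Set.Ioo a b ×ℂ Set.Ioo c d → F z ≠ 0) →
  (∀ z : ℂ, z ∈ Z ↔ z ∈ Set.Ioo a b ×ℂ Set.Ioo c d ∧ F z = 0) →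
  (∫ x in a..b, logDeriv F (x + c * Complex.I) * f (x + c * Complex.I)) -
      (∫ x in a..b, logDeriv F (x + d * Complex.I) * f (x + d * Complex.I)) +
      Complex.I * (∫ y in c..d, logDeriv F (b + y * Complex.I) * f (b + y * Complex.I)) -
      Complex.I * (∫ y in c..d, logDeriv F (a + y * Complex.I) * f (a + y * Complex.I)) =
    2 * Real.pi * Complex.I * ∑ z ∈ Z, (analyticOrderNatAt F z : ℂ) * f z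

/-- the argument principle for the completed zeta function, folded by the functional equation -/
def ZArgSt : Prop := ∀ (T₁ T₂ : ℝ) (f : ℂ → ℂ), 0 < T₁ → T₁ < T₂ → Differentiable ℂ f →
  (∀ σ : ℝ, riemannZeta (σ + T₁ * Complex.I) ≠ 0) →
  (∀ σ : ℝ, riemannZeta (σ + T₂ * Complex.I) ≠ 0) →
  ∑ ρ ∈ Zf T₁ T₂, (mult ρ : ℂ) * f ρ =
    ((1 / (2 * Real.pi) : ℝ) : ℂ) *
        ((∫ t in T₁..T₂, logDeriv completedRiemannZeta (2 + t * Complex.I) *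
            f (2 + t * Complex.I)) +
          ∫ t in T₁..T₂, conj (logDeriv completedRiemannZeta (2 + t * Complex.I)) *
            f (-1 + t * Complex.I)) +
      1 / (2 * Real.pi * Complex.I) *
        ((∫ x in (-1 : ℝ)..2, logDeriv completedRiemannZeta (x + T₁ * Complex.I) *
            f (x + T₁ * Complex.I)) -
          ∫ x in (-1 : ℝ)..2, logDeriv completedRiemannZeta (x + T₂ * Complex.I) *
            f (x + T₂ * Complex.I))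

/-- `Λ'/Λ = Γ_ℝ'/Γ_ℝ + ζ'/ζ` -/
def DecSt : Prop := ∀ s : ℂ, 0 < s.re → s.im ≠ 0 → riemannZeta s ≠ 0 →
  logDeriv completedRiemannZeta s = logDeriv Complex.Gammaℝ s + logDeriv riemannZeta s

/-- bound on the horizontal sides -/
def HorSt : Prop := ∀ C : ℝ, ∃ C' t₀ : ℝ, 2 ≤ t₀ ∧ ∀ t : ℝ, t₀ ≤ t → GoodHt C t →
  ∀ x : ℝ, -1 ≤ x → x ≤ 2 → ‖logDeriv completedRiemannZeta (x + t * Complex.I)‖ ≤ t ^ C'

/-! ## Statements: weights -/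

def Wt1St : Prop := ∀ T Δ : ℝ, 0 < T → 0 < Δ →
  Differentiable ℂ (wt T Δ) ∧ (∀ z : ℂ, wt T Δ (conj z) = conj (wt T Δ z)) ∧
  (∀ x : ℝ, ∃ r : ℝ, 0 < r ∧ r ≤ 1 ∧ wt T Δ x = r) ∧
  (∀ z : ℂ, ‖wt T Δ z‖ ≤ Real.exp (z.im ^ 2 / Δ ^ 2)) ∧
  (∀ z : ℂ, z.re ≤ T →
    ‖wt T Δ z‖ ≤ T / Δ * Real.exp (z.im ^ 2 / Δ ^ 2 - (T - z.re) ^ 2 / Δ ^ 2)) ∧
  (∀ z : ℂ, 2 * T ≤ z.re →
    ‖wt T Δ z‖ ≤ T / Δ * Real.exp (z.im ^ 2 / Δ ^ 2 - (z.re - 2 * T) ^ 2 / Δ ^ 2)) ∧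
  (∀ (z : ℂ) (H : ℝ), 0 < H → T + H ≤ z.re → z.re ≤ 2 * T - H →
    ‖wt T Δ z - 1‖ ≤ 2 * Real.exp (z.im ^ 2 / Δ ^ 2 - H ^ 2 / Δ ^ 2))

/-- Fourier transform of the weight along horizontal lines -/
def Wt4St : Prop := ∀ T Δ ξ c : ℝ, 0 < T → 0 < Δ →
  Integrable (fun t : ℝ => wt T Δ (t - Complex.I * c)) ∧
  ∫ t : ℝ, wt T Δ (t - Complex.I * c) * Complex.exp (-(Complex.I * ξ * t)) =
    (Real.exp (c * ξ) : ℂ) * Wh T Δ ξ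

/-! ## Statements: the explicit formula -/

def EPrSt : Prop := ∀ b ε : ℝ, 0 < b → b < 1 → 0 < ε → ∃ T₀ : ℝ, ∀ T : ℝ, T₀ ≤ T →
  ∀ T₁ T₂ : ℝ, Rng b T T₁ T₂ → ∀ u : ℝ, |u| ≤ Real.log T →
  ‖(∫ t in T₁..T₂, logDeriv riemannZeta (2 + t * Complex.I) * ff T (Dl b T) u (2 + t * Complex.I)) +
    ∑' n : ℕ, ((ArithmeticFunction.vonMangoldt n / √(n : ℝ) : ℝ) : ℂ) *
      Wh T (Dl b T) (Real.log n - u)‖ ≤ ε

def EArSt : Prop := ∀ b ε : ℝ, 0 < b → b < 1 → 0 < ε → ∃ T₀ : ℝ, ∀ T : ℝ, T₀ ≤ T →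
  ∀ T₁ T₂ : ℝ, Rng b T T₁ T₂ → ∀ u : ℝ, |u| ≤ Real.log T →
  ‖(∫ t in T₁..T₂, logDeriv Complex.Gammaℝ (2 + t * Complex.I) *
      ff T (Dl b T) u (2 + t * Complex.I)) -
    ∫ t in T₁..T₂, logDeriv Complex.Gammaℝ (1 / 2 + t * Complex.I) *
      (wt T (Dl b T) t * Complex.exp (Complex.I * u * t))‖ ≤ ε

def EFSt : Prop := ∀ b C : ℝ, 0 < b → b < 1 → ∃ T₀ : ℝ, ∀ T : ℝ, T₀ ≤ T →
  ∀ T₁ T₂ : ℝ, Rng b T T₁ T₂ → GoodHt C T₁ → GoodHt C T₂ → ∀ u : ℝ, |u| ≤ Real.log T →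
  ‖expSum T (Dl b T) T₁ T₂ u - ((1 / (2 * Real.pi) : ℝ) : ℂ) *
    ((∫ t in T₁..T₂, (kap t : ℂ) * (wt T (Dl b T) t * Complex.exp (Complex.I * u * t))) -
      primeSum T (Dl b T) u)‖ ≤ 1

/-! ## Statements: mean values -/

/-- Plancherel, upper bound -/
def PlSt : Prop := ∀ (F : ℝ → ℂ) (A B R : ℝ), A ≤ B → 0 ≤ R → ContinuousOn F (Set.Icc A B) →
  ∫ u in (-R)..R, ‖∫ t in A..B, F t * Complex.exp (Complex.I * u * t)‖ ^ 2 ≤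
    2 * Real.pi * ∫ t in A..B, ‖F t‖ ^ 2

/-- pointwise form of the near orthogonality: at most one bump is active at `u` -/
def OrPtSt : Prop := ∀ b : ℝ, 0 < b → b < 1 → ∃ T₀ : ℝ, 2 ≤ T₀ ∧ ∀ T : ℝ, T₀ ≤ T →
  (∀ u : ℝ, |u| ≤ b * Real.log T → Summable (fun n : ℕ =>
    ((ArithmeticFunction.vonMangoldt n / √(n : ℝ) : ℝ) : ℂ) *
      (Wh T (Dl b T) (Real.log n - u) + Wh T (Dl b T) (-Real.log n - u)))) ∧
  ContinuousOn (fun u : ℝ => mainSum T (Dl b T) u)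
    (Set.Icc (-(b * Real.log T)) (b * Real.log T)) ∧
  ∀ u : ℝ, |u| ≤ b * Real.log T → ‖mainSum T (Dl b T) u‖ ^ 2 ≤
    1 / (4 * Real.pi ^ 2) *
      ((if |u| ≤ 1 / (8 * T ^ b) then Real.log T ^ 2 * ‖Wh T (Dl b T) (-u)‖ ^ 2 else 0) +
        ∑ n ∈ Finset.range (⌊2 * T ^ b⌋₊ + 1), ArithmeticFunction.vonMangoldt n ^ 2 / n *
          ((if |Real.log n - u| ≤ 1 / (8 * T ^ b) then
              ‖Wh T (Dl b T) (Real.log n - u)‖ ^ 2 else 0) +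
            (if |-Real.log n - u| ≤ 1 / (8 * T ^ b) then
              ‖Wh T (Dl b T) (-Real.log n - u)‖ ^ 2 else 0))) + 1

/-- near orthogonality of the bumps at `0, ± log n` -/
def OrthoSt : Prop := ∀ b : ℝ, 0 < b → b < 1 → ∃ T₀ : ℝ, 2 ≤ T₀ ∧ ∀ T : ℝ, T₀ ≤ T →
  (∀ u : ℝ, |u| ≤ b * Real.log T → Summable (fun n : ℕ =>
    ((ArithmeticFunction.vonMangoldt n / √(n : ℝ) : ℝ) : ℂ) *
      (Wh T (Dl b T) (Real.log n - u) + Wh T (Dl b T) (-Real.log n - u)))) ∧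
  ContinuousOn (fun u : ℝ => mainSum T (Dl b T) u)
    (Set.Icc (-(b * Real.log T)) (b * Real.log T)) ∧
  ∫ u in (-(b * Real.log T))..(b * Real.log T),
      g (u / (b * Real.log T)) * ‖mainSum T (Dl b T) u‖ ^ 2 ≤
    T / (2 * Real.pi) * (Real.log T ^ 2 * g 0 +
      2 * ∑ n ∈ Finset.range (⌊2 * T ^ b⌋₊ + 1), ArithmeticFunction.vonMangoldt n ^ 2 / n *
        g (Real.log n / (b * Real.log T))) + T * Real.log T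

/-- the sum of `Λ(n)²/n` against `g` -/
def MertSt : Prop := ∀ η : ℝ, 0 < η → ∃ l₀ : ℝ, 0 < l₀ ∧ ∀ l : ℝ, l₀ ≤ l → ∀ n : ℕ,
  ∑ k ∈ Finset.range n, ArithmeticFunction.vonMangoldt k ^ 2 / k * g (Real.log k / l) ≤
    l ^ 2 * ((∫ β in (0 : ℝ)..1, β * g β) + η)

/-! ## Statements: the kernel -/

def KBasicSt : Prop := Differentiable ℂ K ∧ K 0 = 1 ∧ (∀ z : ℂ, K (-z) = K z) ∧
  (∀ z : ℂ, K (conj z) = conj (K z)) ∧ (∀ x : ℝ, ‖K x‖ ≤ 1) ∧ (∀ x : ℝ, (K x).im = 0)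

open scoped ComplexOrder in
def KPosSt : Prop := ∀ (n : ℕ) (z : Fin n → ℂ),
  Matrix.PosSemidef (Matrix.of (fun i j : Fin n => K (z i - conj (z j))))

def KSqSt : Prop := ∀ z : ℂ, K z ^ 2 =
  ∫ β in (-1 : ℝ)..1, (g β : ℂ) * Complex.exp (Complex.I * β * z)

def GFactSt : Prop := (∀ β : ℝ, 0 ≤ g β) ∧ (∀ β : ℝ, g (-β) = g β) ∧
  (∀ β : ℝ, 1 ≤ |β| → g β = 0) ∧ 0 < g 0 ∧ ∃ C : ℝ, 0 < C ∧ (∀ β : ℝ, g β ≤ C) ∧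
    ∀ x y : ℝ, |g x - g y| ≤ C * |x - y|

def GIntSt : Prop := g 0 + 2 * ∫ β in (0 : ℝ)..1, β * g β = cMT⁻¹

/-- constants of the final optimisation -/
def ConstSt : Prop := 1.32 < cMT⁻¹ ∧ cMT⁻¹ < 1.33

def KStab (c₀ : ℝ) : Prop := ∀ x y : ℝ, 0 ≤ x → 0 ≤ y → x + y ≤ 8 * Real.pi →
  c₀ ≤ ‖K x‖ ∨ c₀ ≤ ‖K y‖ ∨ c₀ ≤ ‖K (x + y : ℝ)‖

def KStabSt : Prop := ∃ c₀ : ℝ, 0 < c₀ ∧ KStab c₀

/-- bad points: all but two per interval of length `8π/L` -/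
def CombSt : Prop := ∀ (c₀ b L T : ℝ) (S : Finset ℝ), 0 < c₀ → KStab c₀ → 0 < b → b ≤ 1 →
  0 < L → 0 < T → (∀ x ∈ S, T < x ∧ x ≤ 2 * T) →
  ∃ B : Finset ℝ, B ⊆ S ∧
    (∀ x ∈ B, ∃ y ∈ S, y ≠ x ∧ c₀ ≤ ‖K ((b * L : ℝ) * ((x : ℂ) - y))‖) ∧
    (S.card : ℝ) - 2 * (T * L / (8 * Real.pi) + 1) ≤ B.card

def PairIdSt : Prop := ∀ b T T₁ T₂ : ℝ, 0 < b → 1 < T → 0 ≤ T₁ →
  (pairSum b T T₁ T₂).re = 1 / (b * Real.log T) *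
    ∫ u in (-(b * Real.log T))..(b * Real.log T),
      g (u / (b * Real.log T)) * ‖expSum T (Dl b T) T₁ T₂ u‖ ^ 2

/-! ## Statements: linear algebra -/

/-- the rank one operator `x ↦ ⟨v, x⟩ u` -/
noncomputable def rk {E : Type} [NormedAddCommGroup E] [InnerProductSpace ℂ E] (u v : E) :
    E →ₗ[ℂ] E :=
  ((innerSL ℂ v).toLinearMap).smulRight u

def LASt : Prop := ∀ (d N : ℕ) (v : Fin N → EuclideanSpace ℂ (Fin d)) (w R : Fin N → ℝ)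
  (B : EuclideanSpace ℂ (Fin d) →ₗ[ℂ] EuclideanSpace ℂ (Fin d))
  (V : Submodule ℂ (EuclideanSpace ℂ (Fin d))) (a₀ : ℕ),
  (∀ i, ‖v i‖ = 1) → (∀ i, 0 < w i) → B.IsSymmetric →
  (∀ f ∈ V, (inner ℂ (B f) f).re ≤ 0) → d ≤ Module.finrank ℂ V + a₀ →
  (∀ i, ∃ x : Fin N → ℝ,
    ‖v i - ∑ j, (x j : ℂ) • v j‖ ^ 2 + ∑ j, x j ^ 2 / w j ≤ R i) →
  3 * ∑ i, w i + 4 * (LinearMap.trace ℂ _ B).re - 4 * a₀ - 4 * ∑ i, w i * R i ≤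
    (LinearMap.trace ℂ _
      (((∑ i, (w i : ℂ) • rk (v i) (v i)) + B) * ((∑ i, (w i : ℂ) • rk (v i) (v i)) + B))).re

/-- the linear algebra inequality for a finite set of points closed under conjugation -/
def LAzSt : Prop := ∀ (Z I Bd : Finset ℂ) (m : ℂ → ℕ) (w : ℂ → ℂ) (l ε c₀ : ℝ),
  0 < ε → ε ≤ 1 / 4 → 0 ≤ c₀ → I ⊆ Z → Bd ⊆ I →
  (∀ z ∈ Z, conj z ∈ Z ∧ m (conj z) = m z ∧ 1 ≤ m z ∧ w (conj z) = conj (w z)) →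
  (∀ z ∈ I, ‖w z - 1‖ ≤ ε) → (∀ z ∈ Z, ‖w z‖ ≤ 2) →
  (∀ z ∈ Z, z.im = 0 → ∃ r : ℝ, 0 < r ∧ r ≤ 1 ∧ w z = r) →
  (∀ z ∈ Bd, z.im = 0 ∧ m z = 1 ∧ ∃ z' ∈ I, z'.im = 0 ∧ m z' = 1 ∧ z' ≠ z ∧
    c₀ ≤ ‖K ((l : ℂ) * (z - z'))‖) →
  2 * (∑ z ∈ I, (m z : ℝ)) - ((I.filter (fun z => z.im = 0 ∧ m z = 1)).card : ℝ) +
      c₀ ^ 2 / 2 * Bd.card - 7 * ε * (∑ z ∈ I, (m z : ℝ)) - 10 * (∑ z ∈ Z \ I, (m z : ℝ)) ≤
    (∑ z ∈ Z, ∑ z' ∈ Z, (m z : ℂ) * (m z' : ℂ) * (w z * w z') *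
      K ((l : ℂ) * (z - z')) ^ 2).re

/-! ## Statements: assembly -/

def UpperSt : Prop := ∀ b η C : ℝ, 0 < b → b < 1 → 0 < η → ∃ T₀ : ℝ, ∀ T : ℝ, T₀ ≤ T →
  ∀ T₁ T₂ : ℝ, Rng b T T₁ T₂ → GoodHt C T₁ → GoodHt C T₂ →
  (pairSum b T T₁ T₂).re ≤ (Jb b + η) * (T * Real.log T / (2 * Real.pi))

def NlowSt : Prop := ∀ η : ℝ, 0 < η → ∃ T₀ : ℝ, ∀ T : ℝ, T₀ ≤ T →
  (1 - η) * (T * Real.log T / (2 * Real.pi)) ≤ (zeroCount T (2 * T) : ℝ)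

/-- few zeros near the edges -/
def EdgeSt : Prop := ∀ b η : ℝ, 0 < b → b < 1 → 0 < η → ∃ T₀ : ℝ, ∀ T : ℝ, T₀ ≤ T →
  (zeroCount (T - 2 * Hh b T) (T + 2 * Hh b T) : ℝ) ≤ η * (T * Real.log T / (2 * Real.pi)) ∧
  (zeroCount (2 * T - 2 * Hh b T) (2 * T + 2 * Hh b T) : ℝ) ≤
    η * (T * Real.log T / (2 * Real.pi))

def FinalSt : Prop := ∃ c T₀ : ℝ, 2 - cMT⁻¹ < c ∧ ∀ T : ℝ, T₀ ≤ T →
  c * (zeroCount T (2 * T) : ℝ) ≤ (simpleCount T (2 * T) : ℝ)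

end Pool.Agent.H46.MT
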