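import Pool.Agent.H46.MT.Defs

/-!
# The series for the digamma function
-/

set_option autoImplicit false

namespace Pool.Agent.H46.MT.Dig1

open Complex Filter Topology Pool.Agent.H46.MT

/-- the terms of the series -/
noncomputable def Fk (k : ℕ) (s : ℂ) : ℂ := Complex.log (1 + 1 / (s + k)) - 1 / (s + k)

/-- the right half plane -/
def HPl : Set ℂ := {s | 0 < s.re}

theorem isOpen_HPl : IsOpen HPl := isOpen_lt continuous_const continuous_re

theorem re_pos {s : ℂ} (hs : 0 < s.re) (k : ℕ) : 0 < (s + k).re := by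
  rw [add_re, natCast_re]
  positivity

theorem ne0 {s : ℂ} (hs : 0 < s.re) (k : ℕ) : s + k ≠ 0 := by
  intro h
  have := re_pos hs k
  rw [h, zero_re] at this
  exact lt_irrefl _ this

theorem inv_re_pos {z : ℂ} (hz : 0 < z.re) : 0 < (1 / z).re := by
  rw [one_div, inv_re]
  have : 0 < normSq z := by
    rw [normSq_pos]
    rintro rfl
    simp at hz
  positivity

theorem slit {s : ℂ} (hs : 0 < s.re) (k : ℕ) : 1 + 1 / (s + k) ∈ slitPlane := by
  rw [mem_slitPlane_iff]
  left
  rw [add_re, one_re]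
  have := inv_re_pos (re_pos hs k)
  linarith

theorem Fk_diff (k : ℕ) : DifferentiableOn ℂ (Fk k) HPl := by
  intro s hs
  have h1 : DifferentiableAt ℂ (fun s : ℂ => 1 / (s + k)) s :=
    (differentiableAt_const _).div (by fun_prop) (ne0 hs k)
  have h2 : DifferentiableAt ℂ (fun s : ℂ => Complex.log (1 + 1 / (s + k))) s :=
    ((differentiableAt_const _).add h1).clog (slit hs k)
  exact (h2.sub h1).differentiableWithinAt

theorem Fk_bound (k : ℕ) {s : ℂ} (hs : s ∈ HPl) : ‖Fk (k + 2) s‖ ≤ 1 / ((k : ℝ) + 2) ^ 2 := by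
  have hs' : 0 < s.re := hs
  have h1 : (k : ℝ) + 2 ≤ ‖s + ((k + 2 : ℕ) : ℂ)‖ := by
    refine le_trans ?_ (re_le_norm _)
    rw [add_re, natCast_re]
    push_cast
    linarith
  have h2 : (0 : ℝ) < (k : ℝ) + 2 := by positivity
  have h3 : ‖1 / (s + ((k + 2 : ℕ) : ℂ))‖ ≤ 1 / ((k : ℝ) + 2) := by
    rw [norm_div, norm_one]
    exact one_div_le_one_div_of_le h2 h1
  have h4 : 1 / ((k : ℝ) + 2) ≤ 1 / 2 := by
    apply one_div_le_one_div_of_le (by norm_num)
    have : (0 : ℝ) ≤ k := Nat.cast_nonneg k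
    linarith
  have h5 : ‖1 / (s + ((k + 2 : ℕ) : ℂ))‖ < 1 := by linarith
  have h6 := norm_log_one_add_sub_self_le h5
  unfold Fk
  refine h6.trans ?_
  set w := ‖1 / (s + ((k + 2 : ℕ) : ℂ))‖ with hw
  have hw0 : 0 ≤ w := norm_nonneg _
  have h7 : (1 - w)⁻¹ ≤ 2 := by
    rw [inv_le_comm₀ (by linarith) (by norm_num)]
    linarith
  calc w ^ 2 * (1 - w)⁻¹ / 2 ≤ w ^ 2 * 2 / 2 := by gcongr
    _ = w ^ 2 := by ring
    _ ≤ (1 / ((k : ℝ) + 2)) ^ 2 := by gcongr
    _ = 1 / ((k : ℝ) + 2) ^ 2 := by rw [one_div_pow]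

theorem summ_u : Summable (fun k : ℕ => 1 / ((k : ℝ) + 2) ^ 2) := by
  have h := (summable_nat_add_iff 2).2 (Real.summable_one_div_nat_pow.2 (by norm_num : 1 < 2))
  simpa using h

theorem Fk_summable {s : ℂ} (hs : 0 < s.re) : Summable (fun k : ℕ => Fk k s) := by
  rw [← summable_nat_add_iff 2]
  exact Summable.of_norm_bounded summ_u (fun k => Fk_bound k hs)

theorem tail_diff : DifferentiableOn ℂ (fun s => ∑' k : ℕ, Fk (k + 2) s) HPl :=
  Complex.differentiableOn_tsum_of_summable_norm summ_u (fun k => Fk_diff (k + 2)) isOpen_HPl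
    (fun k _ hw => Fk_bound k hw)

/-- the right hand side -/
noncomputable def D (s : ℂ) : ℂ := Complex.log s + ∑' k : ℕ, Fk k s

theorem D_diff : DifferentiableOn ℂ D HPl := by
  have h : ∀ s ∈ HPl, D s = Complex.log s + (∑ k ∈ Finset.range 2, Fk k s +
      ∑' k : ℕ, Fk (k + 2) s) := by
    intro s hs
    unfold D
    rw [(Fk_summable hs).sum_add_tsum_nat_add 2]
  have h1 : DifferentiableOn ℂ (fun s => Complex.log s + (∑ k ∈ Finset.range 2, Fk k s +
      ∑' k : ℕ, Fk (k + 2) s)) HPl := by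
    refine DifferentiableOn.add ?_ (DifferentiableOn.add ?_ tail_diff)
    · intro s hs
      exact (differentiableAt_id.clog (Or.inl hs)).differentiableWithinAt
    · exact DifferentiableOn.fun_sum (fun k _ => Fk_diff k)
  exact h1.congr h

theorem log_succ {s : ℂ} (hs : 0 < s.re) :
    Complex.log (s + 1) = Complex.log s + Complex.log (1 + 1 / s) := by
  have hs0 : s ≠ 0 := by
    rintro rfl
    simp at hs
  have h1 : 1 + 1 / s ≠ 0 := by
    intro h
    have := inv_re_pos hs
    have h2 : (1 + 1 / s).re = 0 := by rw [h, zero_re]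
    rw [add_re, one_re] at h2
    linarith
  have e : s + 1 = s * (1 + 1 / s) := by
    rw [mul_add, mul_one, mul_one_div_cancel hs0]
  rw [e, Complex.log_mul_eq_add_log_iff hs0 h1]
  have a1 : |arg s| < Real.pi / 2 := by
    rw [abs_arg_lt_pi_div_two_iff]
    exact Or.inl hs
  have a2 : |arg (1 + 1 / s)| < Real.pi / 2 := by
    rw [abs_arg_lt_pi_div_two_iff]
    left
    rw [add_re, one_re]
    have := inv_re_pos hs
    linarith
  rw [abs_lt] at a1 a2
  constructor <;> linarith [a1.1, a1.2, a2.1, a2.2]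

theorem Fk_shift (k : ℕ) (s : ℂ) : Fk k (s + 1) = Fk (k + 1) s := by
  unfold Fk
  push_cast
  rw [show s + 1 + (k : ℂ) = s + ((k : ℂ) + 1) by ring]

theorem D_succ {s : ℂ} (hs : 0 < s.re) : D (s + 1) = D s + s⁻¹ := by
  have h1 := (Fk_summable hs).tsum_eq_zero_add
  unfold D
  simp only [Fk_shift]
  rw [h1, log_succ hs]
  have h2 : Fk 0 s = Complex.log (1 + 1 / s) - s⁻¹ := by
    unfold Fk
    rw [Nat.cast_zero, add_zero, one_div]
  rw [h2]
  ring

theorem D_tail {x : ℝ} (hx : 0 < x) :
    Tendsto (fun n : ℕ => D ((x : ℂ) + n) - Complex.log ((x : ℂ) + n)) atTop (𝓝 0) := by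
  have h1 := tendsto_sum_nat_add (fun k => Fk k (x : ℂ))
  refine h1.congr (fun n => ?_)
  unfold D
  rw [add_sub_cancel_left]
  apply tsum_congr
  intro k
  unfold Fk
  push_cast
  rw [show (x : ℂ) + n + (k : ℂ) = x + ((k : ℂ) + n) by ring]

theorem digamma_succ {s : ℂ} (hs : 0 < s.re) : digamma (s + 1) = digamma s + s⁻¹ := by
  apply digamma_apply_add_one
  intro m h
  rw [h] at hs
  simp only [neg_re, natCast_re] at hs
  have : (0 : ℝ) ≤ m := Nat.cast_nonneg m
  linarith

theorem digamma_diff : DifferentiableOn ℂ digamma HPl := by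
  intro s hs
  have hs' : 0 < s.re := hs
  have h1 : ∀ z ∈ HPl, DifferentiableAt ℂ Complex.Gamma z := by
    intro z hz
    apply differentiableAt_Gamma
    intro m h
    have hz' : 0 < z.re := hz
    rw [h] at hz'
    simp only [neg_re, natCast_re] at hz'
    have : (0 : ℝ) ≤ m := Nat.cast_nonneg m
    linarith
  have h2 : DifferentiableOn ℂ Complex.Gamma HPl := fun z hz => (h1 z hz).differentiableWithinAt
  have h3 : DifferentiableAt ℂ (deriv Complex.Gamma) s :=
    ((h2.analyticOnNhd isOpen_HPl) s hs).deriv.differentiableAt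
  have h4 : DifferentiableAt ℂ (fun z => deriv Complex.Gamma z / Complex.Gamma z) s :=
    h3.div (h1 s hs) (Complex.Gamma_ne_zero_of_re_pos hs')
  exact h4.differentiableWithinAt

/-- digamma on the positive reals -/
theorem digamma_real {x : ℝ} (hx : 0 < x) :
    digamma (x : ℂ) = ((deriv (Real.log ∘ Real.Gamma) x : ℝ) : ℂ) := by
  have hne : ∀ m : ℕ, x ≠ -m := by
    intro m h
    have : (0 : ℝ) ≤ m := Nat.cast_nonneg m
    linarith
  have h1 : HasDerivAt Real.Gamma (deriv Real.Gamma x) x :=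
    (Real.differentiableAt_Gamma hne).hasDerivAt
  have h2 : HasDerivAt (fun t : ℝ => ((Real.Gamma t : ℝ) : ℂ)) ((deriv Real.Gamma x : ℝ) : ℂ) x :=
    h1.ofReal_comp
  have h3 : HasDerivAt Complex.Gamma (deriv Complex.Gamma x) (x : ℂ) := by
    apply DifferentiableAt.hasDerivAt
    apply differentiableAt_Gamma
    intro m h
    apply hne m
    exact_mod_cast h
  have h4 : HasDerivAt (fun t : ℝ => Complex.Gamma t) (deriv Complex.Gamma x) x := h3.comp_ofReal
  have h5 : (fun t : ℝ => Complex.Gamma t) = fun t : ℝ => ((Real.Gamma t : ℝ) : ℂ) := by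
    funext t
    exact Complex.Gamma_ofReal t
  rw [h5] at h4
  have h6 := h4.unique h2
  have h7 : Real.Gamma x ≠ 0 := (Real.Gamma_pos_of_pos hx).ne'
  have h8 : HasDerivAt (Real.log ∘ Real.Gamma) (deriv Real.Gamma x / Real.Gamma x) x :=
    h1.log h7
  rw [h8.deriv, digamma_def, logDeriv_apply, h6, Complex.Gamma_ofReal]
  push_cast
  ring

theorem diffAt_logGamma {x : ℝ} (hx : 0 < x) : DifferentiableAt ℝ (Real.log ∘ Real.Gamma) x := by
  have hne : ∀ m : ℕ, x ≠ -m := by
    intro m h
    have : (0 : ℝ) ≤ m := Nat.cast_nonneg m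
    linarith
  exact (Real.differentiableAt_Gamma hne).log (Real.Gamma_pos_of_pos hx).ne'

theorem logGamma_succ {x : ℝ} (hx : 0 < x) :
    (Real.log ∘ Real.Gamma) (x + 1) = Real.log x + (Real.log ∘ Real.Gamma) x := by
  simp only [Function.comp_apply]
  rw [Real.Gamma_add_one hx.ne', Real.log_mul hx.ne' (Real.Gamma_pos_of_pos hx).ne']

theorem psi_le {x : ℝ} (hx : 0 < x) : deriv (Real.log ∘ Real.Gamma) x ≤ Real.log x := by
  have h := Real.convexOn_log_Gamma.deriv_le_slope (x := x) (y := x + 1) hx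
    (show (0 : ℝ) < x + 1 by linarith) (by linarith) (diffAt_logGamma hx)
  rw [slope_def_field, logGamma_succ hx] at h
  simpa using h

theorem le_psi {x : ℝ} (hx : 0 < x) : Real.log x ≤ deriv (Real.log ∘ Real.Gamma) (x + 1) := by
  have h := Real.convexOn_log_Gamma.slope_le_deriv (x := x) (y := x + 1) hx
    (show (0 : ℝ) < x + 1 by linarith) (by linarith) (diffAt_logGamma (by linarith))
  rw [slope_def_field, logGamma_succ hx] at h
  simpa using h

theorem psi_tail {x : ℝ} (hx : 0 < x) :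
    Tendsto (fun n : ℕ => digamma ((x : ℂ) + n) - Complex.log ((x : ℂ) + n)) atTop (𝓝 0) := by
  rw [← tendsto_add_atTop_iff_nat 1]
  have hreal : ∀ n : ℕ, digamma ((x : ℂ) + (n + 1 : ℕ)) - Complex.log ((x : ℂ) + (n + 1 : ℕ)) =
      ((deriv (Real.log ∘ Real.Gamma) (x + n + 1) - Real.log (x + n + 1) : ℝ) : ℂ) := by
    intro n
    have hpos : 0 < x + n + 1 := by positivity
    have e : (x : ℂ) + ((n + 1 : ℕ) : ℂ) = ((x + n + 1 : ℝ) : ℂ) := by
      push_cast
      ring
    rw [e, digamma_real hpos, ← Complex.ofReal_log hpos.le]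
    push_cast
    ring
  simp only [hreal]
  rw [show (0 : ℂ) = ((0 : ℝ) : ℂ) by simp]
  apply (Complex.continuous_ofReal.tendsto 0).comp
  have hlim : Tendsto (fun n : ℕ => Real.log (x + n) - Real.log (x + n + 1)) atTop (𝓝 0) := by
    have h1 : Tendsto (fun n : ℕ => (x + n) / (x + n + 1)) atTop (𝓝 1) := by
      have h2 : Tendsto (fun n : ℕ => 1 - 1 / (x + n + 1)) atTop (𝓝 (1 - 0)) := by
        apply Tendsto.sub tendsto_const_nhds
        apply Tendsto.const_div_atTop
        have h3 : Tendsto (fun n : ℕ => (n : ℝ) + (x + 1)) atTop atTop :=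
          tendsto_atTop_add_const_right _ _ tendsto_natCast_atTop_atTop
        refine h3.congr (fun n => by ring)
      rw [sub_zero] at h2
      refine h2.congr (fun n => ?_)
      have : x + n + 1 ≠ 0 := by positivity
      field_simp
      ring
    have h4 := (Real.continuousAt_log one_ne_zero).tendsto.comp h1
    rw [Real.log_one] at h4
    refine h4.congr (fun n => ?_)
    simp only [Function.comp_apply]
    rw [Real.log_div (by positivity) (by positivity)]
  refine tendsto_of_tendsto_of_tendsto_of_le_of_le hlim tendsto_const_nhds ?_ ?_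
  · intro n
    have hpos : 0 < x + n := by positivity
    have := le_psi hpos
    simp only
    linarith
  · intro n
    have hpos : 0 < x + n + 1 := by positivity
    have := psi_le hpos
    simp only
    linarith

/-- the difference -/
noncomputable def e (s : ℂ) : ℂ := digamma s - D s

theorem e_succ {s : ℂ} (hs : 0 < s.re) : e (s + 1) = e s := by
  unfold e
  rw [digamma_succ hs, D_succ hs]
  ring

theorem e_add_nat {s : ℂ} (hs : 0 < s.re) (n : ℕ) : e (s + n) = e s := by
  induction n with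
  | zero => simp
  | succ n ih =>
    rw [← ih, ← e_succ (re_pos hs n)]
    push_cast
    rw [add_assoc]

theorem e_real {x : ℝ} (hx : 0 < x) : e x = 0 := by
  have h1 := (psi_tail hx).sub (D_tail hx)
  have h2 : ∀ n : ℕ, (digamma ((x : ℂ) + n) - Complex.log ((x : ℂ) + n)) -
      (D ((x : ℂ) + n) - Complex.log ((x : ℂ) + n)) = e x := by
    intro n
    rw [← e_add_nat (s := x) (by simpa using hx) n]
    unfold e
    ring
  simp only [h2, sub_zero] at h1
  exact tendsto_nhds_unique tendsto_const_nhds h1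

theorem e_zero {s : ℂ} (hs : 0 < s.re) : e s = 0 := by
  have han : AnalyticOnNhd ℂ e HPl := (digamma_diff.sub D_diff).analyticOnNhd isOpen_HPl
  have hpre : IsPreconnected HPl := (convex_halfSpace_re_gt 0).isPreconnected
  have h1 : (1 : ℂ) ∈ HPl := by
    show (0 : ℝ) < (1 : ℂ).re
    simp
  have hfr : ∃ᶠ z in 𝓝[≠] (1 : ℂ), e z = 0 := by
    have ht : Tendsto (fun n : ℕ => (((1 : ℝ) + 1 / ((n : ℝ) + 1) : ℝ) : ℂ)) atTop (𝓝[≠] 1) := by
      rw [tendsto_nhdsWithin_iff]
      constructor
      · rw [show (1 : ℂ) = ((1 : ℝ) : ℂ) by simp]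
        apply (Complex.continuous_ofReal.tendsto 1).comp
        have := (tendsto_const_nhds (x := (1 : ℝ))).add tendsto_one_div_add_atTop_nhds_zero_nat
        simpa using this
      · apply Eventually.of_forall
        intro n h
        have h2' : (((1 : ℝ) + 1 / ((n : ℝ) + 1) : ℝ) : ℂ) = 1 := h
        have h2 : ((1 : ℝ) + 1 / ((n : ℝ) + 1) : ℝ) = 1 :=
          Complex.ofReal_injective (h2'.trans Complex.ofReal_one.symm)
        have h3 : (0 : ℝ) < 1 / ((n : ℝ) + 1) := by positivity
        linarith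
    apply ht.frequently
    apply Frequently.of_forall
    intro n
    apply e_real
    positivity
  exact han.eqOn_zero_of_preconnected_of_frequently_eq_zero hpre h1 hfr hs

theorem digser : DigSerSt := by
  intro s hs
  refine ⟨Fk_summable hs, ?_⟩
  have := e_zero hs
  unfold e D at this
  exact sub_eq_zero.1 this

end Pool.Agent.H46.MT.Dig1
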