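import Mathlib
import Pool.Agent.H46.MT.Defs

/-!
# Bounds for the archimedean factor (module 9)
-/

namespace Pool.Agent.H46.MT.Dig2

open MeasureTheory Filter Topology

/-- one term of the digamma series -/
noncomputable def tm (z : ℂ) (k : ℕ) : ℂ := Complex.log (1 + 1 / (z + k)) - 1 / (z + k)

/-- the majorant -/
noncomputable def mj (k : ℕ) : ℝ := 24 * (1 / ((k : ℝ) + 1) ^ 2)

theorem mj_summable : Summable mj := by
  have h : Summable (fun k : ℕ => 1 / ((k : ℝ)) ^ 2) :=
    Real.summable_one_div_nat_pow.mpr (by norm_num)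
  have h2 := (summable_nat_add_iff 1).mpr h
  have h3 : Summable (fun k : ℕ => 1 / ((k : ℝ) + 1) ^ 2) := by
    refine h2.congr ?_
    intro k
    push_cast
    ring
  exact h3.mul_left 24

theorem norm_log_le (w : ℂ) : ‖Complex.log w‖ ≤ |Real.log ‖w‖| + Real.pi := by
  have h1 := Complex.norm_le_abs_re_add_abs_im (Complex.log w)
  rw [Complex.log_re, Complex.log_im] at h1
  have h2 := Complex.abs_arg_le_pi w
  linarith

theorem tm_le {z : ℂ} (h1 : 0 < z.re) (h2 : 1 ≤ z.im) (k : ℕ) : ‖tm z k‖ ≤ mj k := by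
  have hre : (z + k).re = z.re + k := by simp
  have him : (z + k).im = z.im := by simp
  have hk0 : (0 : ℝ) ≤ k := Nat.cast_nonneg k
  have hnorm1 : 1 ≤ ‖z + k‖ := by
    have h3 := Complex.abs_im_le_norm (z + k)
    rw [him] at h3
    have h4 := le_abs_self z.im
    linarith
  have hnormk : (k : ℝ) ≤ ‖z + k‖ := by
    have h3 := Complex.abs_re_le_norm (z + k)
    rw [hre] at h3
    have h4 := le_abs_self (z.re + k)
    linarith
  have hpos : 0 < ‖z + k‖ := by linarith
  have hw : ‖1 / (z + k)‖ = 1 / ‖z + k‖ := by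
    rw [norm_div, norm_one]
  unfold tm mj
  by_cases hk : k < 2
  · have hw1 : ‖1 / (z + k)‖ ≤ 1 := by
      rw [hw, div_le_one hpos]
      exact hnorm1
    have hwre : 0 ≤ (1 / (z + k)).re := by
      rw [one_div, Complex.inv_re]
      apply div_nonneg
      · rw [hre]
        linarith
      · exact Complex.normSq_nonneg _
    have h5 : 1 ≤ ‖1 + 1 / (z + k)‖ := by
      have h6 := Complex.abs_re_le_norm (1 + 1 / (z + k))
      have h7 : (1 + 1 / (z + k)).re = 1 + (1 / (z + k)).re := by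
        simp only [Complex.add_re, Complex.one_re]
      rw [h7] at h6
      have h8 := le_abs_self (1 + (1 / (z + k)).re)
      linarith
    have h6 : ‖1 + 1 / (z + k)‖ ≤ 2 := by
      have h7 := norm_add_le (1 : ℂ) (1 / (z + k))
      rw [norm_one] at h7
      linarith
    have h7 : |Real.log ‖1 + 1 / (z + k)‖| ≤ 1 := by
      rw [abs_of_nonneg (Real.log_nonneg h5)]
      have h8 := Real.log_le_sub_one_of_pos (lt_of_lt_of_le one_pos h5)
      linarith
    have h8 := norm_log_le (1 + 1 / (z + k))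
    have h9 := norm_sub_le (Complex.log (1 + 1 / (z + k))) (1 / (z + k))
    have h10 : ‖Complex.log (1 + 1 / (z + k)) - 1 / (z + k)‖ ≤ 6 := by
      have h11 := Real.pi_lt_four
      linarith
    have h11 : (6 : ℝ) ≤ 24 * (1 / ((k : ℝ) + 1) ^ 2) := by
      have h12 : (k : ℝ) ≤ 1 := by
        have : k ≤ 1 := by omega
        exact_mod_cast this
      have h13 : ((k : ℝ) + 1) ^ 2 ≤ 4 := by nlinarith
      have h14 : (1 / 4 : ℝ) ≤ 1 / ((k : ℝ) + 1) ^ 2 :=
        one_div_le_one_div_of_le (by positivity) h13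
      linarith
    linarith
  · have hk2 : (2 : ℝ) ≤ k := by
      have : 2 ≤ k := by omega
      exact_mod_cast this
    have hw2 : ‖1 / (z + k)‖ ≤ 1 / k := by
      rw [hw]
      exact one_div_le_one_div_of_le (by linarith) hnormk
    have hw3 : (1 : ℝ) / k ≤ 1 / 2 := one_div_le_one_div_of_le (by norm_num) hk2
    have hw4 : ‖1 / (z + k)‖ < 1 := by linarith
    have h5 := Complex.norm_log_one_add_sub_self_le hw4
    have h6 : (1 - ‖1 / (z + k)‖)⁻¹ ≤ 2 := by
      rw [inv_le_comm₀ (by linarith) (by norm_num)]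
      linarith
    have h7 : ‖1 / (z + k)‖ ^ 2 * (1 - ‖1 / (z + k)‖)⁻¹ / 2 ≤ (1 / k) ^ 2 * 2 / 2 := by
      have h8 : ‖1 / (z + k)‖ ^ 2 ≤ ((1 : ℝ) / k) ^ 2 :=
        pow_le_pow_left₀ (norm_nonneg _) hw2 2
      have h9 : 0 ≤ (1 - ‖1 / (z + k)‖)⁻¹ := by
        apply inv_nonneg.mpr
        linarith
      have h10 := mul_le_mul h8 h6 h9 (by positivity)
      linarith
    have h8 : ((1 : ℝ) / k) ^ 2 ≤ 24 * (1 / ((k : ℝ) + 1) ^ 2) := by
      rw [div_pow, one_pow, mul_one_div, div_le_div_iff₀ (by positivity) (by positivity)]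
      nlinarith
    linarith

theorem digamma_le (hS : DigSerSt) {z : ℂ} (h1 : 0 < z.re) (h2 : 1 ≤ z.im) :
    ‖Complex.digamma z - Complex.log z‖ ≤ ∑' k : ℕ, mj k := by
  obtain ⟨h3, h4⟩ := hS z h1
  rw [h4, add_sub_cancel_left]
  exact tsum_of_norm_bounded mj_summable.hasSum (fun k => tm_le h1 h2 k)

theorem logDeriv_gammaR {s : ℂ} (hs : 0 < s.re) :
    logDeriv Complex.Gammaℝ s =
      -(1 / 2) * (Real.log Real.pi : ℂ) + 1 / 2 * Complex.digamma (s / 2) := by
  have hpi : (Real.pi : ℂ) ≠ 0 := by exact_mod_cast Real.pi_ne_zero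
  have hs2 : 0 < (s / 2).re := by
    have : (s / 2).re = s.re / 2 := by
      rw [Complex.div_ofNat_re]
    rw [this]
    linarith
  have hG : DifferentiableAt ℂ Complex.Gamma (s / 2) := by
    apply Complex.differentiableAt_Gamma
    intro m hm
    rw [hm] at hs2
    simp only [Complex.neg_re, Complex.natCast_re] at hs2
    have : (0 : ℝ) ≤ m := Nat.cast_nonneg m
    linarith
  have hG0 : Complex.Gamma (s / 2) ≠ 0 := Complex.Gamma_ne_zero_of_re_pos hs2
  have hd : HasDerivAt (fun w : ℂ => -w / 2) (-1 / 2) s := by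
    have := (hasDerivAt_id s).neg.div_const (2 : ℂ)
    exact this
  have hp : HasDerivAt (fun w : ℂ => (Real.pi : ℂ) ^ (-w / 2))
      ((Real.pi : ℂ) ^ (-s / 2) * Complex.log Real.pi * (-1 / 2)) s := by
    exact hd.const_cpow (Or.inl hpi)
  have hd2 : HasDerivAt (fun w : ℂ => w / 2) (1 / 2) s := by
    have := (hasDerivAt_id s).div_const (2 : ℂ)
    exact this
  have hg : HasDerivAt (fun w : ℂ => Complex.Gamma (w / 2))
      (deriv Complex.Gamma (s / 2) * (1 / 2)) s := by
    have h3 := hG.hasDerivAt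
    exact HasDerivAt.comp s h3 hd2
  have hpne : (Real.pi : ℂ) ^ (-s / 2) ≠ 0 := by
    rw [Complex.cpow_def_of_ne_zero hpi]
    exact Complex.exp_ne_zero _
  have hprod : Complex.Gammaℝ = fun w : ℂ =>
      (Real.pi : ℂ) ^ (-w / 2) * Complex.Gamma (w / 2) := by
    funext w
    exact Complex.Gammaℝ_def w
  have hpg : HasDerivAt (fun w : ℂ => (Real.pi : ℂ) ^ (-w / 2) * Complex.Gamma (w / 2))
      ((Real.pi : ℂ) ^ (-s / 2) * Complex.log Real.pi * (-1 / 2) * Complex.Gamma (s / 2) +
        (Real.pi : ℂ) ^ (-s / 2) * (deriv Complex.Gamma (s / 2) * (1 / 2))) s := hp.mul hg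
  rw [logDeriv_apply, hprod, hpg.deriv]
  have hdig : Complex.digamma (s / 2) =
      deriv Complex.Gamma (s / 2) / Complex.Gamma (s / 2) := by
    rw [Complex.digamma_def, logDeriv_apply]
  have hlog : Complex.log (Real.pi : ℂ) = (Real.log Real.pi : ℂ) :=
    (Complex.ofReal_log Real.pi_pos.le).symm
  rw [hdig, hlog]
  field_simp

theorem dig (hS : DigSerSt) : DigSt := by
  set C₀ : ℝ := ∑' k : ℕ, mj k with hC₀
  have hC₀0 : 0 ≤ C₀ := by
    apply tsum_nonneg
    intro k
    unfold mj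
    positivity
  have hlp0 : 0 ≤ Real.log Real.pi := Real.log_nonneg (by linarith [Real.pi_gt_three])
  have hl2 : (1 : ℝ) / 2 < Real.log 2 := by
    have := Real.log_two_gt_d9
    linarith
  have hl2' : Real.log 2 < 1 := by
    have := Real.log_two_lt_d9
    linarith
  have hpi4 := Real.pi_lt_four
  set L := Real.log Real.pi with hL
  have key : ∀ σ t : ℝ, 1 / 2 ≤ σ → σ ≤ 2 → 2 ≤ t →
      (0 < ((σ : ℂ) + t * Complex.I).re) ∧
      ‖Complex.digamma (((σ : ℂ) + t * Complex.I) / 2) -
        Complex.log (((σ : ℂ) + t * Complex.I) / 2)‖ ≤ C₀ ∧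
      Real.log t - 1 ≤ Real.log ‖((σ : ℂ) + t * Complex.I) / 2‖ ∧
      Real.log ‖((σ : ℂ) + t * Complex.I) / 2‖ ≤ Real.log t ∧
      0 ≤ Real.log ‖((σ : ℂ) + t * Complex.I) / 2‖ := by
    intro σ t h1 h2 h3
    set s : ℂ := (σ : ℂ) + t * Complex.I with hs
    have hsre : s.re = σ := by simp [hs]
    have hsim : s.im = t := by simp [hs]
    have hs2re : (s / 2).re = σ / 2 := by
      rw [Complex.div_ofNat_re, hsre]
    have hs2im : (s / 2).im = t / 2 := by
      rw [Complex.div_ofNat_im, hsim]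
    have hlow : t / 2 ≤ ‖s / 2‖ := by
      have h4 := Complex.abs_im_le_norm (s / 2)
      rw [hs2im] at h4
      exact le_trans (le_abs_self _) h4
    have hup : ‖s / 2‖ ≤ t := by
      have h4 := Complex.norm_le_abs_re_add_abs_im (s / 2)
      rw [hs2re, hs2im, abs_of_nonneg (by linarith), abs_of_nonneg (by linarith)] at h4
      linarith
    refine ⟨by rw [hsre]; linarith, ?_, ?_, ?_, ?_⟩
    · exact digamma_le hS (by rw [hs2re]; linarith) (by rw [hs2im]; linarith)
    · have h5 : Real.log (t / 2) ≤ Real.log ‖s / 2‖ := Real.log_le_log (by linarith) hlow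
      rw [Real.log_div (by linarith) (by norm_num)] at h5
      linarith
    · exact Real.log_le_log (by linarith) hup
    · exact Real.log_nonneg (by linarith)
  refine ⟨8 + L + C₀ + 2 * (L + C₀), by positivity, ?_⟩
  intro σ t h1 h2 h3
  have hlt : (1 : ℝ) / 2 < Real.log t := by
    have := Real.log_le_log (by norm_num : (0 : ℝ) < 2) h3
    linarith
  constructor
  · obtain ⟨k1, k2, k3, k4, k5⟩ := key σ t h1 h2 h3
    set s : ℂ := (σ : ℂ) + t * Complex.I with hs
    rw [logDeriv_gammaR k1]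
    have h5 : ‖-(1 / 2) * (L : ℂ)‖ = 1 / 2 * L := by
      rw [norm_mul, norm_neg, Complex.norm_real, Real.norm_of_nonneg hlp0]
      norm_num
    have h6 : ‖(1 : ℂ) / 2 * Complex.digamma (s / 2)‖ = 1 / 2 * ‖Complex.digamma (s / 2)‖ := by
      rw [norm_mul]
      norm_num
    have h7 := norm_add_le (-(1 / 2) * (L : ℂ)) ((1 : ℂ) / 2 * Complex.digamma (s / 2))
    rw [h5, h6] at h7
    have h8 : ‖Complex.digamma (s / 2)‖ ≤ C₀ + (Real.log t + Real.pi) := by
      have h9 := norm_add_le (Complex.digamma (s / 2) - Complex.log (s / 2))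
        (Complex.log (s / 2))
      rw [sub_add_cancel] at h9
      have h10 := norm_log_le (s / 2)
      rw [abs_of_nonneg k5] at h10
      linarith
    nlinarith
  · obtain ⟨k1, k2, k3, k4, k5⟩ := key (1 / 2) t (le_refl _) (by norm_num) h3
    have hcast : (((1 / 2 : ℝ) : ℂ)) = 1 / 2 := by push_cast; ring
    rw [hcast] at k1 k2 k3 k4 k5
    set s : ℂ := (1 / 2 : ℂ) + t * Complex.I with hs
    have hk : kap t = -L + (Complex.digamma (s / 2)).re := by
      unfold kap
      rw [← hs, logDeriv_gammaR k1]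
      have h5 : (-(1 / 2) * (L : ℂ) + 1 / 2 * Complex.digamma (s / 2)).re =
          -(1 / 2) * L + 1 / 2 * (Complex.digamma (s / 2)).re := by
        have h6 : (-(1 / 2) * (L : ℂ) + 1 / 2 * Complex.digamma (s / 2)) =
            ((-(1 / 2) * L : ℝ) : ℂ) + ((1 / 2 : ℝ) : ℂ) * Complex.digamma (s / 2) := by
          push_cast
          ring
        rw [h6, Complex.add_re, Complex.ofReal_re, Complex.re_ofReal_mul]
      rw [h5]
      ring
    have h6 : |(Complex.digamma (s / 2)).re - Real.log ‖s / 2‖| ≤ C₀ := by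
      have h7 := Complex.abs_re_le_norm (Complex.digamma (s / 2) - Complex.log (s / 2))
      rw [Complex.sub_re, Complex.log_re] at h7
      exact le_trans h7 k2
    rw [hk]
    rw [abs_le] at h6 ⊢
    constructor
    · linarith [h6.1]
    · linarith [h6.2]

end Pool.Agent.H46.MT.Dig2
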