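import Pool.Agent.H46.MT.Defs

/-!
# The archimedean part of the explicit formula: from `Re s = 2` to `Re s = 1/2`
-/

namespace Pool.Agent.H46.MT.EAr

open MeasureTheory Filter Topology
open scoped ComplexConjugate

/-- the right half plane -/
def U : Set ℂ := {s : ℂ | 0 < s.re}

theorem isOpen_U : IsOpen U := isOpen_lt continuous_const Complex.continuous_re

theorem diff_Gammaℝ : DifferentiableOn ℂ Complex.Gammaℝ U := by
  have h1 : DifferentiableOn ℂ (fun s => (Complex.Gammaℝ s)⁻¹⁻¹) U :=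
    (Complex.differentiable_Gammaℝ_inv.differentiableOn).inv fun s hs =>
      inv_ne_zero (Complex.Gammaℝ_ne_zero_of_re_pos hs)
  refine h1.congr fun s _ => ?_
  simp

theorem diff_logDeriv : DifferentiableOn ℂ (logDeriv Complex.Gammaℝ) U := by
  have h1 : DifferentiableOn ℂ (fun s => deriv Complex.Gammaℝ s / Complex.Gammaℝ s) U :=
    (diff_Gammaℝ.deriv isOpen_U).div diff_Gammaℝ fun s hs =>
      Complex.Gammaℝ_ne_zero_of_re_pos hs
  exact h1

theorem zOf_eq (x t : ℝ) :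
    zOf (x + t * Complex.I) = t - Complex.I * ((x - 1 / 2 : ℝ) : ℂ) := by
  unfold zOf
  rw [div_eq_iff Complex.I_ne_zero]
  have := Complex.I_mul_I
  push_cast
  linear_combination ((x : ℂ) - 1 / 2) * this

theorem zOf_re (x t : ℝ) : (zOf (x + t * Complex.I)).re = t := by
  rw [zOf_eq]
  simp

theorem zOf_im (x t : ℝ) : (zOf (x + t * Complex.I)).im = -(x - 1 / 2) := by
  rw [zOf_eq]
  simp

theorem tendsto_small {c : ℝ} (hc : 0 < c) :
    Tendsto (fun T : ℝ => T ^ (7 / 2 : ℝ) * Real.exp (-T ^ c)) atTop (𝓝 0) := by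
  have h1 := tendsto_rpow_mul_exp_neg_mul_atTop_nhds_zero (7 / 2 / c) 1 one_pos
  have h2 := h1.comp (tendsto_rpow_atTop hc)
  refine h2.congr' ?_
  filter_upwards [eventually_gt_atTop (0 : ℝ)] with T hT
  simp only [Function.comp]
  rw [← Real.rpow_mul hT.le]
  congr 2
  · field_simp
  · ring

/-- the bound on a horizontal side -/
theorem side_bound {C T Δ H d u t : ℝ} (hW : Wt1St)
    (hD : ∀ σ t : ℝ, 1 / 2 ≤ σ → σ ≤ 2 → 2 ≤ t →
      ‖logDeriv Complex.Gammaℝ (σ + t * Complex.I)‖ ≤ C * Real.log t ∧ |kap t - Real.log t| ≤ C)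
    (hC : 0 < C) (hT : 1 ≤ T) (hΔ : 1 ≤ Δ) (hHΔ : H ^ 2 / Δ ^ 2 = T ^ (2 * d)) (hH : 0 < H)
    (hu : |u| ≤ Real.log T) (ht2 : 2 ≤ t) (ht4 : t ≤ 4 * T)
    (hside : t ≤ T - H ∨ 2 * T + H ≤ t) {x : ℝ} (hx : 1 / 2 ≤ x) (hx2 : x ≤ 2) :
    ‖logDeriv Complex.Gammaℝ (x + t * Complex.I) * ff T Δ u (x + t * Complex.I)‖ ≤
      4 * C * Real.exp (9 / 4) * (T ^ (7 / 2 : ℝ) * Real.exp (-T ^ (2 * d))) := by
  have hTp : 0 < T := by linarith
  have hΔp : 0 < Δ := by linarith
  have h1 : ‖logDeriv Complex.Gammaℝ (x + t * Complex.I)‖ ≤ C * (4 * T) := by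
    refine (hD x t hx hx2 ht2).1.trans (mul_le_mul_of_nonneg_left ?_ hC.le)
    exact (Real.log_le_self (by linarith)).trans ht4
  obtain ⟨-, -, -, -, hwl, hwr, -⟩ := hW T Δ hTp hΔp
  have hsq : (x - 1 / 2) ^ 2 / Δ ^ 2 ≤ 9 / 4 := by
    have h2 : (x - 1 / 2) ^ 2 ≤ 9 / 4 := by nlinarith
    have h3 : (1 : ℝ) ≤ Δ ^ 2 := one_le_pow₀ hΔ
    rw [div_le_iff₀ (by positivity)]
    nlinarith
  have hmain : ∀ q : ℝ, H ≤ q →
      ‖wt T Δ (zOf (x + t * Complex.I))‖ ≤
        T / Δ * Real.exp ((zOf (x + t * Complex.I)).im ^ 2 / Δ ^ 2 - q ^ 2 / Δ ^ 2) →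
      ‖wt T Δ (zOf (x + t * Complex.I))‖ ≤ T * (Real.exp (9 / 4) * Real.exp (-T ^ (2 * d))) := by
    intro q hq h
    rw [zOf_im, neg_sq] at h
    have h4 : Real.exp ((x - 1 / 2) ^ 2 / Δ ^ 2 - q ^ 2 / Δ ^ 2) ≤
        Real.exp (9 / 4) * Real.exp (-T ^ (2 * d)) := by
      rw [← Real.exp_add]
      refine Real.exp_le_exp.mpr ?_
      rw [← hHΔ]
      have h5 : H ^ 2 / Δ ^ 2 ≤ q ^ 2 / Δ ^ 2 := by
        refine div_le_div_of_nonneg_right ?_ (by positivity)
        exact pow_le_pow_left₀ hH.le hq 2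
      linarith
    refine h.trans ?_
    refine mul_le_mul (div_le_self hTp.le hΔ) h4 (Real.exp_pos _).le hTp.le
  have hw : ‖wt T Δ (zOf (x + t * Complex.I))‖ ≤
      T * (Real.exp (9 / 4) * Real.exp (-T ^ (2 * d))) := by
    rcases hside with hs | hs
    · refine hmain (T - t) (by linarith) ?_
      have h6 := hwl (zOf (x + t * Complex.I)) (by rw [zOf_re]; linarith)
      rw [zOf_re] at h6
      exact h6
    · refine hmain (t - 2 * T) (by linarith) ?_
      have h6 := hwr (zOf (x + t * Complex.I)) (by rw [zOf_re]; linarith)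
      rw [zOf_re] at h6
      exact h6
  have he : ‖Complex.exp (u * (x + t * Complex.I - 1 / 2))‖ ≤ T ^ (3 / 2 : ℝ) := by
    rw [Complex.norm_exp, Real.rpow_def_of_pos hTp]
    refine Real.exp_le_exp.mpr ?_
    have h7 : ((u : ℂ) * (x + t * Complex.I - 1 / 2)).re = u * (x - 1 / 2) := by
      simp
    rw [h7]
    have h8 := (abs_le.mp hu)
    have h9 : 0 ≤ Real.log T := Real.log_nonneg hT
    nlinarith
  unfold ff
  rw [norm_mul, norm_mul]
  have h10 : T ^ (7 / 2 : ℝ) = T * T * T ^ (3 / 2 : ℝ) := by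
    rw [show (7 / 2 : ℝ) = 1 + 1 + 3 / 2 by norm_num, Real.rpow_add hTp, Real.rpow_add hTp,
      Real.rpow_one]
  calc ‖logDeriv Complex.Gammaℝ (x + t * Complex.I)‖ *
        (‖wt T Δ (zOf (x + t * Complex.I))‖ *
          ‖Complex.exp (u * (x + t * Complex.I - 1 / 2))‖)
      ≤ (C * (4 * T)) * ((T * (Real.exp (9 / 4) * Real.exp (-T ^ (2 * d)))) *
          T ^ (3 / 2 : ℝ)) := by
        refine mul_le_mul h1 ?_ (by positivity) (by positivity)
        exact mul_le_mul hw he (norm_nonneg _) (by positivity)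
    _ = _ := by
        rw [h10]
        ring

theorem ear (hW : Wt1St) (hD : DigSt) : EArSt := by
  intro b ε hb hb1 hε
  obtain ⟨C, hC, hDig⟩ := hD
  have hd : 0 < dl b := by
    unfold dl
    linarith
  set M : ℝ := 4 * C * Real.exp (9 / 4) with hM
  have hM0 : 0 ≤ M := by positivity
  have hev1 : ∀ᶠ T : ℝ in atTop, 3 * M * (T ^ (7 / 2 : ℝ) * Real.exp (-T ^ (2 * dl b))) ≤ ε := by
    have h1 := (tendsto_small (c := 2 * dl b) (by positivity)).const_mul (3 * M)
    rw [mul_zero] at h1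
    filter_upwards [h1.eventually (gt_mem_nhds hε)] with T hT
    exact hT.le
  have hev2 : ∀ᶠ T : ℝ in atTop, T ^ (-dl b) ≤ 1 / 4 := by
    have h1 := tendsto_rpow_neg_atTop hd
    filter_upwards [h1.eventually (gt_mem_nhds (show (0 : ℝ) < 1 / 4 by norm_num))] with T hT
    exact hT.le
  obtain ⟨T₀, hT₀⟩ := eventually_atTop.mp (hev1.and hev2)
  refine ⟨max T₀ 4, fun T hT T₁ T₂ hR u hu => ?_⟩
  have hT4 : 4 ≤ T := (le_max_right _ _).trans hT
  have hTp : 0 < T := by linarith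
  obtain ⟨hsmall, hq⟩ := hT₀ T ((le_max_left _ _).trans hT)
  have hΔ1 : 1 ≤ Dl b T := Real.one_le_rpow (by linarith) (by linarith)
  set Δ := Dl b T with hΔdef
  have hH : 0 < Hh b T := Real.rpow_pos_of_pos hTp _
  have hHle : Hh b T ≤ T / 4 := by
    have h1 : Hh b T = T * T ^ (-dl b) := by
      rw [Hh, sub_eq_add_neg, Real.rpow_add hTp, Real.rpow_one]
    rw [h1]
    nlinarith
  set H := Hh b T with hHdef
  have hHΔ : H ^ 2 / Δ ^ 2 = T ^ (2 * dl b) := by
    rw [← div_pow, hHdef, hΔdef, Hh, Dl, ← Real.rpow_sub hTp, ← Real.rpow_natCast,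
      ← Real.rpow_mul hTp.le]
    congr 1
    unfold dl
    push_cast
    ring
  obtain ⟨hR0, hR1, hR2, hR3⟩ := hR
  set f : ℂ → ℂ := fun s => logDeriv Complex.Gammaℝ s * ff T Δ u s with hf
  have hwd := (hW T Δ hTp (by linarith)).1
  have hffd : Differentiable ℂ (ff T Δ u) := by
    have h1 : Differentiable ℂ (fun s : ℂ => wt T Δ (zOf s)) := by
      refine hwd.comp ?_
      unfold zOf
      fun_prop
    have h2 : Differentiable ℂ (fun s : ℂ => Complex.exp (u * (s - 1 / 2))) := by fun_prop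
    exact h1.mul h2
  have hfd : DifferentiableOn ℂ f U := diff_logDeriv.mul hffd.differentiableOn
  -- Cauchy
  have hrect := Complex.integral_boundary_rect_eq_zero_of_differentiableOn f
    (((1 / 2 : ℝ) : ℂ) + T₁ * Complex.I) (((2 : ℝ) : ℂ) + T₂ * Complex.I) (hfd.mono (by
      intro s hs
      have h1 := hs.1
      simp only [Set.mem_preimage, Complex.add_re, Complex.ofReal_re, Complex.mul_re,
        Complex.I_re, mul_zero, Complex.ofReal_im, Complex.I_im, mul_one, sub_self,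
        add_zero] at h1
      rw [Set.uIcc_of_le (by norm_num)] at h1
      show 0 < s.re
      linarith [h1.1]))
  have hre1 : (((1 / 2 : ℝ) : ℂ) + T₁ * Complex.I).re = 1 / 2 := by simp
  have him1 : (((1 / 2 : ℝ) : ℂ) + T₁ * Complex.I).im = T₁ := by simp
  have hre2 : (((2 : ℝ) : ℂ) + T₂ * Complex.I).re = 2 := by simp
  have him2 : (((2 : ℝ) : ℂ) + T₂ * Complex.I).im = T₂ := by simp
  rw [hre1, him1, hre2, him2] at hrect
  -- the horizontal sides
  have hside : ∀ t : ℝ, 2 ≤ t → t ≤ 4 * T → (t ≤ T - H ∨ 2 * T + H ≤ t) →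
      ‖∫ x in (1 / 2 : ℝ)..2, f (x + t * Complex.I)‖ ≤
        M * (T ^ (7 / 2 : ℝ) * Real.exp (-T ^ (2 * dl b))) * (3 / 2) := by
    intro t h2 h4 hs
    have h1 := intervalIntegral.norm_integral_le_of_norm_le_const (a := (1 / 2 : ℝ)) (b := 2)
      (f := fun x : ℝ => f (x + t * Complex.I))
      (C := M * (T ^ (7 / 2 : ℝ) * Real.exp (-T ^ (2 * dl b)))) (by
        intro x hx
        rw [Set.uIoc_of_le (by norm_num)] at hx
        exact side_bound hW hDig hC (by linarith) hΔ1 hHΔ hH hu h2 h4 hs hx.1.le hx.2)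
    have h5 : |(2 : ℝ) - 1 / 2| = 3 / 2 := by
      rw [abs_of_pos] <;> norm_num
    rw [h5] at h1
    exact h1
  have hb1' := hside T₁ (by linarith) (by linarith) (Or.inl hR1)
  have hb2' := hside T₂ (by linarith) (by linarith) (Or.inr hR2)
  set A1 := ∫ x in (1 / 2 : ℝ)..2, f (x + T₁ * Complex.I) with hA1
  set A2 := ∫ x in (1 / 2 : ℝ)..2, f (x + T₂ * Complex.I) with hA2
  have hc2 : (∫ t in T₁..T₂, logDeriv Complex.Gammaℝ (2 + t * Complex.I) *
      ff T Δ u (2 + t * Complex.I)) = ∫ y in T₁..T₂, f (((2 : ℝ) : ℂ) + y * Complex.I) := by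
    refine intervalIntegral.integral_congr fun t _ => ?_
    simp only [hf]
    norm_num
  have hc1 : (∫ t in T₁..T₂, logDeriv Complex.Gammaℝ (1 / 2 + t * Complex.I) *
      (wt T Δ t * Complex.exp (Complex.I * u * t))) =
      ∫ y in T₁..T₂, f (((1 / 2 : ℝ) : ℂ) + y * Complex.I) := by
    refine intervalIntegral.integral_congr fun t _ => ?_
    simp only [hf, ff]
    have e1 : zOf (((1 / 2 : ℝ) : ℂ) + t * Complex.I) = t := by
      rw [zOf_eq]
      simp
    rw [e1]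
    have e2 : (((1 / 2 : ℝ) : ℂ)) = 1 / 2 := by norm_num
    rw [e2]
    congr 3
    ring
  have hkey : Complex.I * ((∫ y in T₁..T₂, f (((2 : ℝ) : ℂ) + y * Complex.I)) -
      ∫ y in T₁..T₂, f (((1 / 2 : ℝ) : ℂ) + y * Complex.I)) = A2 - A1 := by
    rw [smul_eq_mul, smul_eq_mul] at hrect
    linear_combination hrect
  have hnorm : ‖(∫ y in T₁..T₂, f (((2 : ℝ) : ℂ) + y * Complex.I)) -
      ∫ y in T₁..T₂, f (((1 / 2 : ℝ) : ℂ) + y * Complex.I)‖ = ‖A2 - A1‖ := by
    rw [← hkey, norm_mul, Complex.norm_I, one_mul]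
  have hgoal : ‖(∫ t in T₁..T₂, logDeriv Complex.Gammaℝ (2 + t * Complex.I) *
      ff T Δ u (2 + t * Complex.I)) -
      ∫ t in T₁..T₂, logDeriv Complex.Gammaℝ (1 / 2 + t * Complex.I) *
        (wt T Δ t * Complex.exp (Complex.I * u * t))‖ ≤ ε := by
    rw [hc2, hc1, hnorm]
    refine (norm_sub_le _ _).trans ((add_le_add hb2' hb1').trans ?_)
    linarith
  exact hgoal

end Pool.Agent.H46.MT.EAr
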