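import Pool.Agent.H46.MT.Defs

/-!
# The explicit formula
-/

set_option autoImplicit false

namespace Pool.Agent.H46.MT.EF

open MeasureTheory Filter Topology Pool.Agent.H46.MT
open scoped ComplexConjugate

theorem conj2 : conj (2 : ℂ) = 2 := by
  have := Complex.conj_natCast 2
  simpa using this

/-! ### reflection -/

theorem zOf_line (σ t : ℝ) : zOf (σ + t * Complex.I) = t - Complex.I * ((σ - 1 / 2 : ℝ) : ℂ) := by
  unfold zOf
  rw [div_eq_iff Complex.I_ne_zero]
  push_cast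
  linear_combination ((σ : ℂ) - 1 / 2) * Complex.I_sq

theorem conj_zOf (t : ℝ) : conj (zOf (2 + t * Complex.I)) = zOf (-1 + t * Complex.I) := by
  have h1 := zOf_line 2 t
  have h2 := zOf_line (-1) t
  have e1 : ((2 : ℝ) : ℂ) = 2 := by norm_num
  have e2 : (((-1 : ℝ)) : ℂ) = -1 := by norm_num
  rw [e1] at h1
  rw [e2] at h2
  rw [h1, h2, map_sub, map_mul, Complex.conj_ofReal, Complex.conj_I, Complex.conj_ofReal]
  push_cast
  ring

theorem conj_ff (hW : Wt1St) {T Δ : ℝ} (hT : 0 < T) (hΔ : 0 < Δ) (u t : ℝ) :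
    conj (ff T Δ (-u) (2 + t * Complex.I)) = ff T Δ u (-1 + t * Complex.I) := by
  unfold ff
  rw [map_mul, ← (hW T Δ hT hΔ).2.1, conj_zOf, ← Complex.exp_conj]
  congr 2
  rw [map_mul, map_sub, map_add, map_mul, Complex.conj_ofReal, Complex.conj_ofReal, Complex.conj_I,
    map_div₀, map_one, conj2]
  push_cast
  ring

theorem int_conj {f : ℝ → ℂ} {a b : ℝ} :
    ∫ t in a..b, conj (f t) = conj (∫ t in a..b, f t) := by
  unfold intervalIntegral
  rw [integral_conj, integral_conj, map_sub]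

theorem wt_real (hW : Wt1St) {T Δ : ℝ} (hT : 0 < T) (hΔ : 0 < Δ) (t : ℝ) :
    conj (wt T Δ t) = wt T Δ t := by
  rw [← (hW T Δ hT hΔ).2.1, Complex.conj_ofReal]

theorem conj_Wh (T Δ ξ : ℝ) : conj (Wh T Δ ξ) = Wh T Δ (-ξ) := by
  unfold Wh
  rw [map_mul, ← int_conj, Complex.conj_ofReal]
  have e1 : ∀ t : ℝ, conj (Complex.exp (-(Complex.I * ξ * t))) =
      Complex.exp (-(Complex.I * ((-ξ : ℝ) : ℂ) * t)) := by
    intro t
    rw [← Complex.exp_conj]
    congr 1
    rw [map_neg, map_mul, map_mul, Complex.conj_I, Complex.conj_ofReal, Complex.conj_ofReal]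
    push_cast
    ring
  simp only [e1]
  congr 3
  ring

/-! ### summability of the prime series -/

theorem norm_Wh_le {T Δ ξ : ℝ} (hT : 0 ≤ T) :
    ‖Wh T Δ ξ‖ ≤ T * Real.exp (-(Δ ^ 2 * ξ ^ 2 / 4)) := by
  unfold Wh
  rw [norm_mul]
  refine mul_le_mul ?_ ?_ (norm_nonneg _) hT
  · have := intervalIntegral.norm_integral_le_of_norm_le_const (a := T) (b := 2 * T) (C := 1)
      (f := fun t : ℝ => Complex.exp (-(Complex.I * ξ * t))) (by
        intro t _
        rw [Complex.norm_exp]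
        simp)
    refine this.trans ?_
    rw [one_mul, abs_of_nonneg (by linarith)]
    linarith
  · rw [Complex.norm_real, Real.norm_eq_abs, abs_of_pos (Real.exp_pos _)]

theorem summ {T Δ : ℝ} (hT : 0 ≤ T) (hΔ : 0 < Δ) (u : ℝ) : Summable (fun n : ℕ =>
    ((ArithmeticFunction.vonMangoldt n / √(n : ℝ) : ℝ) : ℂ) * Wh T Δ (Real.log n - u)) := by
  have hu : Summable (fun n : ℕ => T * (1 / (n : ℝ) ^ 2)) :=
    (Real.summable_one_div_nat_pow.2 (by norm_num : 1 < 2)).mul_left T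
  refine Summable.of_norm_bounded_eventually_nat hu ?_
  have hlog : Tendsto (fun n : ℕ => Real.log n) atTop atTop :=
    Real.tendsto_log_atTop.comp tendsto_natCast_atTop_atTop
  filter_upwards [hlog.eventually_ge_atTop (2 * |u| + 48 / Δ ^ 2 + 1), eventually_ge_atTop 1]
    with n hn hn1
  have hn0 : (0 : ℝ) < n := by exact_mod_cast hn1
  have hΔ2 : 0 < Δ ^ 2 := by positivity
  have hq : 0 < 48 / Δ ^ 2 := by positivity
  have hL0 : 0 ≤ ArithmeticFunction.vonMangoldt n := ArithmeticFunction.vonMangoldt_nonneg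
  have hL : ArithmeticFunction.vonMangoldt n ≤ n :=
    ArithmeticFunction.vonMangoldt_le_log.trans
      ((Real.log_le_sub_one_of_pos hn0).trans (by linarith))
  have hsq : 1 ≤ √(n : ℝ) := Real.one_le_sqrt.mpr (by exact_mod_cast hn1)
  have hC : ‖((ArithmeticFunction.vonMangoldt n / √(n : ℝ) : ℝ) : ℂ)‖ ≤ n := by
    rw [Complex.norm_real, Real.norm_eq_abs, abs_of_nonneg (by positivity)]
    calc ArithmeticFunction.vonMangoldt n / √(n : ℝ) ≤ ArithmeticFunction.vonMangoldt n / 1 := by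
          gcongr
      _ ≤ n := by rw [div_one]; exact hL
  have hexp : Real.exp (-(Δ ^ 2 * (Real.log n - u) ^ 2 / 4)) ≤ 1 / (n : ℝ) ^ 3 := by
    have h1 : (n : ℝ) ^ 3 = Real.exp (3 * Real.log n) := by
      rw [← Real.log_rpow hn0 3, Real.exp_log (by positivity)]
      norm_cast
    rw [h1, one_div, ← Real.exp_neg]
    refine Real.exp_le_exp.mpr ?_
    set l := Real.log n with hl
    have h0 : 0 ≤ |u| := abs_nonneg u
    have hu' : u ≤ |u| := le_abs_self u
    have h2 : l / 2 ≤ l - u := by linarith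
    have hlpos : 0 < l := by linarith
    have h3 : (l / 2) ^ 2 ≤ (l - u) ^ 2 := by
      apply pow_le_pow_left₀ (by linarith) h2
    have h4 : 48 / Δ ^ 2 ≤ l := by linarith
    have h5 : 48 ≤ Δ ^ 2 * l := by
      rw [div_le_iff₀ hΔ2] at h4
      linarith
    have h6 : 48 * l ≤ Δ ^ 2 * l * l := by nlinarith
    have h7 : Δ ^ 2 * (l / 2) ^ 2 ≤ Δ ^ 2 * (l - u) ^ 2 := by gcongr
    nlinarith
  rw [norm_mul]
  calc _ ≤ (n : ℝ) * (T * (1 / (n : ℝ) ^ 3)) := by
        refine mul_le_mul hC ((norm_Wh_le hT).trans (mul_le_mul_of_nonneg_left hexp hT))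
          (norm_nonneg _) hn0.le
    _ = T * (1 / (n : ℝ) ^ 2) := by
        field_simp

/-- the prime series, folded -/
theorem prime_fold {T Δ : ℝ} (hT : 0 ≤ T) (hΔ : 0 < Δ) (u : ℝ) :
    primeSum T Δ u = (∑' n : ℕ, ((ArithmeticFunction.vonMangoldt n / √(n : ℝ) : ℝ) : ℂ) *
      Wh T Δ (Real.log n - u)) + conj (∑' n : ℕ,
        ((ArithmeticFunction.vonMangoldt n / √(n : ℝ) : ℝ) : ℂ) * Wh T Δ (Real.log n - -u)) := by
  have h1 := summ hT hΔ u
  have h2 := summ hT hΔ (-u)
  have e1 : ∀ n : ℕ, conj (((ArithmeticFunction.vonMangoldt n / √(n : ℝ) : ℝ) : ℂ) *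
      Wh T Δ (Real.log n - -u)) = ((ArithmeticFunction.vonMangoldt n / √(n : ℝ) : ℝ) : ℂ) *
      Wh T Δ (-Real.log n - u) := by
    intro n
    rw [map_mul, Complex.conj_ofReal, conj_Wh]
    congr 2
    ring
  have h3 : Summable (fun n : ℕ => ((ArithmeticFunction.vonMangoldt n / √(n : ℝ) : ℝ) : ℂ) *
      Wh T Δ (-Real.log n - u)) := by
    have := (Complex.conjCLE.summable).2 h2
    refine this.congr (fun n => ?_)
    exact e1 n
  rw [Complex.conj_tsum]
  simp only [e1]
  rw [← h1.tsum_add h3]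
  unfold primeSum
  apply tsum_congr
  intro n
  ring

/-! ### regularity -/

theorem zOf_diff : Differentiable ℂ zOf := by
  unfold zOf
  fun_prop

theorem ff_diff (hW : Wt1St) {T Δ : ℝ} (hT : 0 < T) (hΔ : 0 < Δ) (u : ℝ) :
    Differentiable ℂ (ff T Δ u) := by
  have h1 : Differentiable ℂ (fun s => wt T Δ (zOf s)) := (hW T Δ hT hΔ).1.comp zOf_diff
  have h2 : Differentiable ℂ (fun s : ℂ => Complex.exp (u * (s - 1 / 2))) := by fun_prop
  exact h1.mul h2

theorem gam_cont {σ : ℝ} (hσ : 0 < σ) :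
    Continuous (fun t : ℝ => logDeriv Complex.Gammaℝ (σ + t * Complex.I)) := by
  have hG : Differentiable ℂ (fun s : ℂ => (Complex.Gammaℝ s)⁻¹) :=
    Complex.differentiable_Gammaℝ_inv
  have hderiv : Continuous (deriv (fun s : ℂ => (Complex.Gammaℝ s)⁻¹)) :=
    (hG.contDiff (n := 1)).continuous_deriv le_rfl
  have hlin : Continuous (fun t : ℝ => (σ + t * Complex.I : ℂ)) := by fun_prop
  have hre : ∀ t : ℝ, 0 < (σ + t * Complex.I : ℂ).re := by
    intro t
    simpa using hσ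
  have h1 : ∀ t : ℝ, logDeriv Complex.Gammaℝ (σ + t * Complex.I) =
      -(deriv (fun s : ℂ => (Complex.Gammaℝ s)⁻¹) (σ + t * Complex.I) /
        (Complex.Gammaℝ (σ + t * Complex.I))⁻¹) := by
    intro t
    have hne : Complex.Gammaℝ (σ + t * Complex.I) ≠ 0 :=
      Complex.Gammaℝ_ne_zero_of_re_pos (hre t)
    have hd : DifferentiableAt ℂ Complex.Gammaℝ (σ + t * Complex.I) := by
      have h2 := (hG (σ + t * Complex.I)).inv (inv_ne_zero hne)
      have h3 : (fun s : ℂ => (Complex.Gammaℝ s)⁻¹)⁻¹ = Complex.Gammaℝ := by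
        ext s
        simp
      rwa [h3] at h2
    rw [logDeriv_apply, deriv_fun_inv'' hd hne]
    field_simp
  simp only [h1]
  refine (Continuous.div (hderiv.comp hlin) (hG.continuous.comp hlin) ?_).neg
  intro t
  exact inv_ne_zero (Complex.Gammaℝ_ne_zero_of_re_pos (hre t))

theorem zeta_cont : Continuous (fun t : ℝ => logDeriv riemannZeta (2 + t * Complex.I)) := by
  rw [continuous_iff_continuousAt]
  intro t
  have hs1 : (2 + t * Complex.I : ℂ) ≠ 1 := by
    intro h
    have := congrArg Complex.re h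
    simp at this
  have hopen : IsOpen ({1}ᶜ : Set ℂ) := isOpen_compl_singleton
  have hd : DifferentiableOn ℂ riemannZeta ({1}ᶜ : Set ℂ) := fun s hs =>
    (differentiableAt_riemannZeta hs).differentiableWithinAt
  have han : AnalyticAt ℂ riemannZeta (2 + t * Complex.I) :=
    (hd.analyticOnNhd hopen) _ hs1
  have hne : riemannZeta (2 + t * Complex.I) ≠ 0 :=
    riemannZeta_ne_zero_of_one_le_re (by simp)
  have h1 : ContinuousAt (logDeriv riemannZeta) (2 + t * Complex.I) :=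
    (han.deriv.div han hne).continuousAt
  have h2 : ContinuousAt (fun t : ℝ => (2 + t * Complex.I : ℂ)) t := by fun_prop
  exact ContinuousAt.comp (f := fun t : ℝ => (2 + t * Complex.I : ℂ)) h1 h2

theorem norm_exp_le {T u x t : ℝ} (hT : 1 ≤ T) (hu : |u| ≤ Real.log T) (hx1 : -1 ≤ x)
    (hx2 : x ≤ 2) : ‖Complex.exp (u * ((x + t * Complex.I : ℂ) - 1 / 2))‖ ≤ T ^ (3 / 2 : ℝ) := by
  rw [Complex.norm_exp, Real.rpow_def_of_pos (by linarith)]
  refine Real.exp_le_exp.mpr ?_
  have e1 : ((u : ℂ) * ((x + t * Complex.I : ℂ) - 1 / 2)).re = u * (x - 1 / 2) := by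
    simp
  rw [e1]
  have h1 : |u * (x - 1 / 2)| ≤ Real.log T * (3 / 2) := by
    rw [abs_mul]
    have h2 : |x - 1 / 2| ≤ 3 / 2 := by
      rw [abs_le]
      constructor <;> linarith
    exact mul_le_mul hu h2 (abs_nonneg _) ((abs_nonneg _).trans hu)
  exact (le_abs_self _).trans h1

theorem horiz_lo (hW : Wt1St) {T Δ H u x t : ℝ} (hT : 1 ≤ T) (hΔ : 1 ≤ Δ)
    (hu : |u| ≤ Real.log T) (hx1 : -1 ≤ x) (hx2 : x ≤ 2) (hH : 0 ≤ H)
    (ht : t ≤ T - H ∨ 2 * T + H ≤ t) :
    ‖ff T Δ u (x + t * Complex.I)‖ ≤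
      (T * (Real.exp (9 / 4) * Real.exp (-(H ^ 2 / Δ ^ 2)))) * T ^ (3 / 2 : ℝ) := by
  have hT0 : 0 < T := by linarith
  have hΔ0 : 0 < Δ := by linarith
  unfold ff
  rw [norm_mul]
  refine mul_le_mul ?_ (norm_exp_le hT hu hx1 hx2) (norm_nonneg _) (by positivity)
  have hz : zOf (x + t * Complex.I) = t - Complex.I * ((x - 1 / 2 : ℝ) : ℂ) := zOf_line x t
  have hre : (zOf (x + t * Complex.I)).re = t := by
    rw [hz]; simp
  have him : (zOf (x + t * Complex.I)).im = -(x - 1 / 2) := by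
    rw [hz]; simp
  have hq : ∀ q : ℝ, H ^ 2 ≤ q ^ 2 →
      T / Δ * Real.exp ((zOf (x + t * Complex.I)).im ^ 2 / Δ ^ 2 - q ^ 2 / Δ ^ 2) ≤
        T * (Real.exp (9 / 4) * Real.exp (-(H ^ 2 / Δ ^ 2))) := by
    intro q hq
    rw [← Real.exp_add]
    have h1 : T / Δ ≤ T := div_le_self hT0.le hΔ
    have hΔ2 : (1 : ℝ) ≤ Δ ^ 2 := one_le_pow₀ hΔ
    have h2 : (zOf (x + t * Complex.I)).im ^ 2 / Δ ^ 2 ≤ 9 / 4 := by
      rw [him]
      refine (div_le_self (sq_nonneg _) hΔ2).trans ?_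
      nlinarith
    have h3 : H ^ 2 / Δ ^ 2 ≤ q ^ 2 / Δ ^ 2 := by gcongr
    refine mul_le_mul h1 (Real.exp_le_exp.mpr (by linarith)) (Real.exp_pos _).le hT0.le
  obtain ⟨-, -, -, -, h5, h6, -⟩ := hW T Δ hT0 hΔ0
  rcases ht with ht | ht
  · have h7 := h5 (zOf (x + t * Complex.I)) (by rw [hre]; linarith)
    refine h7.trans (hq _ ?_)
    rw [hre]
    apply pow_le_pow_left₀ hH
    linarith
  · have h7 := h6 (zOf (x + t * Complex.I)) (by rw [hre]; linarith)
    refine h7.trans (hq _ ?_)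
    rw [hre]
    apply pow_le_pow_left₀ hH
    linarith

theorem tendsto_small {a c : ℝ} (hc : 0 < c) :
    Tendsto (fun T : ℝ => T ^ a * Real.exp (-T ^ c)) atTop (𝓝 0) := by
  have h1 := tendsto_rpow_mul_exp_neg_mul_atTop_nhds_zero (a / c) 1 one_pos
  have h2 := h1.comp (tendsto_rpow_atTop hc)
  refine h2.congr' ?_
  filter_upwards [eventually_gt_atTop (0 : ℝ)] with T hT
  simp only [Function.comp]
  rw [← Real.rpow_mul hT.le]
  congr 2
  · field_simp
  · ring

theorem ef (hZ : ZArgSt) (hH : HorSt) (hDec : DecSt) (hP : EPrSt) (hA : EArSt) (hW : Wt1St) :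
    EFSt := by
  intro b C hb hb1
  obtain ⟨TP, hTP⟩ := hP b 1 hb hb1 one_pos
  obtain ⟨TA, hTA⟩ := hA b 1 hb hb1 one_pos
  obtain ⟨C', t₀, ht₀, hHor⟩ := hH C
  have hd : 0 < dl b := by
    unfold dl
    linarith
  -- smallness of the horizontal sides
  have hev : ∀ᶠ T : ℝ in atTop, (3 * T) ^ |C'| * ((T * (Real.exp (9 / 4) *
      Real.exp (-T ^ (2 * dl b)))) * T ^ (3 / 2 : ℝ)) ≤ 1 / 10 := by
    have h1 := (tendsto_small (a := |C'| + 5 / 2) (c := 2 * dl b) (by positivity)).const_mul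
      ((3 : ℝ) ^ |C'| * Real.exp (9 / 4))
    rw [mul_zero] at h1
    filter_upwards [h1.eventually (gt_mem_nhds (show (0 : ℝ) < 1 / 10 by norm_num)),
      eventually_gt_atTop (0 : ℝ)] with T hT hT0
    refine le_trans (le_of_eq ?_) hT.le
    rw [Real.mul_rpow (by norm_num) hT0.le, Real.rpow_add hT0]
    have e2 : T ^ (5 / 2 : ℝ) = T * T ^ (3 / 2 : ℝ) := by
      rw [← Real.rpow_one_add' hT0.le (by norm_num)]
      norm_num
    rw [e2]
    ring
  have hev2 : ∀ᶠ T : ℝ in atTop, T ^ (-dl b) ≤ 1 / 4 := by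
    have h1 := tendsto_rpow_neg_atTop hd
    filter_upwards [h1.eventually (gt_mem_nhds (show (0 : ℝ) < 1 / 4 by norm_num))] with T hT
    exact hT.le
  obtain ⟨T3, hT3⟩ := eventually_atTop.mp (hev.and hev2)
  refine ⟨max (max TP TA) (max T3 (2 * t₀ + 1)), fun T hT T₁ T₂ hR hG1 hG2 u hu => ?_⟩
  have hTP' : TP ≤ T := ((le_max_left _ _).trans (le_max_left _ _)).trans hT
  have hTA' : TA ≤ T := ((le_max_right _ _).trans (le_max_left _ _)).trans hT
  have hT3' : T3 ≤ T := ((le_max_left _ _).trans (le_max_right _ _)).trans hT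
  have hTt : 2 * t₀ + 1 ≤ T := ((le_max_right _ _).trans (le_max_right _ _)).trans hT
  have hT1 : 1 ≤ T := by linarith
  have hTp : 0 < T := by linarith
  obtain ⟨hsm, hsm2⟩ := hT3 T hT3'
  have hΔ1 : 1 ≤ Dl b T := Real.one_le_rpow hT1 (by linarith)
  have hHpos : 0 < Hh b T := Real.rpow_pos_of_pos hTp _
  have hHT : Hh b T ≤ T / 4 := by
    unfold Hh
    rw [sub_eq_add_neg, Real.rpow_add hTp, Real.rpow_one]
    nlinarith
  set Δ := Dl b T with hΔdef
  have hΔ : 0 < Δ := by linarith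
  set H := Hh b T with hHdef
  have hHΔ : H ^ 2 / Δ ^ 2 = T ^ (2 * dl b) := by
    rw [← div_pow, hHdef, hΔdef, Hh, Dl, ← Real.rpow_sub hTp, ← Real.rpow_natCast,
      ← Real.rpow_mul hTp.le]
    congr 1
    unfold dl
    push_cast
    ring
  have hR' := hR
  obtain ⟨hR0, hR1, hR2, hR3⟩ := hR'
  have hT1lo : T / 2 ≤ T₁ := by linarith
  have hT2hi : T₂ ≤ 3 * T := by linarith
  have hT1p : 0 < T₁ := by linarith
  have hT12 : T₁ < T₂ := by linarith
  -- the two parts on the line 2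
  set IA : ℝ → ℂ := fun v => ∫ t in T₁..T₂, logDeriv Complex.Gammaℝ (2 + t * Complex.I) *
    ff T Δ v (2 + t * Complex.I) with hIA
  set IP : ℝ → ℂ := fun v => ∫ t in T₁..T₂, logDeriv riemannZeta (2 + t * Complex.I) *
    ff T Δ v (2 + t * Complex.I) with hIP
  set JA : ℝ → ℂ := fun v => ∫ t in T₁..T₂, logDeriv Complex.Gammaℝ (1 / 2 + t * Complex.I) *
    (wt T Δ t * Complex.exp (Complex.I * v * t)) with hJA
  set PS : ℝ → ℂ := fun v => ∑' n : ℕ, ((ArithmeticFunction.vonMangoldt n / √(n : ℝ) : ℝ) : ℂ) *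
    Wh T Δ (Real.log n - v) with hPS
  have hffc : ∀ v : ℝ, Continuous (fun t : ℝ => ff T Δ v (2 + t * Complex.I)) := by
    intro v
    exact (ff_diff hW hTp hΔ v).continuous.comp (by fun_prop)
  have hgc : Continuous (fun t : ℝ => logDeriv Complex.Gammaℝ (2 + t * Complex.I)) := by
    have := gam_cont (σ := 2) (by norm_num)
    simpa using this
  have hgc2 : Continuous (fun t : ℝ => logDeriv Complex.Gammaℝ (1 / 2 + t * Complex.I)) := by
    have := gam_cont (σ := 1 / 2) (by norm_num)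
    simpa using this
  have hsplit : ∀ v : ℝ, ∫ t in T₁..T₂, logDeriv completedRiemannZeta (2 + t * Complex.I) *
      ff T Δ v (2 + t * Complex.I) = IA v + IP v := by
    intro v
    rw [hIA, hIP]
    simp only
    have i1 : IntervalIntegrable (fun t : ℝ => logDeriv Complex.Gammaℝ (2 + t * Complex.I) *
        ff T Δ v (2 + t * Complex.I)) volume T₁ T₂ := (hgc.mul (hffc v)).intervalIntegrable _ _
    have i2 : IntervalIntegrable (fun t : ℝ => logDeriv riemannZeta (2 + t * Complex.I) *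
        ff T Δ v (2 + t * Complex.I)) volume T₁ T₂ :=
      (zeta_cont.mul (hffc v)).intervalIntegrable _ _
    rw [← intervalIntegral.integral_add i1 i2]
    apply intervalIntegral.integral_congr
    intro t ht
    rw [Set.uIcc_of_le hT12.le] at ht
    simp only
    rw [hDec (2 + t * Complex.I) (by simp) (by
      simp only [Complex.add_im, Complex.im_ofNat, Complex.mul_im, Complex.ofReal_re,
        Complex.I_im, mul_one, Complex.ofReal_im, Complex.I_re, mul_zero, add_zero, zero_add]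
      exact (lt_of_lt_of_le hT1p ht.1).ne') (riemannZeta_ne_zero_of_one_le_re (by simp))]
    ring
  have hsecond : ∫ t in T₁..T₂, conj (logDeriv completedRiemannZeta (2 + t * Complex.I)) *
      ff T Δ u (-1 + t * Complex.I) = conj (IA (-u) + IP (-u)) := by
    rw [← hsplit, ← int_conj]
    apply intervalIntegral.integral_congr
    intro t _
    simp only
    rw [map_mul, conj_ff hW hTp hΔ]
  have hz := hZ T₁ T₂ (ff T Δ u) hT1p hT12 (ff_diff hW hTp hΔ u) hG1.1 hG2.1
  rw [hsplit u, hsecond] at hz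
  -- the archimedean part folded
  have hwc : Continuous (fun t : ℝ => wt T Δ t) := (hW T Δ hTp hΔ).1.continuous.comp (by fun_prop)
  have hkap : JA u + conj (JA (-u)) =
      ∫ t in T₁..T₂, (kap t : ℂ) * (wt T Δ t * Complex.exp (Complex.I * u * t)) := by
    rw [hJA]
    simp only
    rw [← int_conj, ← intervalIntegral.integral_add]
    · apply intervalIntegral.integral_congr
      intro t _
      simp only
      have e1 : conj (Complex.exp (Complex.I * ((-u : ℝ) : ℂ) * t)) =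
          Complex.exp (Complex.I * u * t) := by
        rw [← Complex.exp_conj]
        congr 1
        rw [map_mul, map_mul, Complex.conj_I, Complex.conj_ofReal, Complex.conj_ofReal]
        push_cast
        ring
      have e2 : (kap t : ℂ) = logDeriv Complex.Gammaℝ (1 / 2 + t * Complex.I) +
          conj (logDeriv Complex.Gammaℝ (1 / 2 + t * Complex.I)) := by
        rw [Complex.add_conj]
        unfold kap
        push_cast
        rfl
      rw [map_mul, map_mul, wt_real hW hTp hΔ, e1, e2]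
      ring
    · exact (hgc2.mul (hwc.mul (by fun_prop))).intervalIntegrable _ _
    · exact (Complex.continuous_conj.comp
        (hgc2.mul (hwc.mul (by fun_prop)))).intervalIntegrable _ _
  have hpf := prime_fold hTp.le hΔ u
  -- the estimates
  have eA := hTA T hTA' T₁ T₂ hR u hu
  have eA' := hTA T hTA' T₁ T₂ hR (-u) (by rwa [abs_neg])
  have eP := hTP T hTP' T₁ T₂ hR u hu
  have eP' := hTP T hTP' T₁ T₂ hR (-u) (by rwa [abs_neg])
  set X1 := ∫ x in (-1 : ℝ)..2, logDeriv completedRiemannZeta (x + T₁ * Complex.I) *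
            ff T Δ u (x + T₁ * Complex.I) with hX1
  set X2 := ∫ x in (-1 : ℝ)..2, logDeriv completedRiemannZeta (x + T₂ * Complex.I) *
            ff T Δ u (x + T₂ * Complex.I) with hX2
  have hside : ∀ t : ℝ, t₀ ≤ t → t ≤ 3 * T → GoodHt C t → (t ≤ T - H ∨ 2 * T + H ≤ t) →
      ‖∫ x in (-1 : ℝ)..2, logDeriv completedRiemannZeta (x + t * Complex.I) *
            ff T Δ u (x + t * Complex.I)‖ ≤ 3 / 10 := by
    intro t h1 h2 h3 h4
    have h5 := intervalIntegral.norm_integral_le_of_norm_le_const (a := (-1 : ℝ)) (b := 2)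
      (C := 1 / 10) (f := fun x : ℝ => logDeriv completedRiemannZeta (x + t * Complex.I) *
            ff T Δ u (x + t * Complex.I)) (by
        intro x hx
        rw [Set.uIoc_of_le (by norm_num)] at hx
        rw [norm_mul]
        refine le_trans ?_ hsm
        rw [← hHΔ]
        refine mul_le_mul ?_ (horiz_lo hW hT1 hΔ1 hu hx.1.le hx.2 hHpos.le h4) (norm_nonneg _)
          (by positivity)
        refine (hHor t h1 h3 x hx.1.le hx.2).trans ?_
        have ht1 : 1 ≤ t := by linarith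
        calc t ^ C' ≤ t ^ |C'| := Real.rpow_le_rpow_of_exponent_le ht1 (le_abs_self _)
          _ ≤ (3 * T) ^ |C'| := Real.rpow_le_rpow (by linarith) h2 (abs_nonneg _))
    refine h5.trans (le_of_eq ?_)
    norm_num
  have hs1 : ‖X1‖ ≤ 3 / 10 := hside T₁ (by linarith) (by linarith) hG1 (Or.inl hR1)
  have hs2 : ‖X2‖ ≤ 3 / 10 := hside T₂ (by linarith) hT2hi hG2 (Or.inr hR2)
  have hmain : expSum T Δ T₁ T₂ u - ((1 / (2 * Real.pi) : ℝ) : ℂ) *
      ((∫ t in T₁..T₂, (kap t : ℂ) * (wt T Δ t * Complex.exp (Complex.I * u * t))) -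
        primeSum T Δ u) =
      ((1 / (2 * Real.pi) : ℝ) : ℂ) * ((IA u - JA u) + conj (IA (-u) - JA (-u)) +
        (IP u + PS u) + conj (IP (-u) + PS (-u))) + 1 / (2 * Real.pi * Complex.I) * (X1 - X2) := by
    have e0 : expSum T Δ T₁ T₂ u = ∑ ρ ∈ Zf T₁ T₂, (mult ρ : ℂ) * ff T Δ u ρ := rfl
    rw [e0, hz, ← hkap, hpf]
    simp only [map_add, map_sub]
    ring
  rw [hmain]
  have hpi := Real.pi_gt_three
  have hn1 : ‖(IA u - JA u) + conj (IA (-u) - JA (-u)) +
        (IP u + PS u) + conj (IP (-u) + PS (-u))‖ ≤ 4 := by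
    refine (norm_add_le _ _).trans ?_
    refine (add_le_add (norm_add_le _ _) le_rfl).trans ?_
    refine (add_le_add (add_le_add (norm_add_le _ _) le_rfl) le_rfl).trans ?_
    rw [RCLike.norm_conj, RCLike.norm_conj]
    linarith
  have hc1 : ‖((1 / (2 * Real.pi) : ℝ) : ℂ)‖ ≤ 1 / 6 := by
    rw [Complex.norm_real, Real.norm_of_nonneg (by positivity)]
    apply one_div_le_one_div_of_le (by norm_num)
    linarith
  have hc2 : ‖1 / (2 * Real.pi * Complex.I)‖ ≤ 1 / 6 := by
    rw [norm_div, norm_mul, norm_mul, Complex.norm_I, Complex.norm_real, norm_one,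
      Real.norm_of_nonneg Real.pi_pos.le, Complex.norm_ofNat, mul_one]
    apply one_div_le_one_div_of_le (by norm_num)
    linarith
  have hn2 : ‖X1 - X2‖ ≤ 6 / 10 := (norm_sub_le _ _).trans (by linarith)
  refine (norm_add_le _ _).trans ?_
  rw [norm_mul, norm_mul]
  have hf1 := mul_le_mul hc1 hn1 (norm_nonneg _) (by norm_num : (0 : ℝ) ≤ 1 / 6)
  have hf2 := mul_le_mul hc2 hn2 (norm_nonneg _) (by norm_num : (0 : ℝ) ≤ 1 / 6)
  linarith

end Pool.Agent.H46.MT.EF
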