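import Pool.Agent.H46.MT.Defs

/-!
# The prime part of the explicit formula on the line `Re s = 2`
-/

namespace Pool.Agent.H46.MT.EPr

open MeasureTheory Filter Topology
open scoped ComplexConjugate

/-- the terms of the Dirichlet series of `-ζ'/ζ` on the line `Re s = 2` -/
noncomputable def tm (n : ℕ) (t : ℝ) : ℂ :=
  LSeries.term (fun n => (ArithmeticFunction.vonMangoldt n : ℂ)) (2 + t * Complex.I) n

/-- their absolute values -/
noncomputable def cn (n : ℕ) : ℝ := ArithmeticFunction.vonMangoldt n / (n : ℝ) ^ 2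

theorem norm_tm (n : ℕ) (t : ℝ) : ‖tm n t‖ = cn n := by
  unfold tm cn
  rw [LSeries.norm_term_eq]
  by_cases h : n = 0
  · simp [h]
  · have h2 : (2 + t * Complex.I : ℂ).re = (2 : ℕ) := by simp
    rw [if_neg h, h2, Complex.norm_real,
      Real.norm_of_nonneg ArithmeticFunction.vonMangoldt_nonneg, Real.rpow_natCast]

theorem cn_nonneg (n : ℕ) : 0 ≤ cn n := by
  rw [← norm_tm n 0]
  exact norm_nonneg _

theorem one_lt_re (t : ℝ) : 1 < (2 + t * Complex.I : ℂ).re := by simp

theorem summable_cn : Summable cn := by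
  have h := (ArithmeticFunction.LSeriesSummable_vonMangoldt (one_lt_re 0)).norm
  refine h.congr fun n => ?_
  exact norm_tm n 0

theorem summable_tm (t : ℝ) : Summable fun n => tm n t :=
  ArithmeticFunction.LSeriesSummable_vonMangoldt (one_lt_re t)

theorem logD (t : ℝ) : logDeriv riemannZeta (2 + t * Complex.I) = -∑' n, tm n t := by
  have h := ArithmeticFunction.LSeries_vonMangoldt_eq_deriv_riemannZeta_div (one_lt_re t)
  have h2 : LSeries (fun n => (ArithmeticFunction.vonMangoldt n : ℂ)) (2 + t * Complex.I)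
      = ∑' n, tm n t := rfl
  rw [h2] at h
  rw [h, logDeriv_apply]
  ring

theorem tm_exp {n : ℕ} (hn : n ≠ 0) (t : ℝ) :
    tm n t = (ArithmeticFunction.vonMangoldt n : ℂ) *
      Complex.exp (-((Real.log n : ℂ) * (2 + t * Complex.I))) := by
  unfold tm
  rw [LSeries.term_def, if_neg hn, Complex.cpow_def_of_ne_zero (Nat.cast_ne_zero.mpr hn),
    ← Complex.natCast_log, Complex.exp_neg, div_eq_mul_inv]

theorem continuous_tm (n : ℕ) : Continuous (tm n) := by
  by_cases hn : n = 0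
  · have : tm n = fun _ => 0 := by
      funext t
      simp [tm, hn, LSeries.term_def]
    rw [this]
    exact continuous_const
  · have : tm n = fun t : ℝ => (ArithmeticFunction.vonMangoldt n : ℂ) *
        Complex.exp (-((Real.log n : ℂ) * (2 + t * Complex.I))) := by
      funext t
      exact tm_exp hn t
    rw [this]
    fun_prop

theorem continuous_D : Continuous fun t : ℝ => ∑' n, tm n t :=
  continuous_tsum continuous_tm summable_cn fun n t => (norm_tm n t).le

/-- bound for `ζ'/ζ` on the line -/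
noncomputable def C0 : ℝ := ∑' n, cn n

theorem C0_nonneg : 0 ≤ C0 := tsum_nonneg cn_nonneg

theorem norm_D (t : ℝ) : ‖∑' n, tm n t‖ ≤ C0 := by
  refine tsum_of_norm_bounded summable_cn.hasSum fun n => (norm_tm n t).le

theorem zOf_line (t : ℝ) : zOf (2 + t * Complex.I) = t - Complex.I * ((3 / 2 : ℝ) : ℂ) := by
  unfold zOf
  rw [div_eq_iff Complex.I_ne_zero]
  have := Complex.I_mul_I
  push_cast
  linear_combination ((3 : ℂ) / 2) * this

theorem ff_line (T Δ u t : ℝ) : ff T Δ u (2 + t * Complex.I) =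
    wt T Δ (t - Complex.I * ((3 / 2 : ℝ) : ℂ)) *
      Complex.exp (u * (3 / 2 + t * Complex.I)) := by
  unfold ff
  rw [zOf_line]
  congr 2
  ring

theorem norm_ff_line (T Δ u t : ℝ) : ‖ff T Δ u (2 + t * Complex.I)‖ =
    ‖wt T Δ (t - Complex.I * ((3 / 2 : ℝ) : ℂ))‖ * Real.exp (3 / 2 * u) := by
  rw [ff_line, norm_mul, Complex.norm_exp]
  congr 2
  simp
  ring

/-- one term, on the whole line -/
theorem integral_tm (hW4 : Wt4St) {T Δ : ℝ} (hT : 0 < T) (hΔ : 0 < Δ) (u : ℝ) (n : ℕ) :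
    ∫ t : ℝ, tm n t * ff T Δ u (2 + t * Complex.I) =
      ((ArithmeticFunction.vonMangoldt n / √(n : ℝ) : ℝ) : ℂ) *
        Wh T Δ (Real.log n - u) := by
  by_cases hn : n = 0
  · subst hn
    have : ∀ t : ℝ, tm 0 t = 0 := fun t => by simp [tm, LSeries.term_def]
    simp [this]
  · have hn0 : (0 : ℝ) < n := by exact_mod_cast Nat.pos_of_ne_zero hn
    have h1 : ∀ t : ℝ, tm n t * ff T Δ u (2 + t * Complex.I) =
        ((ArithmeticFunction.vonMangoldt n : ℂ) *
          Complex.exp (-2 * Real.log n + 3 / 2 * u)) *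
        (wt T Δ (t - Complex.I * ((3 / 2 : ℝ) : ℂ)) *
          Complex.exp (-(Complex.I * ((Real.log n - u : ℝ) : ℂ) * t))) := by
      intro t
      rw [tm_exp hn, ff_line]
      have e1 : Complex.exp (-((Real.log n : ℂ) * (2 + t * Complex.I))) *
          Complex.exp (u * (3 / 2 + t * Complex.I)) =
          Complex.exp (-2 * Real.log n + 3 / 2 * u) *
            Complex.exp (-(Complex.I * ((Real.log n - u : ℝ) : ℂ) * t)) := by
        rw [← Complex.exp_add, ← Complex.exp_add]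
        congr 1
        push_cast
        ring
      calc _ = (ArithmeticFunction.vonMangoldt n : ℂ) *
            wt T Δ (t - Complex.I * ((3 / 2 : ℝ) : ℂ)) *
            (Complex.exp (-((Real.log n : ℂ) * (2 + t * Complex.I))) *
              Complex.exp (u * (3 / 2 + t * Complex.I))) := by ring
        _ = _ := by rw [e1]; ring
    simp only [h1]
    rw [integral_const_mul, (hW4 T Δ (Real.log n - u) (3 / 2) hT hΔ).2, ← mul_assoc]
    congr 1
    have e2 : Complex.exp (-2 * Real.log n + 3 / 2 * u) =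
        ((Real.exp (-2 * Real.log n + 3 / 2 * u) : ℝ) : ℂ) := by
      push_cast
      rfl
    rw [e2]
    have e3 : Real.exp (-2 * Real.log n + 3 / 2 * u) * Real.exp (3 / 2 * (Real.log n - u)) =
        (√(n : ℝ))⁻¹ := by
      rw [← Real.exp_add]
      have e4 : √(n : ℝ) = Real.exp (Real.log n / 2) := by
        rw [Real.exp_half, Real.exp_log hn0]
      rw [e4, ← Real.exp_neg]
      congr 1
      ring
    rw [mul_assoc, ← Complex.ofReal_mul, e3, div_eq_mul_inv]
    push_cast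
    rfl

theorem integrable_ff (hW4 : Wt4St) {T Δ : ℝ} (hT : 0 < T) (hΔ : 0 < Δ) (u : ℝ) :
    Integrable fun t : ℝ => ff T Δ u (2 + t * Complex.I) := by
  have h := (hW4 T Δ 0 (3 / 2) hT hΔ).1
  have h2 : Integrable fun t : ℝ => Complex.exp (u * (3 / 2 + t * Complex.I)) *
      wt T Δ (t - Complex.I * ((3 / 2 : ℝ) : ℂ)) := by
    refine h.bdd_mul (c := Real.exp (3 / 2 * u)) ?_ (Eventually.of_forall fun t => ?_)
    · exact (by fun_prop : Continuous fun t : ℝ =>
        Complex.exp (u * (3 / 2 + t * Complex.I))).aestronglyMeasurable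
    · rw [Complex.norm_exp]
      apply le_of_eq
      congr 1
      simp
      ring
  refine h2.congr (Eventually.of_forall fun t => ?_)
  simp only [ff_line]
  ring

/-- the whole line -/
theorem integral_line (hW4 : Wt4St) {T Δ : ℝ} (hT : 0 < T) (hΔ : 0 < Δ) (u : ℝ) :
    ∫ t : ℝ, logDeriv riemannZeta (2 + t * Complex.I) * ff T Δ u (2 + t * Complex.I) =
      -∑' n : ℕ, ((ArithmeticFunction.vonMangoldt n / √(n : ℝ) : ℝ) : ℂ) *
        Wh T Δ (Real.log n - u) := by
  have hint := integrable_ff hW4 hT hΔ u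
  have h1 : HasSum (fun n => ∫ t : ℝ, tm n t * ff T Δ u (2 + t * Complex.I))
      (∫ t : ℝ, ∑' n, tm n t * ff T Δ u (2 + t * Complex.I)) := by
    refine hasSum_integral_of_summable_integral_norm (fun n => ?_) ?_
    · exact hint.bdd_mul (c := cn n) (continuous_tm n).aestronglyMeasurable
        (Eventually.of_forall fun t => (norm_tm n t).le)
    · have h2 : ∀ n, ∫ t : ℝ, ‖tm n t * ff T Δ u (2 + t * Complex.I)‖ =
          cn n * ∫ t : ℝ, ‖ff T Δ u (2 + t * Complex.I)‖ := by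
        intro n
        rw [← integral_const_mul]
        refine integral_congr_ae (Eventually.of_forall fun t => ?_)
        simp only [norm_mul, norm_tm]
      simp only [h2]
      exact summable_cn.mul_right _
  have h3 : ∀ t : ℝ, logDeriv riemannZeta (2 + t * Complex.I) *
      ff T Δ u (2 + t * Complex.I) = -∑' n, tm n t * ff T Δ u (2 + t * Complex.I) := by
    intro t
    rw [logD, tsum_mul_right, neg_mul]
  simp only [h3]
  rw [integral_neg, ← h1.tsum_eq]
  congr 1
  refine tsum_congr fun n => ?_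
  exact integral_tm hW4 hT hΔ u n

/-- a Gaussian tail -/
theorem tail_bound {S : Set ℝ} (hS : MeasurableSet S) {f : ℝ → ℂ} {A a Δ : ℝ} (hA : 0 ≤ A)
    (hΔ : 0 < Δ) (h : ∀ t ∈ S, ‖f t‖ ≤ A * Real.exp (-(1 / Δ ^ 2) * (a - t) ^ 2)) :
    ‖∫ t in S, f t‖ ≤ A * (√Real.pi * Δ) := by
  have hb : 0 < 1 / Δ ^ 2 := by positivity
  have hint : Integrable fun t : ℝ => A * Real.exp (-(1 / Δ ^ 2) * (a - t) ^ 2) :=
    ((integrable_exp_neg_mul_sq hb).comp_sub_left a).const_mul A
  have h1 : ‖∫ t in S, f t‖ ≤ ∫ t in S, A * Real.exp (-(1 / Δ ^ 2) * (a - t) ^ 2) :=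
    norm_integral_le_of_norm_le hint.integrableOn
      ((ae_restrict_iff' hS).mpr (Eventually.of_forall h))
  have h2 : ∫ t in S, A * Real.exp (-(1 / Δ ^ 2) * (a - t) ^ 2) ≤
      ∫ t, A * Real.exp (-(1 / Δ ^ 2) * (a - t) ^ 2) :=
    setIntegral_le_integral hint (Eventually.of_forall fun t => by positivity)
  refine h1.trans (h2.trans (le_of_eq ?_))
  rw [integral_const_mul,
    integral_sub_left_eq_self (fun t => Real.exp (-(1 / Δ ^ 2) * t ^ 2)) volume a,
    integral_gaussian]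
  congr 1
  rw [div_div_eq_mul_div, div_one, Real.sqrt_mul Real.pi_pos.le, Real.sqrt_sq hΔ.le]

theorem tendsto_small {c : ℝ} (hc : 0 < c) :
    Tendsto (fun T : ℝ => T ^ (5 / 2 : ℝ) * Real.exp (-T ^ c)) atTop (𝓝 0) := by
  have h1 := tendsto_rpow_mul_exp_neg_mul_atTop_nhds_zero (5 / 2 / c) 1 one_pos
  have h2 := h1.comp (tendsto_rpow_atTop hc)
  refine h2.congr' ?_
  filter_upwards [eventually_gt_atTop (0 : ℝ)] with T hT
  simp only [Function.comp]
  rw [← Real.rpow_mul hT.le]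
  congr 2
  · field_simp
  · ring

theorem epr (hW1 : Wt1St) (hW4 : Wt4St) : EPrSt := by
  intro b ε hb hb1 hε
  have hd : 0 < dl b := by
    unfold dl
    linarith
  set M : ℝ := C0 * (Real.exp (9 / 4) * √Real.pi) with hM
  have hM0 : 0 ≤ M := mul_nonneg C0_nonneg (by positivity)
  have hev : ∀ᶠ T : ℝ in atTop, 2 * M * (T ^ (5 / 2 : ℝ) * Real.exp (-T ^ (2 * dl b))) ≤ ε := by
    have h1 := (tendsto_small (c := 2 * dl b) (by positivity)).const_mul (2 * M)
    rw [mul_zero] at h1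
    filter_upwards [h1.eventually (gt_mem_nhds hε)] with T hT
    exact hT.le
  obtain ⟨T₀, hT₀⟩ := eventually_atTop.mp hev
  refine ⟨max T₀ 1, fun T hT T₁ T₂ hR u hu => ?_⟩
  have hT1 : 1 ≤ T := (le_max_right _ _).trans hT
  have hTp : 0 < T := by linarith
  have hΔ1 : 1 ≤ Dl b T := Real.one_le_rpow hT1 (by linarith)
  set Δ := Dl b T with hΔdef
  have hΔ : 0 < Δ := by linarith
  have hH : 0 < Hh b T := Real.rpow_pos_of_pos hTp _
  set H := Hh b T with hHdef
  have hHΔ : H ^ 2 / Δ ^ 2 = T ^ (2 * dl b) := by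
    rw [← div_pow, hHdef, hΔdef, Hh, Dl, ← Real.rpow_sub hTp, ← Real.rpow_natCast,
      ← Real.rpow_mul hTp.le]
    congr 1
    unfold dl
    push_cast
    ring
  obtain ⟨-, hR1, hR2, -⟩ := hR
  have hint := integrable_ff hW4 hTp hΔ u
  set f : ℝ → ℂ := fun t => logDeriv riemannZeta (2 + t * Complex.I) *
    ff T Δ u (2 + t * Complex.I) with hf
  have hfint : Integrable f := by
    have h1 : Integrable fun t : ℝ => (∑' n, tm n t) * ff T Δ u (2 + t * Complex.I) :=
      hint.bdd_mul (c := C0) continuous_D.aestronglyMeasurable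
        (Eventually.of_forall fun t => norm_D t)
    refine h1.neg.congr (Eventually.of_forall fun t => ?_)
    simp only [hf, logD, Pi.neg_apply]
    ring
  -- the bound of the integrand
  have hexp : Real.exp (3 / 2 * u) ≤ T ^ (3 / 2 : ℝ) := by
    rw [Real.rpow_def_of_pos hTp]
    refine Real.exp_le_exp.mpr ?_
    have := (abs_le.mp hu).2
    linarith
  set A : ℝ := C0 * (T / Δ * (Real.exp (9 / 4) * Real.exp (-T ^ (2 * dl b)))) *
    T ^ (3 / 2 : ℝ) with hA
  have hA0 : 0 ≤ A := by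
    have := C0_nonneg
    positivity
  have hfb : ∀ t a : ℝ, ∀ q : ℝ, H ^ 2 + (a - t) ^ 2 ≤ q ^ 2 →
      ‖wt T Δ (t - Complex.I * ((3 / 2 : ℝ) : ℂ))‖ ≤
        T / Δ * Real.exp ((9 / 4) / Δ ^ 2 - q ^ 2 / Δ ^ 2) →
      ‖f t‖ ≤ A * Real.exp (-(1 / Δ ^ 2) * (a - t) ^ 2) := by
    intro t a q hq hw
    have h1 : ‖f t‖ ≤ C0 * (‖wt T Δ (t - Complex.I * ((3 / 2 : ℝ) : ℂ))‖ *
        Real.exp (3 / 2 * u)) := by
      simp only [hf]
      rw [norm_mul, norm_ff_line, logD, norm_neg]
      exact mul_le_mul_of_nonneg_right (norm_D t) (by positivity)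
    have h2 : Real.exp ((9 / 4) / Δ ^ 2 - q ^ 2 / Δ ^ 2) ≤
        Real.exp (9 / 4) * Real.exp (-T ^ (2 * dl b)) *
          Real.exp (-(1 / Δ ^ 2) * (a - t) ^ 2) := by
      rw [← Real.exp_add, ← Real.exp_add]
      refine Real.exp_le_exp.mpr ?_
      rw [← hHΔ]
      have h3 : (9 / 4 : ℝ) / Δ ^ 2 ≤ 9 / 4 := by
        refine div_le_self (by norm_num) ?_
        exact one_le_pow₀ hΔ1
      have h4 : H ^ 2 / Δ ^ 2 + (a - t) ^ 2 / Δ ^ 2 ≤ q ^ 2 / Δ ^ 2 := by
        rw [← add_div]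
        exact div_le_div_of_nonneg_right hq (by positivity)
      have h5 : -(1 / Δ ^ 2) * (a - t) ^ 2 = -((a - t) ^ 2 / Δ ^ 2) := by ring
      rw [h5]
      linarith
    have h6 : ‖wt T Δ (t - Complex.I * ((3 / 2 : ℝ) : ℂ))‖ ≤
        T / Δ * (Real.exp (9 / 4) * Real.exp (-T ^ (2 * dl b)) *
          Real.exp (-(1 / Δ ^ 2) * (a - t) ^ 2)) :=
      hw.trans (mul_le_mul_of_nonneg_left h2 (by positivity))
    calc ‖f t‖ ≤ C0 * (‖wt T Δ (t - Complex.I * ((3 / 2 : ℝ) : ℂ))‖ *
        Real.exp (3 / 2 * u)) := h1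
      _ ≤ C0 * (T / Δ * (Real.exp (9 / 4) * Real.exp (-T ^ (2 * dl b)) *
          Real.exp (-(1 / Δ ^ 2) * (a - t) ^ 2)) * T ^ (3 / 2 : ℝ)) := by
          refine mul_le_mul_of_nonneg_left ?_ C0_nonneg
          exact mul_le_mul h6 hexp (Real.exp_pos _).le (by positivity)
      _ = A * Real.exp (-(1 / Δ ^ 2) * (a - t) ^ 2) := by
          rw [hA]
          ring
  have hre : ∀ t : ℝ, ((t : ℂ) - Complex.I * ((3 / 2 : ℝ) : ℂ)).re = t := by
    intro t
    simp
  have him : ∀ t : ℝ, ((t : ℂ) - Complex.I * ((3 / 2 : ℝ) : ℂ)).im ^ 2 = 9 / 4 := by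
    intro t
    simp
    norm_num
  obtain ⟨-, -, -, -, hwl, hwr, -⟩ := hW1 T Δ hTp hΔ
  have hl : ‖∫ t in Set.Iic T₁, f t‖ ≤ A * (√Real.pi * Δ) := by
    refine tail_bound measurableSet_Iic hA0 hΔ (a := T - H) fun t ht => ?_
    have ht' : t ≤ T₁ := ht
    refine hfb t (T - H) (T - t) ?_ ?_
    · have h7 : 0 ≤ T - H - t := by linarith
      nlinarith [mul_nonneg hH.le h7]
    · have h8 := hwl ((t : ℂ) - Complex.I * ((3 / 2 : ℝ) : ℂ)) (by rw [hre]; linarith)
      rw [hre, him] at h8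
      exact h8
  have hr : ‖∫ t in Set.Ioi T₂, f t‖ ≤ A * (√Real.pi * Δ) := by
    refine tail_bound measurableSet_Ioi hA0 hΔ (a := 2 * T + H) fun t ht => ?_
    have ht' : T₂ < t := ht
    refine hfb t (2 * T + H) (t - 2 * T) ?_ ?_
    · have h7 : 0 ≤ t - (2 * T + H) := by linarith
      nlinarith [mul_nonneg hH.le h7]
    · have h8 := hwr ((t : ℂ) - Complex.I * ((3 / 2 : ℝ) : ℂ)) (by rw [hre]; linarith)
      rw [hre, him] at h8
      exact h8
  -- splitting
  have hsplit : (∫ t in T₁..T₂, f t) =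
      (∫ t, f t) - (∫ t in Set.Iic T₁, f t) - ∫ t in Set.Ioi T₂, f t := by
    have h1 := intervalIntegral.integral_Iic_sub_Iic (a := T₁) (b := T₂) (f := f)
      (μ := volume) hfint.integrableOn hfint.integrableOn
    have h2 := intervalIntegral.integral_Iic_add_Ioi (b := T₂) (f := f) (μ := volume)
      hfint.integrableOn hfint.integrableOn
    rw [← h1, ← h2]
    ring
  have hline := integral_line hW4 hTp hΔ u
  have hfin : (∫ t in T₁..T₂, f t) +
      ∑' n : ℕ, ((ArithmeticFunction.vonMangoldt n / √(n : ℝ) : ℝ) : ℂ) *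
        Wh T Δ (Real.log n - u) =
      -((∫ t in Set.Iic T₁, f t) + ∫ t in Set.Ioi T₂, f t) := by
    rw [hsplit, hline]
    ring
  have hgoal : ‖(∫ t in T₁..T₂, f t) +
      ∑' n : ℕ, ((ArithmeticFunction.vonMangoldt n / √(n : ℝ) : ℝ) : ℂ) *
        Wh T Δ (Real.log n - u)‖ ≤ ε := by
    rw [hfin, norm_neg]
    refine (norm_add_le _ _).trans ((add_le_add hl hr).trans ?_)
    have h9 := hT₀ T ((le_max_left _ _).trans hT)
    refine le_trans (le_of_eq ?_) h9
    have h10 : T ^ (5 / 2 : ℝ) = T * T ^ (3 / 2 : ℝ) := by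
      rw [show (5 / 2 : ℝ) = 1 + 3 / 2 by norm_num, Real.rpow_add hTp, Real.rpow_one]
    rw [hA, hM, h10]
    field_simp
    ring
  exact hgoal

end Pool.Agent.H46.MT.EPr
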