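import Pool.Agent.H46.MT.Defs

/-!
# Few zeros near the edges
-/

open Filter

namespace Pool.Agent.H46.MT.Edge

/-- the zero count is subadditive -/
lemma zeroCount_add_le (a b c : ℝ) : zeroCount a c ≤ zeroCount a b + zeroCount b c := by
  classical
  rw [zeroCount_eq, zeroCount_eq, zeroCount_eq]
  have hsub : Zf a c ⊆ Zf a b ∪ Zf b c := by
    intro ρ hρ
    rw [mem_Zf] at hρ
    obtain ⟨h0, h1, h2, h3, h4⟩ := hρ
    rw [Finset.mem_union, mem_Zf, mem_Zf]
    rcases le_or_gt ρ.im b with h | h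
    · exact Or.inl ⟨h0, h1, h2, h3, h⟩
    · exact Or.inr ⟨h0, h1, h2, h, h4⟩
  refine (Finset.sum_le_sum_of_subset hsub).trans ?_
  have := Finset.sum_union_inter (s₁ := Zf a b) (s₂ := Zf b c) (f := mult)
  omega

lemma zeroCount_mono {a c c' : ℝ} (h : c ≤ c') : zeroCount a c ≤ zeroCount a c' := by
  classical
  rw [zeroCount_eq, zeroCount_eq]
  refine Finset.sum_le_sum_of_subset ?_
  intro ρ hρ
  rw [mem_Zf] at hρ ⊢
  obtain ⟨h0, h1, h2, h3, h4⟩ := hρ
  exact ⟨h0, h1, h2, h3, h4.trans h⟩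

lemma zeroCount_nat {C t₀ : ℝ} (hC : 0 < C) (ht₀ : 2 ≤ t₀)
    (h : ∀ t : ℝ, t₀ ≤ t → (zeroCount t (t + 1) : ℝ) ≤ C * Real.log t)
    (a : ℝ) (ha : t₀ ≤ a) (M : ℝ) (n : ℕ) (hn : a + n ≤ M) :
    (zeroCount a (a + n) : ℝ) ≤ n * (C * Real.log M) := by
  induction n with
  | zero =>
    have : Zf a (a + (0 : ℕ)) = ∅ := by
      apply Finset.eq_empty_of_forall_notMem
      intro ρ hρ
      rw [mem_Zf] at hρ
      obtain ⟨-, -, -, h3, h4⟩ := hρ
      simp at h4
      linarith
    rw [zeroCount_eq, this]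
    simp
  | succ n ih =>
    have hn' : a + n + 1 ≤ M := by push_cast at hn; linarith
    have h1 := ih (by linarith)
    have h2 := h (a + n) (by have : (0 : ℝ) ≤ n := Nat.cast_nonneg n; linarith)
    have h3 : Real.log (a + n) ≤ Real.log M := by
      have h0 : (0 : ℝ) ≤ n := Nat.cast_nonneg n
      exact Real.log_le_log (by linarith) (by linarith)
    have h4 : (zeroCount a (a + n + 1) : ℝ) ≤
        (zeroCount a (a + n) : ℝ) + (zeroCount (a + n) (a + n + 1) : ℝ) := by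
      exact_mod_cast zeroCount_add_le a (a + n) (a + n + 1)
    have h5 : a + ((n + 1 : ℕ) : ℝ) = a + n + 1 := by push_cast; ring
    rw [h5]
    push_cast
    have h6 : C * Real.log (a + n) ≤ C * Real.log M := mul_le_mul_of_nonneg_left h3 hC.le
    linarith

/-- the bound for one window -/
lemma window {C t₀ : ℝ} (hC : 0 < C) (ht₀ : 2 ≤ t₀)
    (h : ∀ t : ℝ, t₀ ≤ t → (zeroCount t (t + 1) : ℝ) ≤ C * Real.log t)
    {T H X : ℝ} (hT : 4 ≤ T) (hH : 1 ≤ H) (hX : t₀ ≤ X - 2 * H) (hX' : X + 2 * H + 1 ≤ 4 * T) :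
    (zeroCount (X - 2 * H) (X + 2 * H) : ℝ) ≤ 10 * C * H * Real.log T := by
  set n : ℕ := ⌈4 * H⌉₊ with hn
  have hn1 : 4 * H ≤ n := Nat.le_ceil _
  have hn2 : (n : ℝ) < 4 * H + 1 := Nat.ceil_lt_add_one (by linarith)
  have h1 : (zeroCount (X - 2 * H) (X + 2 * H) : ℝ) ≤ zeroCount (X - 2 * H) (X - 2 * H + n) := by
    exact_mod_cast zeroCount_mono (by linarith)
  have h2 := zeroCount_nat hC ht₀ h (X - 2 * H) hX (4 * T) n (by linarith)
  have hlog : Real.log (4 * T) ≤ 2 * Real.log T := by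
    have : Real.log (4 * T) ≤ Real.log (T ^ 2) := Real.log_le_log (by linarith) (by nlinarith)
    rwa [Real.log_pow, Nat.cast_ofNat] at this
  have hlogT : 0 ≤ Real.log T := Real.log_nonneg (by linarith)
  have hlog4 : 0 ≤ Real.log (4 * T) := Real.log_nonneg (by linarith)
  have h3 : (n : ℝ) * (C * Real.log (4 * T)) ≤ (5 * H) * (C * (2 * Real.log T)) := by
    gcongr
    linarith
  calc (zeroCount (X - 2 * H) (X + 2 * H) : ℝ) ≤ n * (C * Real.log (4 * T)) := h1.trans h2
    _ ≤ (5 * H) * (C * (2 * Real.log T)) := h3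
    _ = 10 * C * H * Real.log T := by ring

end Pool.Agent.H46.MT.Edge

namespace Pool.Agent.H46.MT

theorem edge (hL : LocSt) : EdgeSt := by
  obtain ⟨C, t₀, hC, ht₀, h⟩ := hL
  intro b η hb0 hb1 hη
  have hd : 0 < dl b := by unfold dl; linarith
  have hd1 : dl b < 1 := by unfold dl; linarith
  have hlim : Tendsto (fun T : ℝ => T ^ (-(dl b))) atTop (nhds 0) := tendsto_rpow_neg_atTop hd
  have hpos : 0 < min (1 / 8) (η / (20 * Real.pi * C)) := by
    have := Real.pi_pos
    positivity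
  have h1 := hlim.eventually_lt_const hpos
  obtain ⟨T₀, hT₀⟩ := eventually_atTop.1
    (h1.and ((eventually_ge_atTop (4 : ℝ)).and (eventually_ge_atTop (2 * t₀))))
  refine ⟨T₀, fun T hT => ?_⟩
  obtain ⟨h2, h3, h4⟩ := hT₀ T hT
  have hT0 : 0 < T := by linarith
  have hHeq : Hh b T = T * T ^ (-(dl b)) := by
    unfold Hh
    rw [sub_eq_add_neg, Real.rpow_add hT0, Real.rpow_one]
  have hH1 : 1 ≤ Hh b T := by
    unfold Hh
    exact Real.one_le_rpow (by linarith) (by linarith)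
  have h5 : T ^ (-(dl b)) ≤ 1 / 8 := h2.le.trans (min_le_left _ _)
  have h6 : T ^ (-(dl b)) ≤ η / (20 * Real.pi * C) := h2.le.trans (min_le_right _ _)
  have hH8 : Hh b T ≤ T / 8 := by
    rw [hHeq]
    nlinarith
  have hlogT : 0 ≤ Real.log T := Real.log_nonneg (by linarith)
  have hfin : 10 * C * Hh b T * Real.log T ≤ η * (T * Real.log T / (2 * Real.pi)) := by
    have hpi := Real.pi_pos
    have h7 : Hh b T ≤ T * (η / (20 * Real.pi * C)) := by
      rw [hHeq]
      exact mul_le_mul_of_nonneg_left h6 hT0.le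
    calc 10 * C * Hh b T * Real.log T ≤
        10 * C * (T * (η / (20 * Real.pi * C))) * Real.log T := by gcongr
      _ = η * (T * Real.log T / (2 * Real.pi)) := by
        field_simp
        ring
  constructor
  · exact (Edge.window hC ht₀ h h3 hH1 (by linarith) (by linarith)).trans hfin
  · exact (Edge.window hC ht₀ h h3 hH1 (by linarith) (by linarith)).trans hfin

end Pool.Agent.H46.MT
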