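import Pool.Agent.H46.MT.Defs

/-!
# Final assembly for MP_cb7589_nt
-/

namespace Pool.Agent.H46.MT.Final

open MeasureTheory Filter Topology
open scoped ComplexConjugate

/-- inverse of `zOf` -/
noncomputable def rOf (z : ℂ) : ℂ := 1 / 2 + Complex.I * z

theorem rOf_zOf (ρ : ℂ) : rOf (zOf ρ) = ρ := by
  unfold rOf zOf
  field_simp
  ring

theorem zOf_rOf (z : ℂ) : zOf (rOf z) = z := by
  unfold rOf zOf
  field_simp
  ring

theorem zOf_inj : Function.Injective zOf := fun a b h => by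
  rw [← rOf_zOf a, ← rOf_zOf b, h]

theorem zOf_eq (ρ : ℂ) : zOf ρ = ρ.im - Complex.I * (ρ.re - 1 / 2) := by
  unfold zOf
  rw [div_eq_iff Complex.I_ne_zero]
  apply Complex.ext <;> simp <;> ring

theorem zOf_re (ρ : ℂ) : (zOf ρ).re = ρ.im := by
  rw [zOf_eq]; simp

theorem zOf_im (ρ : ℂ) : (zOf ρ).im = 1 / 2 - ρ.re := by
  rw [zOf_eq]; simp

theorem conj_zOf (ρ : ℂ) : conj (zOf ρ) = zOf (1 - conj ρ) := by
  apply Complex.ext
  · rw [Complex.conj_re, zOf_re, zOf_re]; simp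
  · rw [Complex.conj_im, zOf_im, zOf_im]; simp; ring

/-- the zeros in the `z` coordinate -/
noncomputable def ZZ (T₁ T₂ : ℝ) : Finset ℂ := (Zf T₁ T₂).image zOf

theorem mem_ZZ {T₁ T₂ : ℝ} {z : ℂ} : z ∈ ZZ T₁ T₂ ↔ rOf z ∈ zeroSet T₁ T₂ := by
  unfold ZZ
  rw [Finset.mem_image]
  constructor
  · rintro ⟨ρ, h, rfl⟩
    rw [rOf_zOf]
    exact mem_Zf.mp h
  · intro h
    exact ⟨rOf z, mem_Zf.mpr h, zOf_rOf z⟩

noncomputable def mz (z : ℂ) : ℕ := mult (rOf z)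

theorem sum_ZZ (T₁ T₂ : ℝ) (f : ℂ → ℝ) :
    ∑ z ∈ ZZ T₁ T₂, f z = ∑ ρ ∈ Zf T₁ T₂, f (zOf ρ) :=
  Finset.sum_image (fun a _ b _ h => zOf_inj h)

theorem zeroCount_ZZ (T₁ T₂ : ℝ) :
    (zeroCount T₁ T₂ : ℝ) = ∑ z ∈ ZZ T₁ T₂, (mz z : ℝ) := by
  rw [sum_ZZ, zeroCount_eq]
  push_cast
  refine Finset.sum_congr rfl fun ρ _ => ?_
  unfold mz
  rw [rOf_zOf]

theorem pairSum_ZZ (b T T₁ T₂ : ℝ) :
    pairSum b T T₁ T₂ = ∑ z ∈ ZZ T₁ T₂, ∑ z' ∈ ZZ T₁ T₂, (mz z : ℂ) * (mz z' : ℂ) *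
      (wt T (Dl b T) z * wt T (Dl b T) z') * K (((b * Real.log T : ℝ) : ℂ) * (z - z')) ^ 2 := by
  unfold pairSum ZZ
  rw [Finset.sum_image (fun a _ b _ h => zOf_inj h)]
  refine Finset.sum_congr rfl fun ρ _ => ?_
  rw [Finset.sum_image (fun a _ b _ h => zOf_inj h)]
  refine Finset.sum_congr rfl fun ρ' _ => ?_
  unfold mz
  rw [rOf_zOf, rOf_zOf]

theorem rOf_re (z : ℂ) : (rOf z).re = 1 / 2 - z.im := by
  unfold rOf; simp; ring

theorem rOf_im (z : ℂ) : (rOf z).im = z.re := by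
  unfold rOf; simp

theorem mem_ZZ' {T₁ T₂ : ℝ} {z : ℂ} : z ∈ ZZ T₁ T₂ ↔
    riemannZeta (rOf z) = 0 ∧ |z.im| < 1 / 2 ∧ T₁ < z.re ∧ z.re ≤ T₂ := by
  rw [mem_ZZ]
  unfold zeroSet
  simp only [Set.mem_setOf_eq, rOf_re, rOf_im, abs_lt]
  constructor
  · rintro ⟨h0, h1, h2, h3, h4⟩
    exact ⟨h0, ⟨by linarith, by linarith⟩, h3, h4⟩
  · rintro ⟨h0, ⟨h1, h2⟩, h3, h4⟩
    exact ⟨h0, by linarith, by linarith, h3, h4⟩

/-- The interior part. -/
noncomputable def II (T H T₁ T₂ : ℝ) : Finset ℂ :=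
  (ZZ T₁ T₂).filter (fun z => T + H < z.re ∧ z.re ≤ 2 * T - H)

theorem mem_II {T H T₁ T₂ : ℝ} {z : ℂ} : z ∈ II T H T₁ T₂ ↔
    z ∈ ZZ T₁ T₂ ∧ T + H < z.re ∧ z.re ≤ 2 * T - H := by
  unfold II
  rw [Finset.mem_filter]

/-- The simple real interior points. -/
noncomputable def SI (T H T₁ T₂ : ℝ) : Finset ℂ :=
  (II T H T₁ T₂).filter (fun z => z.im = 0 ∧ mz z = 1)

theorem mem_SI {T H T₁ T₂ : ℝ} {z : ℂ} : z ∈ SI T H T₁ T₂ ↔
    z ∈ II T H T₁ T₂ ∧ z.im = 0 ∧ mz z = 1 := by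
  unfold SI
  rw [Finset.mem_filter]

theorem simpleSet_sub (T₁ T₂ : ℝ) : simpleSet T₁ T₂ ⊆ zeroSet T₁ T₂ := fun _ h => h.1

theorem SI_card_le {T H T₁ T₂ : ℝ} (hH : 0 ≤ H) :
    (SI T H T₁ T₂).card ≤ simpleCount T (2 * T) := by
  unfold simpleCount
  rw [Set.ncard_eq_toFinset_card _ ((zeroSet_finite _ _).subset (simpleSet_sub _ _))]
  refine Finset.card_le_card_of_injOn rOf ?_ ?_
  · intro z hz
    have hz' := mem_SI.mp (Finset.mem_coe.mp hz)
    obtain ⟨h1, h2, h3⟩ := hz'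
    obtain ⟨h4, h5, h6⟩ := mem_II.mp h1
    obtain ⟨h7, h8, h9, h10⟩ := mem_ZZ'.mp h4
    rw [Finset.mem_coe, Set.Finite.mem_toFinset]
    refine ⟨⟨h7, ?_, ?_, ?_, ?_⟩, ?_, h3⟩
    · rw [rOf_re, h2]; norm_num
    · rw [rOf_re, h2]; norm_num
    · rw [rOf_im]; linarith
    · rw [rOf_im]; linarith
    · rw [rOf_re, h2]; norm_num
  · intro a _ b _ h
    have := congrArg zOf h
    rwa [zOf_rOf, zOf_rOf] at this

theorem card_le_zeroCount {T₁ T₂ : ℝ} (hZ : ZSymSt) (hT1 : 0 ≤ T₁) :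
    ((Zf T₁ T₂).card : ℝ) ≤ zeroCount T₁ T₂ := by
  rw [zeroCount_eq]
  have : (Zf T₁ T₂).card ≤ ∑ ρ ∈ Zf T₁ T₂, mult ρ := by
    rw [Finset.card_eq_sum_ones]
    exact Finset.sum_le_sum fun ρ hρ => (hZ T₁ T₂ hT1 ρ (mem_Zf.mp hρ)).2.2
  exact_mod_cast this

theorem sum_union_le' (A B : Finset ℂ) (f : ℂ → ℝ) (hf : ∀ z, 0 ≤ f z) :
    ∑ z ∈ A ∪ B, f z ≤ ∑ z ∈ A, f z + ∑ z ∈ B, f z := by
  classical
  have := Finset.sum_union_inter (s₁ := A) (s₂ := B) (f := f)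
  have h : 0 ≤ ∑ z ∈ A ∩ B, f z := Finset.sum_nonneg fun z _ => hf z
  linarith

/-- one application of the linear algebra inequality for a single `T` -/
theorem step (hLAz : LAzSt) (hC : CombSt) (hZ : ZSymSt) (hW : Wt1St)
    {c₀ b ε T T₁ T₂ : ℝ} (hc : 0 < c₀) (hKS : KStab c₀) (hb : 0 < b) (hb1 : b ≤ 1)
    (hε : 0 < ε) (hε4 : ε ≤ 1 / 4) (hT : 1 < T) (hΔ : 1 ≤ Dl b T) (hH : 0 < Hh b T)
    (hT1 : 0 ≤ T - 2 * Hh b T) (hRng : Rng b T T₁ T₂)
    (hsm : 2 * Real.exp (1 / 4 - Hh b T ^ 2 / Dl b T ^ 2) ≤ ε) :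
    ∃ Bd : ℝ, (simpleCount T (2 * T) : ℝ) - 2 * (T * Real.log T / (8 * Real.pi) + 1) ≤
        Bd + ((zeroCount (T - 2 * Hh b T) (T + 2 * Hh b T) : ℝ) +
        (zeroCount (2 * T - 2 * Hh b T) (2 * T + 2 * Hh b T) : ℝ)) ∧ 0 ≤ Bd ∧
      (2 - 7 * ε) * ((zeroCount T (2 * T) : ℝ) -
        ((zeroCount (T - 2 * Hh b T) (T + 2 * Hh b T) : ℝ) +
        (zeroCount (2 * T - 2 * Hh b T) (2 * T + 2 * Hh b T) : ℝ))) -
        (simpleCount T (2 * T) : ℝ) + c₀ ^ 2 / 2 * Bd -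
        10 * ((zeroCount (T - 2 * Hh b T) (T + 2 * Hh b T) : ℝ) +
        (zeroCount (2 * T - 2 * Hh b T) (2 * T + 2 * Hh b T) : ℝ)) ≤
      (pairSum b T T₁ T₂).re := by
  classical
  obtain ⟨hR1, hR2, hR3, hR4⟩ := hRng
  set H := Hh b T with hHdef
  set Δ := Dl b T with hΔdef
  have hT0 : 0 < T := by linarith
  have hΔ0 : 0 < Δ := by linarith
  obtain ⟨hw1, hw2, hw3, hw4, -, -, hw7⟩ := hW T Δ hT0 hΔ0
  have hT1' : 0 ≤ T₁ := by linarith
  -- the real parts of simple interior points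
  set S : Finset ℝ := (SI T H T₁ T₂).image Complex.re with hS
  have hSre : ∀ z ∈ SI T H T₁ T₂, ((z.re : ℝ) : ℂ) = z := by
    intro z hz
    apply Complex.ext
    · simp
    · simp [(mem_SI.mp hz).2.1]
  have hScard : S.card = (SI T H T₁ T₂).card := by
    rw [hS]
    refine Finset.card_image_of_injOn ?_
    intro a ha b' hb' h
    rw [← hSre a ha, ← hSre b' hb', h]
  have hSrange : ∀ x ∈ S, T < x ∧ x ≤ 2 * T := by
    intro x hx
    obtain ⟨z, hz, rfl⟩ := Finset.mem_image.mp hx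
    obtain ⟨h1, -, -⟩ := mem_SI.mp hz
    obtain ⟨-, h5, h6⟩ := mem_II.mp h1
    exact ⟨by linarith, by linarith⟩
  obtain ⟨B, hBS, hBbad, hBcard⟩ := hC c₀ b (Real.log T) T S hc hKS hb hb1
    (Real.log_pos hT) hT0 hSrange
  have hSmem : ∀ x ∈ S, (x : ℂ) ∈ SI T H T₁ T₂ := by
    intro x hx
    obtain ⟨z, hz, rfl⟩ := Finset.mem_image.mp hx
    rw [hSre z hz]
    exact hz
  set Bd : Finset ℂ := B.image (fun x : ℝ => (x : ℂ)) with hBd
  have hBdcard : Bd.card = B.card :=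
    Finset.card_image_of_injective _ Complex.ofReal_injective
  have hBdI : Bd ⊆ II T H T₁ T₂ := by
    intro z hz
    obtain ⟨x, hx, rfl⟩ := Finset.mem_image.mp hz
    exact (mem_SI.mp (hSmem x (hBS hx))).1
  have key := hLAz (ZZ T₁ T₂) (II T H T₁ T₂) Bd mz (wt T Δ) (b * Real.log T) ε c₀ hε hε4 hc.le
    (Finset.filter_subset _ _) hBdI
    (by
      intro z hz
      have hz' := mem_ZZ.mp hz
      obtain ⟨h1, h2, h3⟩ := hZ T₁ T₂ hT1' _ hz'
      have hcz : conj z = zOf (1 - conj (rOf z)) := by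
        rw [← conj_zOf, zOf_rOf]
      refine ⟨?_, ?_, h3, hw2 z⟩
      · rw [mem_ZZ, hcz, rOf_zOf]
        exact h1
      · unfold mz
        rw [hcz, rOf_zOf, h2])
    (by
      intro z hz
      obtain ⟨h4, h5, h6⟩ := mem_II.mp hz
      obtain ⟨-, h8, -, -⟩ := mem_ZZ'.mp h4
      refine (hw7 z H hH h5.le h6).trans ((mul_le_mul_of_nonneg_left (Real.exp_le_exp.mpr ?_)
        (by norm_num)).trans hsm)
      have h9 : z.im ^ 2 ≤ 1 / 4 := by
        have := abs_lt.mp h8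
        nlinarith [this.1, this.2]
      have h10 : z.im ^ 2 / Δ ^ 2 ≤ 1 / 4 := by
        rw [div_le_iff₀ (by positivity)]
        have : 1 ≤ Δ ^ 2 := by nlinarith
        nlinarith
      linarith)
    (by
      intro z hz
      obtain ⟨-, h8, -, -⟩ := mem_ZZ'.mp hz
      refine (hw4 z).trans ?_
      have h9 : z.im ^ 2 ≤ 1 / 4 := by
        have := abs_lt.mp h8
        nlinarith [this.1, this.2]
      have h10 : z.im ^ 2 / Δ ^ 2 ≤ 1 / 4 := by
        rw [div_le_iff₀ (by positivity)]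
        have : 1 ≤ Δ ^ 2 := by nlinarith
        nlinarith
      have h11 : Real.exp (z.im ^ 2 / Δ ^ 2) ≤ Real.exp (1 / 2) :=
        Real.exp_le_exp.mpr (by linarith)
      refine h11.trans ?_
      have h12 : Real.exp (1 / 2) ^ 2 ≤ 2 ^ 2 := by
        rw [← Real.exp_nat_mul]
        norm_num
        have := Real.exp_one_lt_d9
        linarith
      exact (sq_le_sq₀ (Real.exp_pos _).le (by norm_num)).mp h12)
    (by
      intro z hz him
      have hzr : ((z.re : ℝ) : ℂ) = z := by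
        apply Complex.ext
        · simp
        · simp [him]
      obtain ⟨r, h1, h2, h3⟩ := hw3 z.re
      refine ⟨r, h1, h2, ?_⟩
      rw [← hzr]
      exact h3)
    (by
      intro z hz
      obtain ⟨x, hx, rfl⟩ := Finset.mem_image.mp hz
      obtain ⟨y, hy, hyx, hcy⟩ := hBbad x hx
      obtain ⟨-, h2, h3⟩ := mem_SI.mp (hSmem x (hBS hx))
      obtain ⟨g1, g2, g3⟩ := mem_SI.mp (hSmem y hy)
      exact ⟨h2, h3, (y : ℂ), g1, g2, g3, fun h => hyx (Complex.ofReal_injective h), hcy⟩)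
  rw [← pairSum_ZZ] at key
  -- counting
  set e : ℝ := (zeroCount (T - 2 * H) (T + 2 * H) : ℝ) +
    (zeroCount (2 * T - 2 * H) (2 * T + 2 * H) : ℝ) with he
  have hnn : ∀ z : ℂ, (0 : ℝ) ≤ mz z := fun z => by positivity
  have hE : ∑ z ∈ ZZ T₁ T₂ \ II T H T₁ T₂, (mz z : ℝ) ≤ e := by
    have hsub : ZZ T₁ T₂ \ II T H T₁ T₂ ⊆
        ZZ (T - 2 * H) (T + 2 * H) ∪ ZZ (2 * T - 2 * H) (2 * T + 2 * H) := by
      intro z hz
      rw [Finset.mem_sdiff, mem_II] at hz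
      obtain ⟨h1, h2⟩ := hz
      obtain ⟨g1, g2, g3, g4⟩ := mem_ZZ'.mp h1
      rw [Finset.mem_union, mem_ZZ', mem_ZZ']
      by_cases h3 : T + H < z.re
      · right
        have h4 : ¬ z.re ≤ 2 * T - H := fun h => h2 ⟨h1, h3, h⟩
        push Not at h4
        exact ⟨g1, g2, by linarith, by linarith⟩
      · left
        push Not at h3
        exact ⟨g1, g2, by linarith, by linarith⟩
    refine (Finset.sum_le_sum_of_subset_of_nonneg hsub fun z _ _ => hnn z).trans ?_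
    rw [he, zeroCount_ZZ, zeroCount_ZZ]
    exact sum_union_le' _ _ _ hnn
  have hN : (zeroCount T (2 * T) : ℝ) ≤ ∑ z ∈ II T H T₁ T₂, (mz z : ℝ) + e := by
    have hsub : ZZ T (2 * T) ⊆ II T H T₁ T₂ ∪
        (ZZ (T - 2 * H) (T + 2 * H) ∪ ZZ (2 * T - 2 * H) (2 * T + 2 * H)) := by
      intro z hz
      obtain ⟨g1, g2, g3, g4⟩ := mem_ZZ'.mp hz
      rw [Finset.mem_union, Finset.mem_union, mem_II, mem_ZZ', mem_ZZ', mem_ZZ']
      by_cases h3 : T + H < z.re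
      · by_cases h4 : z.re ≤ 2 * T - H
        · left
          exact ⟨⟨g1, g2, by linarith, by linarith⟩, h3, h4⟩
        · push Not at h4
          right; right
          exact ⟨g1, g2, by linarith, by linarith⟩
      · push Not at h3
        right; left
        exact ⟨g1, g2, by linarith, by linarith⟩
    rw [zeroCount_ZZ T (2 * T)]
    refine (Finset.sum_le_sum_of_subset_of_nonneg hsub fun z _ _ => hnn z).trans ?_
    refine (sum_union_le' _ _ _ hnn).trans ?_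
    have h5 := sum_union_le' (ZZ (T - 2 * H) (T + 2 * H)) (ZZ (2 * T - 2 * H) (2 * T + 2 * H))
      (fun z => (mz z : ℝ)) hnn
    rw [he, zeroCount_ZZ (T - 2 * H), zeroCount_ZZ (2 * T - 2 * H)]
    linarith
  have hNs : ((SI T H T₁ T₂).card : ℝ) ≤ simpleCount T (2 * T) := by
    exact_mod_cast SI_card_le hH.le
  have hNs2 : (simpleCount T (2 * T) : ℝ) ≤ (SI T H T₁ T₂).card + e := by
    have hfin := (zeroSet_finite T (2 * T)).subset (simpleSet_sub T (2 * T))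
    have h1 : simpleCount T (2 * T) = hfin.toFinset.card := by
      unfold simpleCount
      rw [Set.ncard_eq_toFinset_card _ hfin]
    have hsub : hfin.toFinset ⊆ (SI T H T₁ T₂).image rOf ∪
        (Zf (T - 2 * H) (T + 2 * H) ∪ Zf (2 * T - 2 * H) (2 * T + 2 * H)) := by
      intro ρ hρ
      rw [Set.Finite.mem_toFinset] at hρ
      obtain ⟨⟨g0, g1, g2, g3, g4⟩, g5, g6⟩ := hρ
      rw [Finset.mem_union, Finset.mem_union, mem_Zf, mem_Zf, Finset.mem_image]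
      by_cases h3 : T + H < ρ.im
      · by_cases h4 : ρ.im ≤ 2 * T - H
        · left
          refine ⟨zOf ρ, mem_SI.mpr ⟨mem_II.mpr ⟨mem_ZZ.mpr ?_, ?_, ?_⟩, ?_, ?_⟩, rOf_zOf ρ⟩
          · rw [rOf_zOf]
            exact ⟨g0, g1, g2, by linarith, by linarith⟩
          · rw [zOf_re]; exact h3
          · rw [zOf_re]; exact h4
          · rw [zOf_im, g5]; norm_num
          · unfold mz
            rw [rOf_zOf, g6]
        · push Not at h4
          right; right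
          exact ⟨g0, g1, g2, by linarith, by linarith⟩
      · push Not at h3
        right; left
        exact ⟨g0, g1, g2, by linarith, by linarith⟩
    have h2 := (Finset.card_le_card hsub).trans (Finset.card_union_le _ _)
    have h3 := Finset.card_union_le (Zf (T - 2 * H) (T + 2 * H))
      (Zf (2 * T - 2 * H) (2 * T + 2 * H))
    have h4 : ((SI T H T₁ T₂).image rOf).card ≤ (SI T H T₁ T₂).card := Finset.card_image_le
    have h5 := card_le_zeroCount (T₂ := T + 2 * H) hZ hT1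
    have h6 := card_le_zeroCount (T₁ := 2 * T - 2 * H) (T₂ := 2 * T + 2 * H) hZ (by linarith)
    rw [h1, he]
    have h7 : (hfin.toFinset.card : ℝ) ≤ (SI T H T₁ T₂).card +
        ((Zf (T - 2 * H) (T + 2 * H)).card + (Zf (2 * T - 2 * H) (2 * T + 2 * H)).card) := by
      exact_mod_cast (by omega : hfin.toFinset.card ≤ (SI T H T₁ T₂).card +
        ((Zf (T - 2 * H) (T + 2 * H)).card + (Zf (2 * T - 2 * H) (2 * T + 2 * H)).card))
    linarith
  have he0 : 0 ≤ e := by rw [he]; positivity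
  refine ⟨(Bd.card : ℝ), ?_, by positivity, ?_⟩
  · rw [hBdcard]
    rw [hScard] at hBcard
    linarith
  · have h8 : 0 ≤ 2 - 7 * ε := by linarith
    have h9 : ((II T H T₁ T₂).filter (fun z => z.im = 0 ∧ mz z = 1)).card =
        (SI T H T₁ T₂).card := rfl
    rw [h9] at key
    have h10 : (2 - 7 * ε) * ((zeroCount T (2 * T) : ℝ) - e) ≤
        (2 - 7 * ε) * ∑ z ∈ II T H T₁ T₂, (mz z : ℝ) :=
      mul_le_mul_of_nonneg_left (by linarith) h8
    nlinarith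

/-- choice of the dilation parameter -/
theorem exists_b (hGI : GIntSt) (hGF : GFactSt) {κ : ℝ} (hκ : 0 < κ) :
    ∃ b : ℝ, 0 < b ∧ b < 1 ∧ Jb b ≤ cMT⁻¹ + κ := by
  obtain ⟨hg0, -, -, hg00, -⟩ := hGF
  have hI : 0 ≤ ∫ β in (0 : ℝ)..1, β * g β :=
    intervalIntegral.integral_nonneg (by norm_num) fun β hβ => mul_nonneg hβ.1 (hg0 β)
  have hpos : 0 < 1 + κ / g 0 := by positivity
  refine ⟨1 / (1 + κ / g 0), by positivity, ?_, ?_⟩
  · rw [div_lt_one hpos]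
    have : 0 < κ / g 0 := by positivity
    linarith
  · unfold Jb
    rw [← hGI]
    have h1 : g 0 / (1 / (1 + κ / g 0)) = g 0 + κ := by
      field_simp
    rw [h1]
    have h2 : 1 / (1 + κ / g 0) ≤ 1 := by
      rw [div_le_one hpos]
      have : 0 < κ / g 0 := by positivity
      linarith
    have h3 : 2 * (1 / (1 + κ / g 0)) * ∫ β in (0 : ℝ)..1, β * g β ≤
        2 * ∫ β in (0 : ℝ)..1, β * g β := by
      have := mul_le_mul_of_nonneg_right h2 hI
      linarith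
    linarith

theorem final (hLAz : LAzSt) (hU : UpperSt) (hN : NlowSt) (hE : EdgeSt) (hGH : GHSt)
    (hKS : KStabSt) (hC : CombSt) (hGI : GIntSt) (hGF : GFactSt) (hCst : ConstSt) (hW : Wt1St)
    (hZ : ZSymSt) (hKB : KBasicSt) : FinalSt := by
  obtain ⟨c₀, hc₀, hK⟩ := hKS
  have hc1 : c₀ ≤ 1 := by
    have h := hK 0 0 le_rfl le_rfl (by have := Real.pi_pos; linarith)
    have h0 : ∀ x : ℝ, ‖K x‖ ≤ 1 := hKB.2.2.2.2.1
    rcases h with h | h | h
    · exact h.trans (h0 _)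
    · exact h.trans (h0 _)
    · exact h.trans (h0 _)
  set κ : ℝ := c₀ ^ 2 / 100 with hκ
  have hκ0 : 0 < κ := by positivity
  have hκ1 : κ ≤ 1 / 100 := by
    rw [hκ]
    have : c₀ ^ 2 ≤ 1 := by nlinarith
    linarith
  obtain ⟨b, hb0, hb1, hJb⟩ := exists_b hGI hGF hκ0
  set η : ℝ := κ / 100 with hη
  have hη0 : 0 < η := by positivity
  have hη1 : η ≤ 1 / 10000 := by rw [hη]; linarith
  obtain ⟨C, t₀, -, -, hgh⟩ := hGH
  obtain ⟨T₁', hup⟩ := hU b η C hb0 hb1 hη0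
  obtain ⟨T₂', hlow⟩ := hN η hη0
  obtain ⟨T₃', hedge⟩ := hE b η hb0 hb1 hη0
  have hd : 0 < dl b := by unfold dl; linarith
  have hd3 : dl b < 1 / 3 := by unfold dl; linarith
  -- eventual facts
  have ev1 : ∀ᶠ T : ℝ in atTop, 4 ≤ T ^ dl b :=
    (tendsto_rpow_atTop hd).eventually_ge_atTop 4
  have ev2 : ∀ᶠ T : ℝ in atTop, 1 / 4 - Real.log (η / 2) ≤ T ^ dl b :=
    (tendsto_rpow_atTop hd).eventually_ge_atTop _
  have ev3 : ∀ᶠ T : ℝ in atTop, 3000 ≤ T := eventually_ge_atTop 3000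
  have ev4 : ∀ᶠ T : ℝ in atTop, T₁' ≤ T ∧ T₂' ≤ T ∧ T₃' ≤ T ∧ 2 * t₀ ≤ T :=
    ((eventually_ge_atTop T₁').and ((eventually_ge_atTop T₂').and
      ((eventually_ge_atTop T₃').and (eventually_ge_atTop (2 * t₀)))))
  obtain ⟨T₀, hT₀⟩ := eventually_atTop.mp (ev1.and (ev2.and (ev3.and ev4)))
  refine ⟨2 - cMT⁻¹ + 5 * κ, T₀, by linarith, fun T hT => ?_⟩
  obtain ⟨e1, e2, e3, e4, e5, e6, e7⟩ := hT₀ T hT
  have hTpos : 0 < T := by linarith
  have hT1 : 1 ≤ T := by linarith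
  set H := Hh b T with hH
  set Δ := Dl b T with hΔ
  have hHval : H * T ^ dl b = T := by
    rw [hH]; unfold Hh
    rw [← Real.rpow_add hTpos]
    simp
  have hHpos : 0 < H := by rw [hH]; unfold Hh; positivity
  have hH1 : 1 ≤ H := by
    rw [hH]; unfold Hh
    exact Real.one_le_rpow hT1 (by linarith)
  have hH4 : 4 * H ≤ T := by
    rw [← hHval]
    nlinarith
  have hΔ1 : 1 ≤ Δ := by
    rw [hΔ]; unfold Dl
    exact Real.one_le_rpow hT1 (by linarith)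
  have hΔpos : 0 < Δ := by linarith
  have hHΔ : H = Δ * T ^ dl b := by
    rw [hH, hΔ]; unfold Hh Dl
    rw [← Real.rpow_add hTpos]
    congr 1
    unfold dl
    ring
  have hsm : 2 * Real.exp (1 / 4 - H ^ 2 / Δ ^ 2) ≤ η := by
    have h1 : H ^ 2 / Δ ^ 2 = (T ^ dl b) ^ 2 := by
      rw [hHΔ]; field_simp
    rw [h1]
    have h2 : 1 / 4 - (T ^ dl b) ^ 2 ≤ Real.log (η / 2) := by nlinarith
    calc 2 * Real.exp (1 / 4 - (T ^ dl b) ^ 2) ≤ 2 * Real.exp (Real.log (η / 2)) :=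
          mul_le_mul_of_nonneg_left (Real.exp_le_exp.mpr h2) (by norm_num)
      _ = η := by rw [Real.exp_log (by positivity)]; ring
  -- heights
  obtain ⟨T₁, g1, g2, g3⟩ := hgh (T - 2 * H) (by linarith)
  obtain ⟨T₂, g4, g5, g6⟩ := hgh (2 * T + H) (by linarith)
  have hRng : Rng b T T₁ T₂ := ⟨g1, by rw [← hH]; linarith, g4, by rw [← hH]; linarith⟩
  obtain ⟨Bd, s1, s2, s3⟩ := step hLAz hC hZ hW hc₀ hK hb0 hb1.le hη0 (by linarith)
    (by linarith) hΔ1 hHpos (by rw [← hH]; linarith) hRng hsm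
  have s4 := hup T e4 T₁ T₂ hRng g3 g6
  have s5 := hlow T e5
  obtain ⟨s6, s7⟩ := hedge T e6
  set N : ℝ := (zeroCount T (2 * T) : ℝ) with hNdef
  set Ns : ℝ := (simpleCount T (2 * T) : ℝ) with hNsdef
  set U : ℝ := T * Real.log T / (2 * Real.pi) with hUdef
  set e : ℝ := (zeroCount (T - 2 * H) (T + 2 * H) : ℝ) +
    (zeroCount (2 * T - 2 * H) (2 * T + 2 * H) : ℝ) with he
  have he1 : e ≤ 2 * η * U := by rw [he]; linarith
  have hU4 : T * Real.log T / (8 * Real.pi) = U / 4 := by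
    rw [hUdef]; field_simp; ring
  rw [hU4] at s1
  have hUbig : 400 ≤ U := by
    rw [hUdef, le_div_iff₀ (by positivity)]
    have hlog : 1 ≤ Real.log T := by
      rw [Real.le_log_iff_exp_le hTpos]
      have := Real.exp_one_lt_d9
      linarith
    have hpi := Real.pi_lt_d2
    nlinarith
  obtain ⟨c1, c2⟩ := hCst
  set J : ℝ := cMT⁻¹ with hJ
  have hU0 : 0 < U := by linarith
  -- main inequality
  have m1 : (2 - 7 * η) * (N - e) - Ns + c₀ ^ 2 / 2 * Bd - 10 * e ≤ (J + κ + η) * U := by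
    refine s3.trans (s4.trans ?_)
    exact mul_le_mul_of_nonneg_right (by linarith) hU0.le
  have he0 : 0 ≤ e := by rw [he]; positivity
  have hN0 : 0 ≤ N := by rw [hNdef]; positivity
  have hηe : 0 ≤ η * e := by positivity
  have hκN : 0 ≤ κ * N := by positivity
  have hκU : 0 ≤ κ * U := by positivity
  have hηU : η * U = 0.01 * (κ * U) := by rw [hη]; ring
  have hηN : η * N = 0.01 * (κ * N) := by rw [hη]; ring
  have m2 : 2 * N - 7 * (η * N) - 12 * e - Ns + c₀ ^ 2 / 2 * Bd ≤ J * U + κ * U + η * U := by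
    have h1 : (2 - 7 * η) * (N - e) = 2 * N - 7 * (η * N) - 2 * e + 7 * (η * e) := by ring
    have h2 : (J + κ + η) * U = J * U + κ * U + η * U := by ring
    linarith
  have m3 : 2 * N - 7 * (η * N) - Ns + c₀ ^ 2 / 2 * Bd ≤ J * U + κ * U + 25 * (η * U) := by
    have h1 : 2 * η * U = 2 * (η * U) := by ring
    linarith
  have hκU1 : κ * U ≤ 1 / 100 * U := mul_le_mul_of_nonneg_right hκ1 hU0.le
  have hJU : J * U ≤ 1.33 * U := mul_le_mul_of_nonneg_right c2.le hU0.le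
  have s5' : U - η * U ≤ N := by
    have h1 : (1 - η) * U = U - η * U := by ring
    linarith
  have hNU : U ≤ 2 * N := by linarith
  have hκN1 : κ * N ≤ 1 / 100 * N := mul_le_mul_of_nonneg_right hκ1 hN0
  -- first consequence
  have m4 : 0.65 * U ≤ Ns := by
    have h1 : 0 ≤ c₀ ^ 2 / 2 * Bd := by positivity
    linarith
  have m5 : 0.14 * U ≤ Bd := by
    have h1 : 2 * η * U = 2 * (η * U) := by ring
    linarith
  have m6 : 7 * (κ * U) ≤ c₀ ^ 2 / 2 * Bd := by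
    have h1 : c₀ ^ 2 / 2 = 50 * κ := by rw [hκ]; ring
    rw [h1]
    have h2 := mul_le_mul_of_nonneg_left m5 (by positivity : (0 : ℝ) ≤ 50 * κ)
    have h3 : 50 * κ * (0.14 * U) = 7 * (κ * U) := by ring
    linarith
  have m7 : 2 * N - 0.07 * (κ * N) - (J - 5.7 * κ) * U ≤ Ns := by
    have h1 : (J - 5.7 * κ) * U = J * U - 5.7 * (κ * U) := by ring
    linarith
  have m8 : (J - 5.7 * κ) * U ≤ (J - 5.7 * κ) * N + 0.03 * (κ * N) := by
    have h1 : 0 ≤ J - 5.7 * κ := by linarith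
    have h2 : U ≤ N + 2 * (η * N) := by
      have h3 : η * U ≤ η * (2 * N) := mul_le_mul_of_nonneg_left hNU hη0.le
      have h4 : η * (2 * N) = 2 * (η * N) := by ring
      linarith
    have h5 : (J - 5.7 * κ) * U ≤ (J - 5.7 * κ) * (N + 2 * (η * N)) :=
      mul_le_mul_of_nonneg_left h2 h1
    have h6 : (J - 5.7 * κ) * (2 * (η * N)) ≤ 1.5 * (2 * (η * N)) :=
      mul_le_mul_of_nonneg_right (by linarith) (by positivity)
    have h7 : (J - 5.7 * κ) * (N + 2 * (η * N)) =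
        (J - 5.7 * κ) * N + (J - 5.7 * κ) * (2 * (η * N)) := by ring
    linarith
  have h10 : (J - 5.7 * κ) * N = J * N - 5.7 * (κ * N) := by ring
  have h11 : (2 - J + 5 * κ) * N = 2 * N - J * N + 5 * (κ * N) := by ring
  linarith

end Pool.Agent.H46.MT.Final
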