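import Pool.Agent.H46.MT.Defs

/-!
# MP_cb7589_nt: elementary facts on the convolution kernel `g` (module 21)
-/

namespace Pool.Agent.H46.MT.GFact

open Pool.Agent.H46.MT

/-- the profile of `g` on `[0,1]` -/
noncomputable def G (t : ℝ) : ℝ :=
  kC ^ 2 / 2 * ((1 - t) * Real.cos (√2 * t) + Real.sin (√2 * (1 - t)) / √2)

theorem g_eq (β : ℝ) : g β = G (min |β| 1) := by
  unfold g G
  split_ifs with h
  · rw [min_eq_left h, ← Real.cos_abs (√2 * β), abs_mul, abs_of_nonneg (Real.sqrt_nonneg 2)]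
  · rw [min_eq_right (not_le.mp h).le]
    simp

theorem sqrt2_lt : √2 < Real.pi / 2 := by
  have h1 : √2 < 3 / 2 := by
    rw [Real.sqrt_lt' (by norm_num)]
    norm_num
  have := Real.pi_gt_three
  linarith

theorem sqrt2_pos : 0 < √2 := Real.sqrt_pos.mpr (by norm_num)

theorem kC_ne : kC ≠ 0 := by
  unfold kC
  have h1 : 0 < 1 / √2 := by have := sqrt2_pos; positivity
  have h2 : 1 / √2 < Real.pi := by
    have h3 : 1 / √2 ≤ 1 := by
      rw [div_le_one sqrt2_pos]
      exact Real.one_le_sqrt.mpr (by norm_num)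
    have := Real.pi_gt_three
    linarith
  have h3 : 0 < Real.sin (1 / √2) := Real.sin_pos_of_pos_of_lt_pi h1 h2
  have := sqrt2_pos
  positivity

theorem G_nonneg {t : ℝ} (h0 : 0 ≤ t) (h1 : t ≤ 1) : 0 ≤ G t := by
  unfold G
  have hs := sqrt2_pos
  have hp := sqrt2_lt
  have hpi := Real.pi_pos
  have hc : 0 ≤ Real.cos (√2 * t) := by
    apply Real.cos_nonneg_of_neg_pi_div_two_le_of_le
    · have : 0 ≤ √2 * t := by positivity
      linarith
    · nlinarith
  have hsn : 0 ≤ Real.sin (√2 * (1 - t)) := by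
    apply Real.sin_nonneg_of_nonneg_of_le_pi
    · exact mul_nonneg hs.le (by linarith)
    · nlinarith
  have h2 : 0 ≤ (1 - t) * Real.cos (√2 * t) := mul_nonneg (by linarith) hc
  have h3 : 0 ≤ Real.sin (√2 * (1 - t)) / √2 := div_nonneg hsn hs.le
  have h4 : 0 ≤ kC ^ 2 / 2 := by positivity
  exact mul_nonneg h4 (by linarith)

theorem abs_sin_sub_sin_le (x y : ℝ) : |Real.sin x - Real.sin y| ≤ |x - y| := by
  have h := Real.lipschitzWith_sin.dist_le_mul x y
  simpa [Real.dist_eq] using h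

theorem abs_cos_sub_cos_le (x y : ℝ) : |Real.cos x - Real.cos y| ≤ |x - y| := by
  have h := abs_sin_sub_sin_le (x + Real.pi / 2) (y + Real.pi / 2)
  rw [Real.sin_add_pi_div_two, Real.sin_add_pi_div_two] at h
  have h2 : x + Real.pi / 2 - (y + Real.pi / 2) = x - y := by ring
  rwa [h2] at h

theorem G_lip {s t : ℝ} (hs0 : 0 ≤ s) (hs1 : s ≤ 1) (ht0 : 0 ≤ t) (ht1 : t ≤ 1) :
    |G s - G t| ≤ 2 * kC ^ 2 * |s - t| := by
  have hs := sqrt2_pos
  have h15 : √2 < 3 / 2 := by
    rw [Real.sqrt_lt' (by norm_num)]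
    norm_num
  have e : G s - G t = kC ^ 2 / 2 * (((t - s) * Real.cos (√2 * s) +
      (1 - t) * (Real.cos (√2 * s) - Real.cos (√2 * t))) +
      (Real.sin (√2 * (1 - s)) - Real.sin (√2 * (1 - t))) / √2) := by
    unfold G
    ring
  rw [e, abs_mul, abs_of_nonneg (by positivity : (0 : ℝ) ≤ kC ^ 2 / 2)]
  have a1 : |(t - s) * Real.cos (√2 * s)| ≤ |s - t| := by
    rw [abs_mul, abs_sub_comm t s]
    exact mul_le_of_le_one_right (abs_nonneg _) (Real.abs_cos_le_one _)
  have a2 : |(1 - t) * (Real.cos (√2 * s) - Real.cos (√2 * t))| ≤ 3 / 2 * |s - t| := by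
    rw [abs_mul]
    have b1 : |1 - t| ≤ 1 := by
      rw [abs_le]
      constructor <;> linarith
    have b2 : |Real.cos (√2 * s) - Real.cos (√2 * t)| ≤ √2 * |s - t| := by
      have := abs_cos_sub_cos_le (√2 * s) (√2 * t)
      rw [← mul_sub, abs_mul, abs_of_pos hs] at this
      exact this
    have b3 : √2 * |s - t| ≤ 3 / 2 * |s - t| :=
      mul_le_mul_of_nonneg_right h15.le (abs_nonneg _)
    calc |1 - t| * |Real.cos (√2 * s) - Real.cos (√2 * t)| ≤
        1 * |Real.cos (√2 * s) - Real.cos (√2 * t)| :=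
          mul_le_mul_of_nonneg_right b1 (abs_nonneg _)
      _ ≤ 3 / 2 * |s - t| := by linarith
  have a3 : |(Real.sin (√2 * (1 - s)) - Real.sin (√2 * (1 - t))) / √2| ≤ |s - t| := by
    rw [abs_div, abs_of_pos hs, div_le_iff₀ hs]
    have := abs_sin_sub_sin_le (√2 * (1 - s)) (√2 * (1 - t))
    rw [← mul_sub, abs_mul, abs_of_pos hs] at this
    have e2 : 1 - s - (1 - t) = -(s - t) := by ring
    rw [e2, abs_neg] at this
    linarith
  have a4 : |(t - s) * Real.cos (√2 * s) +
      (1 - t) * (Real.cos (√2 * s) - Real.cos (√2 * t)) +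
      (Real.sin (√2 * (1 - s)) - Real.sin (√2 * (1 - t))) / √2| ≤ 4 * |s - t| := by
    refine (abs_add_le _ _).trans ?_
    have := abs_add_le ((t - s) * Real.cos (√2 * s))
      ((1 - t) * (Real.cos (√2 * s) - Real.cos (√2 * t)))
    have := abs_nonneg (s - t)
    linarith
  have h4 : 0 ≤ kC ^ 2 / 2 := by positivity
  calc kC ^ 2 / 2 * |(t - s) * Real.cos (√2 * s) +
      (1 - t) * (Real.cos (√2 * s) - Real.cos (√2 * t)) +
      (Real.sin (√2 * (1 - s)) - Real.sin (√2 * (1 - t))) / √2| ≤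
      kC ^ 2 / 2 * (4 * |s - t|) := mul_le_mul_of_nonneg_left a4 h4
    _ = 2 * kC ^ 2 * |s - t| := by ring

theorem min_mem (x : ℝ) : 0 ≤ min |x| 1 ∧ min |x| 1 ≤ 1 :=
  ⟨le_min (abs_nonneg x) zero_le_one, min_le_right _ _⟩

theorem abs_min_sub (x y : ℝ) : |min |x| 1 - min |y| 1| ≤ |x - y| := by
  refine (abs_min_sub_min_le_max _ _ _ _).trans ?_
  simp only [sub_self, abs_zero]
  exact max_le (abs_abs_sub_abs_le x y) (abs_nonneg _)

theorem gfact : GFactSt := by
  have hk := kC_ne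
  have hk2 : 0 < kC ^ 2 := by positivity
  have hs := sqrt2_pos
  refine ⟨?_, ?_, ?_, ?_, 2 * kC ^ 2, by positivity, ?_, ?_⟩
  · intro β
    rw [g_eq]
    exact G_nonneg (min_mem β).1 (min_mem β).2
  · intro β
    rw [g_eq, g_eq, abs_neg]
  · intro β hβ
    rw [g_eq, min_eq_right hβ]
    simp [G]
  · rw [g_eq]
    have h0 : min |(0 : ℝ)| 1 = 0 := by simp
    rw [h0]
    unfold G
    have h1 : 0 < Real.sin (√2 * (1 - 0)) := by
      apply Real.sin_pos_of_pos_of_lt_pi
      · simpa using hs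
      · have := sqrt2_lt
        have := Real.pi_pos
        simp only [sub_zero, mul_one]
        linarith
    have h2 : 0 < Real.sin (√2 * (1 - 0)) / √2 := div_pos h1 hs
    have h3 : (0 : ℝ) < (1 - 0) * Real.cos (√2 * 0) := by simp
    have h4 : 0 < kC ^ 2 / 2 := by positivity
    exact mul_pos h4 (by linarith)
  · intro β
    rw [g_eq]
    have h1 : G (min |β| 1) ≤ G 1 + |G (min |β| 1) - G 1| := by
      have := le_abs_self (G (min |β| 1) - G 1)
      linarith
    have h2 := G_lip (min_mem β).1 (min_mem β).2 zero_le_one le_rfl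
    have h3 : G 1 = 0 := by simp [G]
    have h4 : |min |β| 1 - 1| ≤ 1 := by
      have := min_mem β
      rw [abs_le]
      constructor <;> linarith
    have h5 : 2 * kC ^ 2 * |min |β| 1 - 1| ≤ 2 * kC ^ 2 * 1 :=
      mul_le_mul_of_nonneg_left h4 (by positivity)
    linarith
  · intro x y
    rw [g_eq, g_eq]
    refine (G_lip (min_mem x).1 (min_mem x).2 (min_mem y).1 (min_mem y).2).trans ?_
    exact mul_le_mul_of_nonneg_left (abs_min_sub x y) (by positivity)

end Pool.Agent.H46.MT.GFact
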