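import Pool.Agent.H46.MT.Defs

/-!
# MP_cb7589_nt: the value of the pair functional (module 22)
-/

namespace Pool.Agent.H46.MT.GInt

open Pool.Agent.H46.MT

theorem s_pos : 0 < √2 := Real.sqrt_pos.mpr (by norm_num)

theorem s_sq : √2 * √2 = 2 := Real.mul_self_sqrt (by norm_num)

theorem theta_pos : 0 < 1 / √2 := by
  have := s_pos
  positivity

theorem theta_le : 1 / √2 ≤ 1 := by
  rw [div_le_one s_pos]
  exact Real.one_le_sqrt.mpr (by norm_num)

theorem two_theta : √2 = 2 * (1 / √2) := by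
  have h := s_pos
  field_simp
  nlinarith [s_sq]

theorem sin_theta_pos : 0 < Real.sin (1 / √2) := by
  apply Real.sin_pos_of_pos_of_lt_pi theta_pos
  have := theta_le
  have := Real.pi_gt_three
  linarith

theorem cos_theta_pos : 0 < Real.cos (1 / √2) := by
  apply Real.cos_pos_of_le_one
  rw [abs_of_pos theta_pos]
  exact theta_le

/-- the antiderivative of `β g(β)` up to the constant -/
noncomputable def P (β : ℝ) : ℝ :=
  (β - β ^ 2) * Real.sin (√2 * β) / √2 + (1 - 2 * β) * Real.cos (√2 * β) / 2 +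
    Real.sin (√2 * β) / √2 + (β * Real.cos (√2 * (1 - β)) / 2 +
    Real.sin (√2 * (1 - β)) / (2 * √2))

theorem hasDerivAt_P (β : ℝ) : HasDerivAt P
    (β * ((1 - β) * Real.cos (√2 * β) + Real.sin (√2 * (1 - β)) / √2)) β := by
  have hs := s_pos
  have hss := s_sq
  have h1 : HasDerivAt (fun x : ℝ => √2 * x) √2 β := by
    simpa using (hasDerivAt_id β).const_mul √2
  have h2 : HasDerivAt (fun x : ℝ => √2 * (1 - x)) (-√2) β := by
    have := ((hasDerivAt_id β).const_sub 1).const_mul √2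
    simpa using this
  have hS : HasDerivAt (fun x : ℝ => Real.sin (√2 * x)) (Real.cos (√2 * β) * √2) β := h1.sin
  have hC : HasDerivAt (fun x : ℝ => Real.cos (√2 * x)) (-Real.sin (√2 * β) * √2) β := h1.cos
  have hS' : HasDerivAt (fun x : ℝ => Real.sin (√2 * (1 - x)))
      (Real.cos (√2 * (1 - β)) * (-√2)) β := h2.sin
  have hC' : HasDerivAt (fun x : ℝ => Real.cos (√2 * (1 - x)))
      (-Real.sin (√2 * (1 - β)) * (-√2)) β := h2.cos
  have hu : HasDerivAt (fun x : ℝ => x - x ^ 2) (1 - 2 * β) β := by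
    have := (hasDerivAt_id' β).fun_sub (hasDerivAt_pow 2 β)
    simpa using this
  have hv : HasDerivAt (fun x : ℝ => 1 - 2 * x) (-2) β := by
    have := ((hasDerivAt_id β).const_mul 2).const_sub 1
    simpa using this
  have hid : HasDerivAt (fun x : ℝ => x) 1 β := hasDerivAt_id β
  have h := ((((hu.mul hS).div_const √2).add ((hv.mul hC).div_const 2)).add
    (hS.div_const √2)).add (((hid.mul hC').div_const 2).add (hS'.div_const (2 * √2)))
  refine h.congr_deriv ?_
  have e2 : √2 ^ 2 = 2 := by rw [sq]; exact hss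
  field_simp
  ring_nf
  rw [e2]
  ring

theorem integral_eq : ∫ β in (0 : ℝ)..1, β * g β =
    kC ^ 2 / 2 * ((Real.sin √2 / √2 - Real.cos √2) / 2) := by
  have h1 : ∫ β in (0 : ℝ)..1, β * g β = ∫ β in (0 : ℝ)..1, kC ^ 2 / 2 *
      (β * ((1 - β) * Real.cos (√2 * β) + Real.sin (√2 * (1 - β)) / √2)) := by
    apply intervalIntegral.integral_congr
    intro β hβ
    rw [Set.uIcc_of_le zero_le_one] at hβ
    have ha : |β| = β := abs_of_nonneg hβ.1
    simp only [g, ha, hβ.2, if_true]
    ring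
  rw [h1, intervalIntegral.integral_const_mul]
  congr 1
  rw [intervalIntegral.integral_eq_sub_of_hasDerivAt (fun β _ => hasDerivAt_P β)]
  · have hs := s_pos
    unfold P
    simp
    field_simp
    ring
  · apply Continuous.intervalIntegrable
    fun_prop

theorem tan_pos : 0 < Real.tan (1 / √2) := by
  rw [Real.tan_eq_sin_div_cos]
  exact div_pos sin_theta_pos cos_theta_pos

theorem cMT_inv : cMT⁻¹ = 1 / 2 + Real.cos (1 / √2) / (√2 * Real.sin (1 / √2)) := by
  have hs := s_pos
  have hsn := sin_theta_pos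
  have hcs := cos_theta_pos
  have h0 : 0 < 1 + Real.tan (1 / √2) / √2 := by
    have := tan_pos
    positivity
  unfold cMT
  rw [Real.tan_eq_sin_div_cos] at h0 ⊢
  have e2 : √2 ^ 2 = 2 := by rw [sq]; exact s_sq
  rw [inv_div]
  field_simp
  linear_combination (-Real.sin (1 / √2)) * e2

theorem gint : GIntSt := by
  unfold GIntSt
  have hs := s_pos
  have hsn := sin_theta_pos
  have e2 : √2 ^ 2 = 2 := by rw [sq]; exact s_sq
  have g0 : g 0 = kC ^ 2 / 2 * (1 + Real.sin √2 / √2) := by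
    simp [g]
  rw [g0, integral_eq, cMT_inv]
  have hsin : Real.sin √2 = 2 * Real.sin (1 / √2) * Real.cos (1 / √2) := by
    rw [← Real.sin_two_mul, ← two_theta]
  have hcos : Real.cos √2 = 1 - 2 * Real.sin (1 / √2) ^ 2 := by
    have h := Real.cos_two_mul (1 / √2)
    rw [← two_theta] at h
    have := Real.sin_sq_add_cos_sq (1 / √2)
    linarith
  rw [hsin, hcos]
  unfold kC
  set S := Real.sin (1 / √2)
  set C := Real.cos (1 / √2)
  field_simp
  rw [e2]
  ring

theorem cst : ConstSt := by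
  unfold ConstSt
  rw [cMT_inv]
  have hs := s_pos
  have hss := s_sq
  have hsn := sin_theta_pos
  -- the quarter angle
  set φ : ℝ := 1 / √2 / 4 with hφ
  have hφ0 : 0 < φ := by
    have := theta_pos
    positivity
  have hφsq : φ ^ 2 = 1 / 32 := by
    rw [hφ, div_pow, div_pow, sq √2, hss]
    norm_num
  have hφ1 : |φ| ≤ 1 := by
    rw [abs_of_pos hφ0]
    have := theta_le
    rw [hφ]
    linarith
  have h4 : √2 * (4 * φ) = 1 := by
    rw [hφ]
    field_simp
  have hc := Real.cos_bound hφ1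
  have hsb := Real.sin_bound hφ1
  rw [abs_of_pos hφ0] at hc hsb
  have hp4 : φ ^ 4 = 1 / 1024 := by
    have : φ ^ 4 = (φ ^ 2) ^ 2 := by ring
    rw [this, hφsq]
    norm_num
  have hp3 : φ ^ 3 = φ / 32 := by
    have : φ ^ 3 = φ ^ 2 * φ := by ring
    rw [this, hφsq]
    ring
  have hp5 : φ ^ 5 = φ / 1024 := by
    have : φ ^ 5 = φ ^ 4 * φ := by ring
    rw [this, hp4]
    ring
  rw [hφsq, hp4] at hc
  rw [hp3, hp5] at hsb
  rw [abs_le] at hc hsb
  set c := Real.cos φ with hcdef
  set σ := Real.sin φ with hσdef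
  -- `σ = φ S`
  obtain ⟨S, hS⟩ : ∃ S : ℝ, σ = φ * S := ⟨σ / φ, by field_simp⟩
  have hS1 : 0.99478 ≤ S := by
    by_contra hcon
    rw [not_le] at hcon
    have := mul_lt_mul_of_pos_left hcon hφ0
    rw [← hS] at this
    nlinarith [hsb.1]
  have hS2 : S ≤ 0.99481 := by
    by_contra hcon
    rw [not_le] at hcon
    have := mul_lt_mul_of_pos_left hcon hφ0
    rw [← hS] at this
    nlinarith [hsb.2]
  have hc1 : 0.98432 ≤ c := by linarith [hc.1]
  have hc2 : c ≤ 0.98443 := by linarith [hc.2]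
  have e1 : Real.cos (2 * φ) = 2 * c ^ 2 - 1 := Real.cos_two_mul φ
  have e3 : Real.sin (2 * φ) = 2 * σ * c := Real.sin_two_mul φ
  have hth : 1 / √2 = 2 * (2 * φ) := by rw [hφ]; ring
  have eC : Real.cos (1 / √2) = 2 * (2 * c ^ 2 - 1) ^ 2 - 1 := by
    rw [hth, Real.cos_two_mul, e1]
  have eS : √2 * Real.sin (1 / √2) = S * c * (2 * c ^ 2 - 1) := by
    rw [hth, Real.sin_two_mul, e3, e1, hS]
    calc √2 * (2 * (2 * (φ * S) * c) * (2 * c ^ 2 - 1)) =
        (√2 * (4 * φ)) * (S * c * (2 * c ^ 2 - 1)) := by ring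
      _ = _ := by rw [h4]; ring
  have hpos : 0 < √2 * Real.sin (1 / √2) := mul_pos hs hsn
  have low : ∀ a b x y : ℝ, 0 ≤ a → 0 ≤ b → a ≤ x → b ≤ y → a * b ≤ x * y :=
    fun a b x y ha hb hx hy => mul_le_mul hx hy hb (ha.trans hx)
  have q1 : 0.96888 ≤ c ^ 2 := by
    have := low _ _ _ _ (by norm_num) (by norm_num) hc1 hc1
    rw [sq]
    linarith
  have q2 : c ^ 2 ≤ 0.96911 := by
    have := low _ _ _ _ (by linarith) (by linarith) hc2 hc2
    rw [sq]
    linarith
  have d1 : 0.93776 ≤ 2 * c ^ 2 - 1 := by linarith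
  have d2 : 2 * c ^ 2 - 1 ≤ 0.93822 := by linarith
  set D := 2 * c ^ 2 - 1 with hD
  have r1 : 0.87939 ≤ D ^ 2 := by
    have := low _ _ _ _ (by norm_num) (by norm_num) d1 d1
    rw [sq]
    linarith
  have r2 : D ^ 2 ≤ 0.88026 := by
    have := low _ _ _ _ (by linarith) (by linarith) d2 d2
    rw [sq]
    linarith
  have t1 : 0.97918 ≤ S * c := by
    have := low _ _ _ _ (by norm_num) (by norm_num) hS1 hc1
    linarith
  have t2 : S * c ≤ 0.97933 := by
    have := low _ _ _ _ (by linarith) (by linarith) hS2 hc2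
    linarith
  have u1 : 0.91823 ≤ S * c * D := by
    have := low _ _ _ _ (by norm_num) (by norm_num) t1 d1
    linarith
  have u2 : S * c * D ≤ 0.91883 := by
    have := low _ _ _ _ (by linarith) (by linarith) t2 d2
    linarith
  constructor
  · have : 0.82 < Real.cos (1 / √2) / (√2 * Real.sin (1 / √2)) := by
      rw [lt_div_iff₀ hpos, eC, eS]
      linarith
    linarith
  · have : Real.cos (1 / √2) / (√2 * Real.sin (1 / √2)) < 0.83 := by
      rw [div_lt_iff₀ hpos, eC, eS]
      linarith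
    linarith

end Pool.Agent.H46.MT.GInt
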