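import Pool.Agent.H46.MT.Defs
import Pool.Agent.H53.MT.Order

/-!
# Good heights
-/

open Complex Set MeasureTheory Filter Metric

namespace Pool.Agent.H46.MT.Good

lemma exists_log_ball {f : ℂ → ℂ} {c : ℂ} {r : ℝ} (hr : 0 < r) (hf : DifferentiableOn ℂ f (ball c r))
    (h0 : ∀ z ∈ ball c r, f z ≠ 0) {w : ℂ} (hw : exp w = f c) :
    ∃ l : ℂ → ℂ, l c = w ∧ ∀ z ∈ ball c r, HasDerivAt l (logDeriv f z) z ∧ exp (l z) = f z := by
  have hg : DifferentiableOn ℂ (logDeriv f) (ball c r) := by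
    have h1 : DifferentiableOn ℂ (deriv f) (ball c r) := hf.deriv isOpen_ball
    exact h1.div hf h0
  obtain ⟨G, hG⟩ := hg.isExactOn_ball
  have hl : ∀ z ∈ ball c r, HasDerivAt (fun z => G z - G c + w) (logDeriv f z) z := by
    intro z hz
    exact ((hG z hz).sub_const _).add_const _
  refine ⟨fun z => G z - G c + w, by simp, fun z hz => ⟨hl z hz, ?_⟩⟩
  -- the function exp(-l) f is constant
  have hd : ∀ z ∈ ball c r, HasDerivAt (fun z => exp (-(G z - G c + w)) * f z) 0 z := by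
    intro z hz
    have h1 : HasDerivAt (fun z => exp (-(G z - G c + w)))
        (exp (-(G z - G c + w)) * (-(logDeriv f z))) z := ((hl z hz).neg).cexp
    have h2 : HasDerivAt f (deriv f z) z := (hf.differentiableAt (isOpen_ball.mem_nhds hz)).hasDerivAt
    have h3 : HasDerivAt (fun z => exp (-(G z - G c + w)) * f z)
      (exp (-(G z - G c + w)) * (-(logDeriv f z)) * f z + exp (-(G z - G c + w)) * deriv f z) z :=
      h1.mul h2
    refine h3.congr_deriv ?_
    rw [logDeriv_apply]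
    have := h0 z hz
    field_simp
    ring
  have hconst : (fun z => exp (-(G z - G c + w)) * f z) z = (fun z => exp (-(G z - G c + w)) * f z) c := by
    refine IsOpen.is_const_of_deriv_eq_zero isOpen_ball isPreconnected_ball
      (fun z hz => (hd z hz).differentiableAt.differentiableWithinAt)
      (fun z hz => (hd z hz).deriv) hz (mem_ball_self hr)
  simp only [sub_self, zero_add] at hconst
  rw [← hw, ← Complex.exp_add, neg_add_cancel, Complex.exp_zero, Complex.exp_neg] at hconst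
  have h4 := Complex.exp_ne_zero (G z - G c + w)
  field_simp at hconst
  exact hconst.symm

lemma bc_step {f : ℂ → ℂ} {s : ℂ} {η A D : ℝ} (hη : 0 < η) (hA0 : 0 < A)
    (hf : DifferentiableOn ℂ f (ball s η)) (h0 : ∀ z ∈ ball s η, f z ≠ 0)
    (hA : ∀ z ∈ ball s η, ‖f z‖ ≤ Real.exp A) {w : ℂ} (hw : exp w = f s) (hD : ‖w‖ ≤ D) :
    (∀ z, ‖z - s‖ ≤ η / 2 → ∃ w', exp w' = f z ∧ ‖w'‖ ≤ 2 * A + 3 * D) ∧
      ‖logDeriv f s‖ ≤ (2 * A + 3 * D) / (η / 2) := by
  obtain ⟨l, hlc, hl⟩ := exists_log_ball hη hf h0 hw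
  have hbound : ∀ z, ‖z - s‖ ≤ η / 2 → ‖l z‖ ≤ 2 * A + 3 * D := by
    intro z hz
    have hdiff : DifferentiableOn ℂ (fun x => l (s + x)) (ball 0 η) := by
      intro x hx
      have hx' : s + x ∈ ball s η := by
        rw [mem_ball, dist_eq_norm]; simpa using hx
      have h1 := (hl (s + x) hx').1.differentiableAt
      have h2 : DifferentiableAt ℂ (fun x : ℂ => s + x) x := by fun_prop
      exact (DifferentiableAt.comp (g := l) x h1 h2).differentiableWithinAt
    have hmaps : Set.MapsTo (fun x => l (s + x)) (ball 0 η) {z | z.re ≤ A} := by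
      intro x hx
      have hx' : s + x ∈ ball s η := by
        rw [mem_ball, dist_eq_norm]; simpa using hx
      have h1 := (hl (s + x) hx').2
      have h2 := hA (s + x) hx'
      rw [← h1, Complex.norm_exp] at h2
      exact Real.exp_le_exp.mp h2
    have hz' : z - s ∈ ball (0 : ℂ) η := by
      rw [mem_ball_zero_iff]; linarith
    have h := Complex.borelCaratheodory hA0 hdiff hmaps hη hz'
    simp only [add_sub_cancel, add_zero] at h
    have hn : (0 : ℝ) ≤ ‖z - s‖ := norm_nonneg _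
    have hpos : 0 < η - ‖z - s‖ := by linarith
    have e1 : 2 * A * ‖z - s‖ / (η - ‖z - s‖) ≤ 2 * A := by
      rw [div_le_iff₀ hpos]
      nlinarith
    have hD0 : 0 ≤ D := (norm_nonneg _).trans hD
    have e2 : ‖l s‖ * (η + ‖z - s‖) / (η - ‖z - s‖) ≤ 3 * D := by
      rw [div_le_iff₀ hpos, hlc]
      calc ‖w‖ * (η + ‖z - s‖) ≤ D * (η + ‖z - s‖) := by gcongr
        _ ≤ 3 * D * (η - ‖z - s‖) := by nlinarith
    linarith
  constructor
  · intro z hz
    have hz' : z ∈ ball s η := by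
      rw [mem_ball, dist_eq_norm]; linarith
    exact ⟨l z, (hl z hz').2, hbound z hz⟩
  · have hder : deriv l s = logDeriv f s := (hl s (mem_ball_self hη)).1.deriv
    rw [← hder]
    refine Complex.norm_deriv_le_of_forall_mem_sphere_norm_le (by linarith) ?_ ?_
    · refine DifferentiableOn.diffContOnCl ?_
      intro z hz
      have hz2 := closure_ball_subset_closedBall hz
      rw [mem_closedBall, dist_eq_norm] at hz2
      have hz' : z ∈ ball s η := by
        rw [mem_ball, dist_eq_norm]; linarith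
      exact (hl z hz').1.differentiableAt.differentiableWithinAt
    · intro z hz
      rw [mem_sphere, dist_eq_norm] at hz
      exact hbound z hz.le

/-- chain of balls along the segment `[1/2, 2] + i t` -/
lemma chain {f : ℂ → ℂ} {t η A D : ℝ} (hη : 0 < η) (hη1 : η ≤ 1 / 4) (hA0 : 0 < A) (hD0 : 0 ≤ D)
    (hf : ∀ z : ℂ, 1 / 4 ≤ z.re → |z.im - t| ≤ η → DifferentiableAt ℂ f z)
    (h0 : ∀ z : ℂ, 1 / 4 ≤ z.re → |z.im - t| ≤ η → f z ≠ 0)
    (hA : ∀ z : ℂ, 1 / 4 ≤ z.re → z.re ≤ 3 → |z.im - t| ≤ η → ‖f z‖ ≤ Real.exp A)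
    {w : ℂ} (hw : exp w = f (2 + t * I)) (hD : ‖w‖ ≤ D) (k : ℕ) :
    ∀ σ : ℝ, 1 / 2 ≤ σ → σ ≤ 2 → 2 - k * (η / 2) ≤ σ →
      ∃ w', exp w' = f (σ + t * I) ∧ ‖w'‖ + A ≤ 3 ^ k * (D + A) := by
  induction k with
  | zero =>
    intro σ h1 h2 h3
    have : σ = 2 := by
      simp at h3; linarith
    refine ⟨w, by rw [hw, this]; norm_num, ?_⟩
    simp; linarith
  | succ k ih =>
    intro σ h1 h2 h3
    by_cases hc : 2 - k * (η / 2) ≤ σ
    · obtain ⟨w', hw', hb⟩ := ih σ h1 h2 hc
      refine ⟨w', hw', hb.trans ?_⟩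
      have : (0 : ℝ) ≤ 3 ^ k * (D + A) := by positivity
      rw [pow_succ]; nlinarith
    · push Not at hc
      -- centre
      set σ' : ℝ := min (σ + η / 2) 2 with hσ'
      have hσ'1 : σ ≤ σ' := le_min (by linarith) h2
      have hσ'2 : σ' ≤ 2 := min_le_right _ _
      have hσ'3 : σ' ≤ σ + η / 2 := min_le_left _ _
      have hσ'4 : 2 - k * (η / 2) ≤ σ' := by
        refine le_min ?_ ?_
        · push_cast at h3; linarith
        · have : (0 : ℝ) ≤ k * (η / 2) := by positivity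
          linarith
      obtain ⟨w', hw', hb⟩ := ih σ' (by linarith) hσ'2 hσ'4
      have hball : ∀ z ∈ ball ((σ' : ℂ) + t * I) η, 1 / 4 ≤ z.re ∧ z.re ≤ 3 ∧ |z.im - t| ≤ η := by
        intro z hz
        rw [mem_ball, dist_eq_norm] at hz
        have hre := Complex.abs_re_le_norm (z - ((σ' : ℂ) + t * I))
        have him := Complex.abs_im_le_norm (z - ((σ' : ℂ) + t * I))
        simp at hre him
        have hre' := abs_le.mp (hre.trans hz.le)
        refine ⟨by linarith [hre'.1], by linarith [hre'.2], him.trans hz.le⟩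
      obtain ⟨hstep, -⟩ := bc_step (f := f) (s := (σ' : ℂ) + t * I) hη hA0
        (fun z hz => (hf z (hball z hz).1 (hball z hz).2.2).differentiableWithinAt)
        (fun z hz => h0 z (hball z hz).1 (hball z hz).2.2)
        (fun z hz => hA z (hball z hz).1 (hball z hz).2.1 (hball z hz).2.2) hw' (le_refl ‖w'‖)
      have hdist : ‖((σ : ℂ) + t * I) - ((σ' : ℂ) + t * I)‖ ≤ η / 2 := by
        have : ((σ : ℂ) + t * I) - ((σ' : ℂ) + t * I) = ((σ - σ' : ℝ) : ℂ) := by push_cast; ring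
        rw [this, Complex.norm_real, Real.norm_eq_abs, abs_le]
        constructor <;> linarith
      obtain ⟨w'', hw'', hb''⟩ := hstep ((σ : ℂ) + t * I) hdist
      refine ⟨w'', hw'', ?_⟩
      calc ‖w''‖ + A ≤ 3 * (‖w'‖ + A) := by linarith
        _ ≤ 3 * (3 ^ k * (D + A)) := by linarith
        _ = 3 ^ (k + 1) * (D + A) := by ring

/-- choice of a height in `[t, t+1]` isolated from the ordinates -/
lemma gap (hS : StripSt) {t : ℝ} (ht : 0 < t) :
    ∃ t' η : ℝ, t ≤ t' ∧ t' ≤ t + 1 ∧ 0 < η ∧ η = 1 / (4 * ((Zf t (t + 1)).card + 1)) ∧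
      ∀ z : ℂ, |z.im - t'| ≤ η → riemannZeta z ≠ 0 ∧ 0 < z.im := by
  classical
  set Z := Zf t (t + 1) with hZ
  set n := Z.card with hn
  set φ : ℂ → ℕ := fun ρ => ⌊(ρ.im - t) * (n + 1)⌋₊ with hφ
  have hcard : (Z.image φ).card < (Finset.range (n + 1)).card := by
    rw [Finset.card_range]
    exact lt_of_le_of_lt Finset.card_image_le (Nat.lt_succ_self n)
  obtain ⟨j, hj, hjn⟩ := Finset.exists_mem_notMem_of_card_lt_card hcard
  have hjn' : (j : ℝ) + 1 ≤ n + 1 := by
    have := Finset.mem_range.mp hj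
    exact_mod_cast this
  have hn0 : (0 : ℝ) < (n : ℝ) + 1 := by positivity
  have hj0 : (0 : ℝ) ≤ j := Nat.cast_nonneg j
  refine ⟨t + (j + 1 / 2) / (n + 1), 1 / (4 * (n + 1)), ?_, ?_, by positivity, rfl, ?_⟩
  · have : 0 ≤ ((j : ℝ) + 1 / 2) / (n + 1) := by positivity
    linarith
  · have : ((j : ℝ) + 1 / 2) / (n + 1) ≤ 1 := by
      rw [div_le_one hn0]; linarith
    linarith
  · intro z hz
    have hz' := abs_le.mp hz
    have e1 : (1 : ℝ) / (4 * (n + 1)) = (1 / 4) / (n + 1) := by field_simp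
    rw [e1] at hz'
    have h1 : t + (j + 1 / 4) / (n + 1) ≤ z.im := by
      have : t + (j + 1 / 4) / (n + 1) = t + (j + 1 / 2) / (n + 1) - (1 / 4) / (n + 1) := by
        field_simp; ring
      linarith [hz'.1]
    have h2 : z.im ≤ t + (j + 3 / 4) / (n + 1) := by
      have : t + (j + 3 / 4) / (n + 1) = t + (j + 1 / 2) / (n + 1) + (1 / 4) / (n + 1) := by
        field_simp; ring
      linarith [hz'.2]
    have h3 : 0 < ((j : ℝ) + 1 / 4) / (n + 1) := by positivity
    have h4 : ((j : ℝ) + 3 / 4) / (n + 1) ≤ 1 := by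
      rw [div_le_one hn0]; linarith
    refine ⟨fun h0 => ?_, by linarith⟩
    have him : z.im ≠ 0 := by linarith
    have hs := hS z him h0
    have hmem : z ∈ Z := mem_Zf.mpr ⟨h0, hs.1, hs.2, by linarith, by linarith⟩
    apply hjn
    refine Finset.mem_image.mpr ⟨z, hmem, ?_⟩
    rw [hφ]
    simp only
    rw [Nat.floor_eq_iff (by
      apply mul_nonneg _ hn0.le
      linarith)]
    have h5 : (j + 1 / 4) / (n + 1) ≤ z.im - t := by linarith
    have h6 : z.im - t ≤ (j + 3 / 4) / (n + 1) := by linarith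
    rw [div_le_iff₀ hn0] at h5
    rw [le_div_iff₀ hn0] at h6
    constructor <;> linarith

theorem good (hG : GrowSt) (h2 : Zeta2St) (hS : StripSt) (hL : LocSt) : GHSt := by
  obtain ⟨CL, tL, hCL, htL, hloc⟩ := hL
  obtain ⟨CG, hCG, hgrow⟩ := hG (1 / 4) (by norm_num)
  -- constants
  obtain ⟨t1, ht1, hlarge⟩ : ∃ t1 : ℝ, 3 ≤ t1 ∧ 2 * CG + 100 ≤ t1 := ⟨max 3 (2 * CG + 100), le_max_left _ _, le_max_right _ _⟩
  refine ⟨26 * (CL + 1) + 3, max tL t1, by positivity, htL.trans (le_max_left _ _), fun t ht => ?_⟩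
  have htL' : tL ≤ t := (le_max_left _ _).trans ht
  have ht1' : t1 ≤ t := (le_max_right _ _).trans ht
  have ht3 : 3 ≤ t := ht1.trans ht1'
  have htC : 2 * CG + 100 ≤ t := hlarge.trans ht1'
  obtain ⟨t', η, htt', htt'', hη, hηe, hzf⟩ := gap hS (t := t) (by linarith)
  refine ⟨t', htt', htt'', ?_, ?_⟩
  · intro σ
    refine (hzf _ ?_).1
    simp
    exact hη.le
  set n := (Zf t (t + 1)).card with hn
  have hn0 : (0 : ℝ) ≤ n := Nat.cast_nonneg n
  have hη1 : η ≤ 1 / 4 := by
    rw [hηe]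
    apply one_div_le_one_div_of_le (by norm_num)
    linarith
  -- number of zeros
  have hlog1 : 1 ≤ Real.log t := by
    have h1 : Real.exp 1 ≤ t := by
      have := Real.exp_one_lt_d9
      linarith
    calc (1 : ℝ) = Real.log (Real.exp 1) := (Real.log_exp 1).symm
      _ ≤ Real.log t := Real.log_le_log (Real.exp_pos 1) h1
  have hncount : (n : ℝ) ≤ CL * Real.log t := by
    refine le_trans ?_ (hloc t htL')
    rw [zeroCount_eq]
    rw [hn]
    have : (Zf t (t + 1)).card ≤ ∑ ρ ∈ Zf t (t + 1), mult ρ := by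
      rw [Finset.card_eq_sum_ones]
      refine Finset.sum_le_sum fun ρ hρ => ?_
      have hρ' := mem_Zf.mp hρ
      obtain ⟨h0, h1, h3, -, -⟩ := hρ'
      have hne : ρ ≠ 1 := by rintro rfl; simp at h3
      exact Nat.one_le_iff_ne_zero.mpr ((H53.MT.orderNat_zeta_ne_zero_iff hne).mpr h0)
    exact_mod_cast this
  have hn1 : (n : ℝ) + 1 ≤ (CL + 1) * Real.log t := by linarith
  -- growth on the strip
  have himpos : ∀ z : ℂ, |z.im - t'| ≤ η → 1 ≤ z.im ∧ z.im ≤ t + 2 := by
    intro z hz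
    have := abs_le.mp hz
    constructor <;> linarith [this.1, this.2]
  have hdiff : ∀ z : ℂ, 1 / 4 ≤ z.re → |z.im - t'| ≤ η → DifferentiableAt ℂ riemannZeta z := by
    intro z _ hz
    refine differentiableAt_riemannZeta ?_
    rintro rfl
    have := (himpos 1 hz).1
    simp at this
    linarith
  have hAb : ∀ z : ℂ, 1 / 4 ≤ z.re → z.re ≤ 3 → |z.im - t'| ≤ η →
      ‖riemannZeta z‖ ≤ Real.exp (2 * Real.log t) := by
    intro z h1 h3 hz
    have h4 := himpos z hz
    have h5 : ‖z‖ ≤ t + 5 := by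
      calc ‖z‖ ≤ |z.re| + |z.im| := Complex.norm_le_abs_re_add_abs_im z
        _ ≤ 3 + (t + 2) := by
          rw [abs_of_nonneg (by linarith), abs_of_nonneg (by linarith)]
          linarith
        _ = t + 5 := by ring
    have h6 := hgrow z h1 (by rw [abs_of_nonneg (by linarith)]; exact h4.1)
    have h7 : Real.exp (2 * Real.log t) = t ^ 2 := by
      have h8 : 2 * Real.log t = Real.log (t ^ 2) := by rw [Real.log_pow]; norm_num
      rw [h8, Real.exp_log (by positivity)]
    rw [h7]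
    calc ‖riemannZeta z‖ ≤ CG * ‖z‖ := h6
      _ ≤ CG * (t + 5) := by gcongr
      _ ≤ t ^ 2 := by nlinarith
  -- the value at 2
  have hz2 := h2 ((2 : ℂ) + t' * I) (by simp)
  have hz2ne : riemannZeta ((2 : ℂ) + t' * I) ≠ 0 := by
    intro h; rw [h] at hz2; norm_num at hz2
  have hw : exp (Complex.log (riemannZeta ((2 : ℂ) + t' * I))) = riemannZeta ((2 : ℂ) + t' * I) :=
    Complex.exp_log hz2ne
  have hnorm1 : ‖riemannZeta ((2 : ℂ) + t' * I)‖ ≤ 5 / 3 := by
    have := norm_sub_norm_le (riemannZeta ((2 : ℂ) + t' * I)) 1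
    rw [norm_one] at this
    linarith
  have hnorm2 : 1 / 3 ≤ ‖riemannZeta ((2 : ℂ) + t' * I)‖ := by
    have := norm_sub_norm_le (1 : ℂ) (1 - riemannZeta ((2 : ℂ) + t' * I))
    rw [norm_sub_rev] at hz2
    simp only [norm_one, sub_sub_cancel] at this
    linarith
  have hD : ‖Complex.log (riemannZeta ((2 : ℂ) + t' * I))‖ ≤ 6 := by
    have h1 := Complex.norm_le_abs_re_add_abs_im (Complex.log (riemannZeta ((2 : ℂ) + t' * I)))
    have h3 : |(Complex.log (riemannZeta ((2 : ℂ) + t' * I))).im| ≤ 3.15 := by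
      rw [Complex.log_im]
      exact (Complex.abs_arg_le_pi _).trans Real.pi_lt_d2.le
    have h4 : |(Complex.log (riemannZeta ((2 : ℂ) + t' * I))).re| ≤ 2 := by
      rw [Complex.log_re, abs_le]
      have hpos : 0 < ‖riemannZeta ((2 : ℂ) + t' * I)‖ := by linarith
      constructor
      · have := Real.one_sub_inv_le_log_of_pos hpos
        have h5 : ‖riemannZeta ((2 : ℂ) + t' * I)‖⁻¹ ≤ 3 := by
          rw [inv_le_comm₀ hpos (by norm_num)]; linarith
        linarith
      · have := Real.log_le_sub_one_of_pos hpos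
        linarith
    linarith
  have hA0 : 0 < 2 * Real.log t := by linarith
  -- the chain
  set k : ℕ := 12 * (n + 1) with hk
  have hkη : (k : ℝ) * (η / 2) = 3 / 2 := by
    rw [hk, hηe]
    push_cast
    field_simp
    ring
  have hchain := chain (f := riemannZeta) (t := t') hη hη1 hA0 (by norm_num : (0 : ℝ) ≤ 6)
    hdiff (fun z _ hz => (hzf z hz).1) hAb hw hD k
  intro σ h1 hσ2
  obtain ⟨w', hw', hb⟩ := hchain σ h1 hσ2 (by rw [hkη]; linarith)
  have hball : ∀ z ∈ ball ((σ : ℂ) + t' * I) η, 1 / 4 ≤ z.re ∧ z.re ≤ 3 ∧ |z.im - t'| ≤ η := by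
    intro z hz
    rw [mem_ball, dist_eq_norm] at hz
    have hre := Complex.abs_re_le_norm (z - ((σ : ℂ) + t' * I))
    have him := Complex.abs_im_le_norm (z - ((σ : ℂ) + t' * I))
    simp at hre him
    have hre' := abs_le.mp (hre.trans hz.le)
    refine ⟨by linarith [hre'.1], by linarith [hre'.2], him.trans hz.le⟩
  obtain ⟨-, hder⟩ := bc_step (f := riemannZeta) (s := (σ : ℂ) + t' * I) hη hA0
    (fun z hz => (hdiff z (hball z hz).1 (hball z hz).2.2).differentiableWithinAt)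
    (fun z hz => (hzf z (hball z hz).2.2).1)
    (fun z hz => hAb z (hball z hz).1 (hball z hz).2.1 (hball z hz).2.2) hw' (le_refl ‖w'‖)
  refine hder.trans ?_
  -- final estimate
  have hηinv : 1 / (η / 2) = 8 * (n + 1) := by
    rw [hηe]; field_simp; ring
  have h3n : ((n : ℝ) + 1) ≤ 3 ^ (n + 1) := by
    have : n + 1 ≤ 3 ^ (n + 1) := (Nat.lt_pow_self (by norm_num)).le
    exact_mod_cast this
  have hpow : (3 : ℝ) ^ (n + 1) * 3 ^ k ≤ t ^ (26 * (CL + 1)) := by
    rw [← pow_add, hk]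
    have e1 : (3 : ℝ) ^ (n + 1 + 12 * (n + 1)) ≤ Real.exp (26 * (n + 1)) := by
      have : (3 : ℝ) ≤ Real.exp 2 := by
        have := Real.add_one_le_exp (2 : ℝ)
        linarith
      calc (3 : ℝ) ^ (n + 1 + 12 * (n + 1)) ≤ (Real.exp 2) ^ (n + 1 + 12 * (n + 1)) := by gcongr
        _ = Real.exp (26 * (n + 1)) := by
          rw [← Real.exp_nat_mul]; congr 1; push_cast; ring
    have e2 : Real.exp (26 * (n + 1)) ≤ Real.exp (26 * (CL + 1) * Real.log t) := by
      apply Real.exp_le_exp.mpr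
      nlinarith
    have e3 : Real.exp (26 * (CL + 1) * Real.log t) = t ^ (26 * (CL + 1)) := by
      rw [Real.rpow_def_of_pos (by linarith), mul_comm]
    linarith
  have hlogt : Real.log t ≤ t := by
    have := Real.log_le_sub_one_of_pos (show 0 < t by linarith)
    linarith
  have htt : t ^ (26 * (CL + 1) + 3) ≤ t' ^ (26 * (CL + 1) + 3) := by
    apply Real.rpow_le_rpow (by linarith) htt' (by positivity)
  refine le_trans ?_ htt
  have hpos3 : (0 : ℝ) < 3 ^ k := by positivity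
  have hpt : 0 < t ^ (26 * (CL + 1)) := Real.rpow_pos_of_pos (by linarith) _
  calc (2 * (2 * Real.log t) + 3 * ‖w'‖) / (η / 2)
      = (2 * (2 * Real.log t) + 3 * ‖w'‖) * (1 / (η / 2)) := by ring
    _ = (2 * (2 * Real.log t) + 3 * ‖w'‖) * (8 * (n + 1)) := by rw [hηinv]
    _ ≤ (3 * (3 ^ k * (6 + 2 * Real.log t))) * (8 * 3 ^ (n + 1)) := by
        gcongr
        linarith
    _ = (3 ^ (n + 1) * 3 ^ k) * (24 * (6 + 2 * Real.log t)) := by ring
    _ ≤ t ^ (26 * (CL + 1)) * (24 * (6 + 2 * Real.log t)) := by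
        gcongr
    _ ≤ t ^ (26 * (CL + 1)) * t ^ (3 : ℕ) := by
        gcongr
        nlinarith [sq_nonneg t, mul_pos (show 0 < t by linarith) (show 0 < t by linarith)]
    _ = t ^ (26 * (CL + 1) + 3) := by
        rw [Real.rpow_add (by linarith), ← Real.rpow_natCast]
        norm_num

end Pool.Agent.H46.MT.Good
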