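import Pool.Agent.H46.MT.Defs
import Pool.Agent.H53.MT.ZGrow

/-!
# Growth of zeta for `Re s ≥ σ₀ > 0`, and `|ζ(s) - 1| ≤ 2/3` for `Re s ≥ 2`
-/

open Complex Set MeasureTheory Filter

namespace Pool.Agent.H46.MT.Grow

theorem grow : GrowSt := by
  intro σ₀ h0
  refine ⟨1 + 1 / σ₀, by positivity, fun s hs him => ?_⟩
  have hre : 0 < s.re := lt_of_lt_of_le h0 hs
  have h1 : 1 ≤ ‖s - 1‖ := by
    have := Complex.abs_im_le_norm (s - 1)
    simp only [sub_im, one_im, sub_zero] at this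
    linarith
  have hne : s ≠ 1 := by
    rintro rfl
    simp at h1
    linarith
  have h := H53.MT.norm_zeta_le hre hne
  have h2 : ‖s‖ / ‖s - 1‖ ≤ ‖s‖ := div_le_self (norm_nonneg _) h1
  have h3 : ‖s‖ / s.re ≤ ‖s‖ / σ₀ := by gcongr
  calc ‖riemannZeta s‖ ≤ ‖s‖ + ‖s‖ / σ₀ := by linarith
    _ = (1 + 1 / σ₀) * ‖s‖ := by ring

theorem zeta2 : Zeta2St := by
  intro s hs
  have hs1 : 1 < s.re := by linarith
  have hsum := hasSum_zeta_two
  have hsum1 : HasSum (fun n : ℕ => 1 / ((n : ℝ) + 1) ^ 2) (Real.pi ^ 2 / 6) := by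
    have := (hasSum_nat_add_iff' (f := fun n : ℕ => 1 / (n : ℝ) ^ 2) 1).mpr hsum
    simpa using this
  have hsum2 : HasSum (fun n : ℕ => 1 / ((n : ℝ) + 1 + 1) ^ 2) (Real.pi ^ 2 / 6 - 1) := by
    have := (hasSum_nat_add_iff' (f := fun n : ℕ => 1 / ((n : ℝ) + 1) ^ 2) 1).mpr hsum1
    simpa using this
  have hz := zeta_eq_tsum_one_div_nat_add_one_cpow hs1
  have hS : Summable (fun n : ℕ => 1 / ((n : ℂ) + 1) ^ s) := by
    have := (Complex.summable_one_div_nat_cpow (p := s)).mpr hs1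
    have h2 := (summable_nat_add_iff (f := fun n : ℕ => 1 / (n : ℂ) ^ s) 1).mpr this
    simpa using h2
  have hz2 : riemannZeta s - 1 = ∑' n : ℕ, 1 / ((n : ℂ) + 1 + 1) ^ s := by
    rw [hz, hS.tsum_eq_zero_add]
    simp
  rw [hz2]
  have hle : ∀ n : ℕ, ‖1 / ((n : ℂ) + 1 + 1) ^ s‖ ≤ 1 / ((n : ℝ) + 1 + 1) ^ 2 := by
    intro n
    have e : ((n : ℂ) + 1 + 1) = (((n : ℝ) + 1 + 1 : ℝ) : ℂ) := by push_cast; ring
    have hpos : (0 : ℝ) < (n : ℝ) + 1 + 1 := by positivity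
    rw [norm_div, norm_one, e, Complex.norm_cpow_eq_rpow_re_of_pos hpos]
    gcongr
    rw [← Real.rpow_two]
    apply Real.rpow_le_rpow_of_exponent_le _ hs
    have : (0 : ℝ) ≤ n := Nat.cast_nonneg n
    linarith
  have h := tsum_of_norm_bounded hsum2 hle
  have hpi : Real.pi < 3.15 := Real.pi_lt_d2
  have hpi0 : 0 < Real.pi := Real.pi_pos
  nlinarith

end Pool.Agent.H46.MT.Grow
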