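import Pool.Agent.H46.MT.Defs
import Pool.Agent.H53.MT.Order

/-!
# The argument principle for the completed zeta function, folded
-/

open Complex Set MeasureTheory Filter Topology
open scoped ComplexConjugate

namespace Pool.Agent.H46.MT.ZArg

lemma gammaR_conj (s : ℂ) : Gammaℝ (conj s) = conj (Gammaℝ s) := by
  rw [Gammaℝ_def, Gammaℝ_def, map_mul]
  have hpi : (Real.pi : ℂ).arg ≠ Real.pi := by
    rw [Complex.arg_ofReal_of_nonneg Real.pi_pos.le]
    exact Real.pi_pos.ne
  have h2 : conj (2 : ℂ) = 2 := Complex.conj_ofNat 2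
  have e1 : -(conj s) / 2 = conj (-s / 2) := by rw [map_div₀, map_neg, h2]
  have e2 : (conj s) / 2 = conj (s / 2) := by rw [map_div₀, h2]
  rw [e1, e2, Complex.Gamma_conj, Complex.cpow_conj _ _ hpi, Complex.conj_ofReal]

lemma gammaR_ne {s : ℂ} (hs : s.im ≠ 0) : Gammaℝ s ≠ 0 := by
  intro h
  obtain ⟨n, hn⟩ := Gammaℝ_eq_zero_iff.mp h
  apply hs
  rw [hn]
  simp

lemma ne_zero_of_im {s : ℂ} (hs : s.im ≠ 0) : s ≠ 0 := by rintro rfl; simp at hs

lemma ne_one_of_im {s : ℂ} (hs : s.im ≠ 0) : s ≠ 1 := by rintro rfl; simp at hs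

lemma completed_eq {s : ℂ} (hs : s.im ≠ 0) :
    completedRiemannZeta s = riemannZeta s * Gammaℝ s := by
  rw [riemannZeta_def_of_ne_zero (ne_zero_of_im hs), div_mul_cancel₀ _ (gammaR_ne hs)]

lemma completed_conj {s : ℂ} (hs : s.im ≠ 0) :
    completedRiemannZeta (conj s) = conj (completedRiemannZeta s) := by
  have hs' : (conj s).im ≠ 0 := by simpa using hs
  rw [completed_eq hs, completed_eq hs', riemannZeta_conj, gammaR_conj, map_mul]

lemma completed_zero_iff {s : ℂ} (hs : s.im ≠ 0) :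
    completedRiemannZeta s = 0 ↔ riemannZeta s = 0 := by
  rw [completed_eq hs, mul_eq_zero, or_iff_left (gammaR_ne hs)]

lemma logDeriv_one_sub (s : ℂ) :
    logDeriv completedRiemannZeta (1 - s) = -logDeriv completedRiemannZeta s := by
  have h1 : deriv completedRiemannZeta s = -deriv completedRiemannZeta (1 - s) := by
    have h2 : completedRiemannZeta = fun z => completedRiemannZeta (1 - z) := by
      ext z; exact (completedRiemannZeta_one_sub z).symm
    calc deriv completedRiemannZeta s = deriv (fun z => completedRiemannZeta (1 - z)) s := by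
          rw [← h2]
      _ = -deriv completedRiemannZeta (1 - s) := deriv_comp_const_sub _ _ _
  rw [logDeriv_apply, logDeriv_apply, h1, completedRiemannZeta_one_sub]
  ring

lemma logDeriv_conj {s : ℂ} (hs : s.im ≠ 0) :
    logDeriv completedRiemannZeta (conj s) = conj (logDeriv completedRiemannZeta s) := by
  have hs' : (conj s).im ≠ 0 := by simpa using hs
  have h1 : deriv completedRiemannZeta (conj s) = conj (deriv completedRiemannZeta s) := by
    have hU : IsOpen {z : ℂ | z.im ≠ 0} := isOpen_ne_fun Complex.continuous_im continuous_const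
    have he : completedRiemannZeta =ᶠ[𝓝 (conj s)] (conj ∘ completedRiemannZeta ∘ conj) := by
      filter_upwards [hU.mem_nhds hs'] with z hz
      have hz' : (conj z).im ≠ 0 := by simpa using hz
      simp only [Function.comp_apply]
      rw [← completed_conj hz', Complex.conj_conj]
    rw [he.deriv_eq, deriv_conj_conj]
    simp
  rw [logDeriv_apply, logDeriv_apply, h1, completed_conj hs, map_div₀]

/-- `h(-1 + it) = - conj (h(2 + it))` -/
lemma logDeriv_fold {y : ℝ} (hy : y ≠ 0) :
    logDeriv completedRiemannZeta (-1 + y * I) =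
      -conj (logDeriv completedRiemannZeta (2 + y * I)) := by
  have e1 : (-1 : ℂ) + y * I = 1 - conj (2 + y * I) := by
    simp only [map_add, map_mul, Complex.conj_ofReal, Complex.conj_I]
    rw [show (conj (2 : ℂ)) = 2 from Complex.conj_ofNat 2]
    ring
  rw [e1, logDeriv_one_sub, logDeriv_conj]
  simpa using hy

theorem zarg (hA : ArgSt) (hS : StripSt) : ZArgSt := by
  intro T₁ T₂ f h1 h12 hf hz1 hz2
  have hU : IsOpen {z : ℂ | 0 < z.im} := isOpen_lt continuous_const Complex.continuous_im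
  have hsub : Set.Icc (-1 : ℝ) 2 ×ℂ Set.Icc T₁ T₂ ⊆ {z : ℂ | 0 < z.im} := by
    intro z hz
    rw [Complex.mem_reProdIm] at hz
    exact lt_of_lt_of_le h1 hz.2.1
  have hFd : DifferentiableOn ℂ completedRiemannZeta {z : ℂ | 0 < z.im} := by
    intro z hz
    have hz' : z.im ≠ 0 := ne_of_gt hz
    exact (differentiableAt_completedZeta (ne_zero_of_im hz') (ne_one_of_im hz')).differentiableWithinAt
  have hbd : ∀ z ∈ Set.Icc (-1 : ℝ) 2 ×ℂ Set.Icc T₁ T₂, z ∉ Set.Ioo (-1 : ℝ) 2 ×ℂ Set.Ioo T₁ T₂ →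
      completedRiemannZeta z ≠ 0 := by
    intro z hz hz' h0
    have him : z.im ≠ 0 := ne_of_gt (hsub hz)
    rw [completed_zero_iff him] at h0
    have hs := hS z him h0
    apply hz'
    rw [Complex.mem_reProdIm] at hz ⊢
    refine ⟨⟨by linarith [hs.1], by linarith [hs.2]⟩, lt_of_le_of_ne hz.2.1 ?_, lt_of_le_of_ne hz.2.2 ?_⟩
    · intro h
      apply hz1 z.re
      rw [h, Complex.re_add_im]; exact h0
    · intro h
      apply hz2 z.re
      rw [← h, Complex.re_add_im]; exact h0
  have hZ : ∀ z : ℂ, z ∈ Zf T₁ T₂ ↔ z ∈ Set.Ioo (-1 : ℝ) 2 ×ℂ Set.Ioo T₁ T₂ ∧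
      completedRiemannZeta z = 0 := by
    intro z
    rw [mem_Zf, Complex.mem_reProdIm]
    constructor
    · rintro ⟨h0, hr0, hr1, hi1, hi2⟩
      have him : z.im ≠ 0 := by linarith
      refine ⟨⟨⟨by linarith, by linarith⟩, hi1, lt_of_le_of_ne hi2 ?_⟩, (completed_zero_iff him).mpr h0⟩
      intro h
      apply hz2 z.re
      rw [← h, Complex.re_add_im]; exact h0
    · rintro ⟨⟨hre, hi⟩, h0⟩
      have him : z.im ≠ 0 := by linarith [hi.1]
      have h0' := (completed_zero_iff him).mp h0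
      have hs := hS z him h0'
      exact ⟨h0', hs.1, hs.2, hi.1, hi.2.le⟩
  have key := hA completedRiemannZeta f {z : ℂ | 0 < z.im} (-1) 2 T₁ T₂ (Zf T₁ T₂) (by norm_num) h12
    hU hsub hFd hf.differentiableOn hbd hZ
  have hsum : ∑ z ∈ Zf T₁ T₂, (analyticOrderNatAt completedRiemannZeta z : ℂ) * f z =
      ∑ ρ ∈ Zf T₁ T₂, (mult ρ : ℂ) * f ρ := by
    refine Finset.sum_congr rfl fun z hz => ?_
    obtain ⟨h0, hr0, hr1, hi1, hi2⟩ := mem_Zf.mp hz
    rw [H53.MT.orderNat_completed hr0 (ne_one_of_im (by linarith))]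
    rfl
  rw [hsum] at key
  push_cast at key
  have hleft : ∫ y in T₁..T₂, logDeriv completedRiemannZeta (-1 + y * I) * f (-1 + y * I) =
      -∫ y in T₁..T₂, conj (logDeriv completedRiemannZeta (2 + y * I)) * f (-1 + y * I) := by
    rw [← intervalIntegral.integral_neg]
    refine intervalIntegral.integral_congr fun y hy => ?_
    rw [Set.uIcc_of_le h12.le] at hy
    rw [logDeriv_fold (by linarith [hy.1] : y ≠ 0)]
    ring
  rw [hleft] at key
  have hpi : (Real.pi : ℂ) ≠ 0 := by exact_mod_cast Real.pi_ne_zero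
  set S := ∑ ρ ∈ Zf T₁ T₂, (mult ρ : ℂ) * f ρ with hSdef
  have hS2 : S = (1 / (2 * Real.pi * I)) * (2 * Real.pi * I * S) := by
    field_simp
  rw [hS2, ← key]
  push_cast
  field_simp
  have hI : I ^ 2 = -1 := Complex.I_sq
  ring_nf
  try simp only [hI]
  try ring_nf

end Pool.Agent.H46.MT.ZArg
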