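import Pool.Agent.H46.MT.Defs
import Pool.Agent.H46.MT.ZArg

/-!
# Horizontal sides
-/

open Complex Set MeasureTheory Filter Topology
open scoped ComplexConjugate

namespace Pool.Agent.H46.MT.Hor

theorem hor (hD : DigSt) (hDec : DecSt) : HorSt := by
  intro C
  obtain ⟨CD, hCD, hdig⟩ := hD
  refine ⟨|C| + 2 * CD + 2, 2, le_refl _, fun t ht hgood => ?_⟩
  have ht0 : 0 < t := by linarith
  -- right half
  have hright : ∀ x : ℝ, 1 / 2 ≤ x → x ≤ 2 →
      ‖logDeriv completedRiemannZeta (x + t * I)‖ ≤ t ^ (|C| + 2 * CD + 2) := by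
    intro x hx1 hx2
    have hre : 0 < ((x : ℂ) + t * I).re := by simp; linarith
    have him : ((x : ℂ) + t * I).im ≠ 0 := by simp; linarith
    rw [hDec _ hre him (hgood.1 x)]
    have h1 := (hdig x t hx1 hx2 ht).1
    have h2 := hgood.2 x hx1 hx2
    have h3 : Real.log t ≤ t := by
      have := Real.log_le_sub_one_of_pos ht0
      linarith
    have h4 : t ^ C ≤ t ^ (|C| + 2 * CD) := by
      apply Real.rpow_le_rpow_of_exponent_le (by linarith)
      have := le_abs_self C
      linarith
    have h5 : CD ≤ t ^ (2 * CD) := by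
      have h6 : CD ≤ (2 : ℝ) ^ (2 * CD) := by
        have h7 := Real.add_one_le_exp (Real.log 2 * (2 * CD))
        have h9 : (0.6931471803 : ℝ) < Real.log 2 := Real.log_two_gt_d9
        rw [Real.rpow_def_of_pos (by norm_num)]
        nlinarith
      exact h6.trans (Real.rpow_le_rpow (by norm_num) ht (by linarith))
    have hpos : (0 : ℝ) ≤ |C| := abs_nonneg C
    have h12 : t ^ (2 * CD) ≤ t ^ (|C| + 2 * CD) := by
      apply Real.rpow_le_rpow_of_exponent_le (by linarith)
      linarith
    have hP : 0 < t ^ (|C| + 2 * CD) := Real.rpow_pos_of_pos ht0 _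
    have hlast : t ^ (|C| + 2 * CD + 2) = t ^ (|C| + 2 * CD) * t ^ (2 : ℕ) := by
      rw [Real.rpow_add ht0 (|C| + 2 * CD) 2, Real.rpow_two]
    rw [hlast]
    calc ‖logDeriv Gammaℝ (x + t * I) + logDeriv riemannZeta (x + t * I)‖
        ≤ ‖logDeriv Gammaℝ (x + t * I)‖ + ‖logDeriv riemannZeta (x + t * I)‖ := norm_add_le _ _
      _ ≤ CD * Real.log t + t ^ C := by linarith
      _ ≤ t ^ (|C| + 2 * CD) * t + t ^ (|C| + 2 * CD) := by
          have : CD * Real.log t ≤ t ^ (|C| + 2 * CD) * t := by
            have hl : 0 ≤ Real.log t := Real.log_nonneg (by linarith)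
            have hc : CD ≤ t ^ (|C| + 2 * CD) := h5.trans h12
            nlinarith
          linarith
      _ = t ^ (|C| + 2 * CD) * (t + 1) := by ring
      _ ≤ t ^ (|C| + 2 * CD) * t ^ (2 : ℕ) := by
          gcongr
          nlinarith
  intro x hx1 hx2
  by_cases h : 1 / 2 ≤ x
  · exact hright x h hx2
  · push Not at h
    have him : ((1 - x : ℝ) : ℂ) + t * I = 1 - conj ((x : ℂ) + t * I) := by
      simp only [map_add, map_mul, Complex.conj_ofReal, Complex.conj_I]
      push_cast
      ring
    have himne : ((x : ℂ) + t * I).im ≠ 0 := by simp; linarith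
    have h2 := hright (1 - x) (by linarith) (by linarith)
    rw [him, ZArg.logDeriv_one_sub, ZArg.logDeriv_conj himne, norm_neg, RCLike.norm_conj] at h2
    exact h2

end Pool.Agent.H46.MT.Hor
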