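import Pool.Agent.H46.MT.Defs

/-!
# Basic facts on the Montgomery-Taylor kernel (MP_cb7589_nt)
-/

namespace Pool.Agent.H46.MT.KBas

open MeasureTheory Filter Topology
open scoped ComplexConjugate

theorem sqrt2_pos : 0 < √(2 : ℝ) := Real.sqrt_pos.2 (by norm_num)

theorem inv_sqrt2_lt : 1 / √(2 : ℝ) < Real.pi / 2 := by
  have h1 : 1 ≤ √(2 : ℝ) := Real.one_le_sqrt.2 (by norm_num)
  have h2 : 1 / √(2 : ℝ) ≤ 1 := by
    rw [div_le_one sqrt2_pos]
    exact h1
  have h3 := Real.pi_gt_three
  linarith

theorem sin_pos : 0 < Real.sin (1 / √2) :=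
  Real.sin_pos_of_pos_of_lt_pi (by have := sqrt2_pos; positivity)
    (by have := inv_sqrt2_lt; have := Real.pi_pos; linarith)

theorem kC_pos : 0 < kC := by
  unfold kC
  have := sqrt2_pos
  have := sin_pos
  positivity

theorem kh_neg (x : ℝ) : kh (-x) = kh x := by
  unfold kh
  rw [mul_neg, Real.cos_neg]

theorem kh_cont : Continuous kh := by
  unfold kh
  exact continuous_const.mul (Real.continuous_cos.comp (continuous_const.mul continuous_id))

theorem kh_nonneg {x : ℝ} (hx : |x| ≤ 1 / 2) : 0 ≤ kh x := by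
  unfold kh
  apply mul_nonneg kC_pos.le
  apply Real.cos_nonneg_of_mem_Icc
  have h1 : |√2 * x| ≤ 1 / √2 := by
    rw [abs_mul, abs_of_pos sqrt2_pos]
    have h2 : √2 * |x| ≤ √2 * (1 / 2) := mul_le_mul_of_nonneg_left hx sqrt2_pos.le
    have h3 : √2 * (1 / 2) = 1 / √(2 : ℝ) := by
      rw [eq_div_iff sqrt2_pos.ne']
      have : √(2 : ℝ) * √2 = 2 := Real.mul_self_sqrt (by norm_num)
      linarith
    linarith
  have h4 := inv_sqrt2_lt
  have h5 := abs_le.1 h1
  constructor <;> linarith [h5.1, h5.2]

theorem kh_le (x : ℝ) : |kh x| ≤ kC := by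
  unfold kh
  rw [abs_mul, abs_of_pos kC_pos]
  calc kC * |Real.cos (√2 * x)| ≤ kC * 1 :=
        mul_le_mul_of_nonneg_left (Real.abs_cos_le_one _) kC_pos.le
    _ = kC := mul_one _

theorem mem_uIoc {x : ℝ} (hx : x ∈ Set.uIoc (-(1 / 2) : ℝ) (1 / 2)) : |x| ≤ 1 / 2 := by
  rw [Set.uIoc_of_le (by norm_num)] at hx
  rw [abs_le]
  exact ⟨hx.1.le, hx.2⟩

theorem int_kh : ∫ x in (-(1 / 2) : ℝ)..(1 / 2), kh x = 1 := by
  unfold kh
  rw [intervalIntegral.integral_const_mul, intervalIntegral.integral_comp_mul_left
    (fun y => Real.cos y) sqrt2_pos.ne', integral_cos]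
  have h3 : √2 * (1 / 2) = 1 / √(2 : ℝ) := by
    rw [eq_div_iff sqrt2_pos.ne']
    have : √(2 : ℝ) * √2 = 2 := Real.mul_self_sqrt (by norm_num)
    linarith
  have h4 : √2 * -(1 / 2) = -(1 / √(2 : ℝ)) := by rw [← h3]; ring
  rw [h3, h4, Real.sin_neg]
  unfold kC
  have h5 := sin_pos.ne'
  have h6 := sqrt2_pos.ne'
  have h7 : √(2 : ℝ) * √2 = 2 := Real.mul_self_sqrt (by norm_num)
  simp only [smul_eq_mul]
  rw [sub_neg_eq_add]
  field_simp
  nlinarith [h7]

/-- the integrand -/
noncomputable def F (z : ℂ) (x : ℝ) : ℂ := (kh x : ℂ) * Complex.exp (Complex.I * x * z)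

theorem K_eq (z : ℂ) : K z = ∫ x in (-(1 / 2) : ℝ)..(1 / 2), F z x := rfl

theorem F_cont (z : ℂ) : Continuous (F z) := by
  unfold F
  have := kh_cont
  fun_prop

theorem diff : Differentiable ℂ K := by
  intro z0
  have key := intervalIntegral.hasDerivAt_integral_of_dominated_loc_of_deriv_le
    (μ := volume) (a := -(1 / 2)) (b := 1 / 2) (F := F)
    (F' := fun z x => (kh x : ℂ) * (Complex.I * x * Complex.exp (Complex.I * x * z)))
    (x₀ := z0) (s := Metric.ball z0 1) (bound := fun _ => kC * Real.exp (‖z0‖ + 1))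
    (Metric.ball_mem_nhds z0 one_pos)
    (Filter.Eventually.of_forall fun z => (F_cont z).aestronglyMeasurable)
    ((F_cont z0).intervalIntegrable _ _)
    (by
      have h := kh_cont
      have : Continuous fun x : ℝ =>
          (kh x : ℂ) * (Complex.I * x * Complex.exp (Complex.I * x * z0)) := by fun_prop
      exact this.aestronglyMeasurable)
    (Filter.Eventually.of_forall fun x hx z hz => by
      have h1 := mem_uIoc hx
      have hz' : ‖z‖ ≤ ‖z0‖ + 1 := by
        have h2 : ‖z - z0‖ < 1 := by simpa [Metric.mem_ball, dist_eq_norm] using hz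
        have h3 : z = z0 + (z - z0) := by ring
        calc ‖z‖ = ‖z0 + (z - z0)‖ := by rw [← h3]
          _ ≤ ‖z0‖ + ‖z - z0‖ := norm_add_le _ _
          _ ≤ ‖z0‖ + 1 := by linarith
      rw [norm_mul, norm_mul, norm_mul, Complex.norm_exp, Complex.norm_real, Complex.norm_I,
        Complex.norm_real, Real.norm_eq_abs, Real.norm_eq_abs]
      have h4 : (Complex.I * (x : ℂ) * z).re ≤ ‖z0‖ + 1 := by
        have h5 : ‖Complex.I * (x : ℂ) * z‖ ≤ 1 * ‖z‖ := by
          rw [norm_mul, norm_mul, Complex.norm_I, Complex.norm_real, Real.norm_eq_abs, one_mul]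
          exact mul_le_mul_of_nonneg_right (by linarith) (norm_nonneg _)
        have h6 := Complex.re_le_norm (Complex.I * (x : ℂ) * z)
        linarith
      have h7 : Real.exp (Complex.I * (x : ℂ) * z).re ≤ Real.exp (‖z0‖ + 1) :=
        Real.exp_le_exp.2 h4
      have h8 : 1 * |x| * Real.exp (Complex.I * (x : ℂ) * z).re ≤ 1 * Real.exp (‖z0‖ + 1) :=
        mul_le_mul (by linarith) h7 (Real.exp_pos _).le (by norm_num)
      calc |kh x| * (1 * |x| * Real.exp (Complex.I * (x : ℂ) * z).re)
          ≤ kC * (1 * Real.exp (‖z0‖ + 1)) :=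
            mul_le_mul (kh_le x) h8 (by positivity) kC_pos.le
        _ = kC * Real.exp (‖z0‖ + 1) := by ring)
    intervalIntegrable_const
    (Filter.Eventually.of_forall fun x _ z _ => by
      unfold F
      have h1 : HasDerivAt (fun z : ℂ => Complex.exp (Complex.I * x * z))
          (Complex.exp (Complex.I * x * z) * (Complex.I * x)) z := by
        have h0 : HasDerivAt (fun z : ℂ => Complex.I * x * z) (Complex.I * x) z := by
          simpa using (hasDerivAt_id z).const_mul (Complex.I * (x : ℂ))
        exact h0.cexp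
      have h2 := h1.const_mul (kh x : ℂ)
      rwa [mul_comm (Complex.exp (Complex.I * x * z)) (Complex.I * x)] at h2)
  exact key.2.differentiableAt

theorem K_zero : K 0 = 1 := by
  unfold K
  have h : (fun x : ℝ => (kh x : ℂ) * Complex.exp (Complex.I * x * 0)) =
      fun x : ℝ => ((kh x : ℝ) : ℂ) := by
    funext x
    simp
  rw [h, intervalIntegral.integral_ofReal, int_kh]
  simp

theorem K_neg (z : ℂ) : K (-z) = K z := by
  unfold K
  have h := intervalIntegral.integral_comp_neg (a := -(1 / 2)) (b := (1 / 2 : ℝ)) (fun x : ℝ =>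
    (kh x : ℂ) * Complex.exp (Complex.I * x * z))
  rw [neg_neg] at h
  rw [← h]
  apply intervalIntegral.integral_congr
  intro x _
  simp only
  rw [kh_neg]
  congr 2
  push_cast
  ring

theorem K_conj (z : ℂ) : K (conj z) = conj (K z) := by
  rw [← K_neg z]
  unfold K
  rw [← intervalIntegral.intervalIntegral_conj]
  apply intervalIntegral.integral_congr
  intro x _
  simp only
  rw [map_mul, Complex.conj_ofReal, ← Complex.exp_conj]
  congr 2
  rw [map_mul, map_mul, map_neg, Complex.conj_ofReal, Complex.conj_I]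
  ring

theorem K_norm (x : ℝ) : ‖K x‖ ≤ 1 := by
  unfold K
  have h1 : ‖∫ y in (-(1 / 2) : ℝ)..(1 / 2), (kh y : ℂ) * Complex.exp (Complex.I * y * (x : ℂ))‖ ≤
      ∫ y in (-(1 / 2) : ℝ)..(1 / 2), kh y := by
    apply intervalIntegral.norm_integral_le_of_norm_le (by norm_num)
    · refine Filter.Eventually.of_forall fun y hy => ?_
      have h2 : |y| ≤ 1 / 2 := abs_le.2 ⟨hy.1.le, hy.2⟩
      rw [norm_mul, Complex.norm_real, Real.norm_eq_abs, abs_of_nonneg (kh_nonneg h2)]
      have h3 : Complex.I * (y : ℂ) * (x : ℂ) = ((y * x : ℝ) : ℂ) * Complex.I := by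
        push_cast
        ring
      rw [h3, Complex.norm_exp_ofReal_mul_I, mul_one]
    · exact kh_cont.intervalIntegrable _ _
  rw [int_kh] at h1
  exact h1

theorem K_im (x : ℝ) : (K x).im = 0 := by
  have h := K_conj (x : ℂ)
  rw [Complex.conj_ofReal] at h
  exact Complex.conj_eq_iff_im.1 h.symm

theorem kbasic : KBasicSt := ⟨diff, K_zero, K_neg, K_conj, K_norm, K_im⟩

open scoped ComplexOrder in
theorem kpos : KPosSt := by
  intro n z
  refine Matrix.PosSemidef.of_dotProduct_mulVec_nonneg ?_ ?_
  · ext i j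
    rw [Matrix.conjTranspose_apply, Matrix.of_apply, Matrix.of_apply]
    rw [show star (K (z j - conj (z i))) = conj (K (z j - conj (z i))) from rfl, ← K_conj,
      map_sub, Complex.conj_conj, ← K_neg]
    congr 1
    ring
  · intro x
    have h1 : star x ⬝ᵥ (Matrix.mulVec (Matrix.of fun i j : Fin n => K (z i - conj (z j))) x) =
        ∫ y in (-(1 / 2) : ℝ)..(1 / 2), ((kh y * ‖∑ i, conj (x i) *
          Complex.exp (Complex.I * y * z i)‖ ^ 2 : ℝ) : ℂ) := by
      have h2 : star x ⬝ᵥ (Matrix.mulVec (Matrix.of fun i j : Fin n => K (z i - conj (z j))) x) =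
          ∑ i, ∑ j, conj (x i) * x j * K (z i - conj (z j)) := by
        unfold dotProduct Matrix.mulVec dotProduct
        apply Finset.sum_congr rfl
        intro i _
        rw [Finset.mul_sum]
        apply Finset.sum_congr rfl
        intro j _
        change conj (x i) * (K (z i - conj (z j)) * x j) = _
        ring
      rw [h2]
      have h3 : ∀ i j : Fin n, conj (x i) * x j * K (z i - conj (z j)) =
          ∫ y in (-(1 / 2) : ℝ)..(1 / 2), conj (x i) * x j * F (z i - conj (z j)) y := by
        intro i j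
        rw [intervalIntegral.integral_const_mul, ← K_eq]
      simp_rw [h3]
      have h4 : ∀ i : Fin n, ∑ j, ∫ y in (-(1 / 2) : ℝ)..(1 / 2),
          conj (x i) * x j * F (z i - conj (z j)) y =
          ∫ y in (-(1 / 2) : ℝ)..(1 / 2), ∑ j, conj (x i) * x j * F (z i - conj (z j)) y := by
        intro i
        rw [intervalIntegral.integral_finsetSum]
        intro j _
        exact ((F_cont _).intervalIntegrable _ _).const_mul _
      simp_rw [h4]
      rw [← intervalIntegral.integral_finsetSum]
      · apply intervalIntegral.integral_congr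
        intro y _
        simp only
        have h5 : (((kh y * ‖∑ i, conj (x i) * Complex.exp (Complex.I * y * z i)‖ ^ 2 : ℝ)) : ℂ) =
            (kh y : ℂ) * ((∑ i, conj (x i) * Complex.exp (Complex.I * y * z i)) *
              conj (∑ i, conj (x i) * Complex.exp (Complex.I * y * z i))) := by
          rw [Complex.mul_conj, Complex.normSq_eq_norm_sq]
          push_cast
          ring
        rw [h5, map_sum, Finset.sum_mul_sum, Finset.mul_sum]
        apply Finset.sum_congr rfl
        intro i _
        rw [Finset.mul_sum]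
        apply Finset.sum_congr rfl
        intro j _
        unfold F
        rw [map_mul, Complex.conj_conj, ← Complex.exp_conj, map_mul, map_mul,
          Complex.conj_ofReal, Complex.conj_I]
        have h6 : Complex.exp (Complex.I * y * (z i - conj (z j))) =
            Complex.exp (Complex.I * y * z i) * Complex.exp (-Complex.I * y * conj (z j)) := by
          rw [← Complex.exp_add]
          congr 1
          ring
        rw [h6]
        ring
      · intro i _
        apply Continuous.intervalIntegrable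
        apply continuous_finsetSum
        intro j _
        exact continuous_const.mul (F_cont _)
    rw [h1, intervalIntegral.integral_ofReal]
    rw [Complex.zero_le_real]
    apply intervalIntegral.integral_nonneg (by norm_num)
    intro y hy
    exact mul_nonneg (kh_nonneg (abs_le.2 ⟨hy.1, hy.2⟩)) (sq_nonneg _)

end Pool.Agent.H46.MT.KBas
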