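import Pool.Agent.H46.MT.Defs

/-!
# The square of the kernel: `K(z)^2` is the transform of `g`
-/

namespace Pool.Agent.H46.MT.KSq

open MeasureTheory Filter Topology
open scoped ComplexConjugate

theorem intc (s β a b : ℝ) (hs : s ≠ 0) :
    ∫ t in a..b, Real.cos (s * t) * Real.cos (s * (β - t)) =
      ((b - a) * Real.cos (s * β) +
        (Real.sin (s * (2 * b - β)) - Real.sin (s * (2 * a - β))) / (2 * s)) / 2 := by
  have hd : ∀ t ∈ Set.uIcc a b, HasDerivAt
      (fun t : ℝ => (t * Real.cos (s * β) + Real.sin (s * (2 * t - β)) / (2 * s)) / 2)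
      (Real.cos (s * t) * Real.cos (s * (β - t))) t := by
    intro t _
    have h1 : HasDerivAt (fun t : ℝ => s * (2 * t - β)) (s * 2) t := by
      have := (((hasDerivAt_id t).const_mul 2).sub_const β).const_mul s
      simpa using this
    have h2 := (((hasDerivAt_id t).mul_const (Real.cos (s * β))).add
      (h1.sin.div_const (2 * s))).div_const 2
    refine h2.congr_deriv ?_
    have h3 : Real.cos (s * β) = Real.cos (s * t) * Real.cos (s * (β - t))
        - Real.sin (s * t) * Real.sin (s * (β - t)) := by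
      rw [← Real.cos_add]; congr 1; ring
    have h4 : Real.cos (s * (2 * t - β)) = Real.cos (s * t) * Real.cos (s * (β - t))
        + Real.sin (s * t) * Real.sin (s * (β - t)) := by
      rw [← Real.cos_sub]; congr 1; ring
    rw [h3, h4]
    field_simp
    ring
  rw [intervalIntegral.integral_eq_sub_of_hasDerivAt hd
    (Continuous.intervalIntegrable (by fun_prop) _ _)]
  ring

/-- the integrand -/
noncomputable def f (z : ℂ) (x : ℝ) : ℂ := (kh x : ℂ) * Complex.exp (Complex.I * x * z)

/-- the integrand cut off -/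
noncomputable def F (z : ℂ) : ℝ → ℂ := (Set.Icc (-(1 / 2) : ℝ) (1 / 2)).indicator (f z)

theorem cont_kh : Continuous kh := by
  unfold kh
  fun_prop

theorem cont_f (z : ℂ) : Continuous (f z) := by
  unfold f
  have := cont_kh
  fun_prop

theorem int_F (z : ℂ) : Integrable (F z) :=
  ((cont_f z).integrableOn_Icc).integrable_indicator measurableSet_Icc

theorem K_eq (z : ℂ) : K z = ∫ x, F z x := by
  unfold F
  rw [integral_indicator measurableSet_Icc, integral_Icc_eq_integral_Ioc,
    ← intervalIntegral.integral_of_le (by norm_num)]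
  rfl

/-- the convolution on an interval -/
theorem conv_int (β a b : ℝ) (z : ℂ) (hab : a ≤ b)
    (h : ∀ t : ℝ, (t ∈ Set.Icc (-(1 / 2) : ℝ) (1 / 2) ∧ β - t ∈ Set.Icc (-(1 / 2) : ℝ) (1 / 2)) ↔
      t ∈ Set.Icc a b) :
    ∫ t, F z t * F z (β - t) = ((kC ^ 2 * (((b - a) * Real.cos (√2 * β) +
        (Real.sin (√2 * (2 * b - β)) - Real.sin (√2 * (2 * a - β))) / (2 * √2)) / 2) : ℝ) : ℂ) *
      Complex.exp (Complex.I * β * z) := by
  have e1 : (fun t => F z t * F z (β - t)) = (Set.Icc a b).indicator
      (fun t => ((kC ^ 2 * (Real.cos (√2 * t) * Real.cos (√2 * (β - t))) : ℝ) : ℂ) *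
        Complex.exp (Complex.I * β * z)) := by
    ext t
    by_cases ht : t ∈ Set.Icc a b
    · obtain ⟨h1, h2⟩ := (h t).2 ht
      unfold F
      rw [Set.indicator_of_mem h1, Set.indicator_of_mem h2, Set.indicator_of_mem ht]
      unfold f kh
      have e2 : Complex.exp (Complex.I * β * z) =
          Complex.exp (Complex.I * t * z) * Complex.exp (Complex.I * ((β - t : ℝ) : ℂ) * z) := by
        rw [← Complex.exp_add]
        congr 1
        push_cast
        ring
      rw [e2]
      push_cast
      ring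
    · rw [Set.indicator_of_notMem ht]
      by_cases h1 : t ∈ Set.Icc (-(1 / 2) : ℝ) (1 / 2)
      · have h2 : β - t ∉ Set.Icc (-(1 / 2) : ℝ) (1 / 2) := fun h2 => ht ((h t).1 ⟨h1, h2⟩)
        unfold F
        rw [Set.indicator_of_notMem h2, mul_zero]
      · unfold F
        rw [Set.indicator_of_notMem h1, zero_mul]
  rw [e1, integral_indicator measurableSet_Icc, integral_Icc_eq_integral_Ioc,
    ← intervalIntegral.integral_of_le hab, intervalIntegral.integral_mul_const,
    intervalIntegral.integral_ofReal, intervalIntegral.integral_const_mul,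
    intc _ _ _ _ (by positivity)]

theorem conv_eq (β : ℝ) (z : ℂ) :
    ∫ t, F z t * F z (β - t) = (g β : ℂ) * Complex.exp (Complex.I * β * z) := by
  by_cases hβ : |β| ≤ 1
  · rcases le_total 0 β with h0 | h0
    · rw [abs_of_nonneg h0] at hβ
      rw [conv_int β (β - 1 / 2) (1 / 2) z (by linarith) (fun t => by
        simp only [Set.mem_Icc]
        constructor
        · rintro ⟨⟨h1, h2⟩, h3, h4⟩
          constructor <;> linarith
        · rintro ⟨h1, h2⟩
          refine ⟨⟨?_, ?_⟩, ?_, ?_⟩ <;> linarith)]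
      congr 2
      unfold g
      rw [if_pos (by rw [abs_of_nonneg h0]; exact hβ), abs_of_nonneg h0]
      have e1 : Real.sin (√2 * (2 * (β - 1 / 2) - β)) = - Real.sin (√2 * (1 - β)) := by
        rw [← Real.sin_neg]; congr 1; ring
      have e2 : √2 * (2 * (1 / 2) - β) = √2 * (1 - β) := by ring
      have h2 : √2 ≠ 0 := by positivity
      rw [e1, e2]
      field_simp
      ring
    · rw [abs_of_nonpos h0] at hβ
      rw [conv_int β (-(1 / 2)) (β + 1 / 2) z (by linarith) (fun t => by
        simp only [Set.mem_Icc]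
        constructor
        · rintro ⟨⟨h1, h2⟩, h3, h4⟩
          constructor <;> linarith
        · rintro ⟨h1, h2⟩
          refine ⟨⟨?_, ?_⟩, ?_, ?_⟩ <;> linarith)]
      congr 2
      unfold g
      rw [if_pos (by rw [abs_of_nonpos h0]; exact hβ), abs_of_nonpos h0]
      have e1 : Real.sin (√2 * (2 * (-(1 / 2)) - β)) = - Real.sin (√2 * (1 - -β)) := by
        rw [← Real.sin_neg]; congr 1; ring
      have e2 : √2 * (2 * (β + 1 / 2) - β) = √2 * (1 - -β) := by ring
      have h2 : √2 ≠ 0 := by positivity
      rw [e1, e2]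
      field_simp
      ring
  · have e1 : (fun t => F z t * F z (β - t)) = fun _ => 0 := by
      ext t
      by_cases h1 : t ∈ Set.Icc (-(1 / 2) : ℝ) (1 / 2)
      · have h2 : β - t ∉ Set.Icc (-(1 / 2) : ℝ) (1 / 2) := by
          rintro ⟨h2, h3⟩
          obtain ⟨h4, h5⟩ := h1
          refine hβ (abs_le.2 ⟨?_, ?_⟩) <;> linarith
        unfold F
        rw [Set.indicator_of_notMem h2, mul_zero]
      · unfold F
        rw [Set.indicator_of_notMem h1, zero_mul]
    rw [e1, integral_zero]
    unfold g
    rw [if_neg hβ]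
    simp

theorem ksq : KSqSt := by
  intro z
  have h1 := integral_convolution (ContinuousLinearMap.mul ℝ ℂ) (int_F z) (int_F z)
    (μ := volume) (ν := volume)
  have h2 : ∀ β : ℝ, convolution (F z) (F z) (ContinuousLinearMap.mul ℝ ℂ) volume β =
      (g β : ℂ) * Complex.exp (Complex.I * β * z) := fun β => conv_eq β z
  rw [K_eq, pow_two]
  have h3 : ((ContinuousLinearMap.mul ℝ ℂ) (∫ x, F z x)) (∫ x, F z x)
      = (∫ x, F z x) * ∫ x, F z x := rfl
  rw [← h3, ← h1]
  simp only [h2]
  rw [intervalIntegral.integral_of_le (by norm_num), ← integral_Icc_eq_integral_Ioc,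
    setIntegral_eq_integral_of_forall_compl_eq_zero]
  intro β hβ
  have h4 : g β = 0 := by
    unfold g
    rw [if_neg]
    intro h5
    exact hβ (Set.mem_Icc.2 (abs_le.1 h5))
  rw [h4]
  simp

end Pool.Agent.H46.MT.KSq
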