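import Pool.Agent.H46.MT.Defs

/-!
# Stability of the Montgomery-Taylor kernel: `K x`, `K y`, `K (x + y)` are not all small

For real `x` the integral `∫ cos (√2 t) cos (t x)` over `[-1/2, 1/2]` times `x² - 2` equals
`2 (x cos s sin θ - √2 sin s cos θ)` with `s = √2/2`, `θ = x/2`.  So a real zero satisfies
`θ sin θ cos s = s sin s cos θ`, and three zeros `x, y, x + y` with `x, y > 0` are impossible.
-/

namespace Pool.Agent.H46.MT.KSt

open MeasureTheory Filter Topology
open scoped ComplexConjugate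

/-- the primitive of `(x² - 2) cos (√2 t) cos (t x)` -/
noncomputable def prim (x t : ℝ) : ℝ :=
  x * Real.cos (√2 * t) * Real.sin (t * x) - √2 * Real.sin (√2 * t) * Real.cos (t * x)

theorem sqrt2_sq : √2 * √2 = (2 : ℝ) := Real.mul_self_sqrt (by norm_num)

theorem hasDerivAt_prim (x t : ℝ) :
    HasDerivAt (prim x) ((x ^ 2 - 2) * (Real.cos (√2 * t) * Real.cos (t * x))) t := by
  have h1 : HasDerivAt (fun t : ℝ => √2 * t) (√2) t := by
    simpa using (hasDerivAt_id t).const_mul (√2)
  have h2 : HasDerivAt (fun t : ℝ => t * x) x t := by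
    simpa using (hasDerivAt_id t).mul_const x
  have hc := h1.cos
  have hs := h1.sin
  have hc2 := h2.cos
  have hs2 := h2.sin
  have h := ((hc.const_mul x).mul hs2).sub ((hs.const_mul (√2)).mul hc2)
  unfold prim
  refine h.congr_deriv ?_
  have := sqrt2_sq
  linear_combination (-(Real.cos (√2 * t) * Real.cos (t * x))) * this

theorem integral_cos_cos (x : ℝ) :
    (x ^ 2 - 2) * ∫ t in (-(1 / 2) : ℝ)..(1 / 2), Real.cos (√2 * t) * Real.cos (t * x) =
      2 * (x * Real.cos (√2 / 2) * Real.sin (x / 2) -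
        √2 * Real.sin (√2 / 2) * Real.cos (x / 2)) := by
  rw [← intervalIntegral.integral_const_mul]
  rw [intervalIntegral.integral_eq_sub_of_hasDerivAt (f := prim x)
    (fun t _ => hasDerivAt_prim x t)]
  · unfold prim
    have e1 : √2 * (1 / 2) = √2 / 2 := by ring
    have e2 : √2 * (-(1 / 2)) = -(√2 / 2) := by ring
    have e3 : (1 / 2 : ℝ) * x = x / 2 := by ring
    have e4 : (-(1 / 2) : ℝ) * x = -(x / 2) := by ring
    rw [e1, e2, e3, e4, Real.cos_neg, Real.sin_neg, Real.cos_neg, Real.sin_neg]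
    ring
  · apply Continuous.intervalIntegrable
    fun_prop

theorem K_re (x : ℝ) :
    (K x).re = kC * ∫ t in (-(1 / 2) : ℝ)..(1 / 2), Real.cos (√2 * t) * Real.cos (t * x) := by
  have hint : IntervalIntegrable
      (fun t : ℝ => (kh t : ℂ) * Complex.exp (Complex.I * t * x)) volume (-(1 / 2)) (1 / 2) := by
    apply Continuous.intervalIntegrable
    unfold kh
    fun_prop
  have h1 : (K x).re = ∫ t in (-(1 / 2) : ℝ)..(1 / 2),
      ((kh t : ℂ) * Complex.exp (Complex.I * t * x)).re := by
    have := Complex.reCLM.intervalIntegral_comp_comm hint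
    simpa [K] using this.symm
  rw [h1, ← intervalIntegral.integral_const_mul]
  refine intervalIntegral.integral_congr fun t _ => ?_
  have e : Complex.I * t * x = ((t * x : ℝ) : ℂ) * Complex.I := by
    push_cast; ring
  simp only [e]
  rw [Complex.re_ofReal_mul, Complex.exp_ofReal_mul_I_re]
  unfold kh
  ring

theorem one_div_sqrt2 : 1 / √2 = √2 / 2 := by
  have h := sqrt2_sq
  have h0 : (0 : ℝ) < √2 := Real.sqrt_pos.mpr (by norm_num)
  field_simp
  linarith

theorem half_pos : 0 < √2 / 2 := by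
  have h0 : (0 : ℝ) < √2 := Real.sqrt_pos.mpr (by norm_num)
  positivity

theorem half_lt : √2 / 2 < 1 := by
  have h := sqrt2_sq
  have h0 : (0 : ℝ) < √2 := Real.sqrt_pos.mpr (by norm_num)
  nlinarith

theorem sin_s_pos : 0 < Real.sin (√2 / 2) :=
  Real.sin_pos_of_pos_of_lt_pi half_pos (by have := Real.pi_gt_three; linarith [half_lt])

theorem cos_s_pos : 0 < Real.cos (√2 / 2) :=
  Real.cos_pos_of_mem_Ioo ⟨by have := Real.pi_gt_three; linarith [half_pos],
    by have := Real.pi_gt_three; linarith [half_lt]⟩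

/-- a real zero of `K` satisfies `θ sin θ cos s = s sin s cos θ` -/
theorem zero_eq {x : ℝ} (h : K x = 0) :
    x / 2 * Real.sin (x / 2) * Real.cos (√2 / 2) =
      √2 / 2 * Real.sin (√2 / 2) * Real.cos (x / 2) := by
  have hkC : kC ≠ 0 := by
    unfold kC
    rw [one_div_sqrt2]
    have h0 : (0 : ℝ) < √2 := Real.sqrt_pos.mpr (by norm_num)
    have := sin_s_pos
    positivity
  have h1 := K_re x
  rw [h, Complex.zero_re] at h1
  have h2 : ∫ t in (-(1 / 2) : ℝ)..(1 / 2), Real.cos (√2 * t) * Real.cos (t * x) = 0 := by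
    rcases mul_eq_zero.mp h1.symm with h3 | h3
    · exact absurd h3 hkC
    · exact h3
  have h3 := integral_cos_cos x
  rw [h2, mul_zero] at h3
  linarith

theorem no_three {a b p q : ℝ} (ha : 0 < a) (hb : 0 < b) (hp : 0 < p) (hq : 0 < q)
    (h1 : a * Real.sin a * p = q * Real.cos a) (h2 : b * Real.sin b * p = q * Real.cos b)
    (h3 : (a + b) * Real.sin (a + b) * p = q * Real.cos (a + b)) : False := by
  have hne : ∀ c : ℝ, 0 < c → c * Real.sin c * p = q * Real.cos c → Real.cos c ≠ 0 := by
    intro c hc h h0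
    have hs : Real.sin c = 0 := by
      rw [h0, mul_zero] at h
      have := mul_eq_zero.mp h
      rcases this with h' | h'
      · rcases mul_eq_zero.mp h' with h'' | h''
        · exact absurd h'' hc.ne'
        · exact h''
      · exact absurd h' hp.ne'
    have := Real.sin_sq_add_cos_sq c
    rw [hs, h0] at this
    norm_num at this
  have hA := hne a ha h1
  have hB := hne b hb h2
  rw [Real.sin_add, Real.cos_add] at h3
  have key : (q * Real.cos a * Real.cos b) * (p ^ 2 * (a ^ 2 + a * b + b ^ 2) + q ^ 2) = 0 := by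
    set sa := Real.sin a
    set ca := Real.cos a
    set sb := Real.sin b
    set cb := Real.cos b
    have e1 : a * sa * p = q * ca := h1
    have e2 : b * sb * p = q * cb := h2
    have e3 : (a + b) * (sa * cb + ca * sb) * p = q * (ca * cb - sa * sb) := h3
    -- multiply `e3` by `a b p²`
    have e4 : (a + b) * p * (b * cb * p * (a * sa * p) + a * ca * p * (b * sb * p)) =
        q * (a * b * p ^ 2 * ca * cb - (a * sa * p) * (b * sb * p)) := by
      linear_combination (a * b * p ^ 2) * e3
    rw [e1, e2] at e4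
    linear_combination e4
  rcases mul_eq_zero.mp key with h | h
  · rcases mul_eq_zero.mp h with h' | h'
    · rcases mul_eq_zero.mp h' with h'' | h''
      · exact hq.ne' h''
      · exact hA h''
    · exact hB h'
  · have : 0 < p ^ 2 * (a ^ 2 + a * b + b ^ 2) + q ^ 2 := by positivity
    linarith

theorem three_ne (h0 : K 0 = 1) {x y : ℝ} (hx : 0 ≤ x) (hy : 0 ≤ y) (h1 : K x = 0)
    (h2 : K y = 0) (h3 : K ((x + y : ℝ) : ℂ) = 0) : False := by
  have hx' : 0 < x := by
    rcases hx.lt_or_eq with h | h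
    · exact h
    · rw [← h] at h1
      simp [h0] at h1
  have hy' : 0 < y := by
    rcases hy.lt_or_eq with h | h
    · exact h
    · rw [← h] at h2
      simp [h0] at h2
  have e1 := zero_eq h1
  have e2 := zero_eq h2
  have e3 := zero_eq h3
  have e : (x + y) / 2 = x / 2 + y / 2 := by ring
  rw [e] at e3
  exact no_three (a := x / 2) (b := y / 2) (by positivity) (by positivity) cos_s_pos
    (mul_pos half_pos sin_s_pos) e1 e2 e3

theorem kstab (hK : KBasicSt) : KStabSt := by
  obtain ⟨hd, h0, -, -, -, -⟩ := hK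
  have hc : Continuous fun x : ℝ => ‖K (x : ℂ)‖ :=
    (hd.continuous.comp Complex.continuous_ofReal).norm
  let D : Set (ℝ × ℝ) := {z | 0 ≤ z.1 ∧ 0 ≤ z.2 ∧ z.1 + z.2 ≤ 8 * Real.pi}
  have hclosed : IsClosed D := by
    refine (isClosed_le continuous_const continuous_fst).inter
      ((isClosed_le continuous_const continuous_snd).inter
        (isClosed_le (continuous_fst.add continuous_snd) continuous_const))
  have hD : IsCompact D := by
    refine (isCompact_Icc (a := ((0 : ℝ), (0 : ℝ)))
      (b := (8 * Real.pi, 8 * Real.pi))).of_isClosed_subset hclosed ?_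
    rintro ⟨x, y⟩ ⟨hx, hy, hxy⟩
    simp only at hx hy hxy
    exact ⟨⟨hx, hy⟩, ⟨by simp only; linarith, by simp only; linarith⟩⟩
  have hne : D.Nonempty := ⟨(0, 0), by
    refine ⟨le_refl _, le_refl _, ?_⟩
    simp only [add_zero]
    positivity⟩
  let f : ℝ × ℝ → ℝ := fun z =>
    max ‖K (z.1 : ℂ)‖ (max ‖K (z.2 : ℂ)‖ ‖K ((z.1 + z.2 : ℝ) : ℂ)‖)
  have hf : Continuous f :=
    (hc.comp continuous_fst).max
      ((hc.comp continuous_snd).max (hc.comp (continuous_fst.add continuous_snd)))
  obtain ⟨z, hz, hmin⟩ := hD.exists_isMinOn hne hf.continuousOn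
  have hpos : 0 < f z := by
    by_contra hcon
    have hle : f z ≤ 0 := not_lt.mp hcon
    have n1 : ‖K (z.1 : ℂ)‖ ≤ 0 := (le_max_left _ _).trans hle
    have n2 : ‖K (z.2 : ℂ)‖ ≤ 0 := ((le_max_left _ _).trans (le_max_right _ _)).trans hle
    have n3 : ‖K ((z.1 + z.2 : ℝ) : ℂ)‖ ≤ 0 :=
      ((le_max_right _ _).trans (le_max_right _ _)).trans hle
    exact three_ne h0 hz.1 hz.2.1 (norm_le_zero_iff.mp n1) (norm_le_zero_iff.mp n2)
      (norm_le_zero_iff.mp n3)
  refine ⟨f z, hpos, ?_⟩
  intro x y hx hy hxy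
  have h1 : f z ≤ f (x, y) := hmin (show (x, y) ∈ D from ⟨hx, hy, hxy⟩)
  rcases le_max_iff.mp h1 with h | h
  · exact Or.inl h
  · rcases le_max_iff.mp h with h | h
    · exact Or.inr (Or.inl h)
    · exact Or.inr (Or.inr h)

end Pool.Agent.H46.MT.KSt
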