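import Pool.Agent.H46.MT.Defs

/-!
# The linear algebra inequality (module 26 of the critical-zeros project, MP_cb7589_nt)
-/

namespace Pool.Agent.H46.MT.LA

open Module

section general

variable {E : Type} [NormedAddCommGroup E] [InnerProductSpace ℂ E]

theorem rk_apply (u v x : E) : rk u v x = (inner ℂ v x) • u := by
  simp [rk]

/-- The weighted frame operator of the vectors `v i`. -/
noncomputable def As {N : ℕ} (v : Fin N → E) (w : Fin N → ℝ) : E →ₗ[ℂ] E :=
  ∑ i, (w i : ℂ) • rk (v i) (v i)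

theorem inner_As {N : ℕ} (v : Fin N → E) (w : Fin N → ℝ) (x y : E) :
    inner ℂ x (As v w y) = ∑ i, (w i : ℂ) * (inner ℂ (v i) y * inner ℂ x (v i)) := by
  simp only [As, LinearMap.sum_apply, LinearMap.smul_apply, rk_apply, inner_sum, inner_smul_right]

theorem As_sym {N : ℕ} (v : Fin N → E) (w : Fin N → ℝ) : (As v w).IsSymmetric := by
  intro x y
  rw [← inner_conj_symm, inner_As, inner_As, map_sum]
  refine Finset.sum_congr rfl fun i _ => ?_
  rw [map_mul, map_mul, inner_conj_symm, inner_conj_symm, Complex.conj_ofReal]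
  ring

theorem inner_As_self {N : ℕ} (v : Fin N → E) (w : Fin N → ℝ) (x : E) :
    inner ℂ x (As v w x) = ((∑ i, w i * ‖(inner ℂ (v i) x : ℂ)‖ ^ 2 : ℝ) : ℂ) := by
  rw [inner_As]
  push_cast
  refine Finset.sum_congr rfl fun i _ => ?_
  congr 1
  rw [← inner_conj_symm x (v i), Complex.mul_conj, Complex.normSq_eq_norm_sq]
  push_cast
  rfl

/-- The scalar inequality. -/
theorem scal (la b : ℝ) (h0 : 0 ≤ la) (hb : b ≤ 0) :
    4 * la + 4 * b - la - 4 * (la / (1 + la)) ≤ (la + b) ^ 2 := by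
  have h1 : 0 < 1 + la := by linarith
  have h2 : 0 ≤ ((la + b) ^ 2 - 3 * la - 4 * b) * (1 + la) + 4 * la := by
    rcases le_total la 2 with h | h
    · have e : ((la + b) ^ 2 - 3 * la - 4 * b) * (1 + la) + 4 * la =
          la * (la - 1) ^ 2 + (1 + la) * (b ^ 2 + 2 * (-b) * (2 - la)) := by ring
      rw [e]
      have t1 : 0 ≤ la * (la - 1) ^ 2 := mul_nonneg h0 (sq_nonneg _)
      have t2 : 0 ≤ 2 * (-b) * (2 - la) :=
        mul_nonneg (mul_nonneg (by norm_num) (by linarith)) (by linarith)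
      have t3 : 0 ≤ (1 + la) * (b ^ 2 + 2 * (-b) * (2 - la)) :=
        mul_nonneg h1.le (add_nonneg (sq_nonneg _) t2)
      linarith
    · have e : ((la + b) ^ 2 - 3 * la - 4 * b) * (1 + la) + 4 * la =
          (1 + la) * (la + b - 2) ^ 2 + (la ^ 2 + la - 4) := by ring
      rw [e]
      have t1 : 0 ≤ (1 + la) * (la + b - 2) ^ 2 := mul_nonneg h1.le (sq_nonneg _)
      have t2 : 0 ≤ la ^ 2 + la - 4 := by nlinarith
      linarith
  have h3 : 4 * (la / (1 + la)) * (1 + la) = 4 * la := by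
    field_simp
  by_contra hcon
  push Not at hcon
  have h4 : ((la + b) ^ 2 - 3 * la - 4 * b + 4 * (la / (1 + la))) * (1 + la) < 0 :=
    mul_neg_of_neg_of_pos (by linarith) h1
  have h5 : ((la + b) ^ 2 - 3 * la - 4 * b + 4 * (la / (1 + la))) * (1 + la) =
      ((la + b) ^ 2 - 3 * la - 4 * b) * (1 + la) + 4 * la := by
    rw [add_mul, h3]
  linarith

variable [FiniteDimensional ℂ E]

/-- The adapted orthonormal basis. -/
theorem exists_basis {N : ℕ} (v : Fin N → E) (w : Fin N → ℝ) (V : Submodule ℂ E) :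
    ∃ (n a : ℕ) (e : OrthonormalBasis (Fin n ⊕ Fin a) ℂ E) (la : Fin n → ℝ),
      n = finrank ℂ V ∧ n + a = finrank ℂ E ∧ (∀ j, e (Sum.inl j) ∈ V) ∧
      ∀ j k, inner ℂ (e (Sum.inl k)) (As v w (e (Sum.inl j))) = if k = j then (la j : ℂ) else 0 := by
  classical
  set T : V →ₗ[ℂ] V := (V.orthogonalProjectionOnto : E →L[ℂ] V).toLinearMap ∘ₗ (As v w) ∘ₗ V.subtype
    with hT
  have key : ∀ x y : V, inner ℂ x (T y) = inner ℂ (x : E) (As v w (y : E)) := by
    intro x y
    rw [hT]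
    simp only [LinearMap.comp_apply, Submodule.subtype_apply, ContinuousLinearMap.coe_coe]
    rw [Submodule.coe_inner]
    exact Submodule.inner_orthogonalProjectionOnto_eq_of_mem_left x (As v w (y : E))
  have hsym : T.IsSymmetric := by
    intro x y
    rw [← inner_conj_symm, key, key, inner_conj_symm]
    exact As_sym v w (x : E) (y : E)
  set q := hsym.eigenvectorBasis (n := finrank ℂ V) rfl with hq
  set p := stdOrthonormalBasis ℂ Vᗮ with hp
  set f : Fin (finrank ℂ V) ⊕ Fin (finrank ℂ Vᗮ) → E :=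
    Sum.elim (fun j => (q j : E)) (fun i => (p i : E)) with hf
  have hfo : Orthonormal ℂ f := by
    rw [orthonormal_iff_ite]
    rintro (i | i) (j | j)
    · simp only [hf, Sum.elim_inl]
      rw [← Submodule.coe_inner, orthonormal_iff_ite.mp q.orthonormal i j]
      simp
    · simp only [hf, Sum.elim_inl, Sum.elim_inr]
      rw [Submodule.inner_right_of_mem_orthogonal (q i).2 (p j).2]
      simp
    · simp only [hf, Sum.elim_inl, Sum.elim_inr]
      rw [Submodule.inner_left_of_mem_orthogonal (q j).2 (p i).2]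
      simp
    · simp only [hf, Sum.elim_inr]
      rw [← Submodule.coe_inner, orthonormal_iff_ite.mp p.orthonormal i j]
      simp
  have hcard : finrank ℂ E = Fintype.card (Fin (finrank ℂ V) ⊕ Fin (finrank ℂ Vᗮ)) := by
    rw [Fintype.card_sum, Fintype.card_fin, Fintype.card_fin, V.finrank_add_finrank_orthogonal]
  obtain ⟨e, he⟩ := Orthonormal.exists_orthonormalBasis_extension_of_card_eq (𝕜 := ℂ) hcard
    (v := f) (s := Set.univ) (hfo.comp _ Subtype.val_injective)
  refine ⟨finrank ℂ V, finrank ℂ Vᗮ, e, hsym.eigenvalues rfl, rfl,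
    V.finrank_add_finrank_orthogonal, ?_, ?_⟩
  · intro j
    rw [he _ (Set.mem_univ _)]
    exact (q j).2
  · intro j k
    rw [he _ (Set.mem_univ _), he _ (Set.mem_univ _)]
    simp only [hf, Sum.elim_inl]
    rw [← key, hq, hsym.apply_eigenvectorBasis, inner_smul_right,
      orthonormal_iff_ite.mp (hsym.eigenvectorBasis (n := finrank ℂ V) rfl).orthonormal k j]
    split_ifs <;> simp

omit [FiniteDimensional ℂ E] in
/-- The bound for the remainder of one vector. -/
theorem rem_le {N n : ℕ} (v : Fin N → E) (w : Fin N → ℝ) (hw : ∀ i, 0 < w i)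
    (q : Fin n → E) (hq : Orthonormal ℂ q) (la : Fin n → ℝ) (h0 : ∀ j, 0 ≤ la j)
    (hla : ∀ j k, inner ℂ (q k) (As v w (q j)) = if k = j then (la j : ℂ) else 0)
    (z : E) (R : ℝ) (x : Fin N → ℝ)
    (hx : ‖z - ∑ j, (x j : ℂ) • v j‖ ^ 2 + ∑ j, x j ^ 2 / w j ≤ R) :
    ∑ j, ‖(inner ℂ (q j) z : ℂ)‖ ^ 2 / (1 + la j) ≤ R := by
  classical
  set S : ℝ := ∑ j, ‖(inner ℂ (q j) z : ℂ)‖ ^ 2 / (1 + la j) with hS
  set c : Fin n → ℂ := fun j => (inner ℂ (q j) z : ℂ) / ((1 + la j : ℝ) : ℂ) with hc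
  set h : E := ∑ j, c j • q j with hh
  have h1 : ∀ j, (0 : ℝ) < 1 + la j := fun j => by have := h0 j; linarith
  have hcn : ∀ j, ‖c j‖ ^ 2 * (1 + la j) = ‖(inner ℂ (q j) z : ℂ)‖ ^ 2 / (1 + la j) := by
    intro j
    simp only [hc]
    rw [norm_div, Complex.norm_real, Real.norm_eq_abs, abs_of_pos (h1 j), div_pow]
    have := (h1 j).ne'
    field_simp
  -- inner product of h and z
  have e1 : inner ℂ h z = ((S : ℝ) : ℂ) := by
    rw [hh, sum_inner, hS]
    push_cast
    refine Finset.sum_congr rfl fun j _ => ?_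
    rw [inner_smul_left]
    simp only [hc]
    rw [map_div₀, Complex.conj_ofReal, div_mul_eq_mul_div, Complex.conj_mul']
    push_cast
    rfl
  -- norm of h
  have e2 : ‖h‖ ^ 2 = ∑ j, ‖c j‖ ^ 2 := by
    have : inner ℂ h h = ((∑ j, ‖c j‖ ^ 2 : ℝ) : ℂ) := by
      rw [hh, hq.inner_sum]
      push_cast
      exact Finset.sum_congr rfl fun j _ => Complex.conj_mul' (c j)
    have h2 := congrArg Complex.re this
    rw [Complex.ofReal_re] at h2
    rw [← h2]
    exact (inner_self_eq_norm_sq (𝕜 := ℂ) h).symm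
  -- the quadratic form at h
  have e3 : inner ℂ h (As v w h) = ((∑ j, ‖c j‖ ^ 2 * la j : ℝ) : ℂ) := by
    rw [hh, map_sum, sum_inner]
    push_cast
    refine Finset.sum_congr rfl fun k _ => ?_
    rw [inner_smul_left, inner_sum, Finset.sum_eq_single k]
    · rw [map_smul, inner_smul_right, hla, if_pos rfl, ← mul_assoc, Complex.conj_mul']
    · intro j _ hj
      rw [map_smul, inner_smul_right, hla, if_neg (Ne.symm hj), mul_zero]
    · intro hk
      exact absurd (Finset.mem_univ k) hk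
  have e4 : ∑ i, w i * ‖(inner ℂ (v i) h : ℂ)‖ ^ 2 = ∑ j, ‖c j‖ ^ 2 * la j := by
    have := (inner_As_self v w h).symm.trans e3
    exact_mod_cast this
  have e5 : ‖h‖ ^ 2 + ∑ i, w i * ‖(inner ℂ (v i) h : ℂ)‖ ^ 2 = S := by
    rw [e2, e4, ← Finset.sum_add_distrib, hS]
    refine Finset.sum_congr rfl fun j _ => ?_
    rw [← hcn j]
    ring
  set r : E := z - ∑ j, (x j : ℂ) • v j with hr
  have e6 : S = (inner ℂ h r : ℂ).re + ∑ j, x j * (inner ℂ h (v j) : ℂ).re := by
    have e : (z : E) = r + ∑ j, (x j : ℂ) • v j := by rw [hr]; abel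
    have e' : S = (inner ℂ h z : ℂ).re := by rw [e1, Complex.ofReal_re]
    rw [e']
    conv_lhs => rw [e]
    rw [inner_add_right, inner_sum, Complex.add_re, Complex.re_sum]
    congr 1
    refine Finset.sum_congr rfl fun j _ => ?_
    rw [inner_smul_right, Complex.re_ofReal_mul]
  have b1 : (inner ℂ h r : ℂ).re ≤ (‖h‖ ^ 2 + ‖r‖ ^ 2) / 2 := by
    have t1 : (inner ℂ h r : ℂ).re ≤ ‖h‖ * ‖r‖ :=
      (Complex.re_le_norm _).trans (norm_inner_le_norm h r)
    nlinarith [sq_nonneg (‖h‖ - ‖r‖)]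
  have b2 : ∀ j, x j * (inner ℂ h (v j) : ℂ).re ≤
      (x j ^ 2 / w j + w j * ‖(inner ℂ (v j) h : ℂ)‖ ^ 2) / 2 := by
    intro j
    have t1 : |(inner ℂ h (v j) : ℂ).re| ≤ ‖(inner ℂ (v j) h : ℂ)‖ := by
      rw [← norm_inner_symm]
      exact Complex.abs_re_le_norm _
    have t2 : x j * (inner ℂ h (v j) : ℂ).re ≤ |x j| * ‖(inner ℂ (v j) h : ℂ)‖ := by
      refine (le_abs_self _).trans ?_
      rw [abs_mul]
      exact mul_le_mul_of_nonneg_left t1 (abs_nonneg _)
    have t3 : x j ^ 2 / w j = (|x j| / √(w j)) ^ 2 := by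
      rw [div_pow, sq_abs, Real.sq_sqrt (hw j).le]
    have t4 : w j * ‖(inner ℂ (v j) h : ℂ)‖ ^ 2 = (√(w j) * ‖(inner ℂ (v j) h : ℂ)‖) ^ 2 := by
      rw [mul_pow, Real.sq_sqrt (hw j).le]
    have t5 : |x j| * ‖(inner ℂ (v j) h : ℂ)‖ =
        (|x j| / √(w j)) * (√(w j) * ‖(inner ℂ (v j) h : ℂ)‖) := by
      have : √(w j) ≠ 0 := (Real.sqrt_pos.mpr (hw j)).ne'
      field_simp
    rw [t3, t4]
    rw [t5] at t2
    nlinarith [sq_nonneg (|x j| / √(w j) - √(w j) * ‖(inner ℂ (v j) h : ℂ)‖)]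
  have b3 : ∑ j, x j * (inner ℂ h (v j) : ℂ).re ≤
      (∑ j, x j ^ 2 / w j + ∑ j, w j * ‖(inner ℂ (v j) h : ℂ)‖ ^ 2) / 2 := by
    rw [← Finset.sum_add_distrib, Finset.sum_div]
    exact Finset.sum_le_sum fun j _ => b2 j
  linarith

/-- The inequality with an arbitrary space. -/
theorem main {N : ℕ} (v : Fin N → E) (w R : Fin N → ℝ) (B : E →ₗ[ℂ] E) (V : Submodule ℂ E)
    (a₀ : ℕ) (hv : ∀ i, ‖v i‖ = 1) (hw : ∀ i, 0 < w i) (hB : B.IsSymmetric)
    (hV : ∀ f ∈ V, (inner ℂ (B f) f).re ≤ 0) (hd : finrank ℂ E ≤ finrank ℂ V + a₀)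
    (hR : ∀ i, ∃ x : Fin N → ℝ,
      ‖v i - ∑ j, (x j : ℂ) • v j‖ ^ 2 + ∑ j, x j ^ 2 / w j ≤ R i) :
    3 * ∑ i, w i + 4 * (LinearMap.trace ℂ _ B).re - 4 * a₀ - 4 * ∑ i, w i * R i ≤
      (LinearMap.trace ℂ _ ((As v w + B) * (As v w + B))).re := by
  classical
  obtain ⟨n, a, e, la, hn, hna, heV, hla⟩ := exists_basis v w V
  set α : Fin n ⊕ Fin a → ℝ := fun i => (inner ℂ (e i) (As v w (e i)) : ℂ).re with hα
  set β : Fin n ⊕ Fin a → ℝ := fun i => (inner ℂ (e i) (B (e i)) : ℂ).re with hβ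
  have hα' : ∀ i, α i = ∑ k, w k * ‖(inner ℂ (v k) (e i) : ℂ)‖ ^ 2 := by
    intro i
    simp only [hα]
    rw [inner_As_self, Complex.ofReal_re]
  have hα0 : ∀ i, 0 ≤ α i := by
    intro i
    rw [hα' i]
    exact Finset.sum_nonneg fun k _ => mul_nonneg (hw k).le (sq_nonneg _)
  have hαla : ∀ j, α (Sum.inl j) = la j := by
    intro j
    simp only [hα]
    rw [hla, if_pos rfl, Complex.ofReal_re]
  have hαsum : ∑ i, α i = ∑ k, w k := by
    simp only [hα']
    rw [Finset.sum_comm]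
    refine Finset.sum_congr rfl fun k _ => ?_
    rw [← Finset.mul_sum, e.sum_sq_norm_inner_left (v k), hv k]
    ring
  have hβsum : ∑ i, β i = (LinearMap.trace ℂ _ B).re := by
    rw [LinearMap.trace_eq_sum_inner B e, Complex.re_sum]
  have hβV : ∀ j, β (Sum.inl j) ≤ 0 := by
    intro j
    have := hV _ (heV j)
    rwa [hB] at this
  have hASym : (As v w + B).IsSymmetric := (As_sym v w).add hB
  have htr : ∑ i, (α i + β i) ^ 2 ≤
      (LinearMap.trace ℂ _ ((As v w + B) * (As v w + B))).re := by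
    rw [LinearMap.trace_eq_sum_inner _ e, Complex.re_sum]
    refine Finset.sum_le_sum fun i _ => ?_
    have t1 : (inner ℂ (e i) (((As v w + B) * (As v w + B)) (e i)) : ℂ).re =
        ‖(As v w + B) (e i)‖ ^ 2 := by
      rw [Module.End.mul_apply, ← hASym, inner_self_eq_norm_sq_to_K]
      norm_cast
    have t2 : α i + β i = (inner ℂ (e i) ((As v w + B) (e i)) : ℂ).re := by
      rw [LinearMap.add_apply, inner_add_right, Complex.add_re]
    have t3 : |α i + β i| ≤ ‖(As v w + B) (e i)‖ := by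
      rw [t2]
      refine (Complex.abs_re_le_norm _).trans ((norm_inner_le_norm _ _).trans ?_)
      rw [e.norm_eq_one, one_mul]
    rw [t1, ← sq_abs]
    exact pow_le_pow_left₀ (abs_nonneg _) t3 2
  have hlow : 4 * ∑ i, α i + 4 * ∑ i, β i - 4 * a - ∑ j, la j - 4 * ∑ j, la j / (1 + la j) ≤
      ∑ i, (α i + β i) ^ 2 := by
    rw [Fintype.sum_sum_type, Fintype.sum_sum_type, Fintype.sum_sum_type]
    have u1 : 4 * ∑ j, α (Sum.inl j) + 4 * ∑ j, β (Sum.inl j) - ∑ j, la j -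
        4 * ∑ j, la j / (1 + la j) ≤ ∑ j, (α (Sum.inl j) + β (Sum.inl j)) ^ 2 := by
      rw [Finset.mul_sum, Finset.mul_sum, Finset.mul_sum, ← Finset.sum_add_distrib,
        ← Finset.sum_sub_distrib, ← Finset.sum_sub_distrib]
      refine Finset.sum_le_sum fun j _ => ?_
      have := scal (la j) (β (Sum.inl j)) (by rw [← hαla]; exact hα0 _) (hβV j)
      rw [hαla]
      exact this
    have u2 : 4 * ∑ i, α (Sum.inr i) + 4 * ∑ i, β (Sum.inr i) - 4 * a ≤
        ∑ i, (α (Sum.inr i) + β (Sum.inr i)) ^ 2 := by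
      have : (4 * a : ℝ) = ∑ _i : Fin a, (4 : ℝ) := by simp [mul_comm]
      rw [this, Finset.mul_sum, Finset.mul_sum, ← Finset.sum_add_distrib,
        ← Finset.sum_sub_distrib]
      refine Finset.sum_le_sum fun i _ => ?_
      nlinarith [sq_nonneg (α (Sum.inr i) + β (Sum.inr i) - 2)]
    linarith
  have hlaW : ∑ j, la j ≤ ∑ k, w k := by
    rw [← hαsum, Fintype.sum_sum_type]
    have : 0 ≤ ∑ i, α (Sum.inr i) := Finset.sum_nonneg fun i _ => hα0 _
    have h2 : ∑ j, α (Sum.inl j) = ∑ j, la j := Finset.sum_congr rfl fun j _ => hαla j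
    linarith
  have hla0 : ∀ j, 0 ≤ la j := fun j => by rw [← hαla]; exact hα0 _
  have hrem : ∑ j, la j / (1 + la j) ≤ ∑ k, w k * R k := by
    have e1 : ∑ j, la j / (1 + la j) =
        ∑ k, w k * ∑ j, ‖(inner ℂ (e (Sum.inl j)) (v k) : ℂ)‖ ^ 2 / (1 + la j) := by
      simp only [Finset.mul_sum]
      rw [Finset.sum_comm]
      refine Finset.sum_congr rfl fun j _ => ?_
      have s : la j = ∑ k, w k * ‖(inner ℂ (v k) (e (Sum.inl j)) : ℂ)‖ ^ 2 := by
        rw [← hα', hαla]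
      have s' : la j / (1 + la j) =
          (∑ k, w k * ‖(inner ℂ (v k) (e (Sum.inl j)) : ℂ)‖ ^ 2) / (1 + la j) := by
        rw [← s]
      rw [s', Finset.sum_div]
      refine Finset.sum_congr rfl fun k _ => ?_
      rw [norm_inner_symm, mul_div_assoc]
    rw [e1]
    refine Finset.sum_le_sum fun k _ => mul_le_mul_of_nonneg_left ?_ (hw k).le
    obtain ⟨x, hx⟩ := hR k
    exact rem_le v w hw (fun j => e (Sum.inl j))
      (e.orthonormal.comp Sum.inl Sum.inl_injective) la hla0 hla (v k) (R k) x hx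
  have haa : (a : ℝ) ≤ a₀ := by
    have : a ≤ a₀ := by omega
    exact_mod_cast this
  rw [hαsum, hβsum] at hlow
  linarith

end general

/-- Module 26. -/
theorem la : LASt := by
  intro d N v w R B V a₀ hv hw hB hV hd hR
  exact main v w R B V a₀ hv hw hB hV (by rw [finrank_euclideanSpace_fin]; exact hd) hR

end Pool.Agent.H46.MT.LA
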