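import Pool.Agent.H46.MT.Defs

/-!
# The linear algebra inequality for the kernel `K` and a finite set of points closed under
conjugation (module 27 of the critical-zeros project, MP_cb7589_nt)
-/

namespace Pool.Agent.H46.MT.LAz

open Module
open scoped ComplexConjugate

/-! ### Gram vectors -/

open scoped MatrixOrder ComplexOrder in
theorem gram_fin (hP : KPosSt) (n : ℕ) (z : Fin n → ℂ) :
    ∃ u : Fin n → EuclideanSpace ℂ (Fin n), ∀ i j,
      inner ℂ (u i) (u j) = K (z i - conj (z j)) := by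
  obtain ⟨B, hB⟩ := CStarAlgebra.nonneg_iff_eq_star_mul_self.mp (hP n z).nonneg
  refine ⟨fun i => WithLp.toLp 2 (fun k => B k i), fun i j => ?_⟩
  have h1 := congrFun (congrFun hB i) j
  rw [Matrix.of_apply] at h1
  rw [h1, EuclideanSpace.inner_toLp_toLp, Matrix.mul_apply]
  unfold dotProduct
  refine Finset.sum_congr rfl fun k _ => ?_
  rw [Matrix.star_apply, Pi.star_apply, mul_comm]

theorem gram (hP : KPosSt) (Z : Finset ℂ) (l : ℝ) :
    ∃ (d : ℕ) (u : ℂ → EuclideanSpace ℂ (Fin d)), ∀ z ∈ Z, ∀ z' ∈ Z,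
      inner ℂ (u z) (u z') = K ((l : ℂ) * (z - conj z')) := by
  classical
  obtain ⟨u, hu⟩ := gram_fin hP Z.card (fun i => (l : ℂ) * (Z.equivFin.symm i : ℂ))
  refine ⟨Z.card, fun z => if h : z ∈ Z then u (Z.equivFin ⟨z, h⟩) else 0, fun z hz z' hz' => ?_⟩
  simp only [dif_pos hz, dif_pos hz']
  rw [hu]
  simp only [Equiv.symm_apply_apply, map_mul, Complex.conj_ofReal]
  rw [mul_sub]

/-! ### Rank one operators -/

section rkop

variable {E : Type} [NormedAddCommGroup E] [InnerProductSpace ℂ E]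

theorem rk_apply (u v x : E) : rk u v x = (inner ℂ v x) • u := by
  simp [rk]

theorem rk_mul (u v u' v' : E) : rk u v * rk u' v' = (inner ℂ v u' : ℂ) • rk u v' := by
  ext x
  rw [Module.End.mul_apply, LinearMap.smul_apply, rk_apply, rk_apply, rk_apply,
    inner_smul_right, smul_smul, mul_comm]

theorem trace_rk [FiniteDimensional ℂ E] (u v : E) :
    LinearMap.trace ℂ E (rk u v) = inner ℂ v u := by
  unfold rk
  rw [LinearMap.trace_smulRight]
  rfl

end rkop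

/-! ### Scalar inequalities -/

theorem wR_le (w w' r ε : ℝ) (h0 : 0 < ε) (h1 : ε ≤ 1 / 4) (hw : 1 - ε ≤ w) (hw1 : w ≤ 1)
    (hw' : 1 - ε ≤ w') (hr1 : r ^ 2 ≤ 1) :
    w * (1 / 4 - 3 / 16 * r ^ 2 + 1 / (4 * w) + r ^ 2 / (16 * w')) ≤
      1 / 2 - r ^ 2 / 8 + ε / 2 := by
  have hwp : 0 < w := by linarith
  have hwp' : 0 < w' := by linarith
  have hr0 : 0 ≤ r ^ 2 := sq_nonneg r
  have e1 : w * (1 / 4 - 3 / 16 * r ^ 2 + 1 / (4 * w) + r ^ 2 / (16 * w')) =
      w / 4 - 3 / 16 * (w * r ^ 2) + 1 / 4 + r ^ 2 * (w / w') / 16 := by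
    field_simp
  have e2 : w / w' ≤ 1 + 2 * ε := by
    rw [div_le_iff₀ hwp']
    nlinarith
  have e3 : r ^ 2 * (w / w') ≤ r ^ 2 * (1 + 2 * ε) := mul_le_mul_of_nonneg_left e2 hr0
  have e4 : (1 - ε) * r ^ 2 ≤ w * r ^ 2 := mul_le_mul_of_nonneg_right hw hr0
  rw [e1]
  nlinarith

/-! ### The test vectors -/

section vec

variable {E : Type} [NormedAddCommGroup E] [InnerProductSpace ℂ E]

theorem vec1 {N : ℕ} (v : Fin N → E) (w : Fin N → ℝ) (i : Fin N) (hv : ‖v i‖ = 1)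
    (hw : 0 < w i) : ∃ x : Fin N → ℝ,
    ‖v i - ∑ j, (x j : ℂ) • v j‖ ^ 2 + ∑ j, x j ^ 2 / w j ≤ 1 / (1 + w i) := by
  classical
  refine ⟨fun j => if j = i then w i / (1 + w i) else 0, le_of_eq ?_⟩
  have h1 : ∑ j, ((if j = i then w i / (1 + w i) else 0 : ℝ) : ℂ) • v j
      = ((w i / (1 + w i) : ℝ) : ℂ) • v i := by
    rw [Finset.sum_eq_single i]
    · rw [if_pos rfl]
    · intro j _ hj
      rw [if_neg hj, Complex.ofReal_zero, zero_smul]
    · intro h; exact absurd (Finset.mem_univ i) h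
  have h2 : ∑ j, (if j = i then w i / (1 + w i) else 0 : ℝ) ^ 2 / w j
      = (w i / (1 + w i)) ^ 2 / w i := by
    rw [Finset.sum_eq_single i]
    · rw [if_pos rfl]
    · intro j _ hj
      rw [if_neg hj]; simp
    · intro h; exact absurd (Finset.mem_univ i) h
  rw [h1, h2]
  have h3 : v i - ((w i / (1 + w i) : ℝ) : ℂ) • v i
      = ((1 - w i / (1 + w i) : ℝ) : ℂ) • v i := by
    push_cast
    rw [sub_smul, one_smul]
  have h4 : 1 - w i / (1 + w i) = 1 / (1 + w i) := by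
    field_simp
    ring
  rw [h3, norm_smul, hv, mul_one, h4, Complex.norm_real, Real.norm_eq_abs, sq_abs]
  field_simp

theorem vec2 {N : ℕ} (v : Fin N → E) (w : Fin N → ℝ) (i i' : Fin N) (hii : i' ≠ i)
    (hv : ‖v i‖ = 1) (hv' : ‖v i'‖ = 1) (r : ℝ) (hr : (inner ℂ (v i) (v i') : ℂ) = r) :
    ∃ x : Fin N → ℝ, ‖v i - ∑ j, (x j : ℂ) • v j‖ ^ 2 + ∑ j, x j ^ 2 / w j ≤
      1 / 4 - 3 / 16 * r ^ 2 + 1 / (4 * w i) + r ^ 2 / (16 * w i') := by
  classical
  refine ⟨fun j => (if j = i then 1 / 2 else 0) + (if j = i' then r / 4 else 0), le_of_eq ?_⟩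
  have h1 : ∑ j, (((if j = i then 1 / 2 else 0) + (if j = i' then r / 4 else 0) : ℝ) : ℂ) • v j
      = ((1 / 2 : ℝ) : ℂ) • v i + ((r / 4 : ℝ) : ℂ) • v i' := by
    simp only [Complex.ofReal_add, add_smul, Finset.sum_add_distrib]
    congr 1
    · rw [Finset.sum_eq_single i]
      · rw [if_pos rfl]
      · intro j _ hj
        rw [if_neg hj, Complex.ofReal_zero, zero_smul]
      · intro h; exact absurd (Finset.mem_univ i) h
    · rw [Finset.sum_eq_single i']
      · rw [if_pos rfl]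
      · intro j _ hj
        rw [if_neg hj, Complex.ofReal_zero, zero_smul]
      · intro h; exact absurd (Finset.mem_univ i') h
  have h2 : ∑ j, ((if j = i then 1 / 2 else 0) + (if j = i' then r / 4 else 0) : ℝ) ^ 2 / w j
      = (1 / 2) ^ 2 / w i + (r / 4) ^ 2 / w i' := by
    have h3 : ∀ j, ((if j = i then 1 / 2 else 0) + (if j = i' then r / 4 else 0) : ℝ) ^ 2 / w j
        = (if j = i then (1 / 2) ^ 2 / w i else 0) + (if j = i' then (r / 4) ^ 2 / w i' else 0) := by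
      intro j
      by_cases hj : j = i
      · subst hj
        rw [if_pos rfl, if_pos rfl, if_neg (Ne.symm hii), if_neg (Ne.symm hii)]
        ring
      · rw [if_neg hj, if_neg hj]
        by_cases hj' : j = i'
        · subst hj'
          rw [if_pos rfl, if_pos rfl]
          ring
        · rw [if_neg hj', if_neg hj']
          simp
    simp only [h3]
    rw [Finset.sum_add_distrib, Finset.sum_ite_eq' Finset.univ i, if_pos (Finset.mem_univ i),
      Finset.sum_ite_eq' Finset.univ i', if_pos (Finset.mem_univ i')]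
  rw [h1, h2]
  have h3 : v i - (((1 / 2 : ℝ) : ℂ) • v i + ((r / 4 : ℝ) : ℂ) • v i')
      = ((1 / 2 : ℝ) : ℂ) • v i - ((r / 4 : ℝ) : ℂ) • v i' := by
    rw [← sub_sub]
    congr 1
    have h4 : v i - ((1 / 2 : ℝ) : ℂ) • v i = ((1 : ℂ) - ((1 / 2 : ℝ) : ℂ)) • v i := by
      rw [sub_smul, one_smul]
    rw [h4]
    congr 1
    push_cast
    norm_num
  rw [h3, norm_sub_sq (𝕜 := ℂ), inner_smul_left, inner_smul_right, hr, norm_smul, norm_smul, hv,
    hv', Complex.conj_ofReal, Complex.norm_real, Complex.norm_real, Real.norm_eq_abs,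
    Real.norm_eq_abs]
  have h5 : RCLike.re (((1 / 2 : ℝ) : ℂ) * (((r / 4 : ℝ) : ℂ) * (r : ℂ))) = 1 / 2 * (r / 4 * r) := by
    rw [← Complex.ofReal_mul, ← Complex.ofReal_mul]
    exact Complex.ofReal_re _
  rw [h5, mul_one, mul_one, sq_abs, sq_abs]
  have e1 : (1 / 2 : ℝ) ^ 2 / w i = 1 / (4 * w i) := by
    rw [div_pow, div_div]; norm_num
  have e2 : (r / 4) ^ 2 / w i' = r ^ 2 / (16 * w i') := by
    rw [div_pow, div_div]; norm_num
  rw [e1, e2]
  ring

end vec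

theorem sum_equiv {M : Type*} [AddCommMonoid M] (S : Finset ℂ) (F : ℂ → M) :
    ∑ i : Fin S.card, F (S.equivFin.symm i : ℂ) = ∑ z ∈ S, F z :=
  (Equiv.sum_comp S.equivFin.symm (fun z : S => F z)).trans (Finset.sum_coe_sort S F)

/-! ### The operator -/

section op

variable {d : ℕ}

/-- the operator with the coefficients `c` -/
noncomputable def Op (c : ℂ → ℂ) (u : ℂ → EuclideanSpace ℂ (Fin d)) (Z : Finset ℂ) :
    EuclideanSpace ℂ (Fin d) →ₗ[ℂ] EuclideanSpace ℂ (Fin d) :=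
  ∑ z ∈ Z, c z • rk (u (conj z)) (u z)

theorem Op_apply (c : ℂ → ℂ) (u : ℂ → EuclideanSpace ℂ (Fin d)) (Z : Finset ℂ)
    (x : EuclideanSpace ℂ (Fin d)) :
    Op c u Z x = ∑ z ∈ Z, (c z * inner ℂ (u z) x) • u (conj z) := by
  simp only [Op, LinearMap.sum_apply, LinearMap.smul_apply, rk_apply, smul_smul]

theorem Op_sym (c : ℂ → ℂ) (u : ℂ → EuclideanSpace ℂ (Fin d)) (Z : Finset ℂ)
    (hZ : ∀ z ∈ Z, conj z ∈ Z) (hc : ∀ z ∈ Z, c (conj z) = conj (c z)) :
    (Op c u Z).IsSymmetric := by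
  intro x y
  rw [Op_apply, Op_apply, sum_inner, inner_sum]
  refine Finset.sum_nbij' (fun z => conj z) (fun z => conj z) hZ hZ
    (fun z _ => Complex.conj_conj z) (fun z _ => Complex.conj_conj z) (fun z hz => ?_)
  rw [inner_smul_left, inner_smul_right, hc z hz, map_mul, inner_conj_symm, Complex.conj_conj]
  ring

theorem Op_trace (c : ℂ → ℂ) (u : ℂ → EuclideanSpace ℂ (Fin d)) (Z : Finset ℂ) :
    LinearMap.trace ℂ _ (Op c u Z) = ∑ z ∈ Z, c z * inner ℂ (u z) (u (conj z)) := by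
  unfold Op
  rw [map_sum]
  refine Finset.sum_congr rfl fun z _ => ?_
  rw [map_smul, trace_rk, smul_eq_mul]

theorem Op_trace_sq (c : ℂ → ℂ) (u : ℂ → EuclideanSpace ℂ (Fin d)) (Z : Finset ℂ) :
    LinearMap.trace ℂ _ (Op c u Z * Op c u Z) = ∑ z ∈ Z, ∑ z' ∈ Z,
      c z * c z' * (inner ℂ (u z) (u (conj z')) * inner ℂ (u z') (u (conj z))) := by
  unfold Op
  rw [Finset.sum_mul_sum, map_sum]
  refine Finset.sum_congr rfl fun z _ => ?_
  rw [map_sum]
  refine Finset.sum_congr rfl fun z' _ => ?_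
  rw [smul_mul_smul_comm, rk_mul, map_smul, map_smul, trace_rk, smul_eq_mul, smul_eq_mul]

theorem Op_form (c : ℂ → ℂ) (u : ℂ → EuclideanSpace ℂ (Fin d)) (Z : Finset ℂ)
    (f : EuclideanSpace ℂ (Fin d))
    (hf : ∀ z ∈ Z, inner ℂ (u z) f = 0 ∨ inner ℂ (u (conj z)) f = 0) :
    inner ℂ (Op c u Z f) f = 0 := by
  rw [Op_apply, sum_inner]
  refine Finset.sum_eq_zero fun z hz => ?_
  rw [inner_smul_left]
  rcases hf z hz with h | h
  · rw [h]; simp
  · rw [h]; simp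

end op

/-! ### Counting -/

theorem count_reps (Rs : Finset ℂ) (m : ℂ → ℕ) (hR : ∀ z ∈ Rs, conj z ∈ Rs)
    (hm : ∀ z ∈ Rs, 1 ≤ m z) (hm2 : ∀ z ∈ Rs, z.im = 0 → 2 ≤ m z) :
    4 * ((Rs.filter (fun z => 0 ≤ z.im)).card : ℝ) ≤ ∑ z ∈ Rs, 2 * (m z : ℝ) := by
  have h1 : ((Rs.filter (fun z => 0 ≤ z.im)).card : ℝ)
      = ∑ z ∈ Rs, (if 0 ≤ z.im then (1 : ℝ) else 0) := by
    rw [Finset.card_filter]; push_cast; rfl
  have h2 : ∑ z ∈ Rs, (if 0 ≤ z.im then (1 : ℝ) else 0)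
      = ∑ z ∈ Rs, (if 0 ≤ (conj z).im then (1 : ℝ) else 0) := by
    refine Finset.sum_nbij' (fun z => conj z) (fun z => conj z) hR hR
      (fun z _ => Complex.conj_conj z) (fun z _ => Complex.conj_conj z) (fun z _ => ?_)
    simp only [Complex.conj_conj]
  have h3 : 2 * ((Rs.filter (fun z => 0 ≤ z.im)).card : ℝ) ≤ ∑ z ∈ Rs, (m z : ℝ) := by
    have h6 : 2 * ((Rs.filter (fun z => 0 ≤ z.im)).card : ℝ)
        = ∑ z ∈ Rs, ((if 0 ≤ z.im then (1 : ℝ) else 0) +
          (if 0 ≤ (conj z).im then (1 : ℝ) else 0)) := by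
      rw [Finset.sum_add_distrib, ← h2, h1]; ring
    rw [h6]
    refine Finset.sum_le_sum fun z hz => ?_
    have hmz : (1 : ℝ) ≤ m z := by exact_mod_cast hm z hz
    rcases lt_trichotomy z.im 0 with h | h | h
    · have h4 : ¬ 0 ≤ z.im := not_le.2 h
      have h5 : 0 ≤ (conj z).im := by rw [Complex.conj_im]; linarith
      rw [if_neg h4, if_pos h5]; linarith
    · have h4 : 0 ≤ z.im := le_of_eq h.symm
      have h5 : 0 ≤ (conj z).im := by rw [Complex.conj_im, h, neg_zero]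
      have hm2' : (2 : ℝ) ≤ m z := by exact_mod_cast hm2 z hz h
      rw [if_pos h4, if_pos h5]; linarith
    · have h4 : 0 ≤ z.im := h.le
      have h5 : ¬ 0 ≤ (conj z).im := by rw [Complex.conj_im]; linarith
      rw [if_pos h4, if_neg h5]; linarith
  rw [← Finset.mul_sum]
  linarith

/-! ### The main theorem -/

theorem laz (hLA : LASt) (hP : KPosSt) (hK : KBasicSt) : LAzSt := by
  classical
  intro Z I Bd m w l ε c₀ hε hε1 hc₀ hIZ hBI hZ hI hZw hreal hBd
  obtain ⟨hKd, hK0, hKneg, hKconj, hKle, hKim⟩ := hK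
  obtain ⟨d, u, hu⟩ := gram hP Z l
  set S := Z.filter (fun z => z.im = 0 ∧ m z = 1) with hS
  set Rs := Z \ S with hRs
  set c : ℂ → ℂ := fun z => (m z : ℂ) * w z with hc
  have hcr : ∀ z : ℂ, z.im = 0 → conj z = z := fun z hz =>
    Complex.conj_eq_iff_im.2 hz
  have hSZ : ∀ z ∈ S, z ∈ Z ∧ z.im = 0 ∧ m z = 1 := fun z hz => by
    rw [hS, Finset.mem_filter] at hz; exact ⟨hz.1, hz.2.1, hz.2.2⟩
  have hRsZ : ∀ z ∈ Rs, z ∈ Z ∧ ¬ (z.im = 0 ∧ m z = 1) := fun z hz => by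
    rw [hRs, Finset.mem_sdiff, hS, Finset.mem_filter] at hz
    exact ⟨hz.1, fun h => hz.2 ⟨hz.1, h⟩⟩
  have hRsc : ∀ z ∈ Rs, conj z ∈ Rs := fun z hz => by
    obtain ⟨h1, h2⟩ := hRsZ z hz
    obtain ⟨g1, g2, g3, g4⟩ := hZ z h1
    rw [hRs, Finset.mem_sdiff, hS, Finset.mem_filter]
    refine ⟨g1, fun h => h2 ?_⟩
    obtain ⟨_, h3, h4⟩ := h
    rw [Complex.conj_im, neg_eq_zero] at h3
    exact ⟨h3, by rw [← g2]; exact h4⟩
  -- real weights on S
  have hwS : ∀ z ∈ S, 0 < (w z).re ∧ (w z).re ≤ 1 ∧ w z = ((w z).re : ℂ) := fun z hz => by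
    obtain ⟨h1, h2, h3⟩ := hSZ z hz
    obtain ⟨r, hr0, hr1, hr⟩ := hreal z h1 h2
    rw [hr, Complex.ofReal_re]
    exact ⟨hr0, hr1, rfl⟩
  have hwI : ∀ z ∈ I, 1 - ε ≤ (w z).re := fun z hz => by
    have h1 := hI z hz
    have h2 := Complex.abs_re_le_norm (w z - 1)
    rw [Complex.sub_re, Complex.one_re] at h2
    have h3 := abs_le.1 (h2.trans h1)
    linarith [h3.1]
  have hwZ : ∀ z ∈ Z, -2 ≤ (w z).re := fun z hz => by
    have h1 := hZw z hz
    have h2 := Complex.abs_re_le_norm (w z)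
    have h3 := abs_le.1 (h2.trans h1)
    linarith [h3.1]
  -- unit vectors
  have hnorm : ∀ z ∈ S, ‖u z‖ = 1 := fun z hz => by
    obtain ⟨h1, h2, h3⟩ := hSZ z hz
    have h4 := hu z h1 z h1
    rw [hcr z h2, sub_self, mul_zero, hK0, inner_self_eq_norm_sq_to_K] at h4
    have h5 : ‖u z‖ ^ 2 = 1 := by
      have h6 := congrArg Complex.re h4
      rw [Complex.one_re] at h6
      rw [← h6]
      norm_cast
    nlinarith [norm_nonneg (u z)]
  -- enumeration of S
  set σ : Fin S.card → ℂ := fun i => (S.equivFin.symm i : ℂ) with hσ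
  have hσS : ∀ i, σ i ∈ S := fun i => (S.equivFin.symm i).2
  have hσinj : Function.Injective σ := fun i j h =>
    S.equivFin.symm.injective (Subtype.ext h)
  have hσsurj : ∀ z ∈ S, ∃ i, σ i = z := fun z hz =>
    ⟨S.equivFin ⟨z, hz⟩, by simp only [hσ, Equiv.symm_apply_apply]⟩
  -- the bounds on R
  set bnd : ℂ → ℝ := fun z => if z ∈ Bd then 1 / 2 - c₀ ^ 2 / 8 + ε / 2 else 1 / 2 with hbnd
  have hR : ∀ i : Fin S.card, ∃ R : ℝ, (w (σ i)).re * R ≤ bnd (σ i) ∧
      ∃ x : Fin S.card → ℝ, ‖u (σ i) - ∑ j, (x j : ℂ) • u (σ j)‖ ^ 2 +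
        ∑ j, x j ^ 2 / (w (σ j)).re ≤ R := by
    intro i
    obtain ⟨hw0, hw1, hwr⟩ := hwS (σ i) (hσS i)
    by_cases hb : σ i ∈ Bd
    · obtain ⟨b1, b2, z', b3, b4, b5, b6, b7⟩ := hBd (σ i) hb
      have hz'S : z' ∈ S := by
        rw [hS, Finset.mem_filter]; exact ⟨hIZ b3, b4, b5⟩
      obtain ⟨i', hi'⟩ := hσsurj z' hz'S
      have hii : i' ≠ i := fun h => b6 (by rw [← hi', h])
      set r := (K ((l : ℂ) * (σ i - z'))).re with hr
      have harg : (l : ℂ) * (σ i - z') = ((l * ((σ i).re - z'.re) : ℝ) : ℂ) := by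
        push_cast
        congr 1
        apply Complex.ext
        · simp
        · simp [b1, b4]
      have hKr : K ((l : ℂ) * (σ i - z')) = (r : ℂ) := by
        apply Complex.ext
        · rw [Complex.ofReal_re]
        · rw [Complex.ofReal_im, harg]; exact hKim _
      have hin : (inner ℂ (u (σ i)) (u (σ i')) : ℂ) = r := by
        rw [hi', hu _ (hSZ _ (hσS i)).1 _ (hIZ b3), hcr z' b4]; exact hKr
      have hr1 : |r| ≤ 1 := by
        have := hKle (l * ((σ i).re - z'.re))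
        rw [← harg, hKr, Complex.norm_real] at this
        exact this
      have hrc : c₀ ≤ |r| := by
        have := b7
        rw [hKr, Complex.norm_real] at this
        exact this
      have hr2 : r ^ 2 ≤ 1 := by rw [← sq_abs]; exact pow_le_one₀ (abs_nonneg _) hr1
      have hc2 : c₀ ^ 2 ≤ r ^ 2 := by rw [← sq_abs r]; exact pow_le_pow_left₀ hc₀ hrc 2
      refine ⟨_, ?_, vec2 (fun j => u (σ j)) (fun j => (w (σ j)).re) i i' hii
        (hnorm _ (hσS i)) (hnorm _ (hσS i')) r hin⟩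
      have h1 := wR_le (w (σ i)).re (w (σ i')).re r ε hε hε1 (hwI _ (hBI hb)) hw1
        (by rw [hi']; exact hwI _ b3) hr2
      simp only [hbnd, if_pos hb]
      linarith
    · refine ⟨_, ?_, vec1 (fun j => u (σ j)) (fun j => (w (σ j)).re) i (hnorm _ (hσS i)) hw0⟩
      simp only [hbnd, if_neg hb]
      rw [mul_one_div, div_le_div_iff₀ (by linarith) (by norm_num)]
      linarith
  choose R hR1 hR2 using hR
  -- the subspace
  set reps := Rs.filter (fun z => 0 ≤ z.im) with hreps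
  have hfin : d ≤ Module.finrank ℂ (Submodule.span ℂ
      ((reps.image u : Finset (EuclideanSpace ℂ (Fin d))) : Set (EuclideanSpace ℂ (Fin d))))ᗮ
      + reps.card := by
    have h1 := Submodule.finrank_add_finrank_orthogonal (𝕜 := ℂ) (Submodule.span ℂ
      ((reps.image u : Finset (EuclideanSpace ℂ (Fin d))) : Set (EuclideanSpace ℂ (Fin d))))
    rw [finrank_euclideanSpace_fin] at h1
    have h2 := finrank_span_finset_le_card (R := ℂ) (reps.image u)
    have h3 : (reps.image u).card ≤ reps.card := Finset.card_image_le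
    unfold Set.finrank at h2
    omega
  have hform : ∀ f ∈ (Submodule.span ℂ
      ((reps.image u : Finset (EuclideanSpace ℂ (Fin d))) : Set (EuclideanSpace ℂ (Fin d))))ᗮ,
      (inner ℂ (Op c u Rs f) f).re ≤ 0 := by
    intro f hf
    have h1 : ∀ z ∈ reps, inner ℂ (u z) f = 0 := fun z hz =>
      (Submodule.mem_orthogonal _ _).1 hf (u z)
        (Submodule.subset_span (Finset.mem_coe.2 (Finset.mem_image_of_mem u hz)))
    rw [Op_form c u Rs f, Complex.zero_re]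
    intro z hz
    rcases le_or_gt 0 z.im with h | h
    · left; exact h1 z (by rw [hreps, Finset.mem_filter]; exact ⟨hz, h⟩)
    · right
      refine h1 _ ?_
      rw [hreps, Finset.mem_filter]
      exact ⟨hRsc z hz, by rw [Complex.conj_im]; linarith⟩
  have hsym : (Op c u Rs).IsSymmetric := Op_sym c u Rs hRsc fun z hz => by
    obtain ⟨g1, g2, g3, g4⟩ := hZ z (hRsZ z hz).1
    simp only [hc]
    rw [map_mul, Complex.conj_natCast, g2, g4]
  have hmain := hLA d S.card (fun i => u (σ i)) (fun i => (w (σ i)).re) R (Op c u Rs) _ reps.card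
    (fun i => hnorm _ (hσS i)) (fun i => (hwS _ (hσS i)).1) hsym hform hfin hR2
  -- the total operator
  have hA : (∑ i : Fin S.card, (((w (σ i)).re : ℝ) : ℂ) • rk (u (σ i)) (u (σ i))) + Op c u Rs
      = Op c u Z := by
    have h1 : ∑ i : Fin S.card, (((w (σ i)).re : ℝ) : ℂ) • rk (u (σ i)) (u (σ i))
        = ∑ z ∈ S, (((w z).re : ℝ) : ℂ) • rk (u z) (u z) :=
      sum_equiv S (fun z => (((w z).re : ℝ) : ℂ) • rk (u z) (u z))
    have h2 : ∑ z ∈ S, (((w z).re : ℝ) : ℂ) • rk (u z) (u z) = Op c u S := by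
      unfold Op
      refine Finset.sum_congr rfl fun z hz => ?_
      obtain ⟨h3, h4, h5⟩ := hSZ z hz
      rw [← (hwS z hz).2.2, hcr z h4]
      simp only [hc, h5, Nat.cast_one, one_mul]
    rw [h1, h2]
    unfold Op
    rw [hRs, add_comm, Finset.sum_sdiff (Finset.filter_subset _ _)]
  have htr : LinearMap.trace ℂ _ (Op c u Z * Op c u Z) =
      ∑ z ∈ Z, ∑ z' ∈ Z, (m z : ℂ) * (m z' : ℂ) * (w z * w z') *
        K ((l : ℂ) * (z - z')) ^ 2 := by
    rw [Op_trace_sq]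
    refine Finset.sum_congr rfl fun z hz => Finset.sum_congr rfl fun z' hz' => ?_
    rw [hu z hz _ (hZ z' hz').1, hu z' hz' _ (hZ z hz).1, Complex.conj_conj, Complex.conj_conj]
    have h1 : (l : ℂ) * (z' - z) = -((l : ℂ) * (z - z')) := by ring
    rw [h1, hKneg]
    simp only [hc]
    ring
  have htrB : (LinearMap.trace ℂ _ (Op c u Rs)).re = ∑ z ∈ Rs, (m z : ℝ) * (w z).re := by
    rw [Op_trace, Complex.re_sum]
    refine Finset.sum_congr rfl fun z hz => ?_
    have h1 := (hRsZ z hz).1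
    rw [hu z h1 _ (hZ z h1).1, Complex.conj_conj, sub_self, mul_zero, hK0, mul_one]
    simp only [hc]
    rw [Complex.mul_re, Complex.natCast_re, Complex.natCast_im, zero_mul, sub_zero]
  rw [hA, htr, htrB] at hmain
  refine le_trans ?_ hmain
  -- the scalar inequality
  have hs1 : ∑ i : Fin S.card, (w (σ i)).re = ∑ z ∈ S, (w z).re :=
    sum_equiv S (fun z => (w z).re)
  have hs2 : ∑ i : Fin S.card, (w (σ i)).re * R i ≤ ∑ z ∈ S, bnd z := by
    rw [← sum_equiv S bnd]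
    exact Finset.sum_le_sum fun i _ => hR1 i
  have hcount := count_reps Rs m hRsc (fun z hz => (hZ z (hRsZ z hz).1).2.2.1) (fun z hz h => by
    have h1 := (hZ z (hRsZ z hz).1).2.2.1
    have h2 := (hRsZ z hz).2
    by_contra h3
    exact h2 ⟨h, by omega⟩)
  set tf : ℂ → ℝ := fun z => (if z ∈ I then (2 - 7 * ε) * (m z : ℝ) else -10 * (m z : ℝ))
    - (if z ∈ I ∧ z.im = 0 ∧ m z = 1 then 1 else 0) + (if z ∈ Bd then c₀ ^ 2 / 2 else 0) with htf
  have hLHS : 2 * (∑ z ∈ I, (m z : ℝ)) - ((I.filter (fun z => z.im = 0 ∧ m z = 1)).card : ℝ) +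
      c₀ ^ 2 / 2 * Bd.card - 7 * ε * (∑ z ∈ I, (m z : ℝ)) - 10 * (∑ z ∈ Z \ I, (m z : ℝ))
      = ∑ z ∈ Z, tf z := by
    rw [← Finset.sum_sdiff hIZ]
    have h1 : ∑ z ∈ Z \ I, tf z = -10 * ∑ z ∈ Z \ I, (m z : ℝ) := by
      rw [Finset.mul_sum]
      refine Finset.sum_congr rfl fun z hz => ?_
      have h2 : z ∉ I := (Finset.mem_sdiff.1 hz).2
      have h3 : z ∉ Bd := fun h => h2 (hBI h)
      simp only [htf, if_neg h2, if_neg h3, h2, false_and, if_false]
      ring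
    have h4 : ∑ z ∈ I, tf z = (2 - 7 * ε) * (∑ z ∈ I, (m z : ℝ))
        - ((I.filter (fun z => z.im = 0 ∧ m z = 1)).card : ℝ) + c₀ ^ 2 / 2 * Bd.card := by
      have h5 : ∀ z ∈ I, tf z = ((2 - 7 * ε) * (m z : ℝ)
          - (if z.im = 0 ∧ m z = 1 then 1 else 0)) + (if z ∈ Bd then c₀ ^ 2 / 2 else 0) :=
        fun z hz => by simp only [htf, hz, true_and, if_true]
      rw [Finset.sum_congr rfl h5, Finset.sum_add_distrib, Finset.sum_sub_distrib,
        ← Finset.mul_sum, Finset.card_filter, Finset.sum_ite_mem,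
        Finset.inter_eq_right.2 hBI, Finset.sum_const, nsmul_eq_mul]
      push_cast
      ring
    rw [h1, h4]
    ring
  rw [hLHS]
  have hsplit : ∑ z ∈ Z, tf z = ∑ z ∈ Rs, tf z + ∑ z ∈ S, tf z := by
    rw [hRs, Finset.sum_sdiff (Finset.filter_subset _ _)]
  have hRs1 : ∑ z ∈ Rs, tf z ≤ ∑ z ∈ Rs, (4 * ((m z : ℝ) * (w z).re) - 2 * (m z : ℝ)) := by
    refine Finset.sum_le_sum fun z hz => ?_
    obtain ⟨h1, h2⟩ := hRsZ z hz
    have hm1 : (1 : ℝ) ≤ m z := by exact_mod_cast (hZ z h1).2.2.1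
    have h3 : z ∉ Bd := fun h => h2 ⟨(hBd z h).1, (hBd z h).2.1⟩
    have h4 : ¬ (z ∈ I ∧ z.im = 0 ∧ m z = 1) := fun h => h2 h.2
    by_cases hi : z ∈ I
    · simp only [htf, if_pos hi, if_neg h3, if_neg h4]
      have h5 := hwI z hi
      have h6 : (m z : ℝ) * (1 - ε) ≤ (m z : ℝ) * (w z).re :=
        mul_le_mul_of_nonneg_left h5 (by linarith)
      nlinarith
    · simp only [htf, if_neg hi, if_neg h3, if_neg h4]
      have h5 := hwZ z h1
      have h6 : (m z : ℝ) * (-2) ≤ (m z : ℝ) * (w z).re :=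
        mul_le_mul_of_nonneg_left h5 (by linarith)
      linarith
  have hS1 : ∑ z ∈ S, tf z ≤ ∑ z ∈ S, (3 * (w z).re - 4 * bnd z) := by
    refine Finset.sum_le_sum fun z hz => ?_
    obtain ⟨h1, h2, h3⟩ := hSZ z hz
    obtain ⟨hw0, hw1, hwr⟩ := hwS z hz
    have hm1 : (m z : ℝ) = 1 := by rw [h3]; norm_num
    by_cases hi : z ∈ I
    · have h4 : z ∈ I ∧ z.im = 0 ∧ m z = 1 := ⟨hi, h2, h3⟩
      have h5 := hwI z hi
      by_cases hb : z ∈ Bd
      · simp only [htf, hbnd, if_pos hi, if_pos hb, if_pos h4, hm1]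
        linarith
      · simp only [htf, hbnd, if_pos hi, if_neg hb, if_pos h4, hm1]
        linarith
    · have h4 : ¬ (z ∈ I ∧ z.im = 0 ∧ m z = 1) := fun h => hi h.1
      have hb : z ∉ Bd := fun h => hi (hBI h)
      simp only [htf, hbnd, if_neg hi, if_neg hb, if_neg h4, hm1]
      linarith
  rw [Finset.sum_sub_distrib, ← Finset.mul_sum] at hRs1
  rw [Finset.sum_sub_distrib, ← Finset.mul_sum, ← Finset.mul_sum] at hS1
  rw [hsplit, hs1]
  linarith

end Pool.Agent.H46.MT.LAz
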