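import Pool.Agent.H46.MT.Defs
import Pool.Agent.H53.MT.Divide
import Pool.Agent.H53.MT.Order
import Pool.Agent.H53.MT.ZGrow

/-!
# Local zero count
-/

open Complex Set MeasureTheory Filter
open scoped ComplexConjugate

namespace Pool.Agent.H46.MT.Loc

/-- growth of `ζ₁` on the circle of radius `19/10` around `2 + i t` -/
lemma zeta1_circle (t : ℝ) {z : ℂ} (hz : z ∈ Metric.sphere ((2 : ℂ) + t * I) (19 / 10)) :
    ‖riemannZeta₁ z‖ ≤ 11 * (|t| + 4) ^ 2 := by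
  have hz' : ‖z - (2 + t * I)‖ = 19 / 10 := by simpa [dist_eq_norm] using hz
  have hre : |z.re - 2| ≤ 19 / 10 := by
    have := Complex.abs_re_le_norm (z - (2 + t * I))
    rw [hz'] at this
    simpa using this
  have him : ‖z‖ ≤ |t| + 4 := by
    calc ‖z‖ = ‖(z - (2 + t * I)) + (2 + t * I)‖ := by ring_nf
      _ ≤ ‖z - (2 + t * I)‖ + ‖(2 : ℂ) + t * I‖ := norm_add_le _ _
      _ ≤ 19 / 10 + (‖(2 : ℂ)‖ + ‖(t : ℂ) * I‖) := by
          rw [hz']; gcongr; exact norm_add_le _ _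
      _ ≤ |t| + 4 := by simp; linarith
  have him1 : ‖z - 1‖ ≤ |t| + 4 := by
    calc ‖z - 1‖ = ‖(z - (2 + t * I)) + (1 + t * I)‖ := by ring_nf
      _ ≤ ‖z - (2 + t * I)‖ + ‖(1 : ℂ) + t * I‖ := norm_add_le _ _
      _ ≤ 19 / 10 + (‖(1 : ℂ)‖ + ‖(t : ℂ) * I‖) := by
          rw [hz']; gcongr; exact norm_add_le _ _
      _ ≤ |t| + 4 := by simp; linarith
  have hre' : 1 / 10 ≤ z.re := by
    have := abs_le.mp hre
    linarith [this.1]
  have h := H53.MT.norm_zeta1_le (s := z) (by linarith)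
  have ht : (0 : ℝ) ≤ |t| := abs_nonneg t
  calc ‖riemannZeta₁ z‖ ≤ ‖z‖ + ‖z‖ * ‖z - 1‖ / z.re := h
    _ ≤ (|t| + 4) + (|t| + 4) * (|t| + 4) / (1 / 10) := by gcongr
    _ ≤ 11 * (|t| + 4) ^ 2 := by nlinarith

lemma zeta1_centre (h2 : Zeta2St) (t : ℝ) : 1 / 3 ≤ ‖riemannZeta₁ ((2 : ℂ) + t * I)‖ := by
  have hre : ((2 : ℂ) + t * I).re = 2 := by simp
  have hne : (2 : ℂ) + t * I ≠ 1 := by
    intro h
    have := congrArg Complex.re h
    simp at this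
  have hz := h2 ((2 : ℂ) + t * I) (by rw [hre])
  have hz3 : 1 / 3 ≤ ‖riemannZeta ((2 : ℂ) + t * I)‖ := by
    have := norm_sub_norm_le (1 : ℂ) (1 - riemannZeta ((2 : ℂ) + t * I))
    rw [norm_sub_rev] at hz
    simp only [norm_one, sub_sub_cancel] at this
    linarith
  have h1 : riemannZeta₁ ((2 : ℂ) + t * I) = ((2 : ℂ) + t * I - 1) * riemannZeta ((2 : ℂ) + t * I) := by
    rw [riemannZeta_eq_inv_sub_mul hne, mul_inv_cancel_left₀ (sub_ne_zero.mpr hne)]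
  rw [h1, norm_mul]
  have h3 : 1 ≤ ‖(2 : ℂ) + t * I - 1‖ := by
    have := Complex.abs_re_le_norm ((2 : ℂ) + t * I - 1)
    simp at this
    norm_num at this
    exact this
  nlinarith [norm_nonneg (riemannZeta ((2 : ℂ) + t * I))]

/-- count in a disc of radius `9/5` around `2 + i t` -/
theorem disc_count (h2 : Zeta2St) : ∃ C : ℝ, 0 < C ∧ ∀ t : ℝ, ∀ Z : Finset ℂ,
    (∀ ρ ∈ Z, ρ ≠ 1 ∧ ‖ρ - ((2 : ℂ) + t * I)‖ ≤ 9 / 5) →
    ∑ ρ ∈ Z, (analyticOrderNatAt riemannZeta ρ : ℝ) ≤ C * Real.log (|t| + 4) := by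
  have hl : 0 < Real.log ((19 / 10) / (9 / 5) : ℝ) := Real.log_pos (by norm_num)
  refine ⟨5 / Real.log ((19 / 10) / (9 / 5) : ℝ), by positivity, fun t Z hZ => ?_⟩
  have hc := zeta1_centre h2 t
  have hc0 : riemannZeta₁ ((2 : ℂ) + t * I) ≠ 0 := by
    intro h; rw [h, norm_zero] at hc; linarith
  have hJ := H53.MT.jensen_count differentiable_riemannZeta₁ hc0 (r := 9 / 5) (R := 19 / 10)
    (B := 11 * (|t| + 4) ^ 2) (by norm_num) (by norm_num)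
    (fun z hz => zeta1_circle t hz) Z (fun ρ hρ => (hZ ρ hρ).2)
  have hsum : ∑ ρ ∈ Z, (analyticOrderNatAt riemannZeta₁ ρ : ℝ) =
      ∑ ρ ∈ Z, (analyticOrderNatAt riemannZeta ρ : ℝ) := by
    refine Finset.sum_congr rfl fun ρ hρ => ?_
    rw [H53.MT.orderNat_zeta1 (hZ ρ hρ).1]
  rw [hsum] at hJ
  have ht : (0 : ℝ) ≤ |t| := abs_nonneg t
  have hB : Real.log (11 * (|t| + 4) ^ 2 / ‖riemannZeta₁ ((2 : ℂ) + t * I)‖) ≤
      5 * Real.log (|t| + 4) := by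
    have h5 : 5 * Real.log (|t| + 4) = Real.log ((|t| + 4) ^ 5) := by
      rw [Real.log_pow]; norm_num
    rw [h5]
    apply Real.log_le_log (by positivity)
    rw [div_le_iff₀ (by linarith)]
    have h4 : (4 : ℝ) ≤ |t| + 4 := by linarith
    have h64 : (64 : ℝ) ≤ (|t| + 4) ^ 3 := by
      calc (64 : ℝ) = 4 ^ 3 := by norm_num
        _ ≤ (|t| + 4) ^ 3 := by gcongr
    calc 11 * (|t| + 4) ^ 2 ≤ ((|t| + 4) ^ 3 * (|t| + 4) ^ 2) * (1 / 3) := by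
          nlinarith [sq_nonneg (|t| + 4)]
      _ = (|t| + 4) ^ 5 * (1 / 3) := by ring
      _ ≤ (|t| + 4) ^ 5 * ‖riemannZeta₁ ((2 : ℂ) + t * I)‖ := by gcongr
  rw [div_mul_eq_mul_div, le_div_iff₀ hl]
  linarith

theorem loc (_hG : GrowSt) (h2 : Zeta2St) (hS : ZSymSt) : LocSt := by
  obtain ⟨C, hC, hcount⟩ := disc_count h2
  refine ⟨2 * (C * 2), 4, by positivity, by norm_num, fun t ht => ?_⟩
  classical
  rw [zeroCount_eq]
  push_cast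
  set Z := Zf t (t + 1) with hZ
  have hmem : ∀ ρ ∈ Z, ρ ∈ zeroSet t (t + 1) := fun ρ hρ => mem_Zf.mp hρ
  -- split into right and left part
  have hsplit := Finset.sum_filter_add_sum_filter_not Z (fun ρ : ℂ => 1 / 2 ≤ ρ.re)
    (fun ρ => (mult ρ : ℝ))
  have hleft : ∑ ρ ∈ Z.filter (fun ρ : ℂ => ¬ 1 / 2 ≤ ρ.re), (mult ρ : ℝ) ≤
      ∑ ρ ∈ Z.filter (fun ρ : ℂ => 1 / 2 ≤ ρ.re), (mult ρ : ℝ) := by
    have hinj : Set.InjOn (fun ρ : ℂ => 1 - conj ρ) (Z.filter (fun ρ : ℂ => ¬ 1 / 2 ≤ ρ.re)) := by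
      intro a _ b _ hab
      have h : conj a = conj b := by linear_combination -hab
      exact (starRingEnd ℂ).injective h
    have hsub : (Z.filter (fun ρ : ℂ => ¬ 1 / 2 ≤ ρ.re)).image (fun ρ : ℂ => 1 - conj ρ) ⊆
        Z.filter (fun ρ : ℂ => 1 / 2 ≤ ρ.re) := by
      intro x hx
      obtain ⟨ρ, hρ, rfl⟩ := Finset.mem_image.mp hx
      rw [Finset.mem_filter] at hρ ⊢
      obtain ⟨h1, h3⟩ := hρ
      refine ⟨mem_Zf.mpr (hS t (t + 1) (by linarith) ρ (hmem ρ h1)).1, ?_⟩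
      simp only [sub_re, one_re, conj_re]
      linarith
    calc ∑ ρ ∈ Z.filter (fun ρ : ℂ => ¬ 1 / 2 ≤ ρ.re), (mult ρ : ℝ)
        = ∑ ρ ∈ Z.filter (fun ρ : ℂ => ¬ 1 / 2 ≤ ρ.re), (mult (1 - conj ρ) : ℝ) := by
          refine Finset.sum_congr rfl fun ρ hρ => ?_
          rw [(hS t (t + 1) (by linarith) ρ (hmem ρ (Finset.mem_filter.mp hρ).1)).2.1]
      _ = ∑ x ∈ (Z.filter (fun ρ : ℂ => ¬ 1 / 2 ≤ ρ.re)).image (fun ρ : ℂ => 1 - conj ρ),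
            (mult x : ℝ) := by
          rw [Finset.sum_image hinj]
      _ ≤ _ := Finset.sum_le_sum_of_subset_of_nonneg hsub (fun _ _ _ => Nat.cast_nonneg _)
  have hright : ∑ ρ ∈ Z.filter (fun ρ : ℂ => 1 / 2 ≤ ρ.re), (mult ρ : ℝ) ≤
      C * Real.log (|t + 1 / 2| + 4) := by
    have := hcount (t + 1 / 2) (Z.filter (fun ρ : ℂ => 1 / 2 ≤ ρ.re)) (fun ρ hρ => by
      obtain ⟨h1, h3⟩ := Finset.mem_filter.mp hρ
      obtain ⟨h4, h5, h6, h7, h8⟩ := hmem ρ h1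
      refine ⟨by rintro rfl; simp at h6, ?_⟩
      have hn : ‖ρ - ((2 : ℂ) + ((t + 1 / 2 : ℝ) : ℂ) * I)‖ ^ 2 =
          (ρ.re - 2) ^ 2 + (ρ.im - (t + 1 / 2)) ^ 2 := by
        rw [← Complex.normSq_eq_norm_sq, Complex.normSq_apply]
        simp
        ring
      have h9 : ‖ρ - ((2 : ℂ) + ((t + 1 / 2 : ℝ) : ℂ) * I)‖ ^ 2 ≤ (9 / 5) ^ 2 := by
        rw [hn]; nlinarith
      exact le_of_sq_le_sq h9 (by norm_num))
    exact this
  have hlog : Real.log (|t + 1 / 2| + 4) ≤ 2 * Real.log t := by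
    rw [abs_of_pos (by linarith)]
    have : 2 * Real.log t = Real.log (t ^ 2) := by rw [Real.log_pow]; norm_num
    rw [this]
    apply Real.log_le_log (by linarith)
    nlinarith
  calc ∑ ρ ∈ Z, (mult ρ : ℝ) ≤ 2 * ∑ ρ ∈ Z.filter (fun ρ : ℂ => 1 / 2 ≤ ρ.re), (mult ρ : ℝ) := by
        linarith
    _ ≤ 2 * (C * Real.log (|t + 1 / 2| + 4)) := by linarith
    _ ≤ 2 * (C * (2 * Real.log t)) := by gcongr
    _ = 2 * (C * 2) * Real.log t := by ring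

end Pool.Agent.H46.MT.Loc
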