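import Pool.Agent.H46.MT.Defs
import Pool.Agent.H15.Rud.Mertens

/-!
# The sum of `Λ(n)²/n` against `g`
-/

namespace Pool.Agent.H46.MT.Mert

open MeasureTheory Finset
open Pool.Agent.H38.ET Pool.Agent.H15.Rud

/-! ## primes -/

theorem log_step (N : ℕ) (hN : 1 ≤ N) : 0 ≤ Real.log N ∧
    Real.log N ≤ Real.log ((N + 1 : ℕ) : ℝ) ∧ Real.log ((N + 1 : ℕ) : ℝ) - Real.log N ≤ 1 := by
  have hN0 : (0 : ℝ) < N := by exact_mod_cast hN
  have hN1 : (1 : ℝ) ≤ N := by exact_mod_cast hN
  refine ⟨Real.log_nonneg hN1, Real.log_le_log hN0 (by push_cast; linarith), ?_⟩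
  rw [← Real.log_div (by positivity) hN0.ne']
  refine (Real.log_le_sub_one_of_pos (by positivity)).trans ?_
  have : (((N + 1 : ℕ) : ℝ)) / N = 1 + 1 / N := by push_cast; field_simp
  rw [this]
  have : (1 : ℝ) / N ≤ 1 := by rw [div_le_one hN0]; exact hN1
  linarith

theorem Am_up (N : ℕ) (hN : 1 ≤ N) : Am N ≤ Real.log N + 2 := by
  have h1 : Am N ≤ Real.log N + Real.log 4 := sum_log_div_le N hN
  have h2 : Real.log 4 ≤ 2 := by
    have h : (4 : ℝ) = 2 ^ 2 := by norm_num
    rw [h, Real.log_pow]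
    have := Real.log_two_lt_d9
    push_cast
    linarith
  linarith

theorem Am_lo (N : ℕ) (hN : 1 ≤ N) : Real.log N - 3 ≤ Am N := le_sum_log_div N hN

/-- the summatory function with the square of the logarithm -/
noncomputable def U (N : ℕ) : ℝ := ∑ p ∈ pr N, Real.log p ^ 2 / p

/-- the remainder in the summation by parts -/
noncomputable def S1 (N : ℕ) : ℝ :=
  ∑ k ∈ Finset.Ico 1 N, Am k * (Real.log ((k + 1 : ℕ) : ℝ) - Real.log k)

theorem U_succ (k : ℕ) : U (k + 1) = U k +
    if (k + 1).Prime then Real.log ((k + 1 : ℕ) : ℝ) ^ 2 / ((k + 1 : ℕ) : ℝ) else 0 := by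
  unfold U
  rw [pr_succ]
  split_ifs with h
  · rw [Finset.sum_insert]
    · ring
    · rw [mem_pr]; omega
  · ring

theorem pr_one : pr 1 = ∅ := by
  ext p
  rw [mem_pr]
  simp only [Finset.notMem_empty, iff_false, not_and]
  intro h1 h2
  have := h2.two_le
  omega

theorem U_eq (N : ℕ) (hN : 1 ≤ N) : U N = Am N * Real.log N - S1 N := by
  induction N, hN using Nat.le_induction with
  | base =>
    unfold U S1 Am
    rw [pr_one]
    simp
  | succ N hN ih =>
    have h1 : S1 (N + 1) = S1 N + Am N * (Real.log ((N + 1 : ℕ) : ℝ) - Real.log N) := by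
      unfold S1
      rw [Finset.sum_Ico_succ_top hN]
    rw [U_succ, Am_succ, h1, ih]
    split_ifs with h <;> ring

theorem S1_bounds (N : ℕ) (hN : 1 ≤ N) :
    1 / 2 * Real.log N ^ 2 - 4 * Real.log N ≤ S1 N ∧
      S1 N ≤ 1 / 2 * Real.log N ^ 2 + 2 * Real.log N := by
  induction N, hN using Nat.le_induction with
  | base => simp [S1]
  | succ N hN ih =>
    obtain ⟨h0, h1, h2⟩ := log_step N hN
    have h3 : S1 (N + 1) = S1 N + Am N * (Real.log ((N + 1 : ℕ) : ℝ) - Real.log N) := by
      unfold S1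
      rw [Finset.sum_Ico_succ_top hN]
    have h4 := Am_up N hN
    have h5 := Am_lo N hN
    rw [h3]
    set x := Real.log (N : ℝ)
    set y := Real.log ((N + 1 : ℕ) : ℝ)
    have h6 : 0 ≤ y - x := by linarith
    have h7 := mul_le_mul_of_nonneg_right h4 h6
    have h8 := mul_le_mul_of_nonneg_right h5 h6
    constructor
    · nlinarith
    · nlinarith

theorem U_bounds (N : ℕ) (hN : 1 ≤ N) :
    1 / 2 * Real.log N ^ 2 - 5 * Real.log N ≤ U N ∧
      U N ≤ 1 / 2 * Real.log N ^ 2 + 6 * Real.log N := by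
  obtain ⟨h0, -, -⟩ := log_step N hN
  obtain ⟨h1, h2⟩ := S1_bounds N hN
  have h4 := mul_le_mul_of_nonneg_right (Am_up N hN) h0
  have h5 := mul_le_mul_of_nonneg_right (Am_lo N hN) h0
  rw [U_eq N hN]
  constructor <;> nlinarith

/-! ## prime powers -/

/-- the terms -/
noncomputable def a (k : ℕ) : ℝ := ArithmeticFunction.vonMangoldt k ^ 2 / k

theorem a_nonneg (k : ℕ) : 0 ≤ a k := by unfold a; positivity

/-- the summatory function -/
noncomputable def A (N : ℕ) : ℝ := ∑ k ∈ Finset.range (N + 1), a k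

theorem A_succ (N : ℕ) : A (N + 1) = A N + a (N + 1) := by
  unfold A
  rw [Finset.sum_range_succ]

theorem geom_le (x : ℝ) (h0 : 0 ≤ x) (h1 : x < 1) (M : ℕ) :
    ∑ j ∈ Finset.Icc 1 M, x ^ j ≤ x / (1 - x) := by
  have h2 : ∑ j ∈ Finset.Icc 1 M, x ^ j = (x - x ^ (M + 1)) / (1 - x) := by
    induction M with
    | zero => simp
    | succ M ih =>
      rw [← Finset.insert_Icc_right_eq_Icc_add_one (by omega), Finset.sum_insert (by simp), ih]
      have : 1 - x ≠ 0 := by linarith
      field_simp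
      ring
  rw [h2]
  refine div_le_div_of_nonneg_right ?_ (by linarith)
  have : 0 ≤ x ^ (M + 1) := pow_nonneg h0 _
  linarith

theorem A_le (N : ℕ) : A N ≤ U N + Am N := by
  have h1 : A N = ∑ k ∈ (Finset.Ioc 0 ⌊(N : ℝ)⌋₊).filter IsPrimePow, a k := by
    unfold A
    rw [Nat.floor_natCast]
    symm
    refine Finset.sum_subset (fun k hk => ?_) (fun k hk hk' => ?_)
    · rw [Finset.mem_filter, Finset.mem_Ioc] at hk
      rw [Finset.mem_range]
      omega
    · unfold a
      by_cases hk0 : k = 0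
      · rw [hk0]; simp
      · have h2 : ¬ IsPrimePow k := by
          intro h
          refine hk' (Finset.mem_filter.2 ⟨?_, h⟩)
          rw [Finset.mem_range] at hk
          rw [Finset.mem_Ioc]
          omega
        rw [ArithmeticFunction.vonMangoldt_eq_zero_iff.2 h2]
        simp
  rw [h1, Chebyshev.sum_PrimePow_eq_sum_sum _ (Nat.cast_nonneg N)]
  have h2 : ∀ k ∈ Finset.Icc 1 ⌊Real.log N / Real.log 2⌋₊,
      ∑ p ∈ (Finset.Ioc 0 ⌊(N : ℝ) ^ ((1 : ℝ) / k)⌋₊).filter Nat.Prime, a (p ^ k) ≤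
        ∑ p ∈ pr N, Real.log p ^ 2 * (1 / (p : ℝ)) ^ k := by
    intro k hk
    rw [Finset.mem_Icc] at hk
    have h3 : ∀ p ∈ (Finset.Ioc 0 ⌊(N : ℝ) ^ ((1 : ℝ) / k)⌋₊).filter Nat.Prime,
        a (p ^ k) = Real.log p ^ 2 * (1 / (p : ℝ)) ^ k := by
      intro p hp
      rw [Finset.mem_filter] at hp
      unfold a
      rw [ArithmeticFunction.vonMangoldt_apply_pow (by omega),
        ArithmeticFunction.vonMangoldt_apply_prime hp.2, one_div_pow]
      push_cast
      ring
    rw [Finset.sum_congr rfl h3]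
    refine Finset.sum_le_sum_of_subset_of_nonneg (fun p hp => ?_) (fun p _ _ => by positivity)
    rw [Finset.mem_filter, Finset.mem_Ioc] at hp
    rw [mem_pr]
    refine ⟨?_, hp.2⟩
    have h4 : (1 : ℝ) ≤ p := by exact_mod_cast hp.1.1
    have h5 : (p : ℝ) ≤ (N : ℝ) ^ ((1 : ℝ) / k) :=
      (Nat.le_floor_iff (by positivity)).1 hp.1.2
    have hk0 : (0 : ℝ) < k := by exact_mod_cast hk.1
    have h6 : (p : ℝ) ^ k ≤ N := by
      calc (p : ℝ) ^ k ≤ ((N : ℝ) ^ ((1 : ℝ) / k)) ^ k := pow_le_pow_left₀ (by linarith) h5 k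
        _ = N := by
            rw [← Real.rpow_natCast, ← Real.rpow_mul (Nat.cast_nonneg N),
              one_div_mul_cancel hk0.ne', Real.rpow_one]
    have h7 : (p : ℝ) ≤ (p : ℝ) ^ k := le_self_pow₀ h4 (by omega)
    exact_mod_cast h7.trans h6
  refine (Finset.sum_le_sum h2).trans ?_
  rw [Finset.sum_comm]
  unfold U Am
  rw [← Finset.sum_add_distrib]
  refine Finset.sum_le_sum fun p hp => ?_
  rw [mem_pr] at hp
  have hp2 : (2 : ℝ) ≤ p := by exact_mod_cast hp.2.two_le
  have hp0 : (0 : ℝ) < p := by linarith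
  have hl : 0 ≤ Real.log p := Real.log_nonneg (by linarith)
  have hl2 : Real.log p ≤ p - 1 := Real.log_le_sub_one_of_pos hp0
  rw [← Finset.mul_sum]
  have h8 := geom_le (1 / (p : ℝ)) (by positivity) (by rw [div_lt_one hp0]; linarith)
    ⌊Real.log N / Real.log 2⌋₊
  have hp1 : (0 : ℝ) < p - 1 := by linarith
  have h9 : 1 / (p : ℝ) / (1 - 1 / p) = 1 / p + 1 / (p * (p - 1)) := by
    have : (p : ℝ) - 1 ≠ 0 := hp1.ne'
    have h10 : 1 - 1 / (p : ℝ) ≠ 0 := by
      have : 1 - 1 / (p : ℝ) = (p - 1) / p := by field_simp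
      rw [this]
      positivity
    field_simp
    ring
  rw [h9] at h8
  calc Real.log p ^ 2 * ∑ i ∈ Finset.Icc 1 ⌊Real.log N / Real.log 2⌋₊, (1 / (p : ℝ)) ^ i
      ≤ Real.log p ^ 2 * (1 / p + 1 / (p * (p - 1))) :=
        mul_le_mul_of_nonneg_left h8 (sq_nonneg _)
    _ = Real.log p ^ 2 / p + Real.log p / p * (Real.log p / (p - 1)) := by
        field_simp
    _ ≤ Real.log p ^ 2 / p + Real.log p / p * 1 := by
        gcongr
        rw [div_le_one hp1]
        exact hl2
    _ = _ := by rw [mul_one]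

theorem U_le_A (N : ℕ) : U N ≤ A N := by
  unfold U A
  have h1 : ∀ p ∈ pr N, Real.log p ^ 2 / p = a p := by
    intro p hp
    rw [mem_pr] at hp
    unfold a
    rw [ArithmeticFunction.vonMangoldt_apply_prime hp.2]
  rw [Finset.sum_congr rfl h1]
  exact Finset.sum_le_sum_of_subset_of_nonneg (Finset.filter_subset _ _)
    (fun k _ _ => a_nonneg k)

/-- the error term -/
noncomputable def E (N : ℕ) : ℝ := A N - 1 / 2 * Real.log N ^ 2

theorem E_bound (N : ℕ) (hN : 1 ≤ N) : |E N| ≤ 7 * (Real.log N + 1) := by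
  obtain ⟨h0, -, -⟩ := log_step N hN
  obtain ⟨h1, h2⟩ := U_bounds N hN
  have h3 := A_le N
  have h4 := U_le_A N
  have h5 := Am_up N hN
  unfold E
  rw [abs_le]
  constructor <;> linarith

/-! ## the main induction -/

theorem cont_g (C : ℝ) (hL : ∀ x y : ℝ, |g x - g y| ≤ C * |x - y|) : Continuous g := by
  have hC : 0 ≤ C := by
    have := (abs_nonneg _).trans (hL 1 0)
    simpa using this
  refine (LipschitzWith.of_dist_le_mul (K := ⟨C, hC⟩) fun x y => ?_).continuous
  rw [Real.dist_eq, Real.dist_eq]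
  exact hL x y

theorem step_int (C l x y : ℝ) (hl : 0 < l) (hC : 0 ≤ C)
    (hL : ∀ x y : ℝ, |g x - g y| ≤ C * |x - y|) (hx : 0 ≤ x) (hxy : x ≤ y) :
    1 / 2 * (y ^ 2 - x ^ 2) * g (y / l) ≤
      (∫ t in x..y, t * g (t / l)) + C / l * (y - x) * (1 / 2 * (y ^ 2 - x ^ 2)) := by
  have hc := cont_g C hL
  have h1 : ∫ t in x..y, t * (g (y / l) - C / l * (y - x)) ≤ ∫ t in x..y, t * g (t / l) := by
    refine intervalIntegral.integral_mono_on hxy
      (Continuous.intervalIntegrable (by fun_prop) _ _)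
      (Continuous.intervalIntegrable (by fun_prop) _ _) fun t ht => ?_
    refine mul_le_mul_of_nonneg_left ?_ (hx.trans ht.1)
    have h2 := hL (y / l) (t / l)
    have h3 := (le_abs_self _).trans h2
    have h4 : |y / l - t / l| = (y - t) / l := by
      rw [← sub_div, abs_of_nonneg (div_nonneg (by linarith [ht.2]) hl.le)]
    rw [h4] at h3
    have h5 : C * ((y - t) / l) ≤ C / l * (y - x) := by
      have h6 : C * ((y - t) / l) = C / l * (y - t) := by ring
      rw [h6]
      exact mul_le_mul_of_nonneg_left (by linarith [ht.1]) (div_nonneg hC hl.le)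
    linarith
  rw [intervalIntegral.integral_mul_const, integral_id] at h1
  linarith

theorem main (C l : ℝ) (hl : 0 < l) (hC : 0 ≤ C) (hL : ∀ x y : ℝ, |g x - g y| ≤ C * |x - y|)
    (N : ℕ) (hN : 1 ≤ N) :
    ∑ k ∈ Finset.range (N + 1), a k * g (Real.log k / l) ≤
      (∫ t in (0 : ℝ)..(Real.log N), t * g (t / l)) + E N * g (Real.log N / l) +
        8 * C / l * ((Real.log N + 1) * Real.log N) := by
  have hc := cont_g C hL
  induction N, hN using Nat.le_induction with
  | base =>
    have h1 : a 0 = 0 := by unfold a; simp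
    have h2 : a 1 = 0 := by unfold a; simp
    have h3 : E 1 = 0 := by
      unfold E A
      rw [Finset.sum_range_succ, Finset.sum_range_succ, Finset.sum_range_zero, h1, h2]
      simp
    rw [Finset.sum_range_succ, Finset.sum_range_succ, Finset.sum_range_zero, h1, h2, h3]
    simp
  | succ N hN ih =>
    obtain ⟨h0, h1, h2⟩ := log_step N hN
    have hE := E_bound N hN
    have hA : a (N + 1) = 1 / 2 * Real.log ((N + 1 : ℕ) : ℝ) ^ 2 - 1 / 2 * Real.log N ^ 2 +
        E (N + 1) - E N := by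
      unfold E
      rw [A_succ]
      ring
    rw [Finset.sum_range_succ, hA]
    have h3 := step_int C l (Real.log N) (Real.log ((N + 1 : ℕ) : ℝ)) hl hC hL h0 h1
    have h4 : (∫ t in (0 : ℝ)..(Real.log ((N + 1 : ℕ) : ℝ)), t * g (t / l)) =
        (∫ t in (0 : ℝ)..(Real.log N), t * g (t / l)) +
          ∫ t in (Real.log N)..(Real.log ((N + 1 : ℕ) : ℝ)), t * g (t / l) := by
      rw [intervalIntegral.integral_add_adjacent_intervals
        (Continuous.intervalIntegrable (by fun_prop) _ _)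
        (Continuous.intervalIntegrable (by fun_prop) _ _)]
    rw [h4]
    set x := Real.log (N : ℝ)
    set y := Real.log ((N + 1 : ℕ) : ℝ)
    have h5 : E N * (g (x / l) - g (y / l)) ≤ 7 * (x + 1) * (C * ((y - x) / l)) := by
      refine (le_abs_self _).trans ?_
      rw [abs_mul]
      refine mul_le_mul hE ?_ (abs_nonneg _) (by positivity)
      refine (hL _ _).trans (le_of_eq ?_)
      rw [← sub_div, abs_div, abs_of_pos hl, abs_sub_comm, abs_of_nonneg (by linarith)]
    have h6 : C / l * (y - x) * (1 / 2 * (y ^ 2 - x ^ 2)) ≤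
        C / l * (y - x) * (1 / 2 * (x + y)) := by
      refine mul_le_mul_of_nonneg_left ?_ (mul_nonneg (div_nonneg hC hl.le) (by linarith))
      have : y ^ 2 - x ^ 2 = (y - x) * (x + y) := by ring
      rw [this]
      have h7 : 0 ≤ x + y := by linarith
      nlinarith
    have h8 : 7 * (x + 1) * (C * ((y - x) / l)) + C / l * (y - x) * (1 / 2 * (x + y)) ≤
        8 * C / l * ((y + 1) * y) - 8 * C / l * ((x + 1) * x) := by
      have h9 : 8 * C / l * ((y + 1) * y) - 8 * C / l * ((x + 1) * x) =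
          C / l * (y - x) * (8 * (x + y + 1)) := by ring
      have h10 : 7 * (x + 1) * (C * ((y - x) / l)) + C / l * (y - x) * (1 / 2 * (x + y)) =
          C / l * (y - x) * (7 * (x + 1) + 1 / 2 * (x + y)) := by ring
      rw [h9, h10]
      refine mul_le_mul_of_nonneg_left ?_ (mul_nonneg (div_nonneg hC hl.le) (by linarith))
      linarith
    have h11 : (1 / 2 * y ^ 2 - 1 / 2 * x ^ 2 + E (N + 1) - E N) * g (y / l) =
        1 / 2 * (y ^ 2 - x ^ 2) * g (y / l) + E (N + 1) * g (y / l) - E N * g (x / l) +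
          E N * (g (x / l) - g (y / l)) := by ring
    rw [h11]
    linarith

theorem mert (hG : GFactSt) : MertSt := by
  obtain ⟨hg0, -, hg1, -, C, hC, hgC, hL⟩ := hG
  have hc := cont_g C hL
  intro η hη
  refine ⟨max 1 (30 * C / η), lt_max_of_lt_left one_pos, fun l hl n => ?_⟩
  have hl1 : 1 ≤ l := (le_max_left _ _).trans hl
  have hl2 : 30 * C / η ≤ l := (le_max_right _ _).trans hl
  have hl0 : 0 < l := by linarith
  have hC0 : 0 ≤ C := hC.le
  obtain ⟨N, hN⟩ : ∃ N : ℕ, N = ⌊Real.exp l⌋₊ := ⟨_, rfl⟩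
  have hN1 : 1 ≤ N := by
    rw [hN]
    refine Nat.le_floor ?_
    have := Real.add_one_le_exp l
    push_cast
    linarith
  have hN0 : (0 : ℝ) < N := by exact_mod_cast hN1
  have hNl : Real.log N ≤ l := by
    rw [← Real.log_exp l]
    refine Real.log_le_log hN0 ?_
    rw [hN]
    exact Nat.floor_le (Real.exp_pos _).le
  obtain ⟨hx0, -, -⟩ := log_step N hN1
  have hz : ∀ k : ℕ, N + 1 ≤ k → a k * g (Real.log k / l) = 0 := by
    intro k hk
    have h1 : Real.exp l < k := by
      have h2 := Nat.lt_floor_add_one (Real.exp l)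
      rw [← hN] at h2
      have h3 : ((N : ℝ)) + 1 ≤ k := by exact_mod_cast hk
      linarith
    have h2 : l ≤ Real.log k := by
      rw [Real.le_log_iff_exp_le (by linarith [Real.exp_pos l])]
      exact h1.le
    rw [hg1, mul_zero]
    rw [abs_of_nonneg (div_nonneg (by linarith) hl0.le), le_div_iff₀ hl0]
    linarith
  have hnn : ∀ k : ℕ, 0 ≤ a k * g (Real.log k / l) := fun k => mul_nonneg (a_nonneg k) (hg0 _)
  have h1 : ∑ k ∈ Finset.range n, a k * g (Real.log k / l) ≤
      ∑ k ∈ Finset.range (N + 1), a k * g (Real.log k / l) := by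
    calc ∑ k ∈ Finset.range n, a k * g (Real.log k / l)
        ≤ ∑ k ∈ Finset.range (max n (N + 1)), a k * g (Real.log k / l) :=
          Finset.sum_le_sum_of_subset_of_nonneg
            (Finset.range_subset_range.2 (le_max_left _ _)) (fun k _ _ => hnn k)
      _ = ∑ k ∈ Finset.range (N + 1), a k * g (Real.log k / l) := by
          symm
          refine Finset.sum_subset (Finset.range_subset_range.2 (le_max_right _ _))
            fun k _ hk => hz k ?_
          rw [Finset.mem_range] at hk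
          omega
  have h2 := main C l hl0 hC0 hL N hN1
  have h3 : ∫ t in (0 : ℝ)..(Real.log N), t * g (t / l) ≤ l ^ 2 * ∫ β in (0 : ℝ)..1, β * g β := by
    have h4 : ∫ t in (0 : ℝ)..(Real.log N), t * g (t / l) ≤ ∫ t in (0 : ℝ)..l, t * g (t / l) := by
      have h5 : (∫ t in (0 : ℝ)..l, t * g (t / l)) =
        (∫ t in (0 : ℝ)..(Real.log N), t * g (t / l)) + ∫ t in (Real.log N)..l, t * g (t / l) := by
        rw [intervalIntegral.integral_add_adjacent_intervals
          (Continuous.intervalIntegrable (by fun_prop) _ _)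
          (Continuous.intervalIntegrable (by fun_prop) _ _)]
      have h6 : 0 ≤ ∫ t in (Real.log N)..l, t * g (t / l) :=
        intervalIntegral.integral_nonneg hNl fun t ht => mul_nonneg (hx0.trans ht.1) (hg0 _)
      linarith
    refine h4.trans (le_of_eq ?_)
    have h7 : ∀ t : ℝ, t * g (t / l) = l * ((t / l) * g (t / l)) := fun t => by
      field_simp
    simp only [h7]
    rw [intervalIntegral.integral_const_mul,
      intervalIntegral.integral_comp_div (fun β => β * g β) hl0.ne', zero_div, div_self hl0.ne',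
      smul_eq_mul]
    ring
  have h4 : E N * g (Real.log N / l) ≤ 7 * (l + 1) * C := by
    refine (le_abs_self _).trans ?_
    rw [abs_mul, abs_of_nonneg (hg0 _)]
    refine mul_le_mul ((E_bound N hN1).trans ?_) (hgC _) (hg0 _) (by positivity)
    linarith
  have h5 : 8 * C / l * ((Real.log N + 1) * Real.log N) ≤ 8 * C * (l + 1) := by
    calc 8 * C / l * ((Real.log N + 1) * Real.log N) ≤ 8 * C / l * ((l + 1) * l) := by gcongr
      _ = 8 * C * (l + 1) := by field_simp
  have h6 : 15 * C * (l + 1) ≤ η * l ^ 2 := by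
    rw [div_le_iff₀ hη] at hl2
    nlinarith
  have h7 : ∑ k ∈ Finset.range n, ArithmeticFunction.vonMangoldt k ^ 2 / k * g (Real.log k / l) =
      ∑ k ∈ Finset.range n, a k * g (Real.log k / l) := rfl
  rw [h7]
  nlinarith

end Pool.Agent.H46.MT.Mert
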