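import Pool.Agent.H46.MT.Defs

/-!
# Module 29: the lower bound for the number of zeros
-/

namespace Pool.Agent.H46.MT.Nlow

open MeasureTheory Filter Topology Pool.Agent.H46.MT
open scoped ComplexConjugate

theorem sum_le_three (A B C D : Finset ℂ) (f : ℂ → ℕ) (h : A ⊆ B ∪ C ∪ D) :
    ∑ x ∈ A, f x ≤ ∑ x ∈ B, f x + ∑ x ∈ C, f x + ∑ x ∈ D, f x := by
  classical
  have h1 : ∑ x ∈ A, f x ≤ ∑ x ∈ B ∪ C ∪ D, f x :=
    Finset.sum_le_sum_of_subset h
  have h2 := Finset.sum_union_inter (s₁ := B ∪ C) (s₂ := D) (f := f)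
  have h3 := Finset.sum_union_inter (s₁ := B) (s₂ := C) (f := f)
  omega

theorem zeroCount_split {T H T₁ T₂ : ℝ} (h1 : T - 2 * H ≤ T₁) (h2 : T₂ ≤ 2 * T + 2 * H)
    (hH : 0 ≤ H) :
    (zeroCount T₁ T₂ : ℝ) ≤ (zeroCount (T - 2 * H) (T + 2 * H) : ℝ) + (zeroCount T (2 * T) : ℝ) +
      (zeroCount (2 * T - 2 * H) (2 * T + 2 * H) : ℝ) := by
  classical
  rw [zeroCount_eq, zeroCount_eq, zeroCount_eq, zeroCount_eq]
  have := sum_le_three (Zf T₁ T₂) (Zf (T - 2 * H) (T + 2 * H)) (Zf T (2 * T))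
    (Zf (2 * T - 2 * H) (2 * T + 2 * H)) mult (by
      intro ρ hρ
      rw [mem_Zf] at hρ
      obtain ⟨h0, ha, hb, hc, hd⟩ := hρ
      rw [Finset.mem_union, Finset.mem_union, mem_Zf, mem_Zf, mem_Zf]
      by_cases hT : ρ.im ≤ T
      · left; left
        exact ⟨h0, ha, hb, by linarith, by linarith⟩
      · push Not at hT
        by_cases hT2 : ρ.im ≤ 2 * T
        · left; right
          exact ⟨h0, ha, hb, hT, hT2⟩
        · push Not at hT2
          right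
          exact ⟨h0, ha, hb, by linarith, by linarith⟩)
  exact_mod_cast this

theorem expSum_le (hW : Wt1St) {T Δ T₁ T₂ : ℝ} (hT : 0 < T) (hΔ : 0 < Δ) :
    ‖expSum T Δ T₁ T₂ 0‖ ≤ Real.exp (1 / (4 * Δ ^ 2)) * (zeroCount T₁ T₂ : ℝ) := by
  obtain ⟨-, -, -, h4, -⟩ := hW T Δ hT hΔ
  rw [zeroCount_eq]
  unfold expSum
  refine (norm_sum_le _ _).trans ?_
  push_cast
  rw [Finset.mul_sum]
  refine Finset.sum_le_sum fun ρ hρ => ?_
  rw [mem_Zf] at hρ
  obtain ⟨h0, ha, hb, hc, hd⟩ := hρ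
  rw [norm_mul, mul_comm]
  refine mul_le_mul ?_ (by simp) (norm_nonneg _) (Real.exp_pos _).le
  unfold ff
  have hz : (zOf ρ).im = -(ρ.re - 1 / 2) := by
    unfold zOf
    rw [Complex.div_I]
    simp
  have h5 := h4 (zOf ρ)
  rw [norm_mul]
  have h6 : ‖Complex.exp (((0 : ℝ) : ℂ) * (ρ - 1 / 2))‖ = 1 := by simp
  rw [h6, mul_one]
  refine h5.trans (Real.exp_le_exp.mpr ?_)
  rw [hz]
  have : (-(ρ.re - 1 / 2)) ^ 2 ≤ 1 / 4 := by nlinarith
  calc (-(ρ.re - 1 / 2)) ^ 2 / Δ ^ 2 ≤ (1 / 4) / Δ ^ 2 := by gcongr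
    _ = 1 / (4 * Δ ^ 2) := by field_simp

theorem norm_Wh_le {T Δ ξ : ℝ} (hT : 0 ≤ T) :
    ‖Wh T Δ ξ‖ ≤ T * Real.exp (-(Δ ^ 2 * ξ ^ 2 / 4)) := by
  unfold Wh
  rw [norm_mul]
  refine mul_le_mul ?_ ?_ (norm_nonneg _) hT
  · have := intervalIntegral.norm_integral_le_of_norm_le_const (a := T) (b := 2 * T) (C := 1)
      (f := fun t : ℝ => Complex.exp (-(Complex.I * ξ * t))) (by
        intro t _
        rw [Complex.norm_exp]
        simp)
    refine this.trans ?_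
    rw [one_mul, abs_of_nonneg (by linarith)]
    linarith
  · rw [Complex.norm_real, Real.norm_eq_abs, abs_of_pos (Real.exp_pos _)]

theorem primeSum_le {T Δ : ℝ} (hT : 0 ≤ T) (hΔ : 32 ≤ Δ ^ 2) :
    ‖primeSum T Δ 0‖ ≤ 4 * T := by
  unfold primeSum
  have hs : HasSum (fun n : ℕ => (2 * T) * (1 / (n : ℝ) ^ 2)) ((2 * T) * (Real.pi ^ 2 / 6)) :=
    hasSum_zeta_two.mul_left _
  refine (tsum_of_norm_bounded hs ?_).trans ?_
  · intro n
    rcases Nat.lt_or_ge n 2 with hn | hn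
    · interval_cases n
      · simp
      · simp; linarith
    · have hn1 : (2 : ℝ) ≤ n := by exact_mod_cast hn
      have hn0 : (0 : ℝ) < n := by linarith
      have hL : ArithmeticFunction.vonMangoldt n ≤ Real.log n :=
        ArithmeticFunction.vonMangoldt_le_log
      have hL0 : 0 ≤ ArithmeticFunction.vonMangoldt n := ArithmeticFunction.vonMangoldt_nonneg
      have hlog : Real.log n ≤ n := (Real.log_le_sub_one_of_pos hn0).trans (by linarith)
      have hlog2 : (1 : ℝ) / 2 ≤ Real.log n := by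
        have := Real.log_two_gt_d9
        have h2 : Real.log 2 ≤ Real.log n := Real.log_le_log (by norm_num) hn1
        linarith
      have hsq : 1 ≤ √(n : ℝ) := Real.one_le_sqrt.mpr (by linarith)
      have hexp : Real.exp (-(Δ ^ 2 * (Real.log n) ^ 2 / 4)) ≤ 1 / (n : ℝ) ^ 3 := by
        have h1 : (n : ℝ) ^ 3 = Real.exp (3 * Real.log n) := by
          rw [← Real.log_rpow hn0 3, Real.exp_log (by positivity)]
          norm_cast
        rw [h1, one_div, ← Real.exp_neg]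
        refine Real.exp_le_exp.mpr ?_
        have h3 : 3 * Real.log n ≤ Δ ^ 2 * (Real.log n) ^ 2 / 4 := by
          have h4 : 32 * (Real.log n) ^ 2 ≤ Δ ^ 2 * (Real.log n) ^ 2 := by
            gcongr
          nlinarith
        linarith
      have hA : ‖Wh T Δ (Real.log n - 0)‖ ≤ T * (1 / (n : ℝ) ^ 3) := by
        rw [sub_zero]
        exact (norm_Wh_le hT).trans (mul_le_mul_of_nonneg_left hexp hT)
      have hB : ‖Wh T Δ (-Real.log n - 0)‖ ≤ T * (1 / (n : ℝ) ^ 3) := by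
        rw [sub_zero]
        refine (norm_Wh_le hT).trans ?_
        rw [neg_sq]
        exact mul_le_mul_of_nonneg_left hexp hT
      rw [norm_mul]
      have hC : ‖((ArithmeticFunction.vonMangoldt n / √(n : ℝ) : ℝ) : ℂ)‖ ≤ n := by
        rw [Complex.norm_real, Real.norm_eq_abs, abs_of_nonneg (by positivity)]
        calc ArithmeticFunction.vonMangoldt n / √(n : ℝ) ≤ ArithmeticFunction.vonMangoldt n / 1 := by
              gcongr
          _ ≤ n := by rw [div_one]; linarith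
      calc _ ≤ (n : ℝ) * (T * (1 / (n : ℝ) ^ 3) + T * (1 / (n : ℝ) ^ 3)) := by
            refine mul_le_mul hC ((norm_add_le _ _).trans (add_le_add hA hB)) (norm_nonneg _)
              hn0.le
        _ = (2 * T) * (1 / (n : ℝ) ^ 2) := by
            field_simp
            ring
  · have hpi : Real.pi ^ 2 / 6 ≤ 2 := by
      have := Real.pi_lt_d2
      have h0 := Real.pi_pos
      nlinarith
    nlinarith

theorem kap_cont : Continuous kap := by
  have hG : Differentiable ℂ (fun s : ℂ => (Complex.Gammaℝ s)⁻¹) :=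
    Complex.differentiable_Gammaℝ_inv
  have hderiv : Continuous (deriv (fun s : ℂ => (Complex.Gammaℝ s)⁻¹)) :=
    (hG.contDiff (n := 1)).continuous_deriv le_rfl
  have hlin : Continuous (fun t : ℝ => (1 / 2 + t * Complex.I : ℂ)) := by fun_prop
  have h1 : ∀ t : ℝ, logDeriv Complex.Gammaℝ (1 / 2 + t * Complex.I) =
      -(deriv (fun s : ℂ => (Complex.Gammaℝ s)⁻¹) (1 / 2 + t * Complex.I) /
        (Complex.Gammaℝ (1 / 2 + t * Complex.I))⁻¹) := by
    intro t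
    have hne : Complex.Gammaℝ (1 / 2 + t * Complex.I) ≠ 0 :=
      Complex.Gammaℝ_ne_zero_of_re_pos (by simp)
    have hd : DifferentiableAt ℂ Complex.Gammaℝ (1 / 2 + t * Complex.I) := by
      have h2 := (hG (1 / 2 + t * Complex.I)).inv (inv_ne_zero hne)
      have h3 : (fun s : ℂ => (Complex.Gammaℝ s)⁻¹)⁻¹ = Complex.Gammaℝ := by
        ext s
        simp
      rwa [h3] at h2
    rw [logDeriv_apply, deriv_fun_inv'' hd hne]
    field_simp
  unfold kap
  simp only [h1]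
  refine continuous_const.mul (Complex.continuous_re.comp ?_)
  refine (Continuous.div (hderiv.comp hlin) (hG.continuous.comp hlin) ?_).neg
  intro t
  exact inv_ne_zero (Complex.Gammaℝ_ne_zero_of_re_pos (by simp))

theorem int_lower (hW : Wt1St) {T Δ H T₁ T₂ C : ℝ} (hT : 0 < T) (hΔ : 0 < Δ) (hH : 0 < H)
    (h2H : 2 * H ≤ T) (h1 : T₁ ≤ T - H) (h2 : 2 * T + H ≤ T₂) (hT1 : T / 2 ≤ T₁)
    (hT14 : 2 ≤ T₁) (hC : C + Real.log 2 ≤ Real.log T)
    (hD : ∀ t : ℝ, 2 ≤ t → |kap t - Real.log t| ≤ C) :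
    (Real.log T - (C + Real.log 2)) * (1 - 2 * Real.exp (-(H ^ 2 / Δ ^ 2))) * (T - 2 * H) ≤
      ‖∫ t in T₁..T₂, (kap t : ℂ) *
        (wt T Δ t * Complex.exp (Complex.I * ((0 : ℝ) : ℂ) * t))‖ := by
  obtain ⟨hd, -, hr, -, -, -, h7⟩ := hW T Δ hT hΔ
  set r : ℝ → ℝ := fun t => (wt T Δ t).re with hrdef
  have hreal : ∀ t : ℝ, wt T Δ t = (r t : ℂ) := by
    intro t
    obtain ⟨x, -, -, hx⟩ := hr t
    simp only [hrdef]
    rw [hx]
    simp
  have hrpos : ∀ t, 0 ≤ r t := by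
    intro t
    obtain ⟨x, hx0, -, hx⟩ := hr t
    simp only [hrdef]
    rw [hx]
    simpa using hx0.le
  have hrcont : Continuous r := by
    have := hd.continuous.comp Complex.continuous_ofReal
    exact Complex.continuous_re.comp this
  have hFcont : Continuous (fun t => kap t * r t) := kap_cont.mul hrcont
  have heq : (∫ t in T₁..T₂, (kap t : ℂ) *
        (wt T Δ t * Complex.exp (Complex.I * ((0 : ℝ) : ℂ) * t))) =
      ((∫ t in T₁..T₂, kap t * r t : ℝ) : ℂ) := by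
    rw [← intervalIntegral.integral_ofReal]
    refine intervalIntegral.integral_congr fun t _ => ?_
    rw [hreal t]
    simp
  rw [heq, Complex.norm_real]
  refine le_trans ?_ (le_abs_self _)
  have hkap : ∀ t, T₁ ≤ t → Real.log T - (C + Real.log 2) ≤ kap t := by
    intro t ht
    have h3 := abs_le.mp (hD t (hT14.trans ht))
    have h4 : Real.log (T / 2) ≤ Real.log t := Real.log_le_log (by positivity) (hT1.trans ht)
    rw [Real.log_div hT.ne' two_ne_zero] at h4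
    linarith [h3.1]
  have hA : (∫ t in (T + H)..(2 * T - H), kap t * r t) ≤ ∫ t in T₁..T₂, kap t * r t := by
    refine intervalIntegral.integral_mono_interval (by linarith) (by linarith) (by linarith) ?_
      (hFcont.intervalIntegrable _ _)
    refine (ae_restrict_iff' measurableSet_Ioc).mpr (Eventually.of_forall fun t ht => ?_)
    have := hkap t ht.1.le
    exact mul_nonneg (by linarith) (hrpos t)
  refine le_trans ?_ hA
  have hB : (∫ _t in (T + H)..(2 * T - H), (Real.log T - (C + Real.log 2)) *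
      (1 - 2 * Real.exp (-(H ^ 2 / Δ ^ 2)))) ≤ ∫ t in (T + H)..(2 * T - H), kap t * r t := by
    refine intervalIntegral.integral_mono_on (by linarith) (by simp)
      (hFcont.intervalIntegrable _ _) ?_
    intro t ht
    have h3 := hkap t (by linarith [ht.1])
    have h4 := h7 (t : ℂ) H hH (by simpa using ht.1) (by simpa using ht.2)
    rw [hreal t] at h4
    have h5 : ‖((r t : ℂ)) - 1‖ = |r t - 1| := by
      rw [← Complex.ofReal_one, ← Complex.ofReal_sub, Complex.norm_real, Real.norm_eq_abs]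
    rw [h5] at h4
    have h6 : (((t : ℂ)).im ^ 2 / Δ ^ 2 - H ^ 2 / Δ ^ 2) = -(H ^ 2 / Δ ^ 2) := by simp
    rw [h6] at h4
    have h8 := (abs_le.mp h4).1
    have h9 : (1 - 2 * Real.exp (-(H ^ 2 / Δ ^ 2))) ≤ r t := by linarith
    calc (Real.log T - (C + Real.log 2)) * (1 - 2 * Real.exp (-(H ^ 2 / Δ ^ 2)))
        ≤ (Real.log T - (C + Real.log 2)) * r t :=
          mul_le_mul_of_nonneg_left h9 (by linarith)
      _ ≤ kap t * r t := mul_le_mul_of_nonneg_right h3 (hrpos t)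
  refine le_trans (le_of_eq ?_) hB
  rw [intervalIntegral.integral_const, smul_eq_mul]
  ring

theorem final_ineq {ε X N N' I q E1 E2 p T L : ℝ} (hε : 0 < ε) (hε8 : ε ≤ 1 / 8)
    (hX : X = T * L / (2 * Real.pi)) (hT : 0 < T) (hL : 0 < L)
    (hN : N' ≤ E1 + N + E2) (hE1 : E1 ≤ ε * X) (hE2 : E2 ≤ ε * X)
    (hq : 1 - ε ≤ 1 / q) (hq0 : 0 < q)
    (h4 : 4 ≤ ε * L) (h1 : 1 ≤ ε * X) (hp : p ≤ 4 * T)
    (hI : (1 - ε) * L * (1 - ε) * ((1 - ε) * T) ≤ I)
    (hmain : 1 / (2 * Real.pi) * (I - p) - 1 ≤ q * N') :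
    (1 - 8 * ε) * X ≤ N := by
  have hpi := Real.pi_pos
  have hXpos : 0 < X := by rw [hX]; positivity
  have ha : 1 / (2 * Real.pi) * (I - p) - 1 ≥ ((1 - ε) ^ 3 - 2 * ε) * X := by
    have h5 : 1 / (2 * Real.pi) * I ≥ (1 - ε) ^ 3 * X := by
      have : (1 - ε) ^ 3 * X = 1 / (2 * Real.pi) * ((1 - ε) * L * (1 - ε) * ((1 - ε) * T)) := by
        rw [hX]
        field_simp
      rw [this]
      gcongr
    have h6 : 1 / (2 * Real.pi) * p ≤ ε * X := by
      calc 1 / (2 * Real.pi) * p ≤ 1 / (2 * Real.pi) * (4 * T) := by gcongr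
        _ ≤ 1 / (2 * Real.pi) * ((ε * L) * T) := by gcongr
        _ = ε * X := by rw [hX]; field_simp
    nlinarith
  have hb : ((1 - ε) ^ 3 - 2 * ε) * X ≤ q * N' := by linarith
  have hc : (1 / q) * (((1 - ε) ^ 3 - 2 * ε) * X) ≤ N' := by
    have := mul_le_mul_of_nonneg_left hb (by positivity : 0 ≤ 1 / q)
    have h7 : 1 / q * (q * N') = N' := by field_simp
    rwa [h7] at this
  have hpos : 0 ≤ (1 - ε) ^ 3 - 2 * ε := by nlinarith [sq_nonneg (1 - ε), sq_nonneg ε]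
  have hd : (1 - ε) * (((1 - ε) ^ 3 - 2 * ε) * X) ≤ N' :=
    (mul_le_mul_of_nonneg_right hq (by positivity)).trans hc
  have he : (1 - 8 * ε) * X ≤ (1 - ε) * (((1 - ε) ^ 3 - 2 * ε) * X) - 2 * (ε * X) := by
    have h9 : (1 - 8 * ε) ≤ (1 - ε) * ((1 - ε) ^ 3 - 2 * ε) - 2 * ε := by
      have h10 : (1 - ε) * ((1 - ε) ^ 3 - 2 * ε) - 2 * ε - (1 - 8 * ε) =
          8 * ε ^ 2 - 4 * ε ^ 3 + ε ^ 4 := by ring
      have h11 : 0 ≤ 8 * ε ^ 2 - 4 * ε ^ 3 + ε ^ 4 := by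
        have : 4 * ε ^ 3 ≤ 8 * ε ^ 2 := by nlinarith [sq_nonneg ε]
        have h12 : 0 ≤ ε ^ 4 := by positivity
        linarith
      linarith
    nlinarith
  linarith

theorem Dl_half (T : ℝ) : Dl (1 / 2) T = T ^ ((2 : ℝ) / 3) := by
  unfold Dl dl
  norm_num

theorem Hh_half (T : ℝ) : Hh (1 / 2) T = T ^ ((5 : ℝ) / 6) := by
  unfold Hh dl
  norm_num

theorem nlow (hF : EFSt) (hG : GHSt) (hD : DigSt) (hW : Wt1St) (hE : EdgeSt) : NlowSt := by
  intro η hη
  obtain ⟨Cg, t₀, hCg, ht₀, hgood⟩ := hG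
  obtain ⟨Cd, hCd, hdig⟩ := hD
  obtain ⟨TF, hTF⟩ := hF (1 / 2) Cg (by norm_num) (by norm_num)
  set ε : ℝ := min η 1 / 8 with hεdef
  have hε : 0 < ε := by
    have : 0 < min η 1 := lt_min hη one_pos
    positivity
  have hε8 : ε ≤ 1 / 8 := by
    have : min η 1 ≤ 1 := min_le_right _ _
    rw [hεdef]
    linarith
  have hεη : 8 * ε ≤ η := by
    have : min η 1 ≤ η := min_le_left _ _
    rw [hεdef]
    linarith
  obtain ⟨TE, hTE⟩ := hE (1 / 2) ε (by norm_num) (by norm_num) hε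
  have e1 : ∀ᶠ T : ℝ in atTop, max (max TF TE) (2 * t₀ + 4) ≤ T := eventually_ge_atTop _
  have e2 : ∀ᶠ T : ℝ in atTop, 2 / ε ≤ T ^ ((1 : ℝ) / 6) :=
    (tendsto_rpow_atTop (by norm_num)).eventually_ge_atTop _
  have e3 : ∀ᶠ T : ℝ in atTop, max (2 * ε⁻¹ + 8) 8 ≤ T ^ ((2 : ℝ) / 3) :=
    (tendsto_rpow_atTop (by norm_num)).eventually_ge_atTop _
  have e4 : ∀ᶠ T : ℝ in atTop, Real.log (2 / ε) ≤ T ^ ((1 : ℝ) / 3) :=
    (tendsto_rpow_atTop (by norm_num)).eventually_ge_atTop _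
  have e5 : ∀ᶠ T : ℝ in atTop, (Cd + Real.log 2 + 4) / ε ≤ Real.log T :=
    Real.tendsto_log_atTop.eventually_ge_atTop _
  have e6 : ∀ᶠ T : ℝ in atTop, max 1 (2 * Real.pi / ε) ≤ T := eventually_ge_atTop _
  have hall := ((((e1.and e2).and e3).and e4).and e5).and e6
  obtain ⟨T₀, hT₀⟩ := eventually_atTop.mp hall
  refine ⟨T₀, fun T hTT => ?_⟩
  obtain ⟨⟨⟨⟨⟨a1, a2⟩, a3⟩, a4⟩, a5⟩, a6⟩ := hT₀ T hTT
  have hpi := Real.pi_pos
  have hTF' : TF ≤ T := (le_max_left _ _).trans ((le_max_left _ _).trans a1)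
  have hTE' : TE ≤ T := (le_max_right _ _).trans ((le_max_left _ _).trans a1)
  have hTt : 2 * t₀ + 4 ≤ T := (le_max_right _ _).trans a1
  have hT1 : 1 ≤ T := (le_max_left _ _).trans a6
  have hT0 : 0 < T := by linarith
  have hTpi : 2 * Real.pi / ε ≤ T := (le_max_right _ _).trans a6
  have hlog2 : 0 < Real.log 2 := Real.log_pos (by norm_num)
  set L : ℝ := Real.log T with hL
  have h5 : Cd + Real.log 2 + 4 ≤ ε * L := by
    rw [div_le_iff₀ hε] at a5
    linarith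
  have hL1 : 1 ≤ L := by nlinarith
  have hL0 : 0 < L := by linarith
  set H : ℝ := Hh (1 / 2) T with hHdef
  set Δ : ℝ := Dl (1 / 2) T with hΔdef
  have hHeq : H = T ^ ((5 : ℝ) / 6) := by rw [hHdef, Hh_half]
  have hΔeq : Δ = T ^ ((2 : ℝ) / 3) := by rw [hΔdef, Dl_half]
  have hH1 : 1 ≤ H := by
    rw [hHeq]
    exact Real.one_le_rpow hT1 (by norm_num)
  have hH0 : 0 < H := by linarith
  have hΔ8 : 8 ≤ Δ := by
    rw [hΔeq]
    exact (le_max_right _ _).trans a3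
  have hΔε : 2 * ε⁻¹ + 8 ≤ Δ := by
    rw [hΔeq]
    exact (le_max_left _ _).trans a3
  have hΔ0 : 0 < Δ := by linarith
  have hTH : T = H * T ^ ((1 : ℝ) / 6) := by
    rw [hHeq, ← Real.rpow_add hT0]
    norm_num
  have h2H : 2 * H ≤ ε * T := by
    have : 2 ≤ ε * T ^ ((1 : ℝ) / 6) := by
      rw [div_le_iff₀ hε] at a2
      linarith
    calc 2 * H ≤ (ε * T ^ ((1 : ℝ) / 6)) * H := by gcongr
      _ = ε * (H * T ^ ((1 : ℝ) / 6)) := by ring
      _ = ε * T := by rw [← hTH]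
  have h2HT : 2 * H ≤ T / 4 := by nlinarith
  -- the good heights
  obtain ⟨T₁, hT1a, hT1b, hT1g⟩ := hgood (T - 2 * H) (by linarith)
  obtain ⟨T₂, hT2a, hT2b, hT2g⟩ := hgood (2 * T + H) (by linarith)
  have hR : Rng (1 / 2) T T₁ T₂ := by
    refine ⟨hT1a, ?_, hT2a, ?_⟩
    · linarith
    · linarith
  have hEF := hTF T hTF' T₁ T₂ hR hT1g hT2g 0 (by simpa using hL0.le)
  have hexp := expSum_le hW (T₁ := T₁) (T₂ := T₂) hT0 hΔ0
  have hprime := primeSum_le hT0.le (Δ := Δ) (by nlinarith)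
  have hint := int_lower hW (C := Cd) hT0 hΔ0 hH0 (by linarith) hR.2.1 hR.2.2.1
    (by linarith) (by linarith) (by nlinarith)
    (fun t ht => (hdig (1 / 2) t le_rfl (by norm_num) ht).2)
  obtain ⟨hE1, hE2⟩ := hTE T hTE'
  have hsplit := zeroCount_split (T := T) (H := H) (T₁ := T₁) (T₂ := T₂) hT1a hR.2.2.2 hH0.le
  set I : ℝ := ‖∫ t in T₁..T₂, (kap t : ℂ) *
        (wt T Δ t * Complex.exp (Complex.I * ((0 : ℝ) : ℂ) * t))‖ with hI
  -- small quantities
  have hHD : H ^ 2 / Δ ^ 2 = T ^ ((1 : ℝ) / 3) := by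
    rw [hHeq, hΔeq, ← Real.rpow_natCast, ← Real.rpow_natCast, ← Real.rpow_mul hT0.le,
      ← Real.rpow_mul hT0.le, ← Real.rpow_sub hT0]
    norm_num
  have hsm : 2 * Real.exp (-(H ^ 2 / Δ ^ 2)) ≤ ε := by
    rw [hHD]
    have : Real.exp (-(T ^ ((1 : ℝ) / 3))) ≤ ε / 2 := by
      calc Real.exp (-(T ^ ((1 : ℝ) / 3))) ≤ Real.exp (-(Real.log (2 / ε))) :=
            Real.exp_le_exp.mpr (by linarith)
        _ = ε / 2 := by
            rw [Real.exp_neg, Real.exp_log (by positivity)]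
            field_simp
    linarith
  have hIlow : (1 - ε) * L * (1 - ε) * ((1 - ε) * T) ≤ I := by
    refine le_trans ?_ hint
    have b1 : (1 - ε) * L ≤ Real.log T - (Cd + Real.log 2) := by
      rw [← hL]
      nlinarith
    have b2 : (1 - ε) ≤ 1 - 2 * Real.exp (-(H ^ 2 / Δ ^ 2)) := by linarith
    have b3 : (1 - ε) * T ≤ T - 2 * H := by nlinarith
    have c1 : 0 ≤ 1 - ε := by linarith
    have c2 : 0 ≤ Real.log T - (Cd + Real.log 2) := le_trans (by positivity) b1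
    have c3 : 0 ≤ 1 - 2 * Real.exp (-(H ^ 2 / Δ ^ 2)) := c1.trans b2
    exact mul_le_mul (mul_le_mul b1 b2 c1 c2) b3 (by positivity) (by positivity)
  have hmain : 1 / (2 * Real.pi) * (I - ‖primeSum T Δ 0‖) - 1 ≤
      Real.exp (1 / (4 * Δ ^ 2)) * (zeroCount T₁ T₂ : ℝ) := by
    refine le_trans ?_ hexp
    have d1 : ‖((1 / (2 * Real.pi) : ℝ) : ℂ) *
        ((∫ t in T₁..T₂, (kap t : ℂ) *
          (wt T Δ t * Complex.exp (Complex.I * ((0 : ℝ) : ℂ) * t))) - primeSum T Δ 0)‖ - 1 ≤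
        ‖expSum T Δ T₁ T₂ 0‖ := by
      have := norm_sub_norm_le (((1 / (2 * Real.pi) : ℝ) : ℂ) *
        ((∫ t in T₁..T₂, (kap t : ℂ) *
          (wt T Δ t * Complex.exp (Complex.I * ((0 : ℝ) : ℂ) * t))) - primeSum T Δ 0))
          (expSum T Δ T₁ T₂ 0)
      rw [norm_sub_rev] at this
      linarith
    refine le_trans ?_ d1
    rw [norm_mul, Complex.norm_real, Real.norm_eq_abs, abs_of_pos (by positivity)]
    have d2 := norm_sub_norm_le (∫ t in T₁..T₂, (kap t : ℂ) *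
          (wt T Δ t * Complex.exp (Complex.I * ((0 : ℝ) : ℂ) * t))) (primeSum T Δ 0)
    gcongr
  have hq : 1 - ε ≤ 1 / Real.exp (1 / (4 * Δ ^ 2)) := by
    rw [one_div (Real.exp _), ← Real.exp_neg]
    have f1 := Real.add_one_le_exp (-(1 / (4 * Δ ^ 2)))
    have f2 : 1 / (4 * Δ ^ 2) ≤ ε := by
      rw [div_le_iff₀ (by positivity)]
      have f3 : 1 ≤ ε * Δ := by
        have : ε * (2 * ε⁻¹ + 8) ≤ ε * Δ := by gcongr
        have f4 : ε * (2 * ε⁻¹ + 8) = 2 + 8 * ε := by field_simp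
        linarith
      nlinarith
    linarith
  have hX1 : 1 ≤ ε * (T * L / (2 * Real.pi)) := by
    rw [div_le_iff₀ hε] at hTpi
    have g1 : 2 * Real.pi ≤ ε * (T * L) := by nlinarith
    rw [← mul_div_assoc, le_div_iff₀ (by positivity)]
    linarith
  have hfin := final_ineq (N := (zeroCount T (2 * T) : ℝ)) hε hε8 rfl hT0 hL0 hsplit hE1 hE2 hq
    (Real.exp_pos _) (by linarith) hX1 hprime hIlow hmain
  refine le_trans ?_ hfin
  have hXp : 0 ≤ T * L / (2 * Real.pi) := by positivity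
  exact mul_le_mul_of_nonneg_right (by linarith) hXp

end Pool.Agent.H46.MT.Nlow
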