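import Pool.Agent.H46.MT.Defs

/-!
# Near orthogonality of the bumps, integrated form
-/

namespace Pool.Agent.H46.MT.Ortho

open MeasureTheory Filter Topology

/-- the exponential integral without the Gaussian factor -/
noncomputable def EE (T ξ : ℝ) : ℂ := ∫ t in T..(2 * T), Complex.exp (-(Complex.I * ξ * t))

theorem wh_le (T Δ ξ : ℝ) : ‖Wh T Δ ξ‖ ≤ ‖EE T ξ‖ := by
  unfold Wh EE
  rw [norm_mul, Complex.norm_real, Real.norm_of_nonneg (Real.exp_pos _).le]
  have h1 : Real.exp (-(Δ ^ 2 * ξ ^ 2 / 4)) ≤ 1 := by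
    rw [← Real.exp_zero]
    apply Real.exp_le_exp.mpr
    have : 0 ≤ Δ ^ 2 * ξ ^ 2 / 4 := by positivity
    linarith
  calc _ ≤ ‖∫ t in T..(2 * T), Complex.exp (-(Complex.I * ξ * t))‖ * 1 :=
        mul_le_mul_of_nonneg_left h1 (norm_nonneg _)
    _ = _ := mul_one _

theorem ee_cont (T ξ : ℝ) : Continuous (fun u : ℝ => EE T (ξ - u)) := by
  unfold EE
  apply intervalIntegral.continuous_parametric_intervalIntegral_of_continuous'
  fun_prop

theorem ee_int (hP : PlSt) {T la : ℝ} (ξ : ℝ) (hT : 0 ≤ T) (hla : 0 ≤ la) :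
    ∫ u in (-la)..la, ‖EE T (ξ - u)‖ ^ 2 ≤ 2 * Real.pi * T := by
  have h := hP (fun t => Complex.exp (-(Complex.I * ξ * t))) T (2 * T) la (by linarith) hla
    (by fun_prop)
  have h1 : ∫ t in T..(2 * T), ‖Complex.exp (-(Complex.I * ξ * t))‖ ^ 2 = T := by
    have h2 : ∀ t : ℝ, ‖Complex.exp (-(Complex.I * ξ * t))‖ ^ 2 = (1 : ℝ) := by
      intro t
      rw [Complex.norm_exp]
      simp
    simp only [h2]
    rw [intervalIntegral.integral_const]
    simp only [smul_eq_mul, mul_one]
    ring
  rw [h1] at h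
  refine le_trans (le_of_eq ?_) h
  apply intervalIntegral.integral_congr
  intro u _
  simp only
  congr 2
  unfold EE
  apply intervalIntegral.integral_congr
  intro t _
  simp only
  rw [← Complex.exp_add]
  congr 1
  push_cast
  ring

/-- one active bump against `g` -/
theorem bump {T Δ la r C : ℝ} (hla : 0 < la) (hC : 0 < C)
    (hg0 : ∀ β : ℝ, 0 ≤ g β) (hgL : ∀ x y : ℝ, |g x - g y| ≤ C * |x - y|) (hr : 0 ≤ r) (ξ u : ℝ) :
    g (u / la) * (if |ξ - u| ≤ r then ‖Wh T Δ (ξ - u)‖ ^ 2 else 0) ≤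
      (g (ξ / la) + C * r / la) * ‖EE T (ξ - u)‖ ^ 2 := by
  have hR : 0 ≤ (g (ξ / la) + C * r / la) * ‖EE T (ξ - u)‖ ^ 2 := by
    have := hg0 (ξ / la)
    positivity
  by_cases h : |ξ - u| ≤ r
  · rw [if_pos h]
    have h1 : g (u / la) ≤ g (ξ / la) + C * r / la := by
      have h2 := hgL (u / la) (ξ / la)
      have h3 : |u / la - ξ / la| = |ξ - u| / la := by
        rw [← sub_div, abs_div, abs_of_pos hla, abs_sub_comm]
      rw [h3] at h2
      have h4 := (abs_le.mp h2).2
      have h5 : C * (|ξ - u| / la) ≤ C * r / la := by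
        rw [mul_div_assoc]
        apply mul_le_mul_of_nonneg_left _ hC.le
        gcongr
      linarith
    have h6 : ‖Wh T Δ (ξ - u)‖ ^ 2 ≤ ‖EE T (ξ - u)‖ ^ 2 :=
      pow_le_pow_left₀ (norm_nonneg _) (wh_le _ _ _) 2
    exact mul_le_mul h1 h6 (by positivity) (le_trans (hg0 _) h1)
  · rw [if_neg h, mul_zero]
    exact hR

theorem harm_le (N : ℕ) : ∑ n ∈ Finset.range (N + 1), (1 : ℝ) / n ≤ 1 + Real.log N := by
  have h := harmonic_le_one_add_log N
  unfold harmonic at h
  rw [Finset.sum_range_succ']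
  simp only [Nat.cast_zero, div_zero, add_zero]
  refine le_trans (le_of_eq ?_) h
  push_cast
  simp [one_div]

/-- crude bound for the sum of `Λ(n)²/n` -/
theorem lam_le {X L : ℝ} (hX1 : 1 ≤ X) (hX : Real.log X ≤ 2 * L) :
    ∑ n ∈ Finset.range (⌊X⌋₊ + 1), ArithmeticFunction.vonMangoldt n ^ 2 / n ≤
      4 * L ^ 2 * (1 + 2 * L) := by
  have hX0 : 0 < X := by linarith
  have hlX : 0 ≤ Real.log X := Real.log_nonneg hX1
  have hL : 0 ≤ L := by linarith
  have h1 : ∀ n ∈ Finset.range (⌊X⌋₊ + 1), ArithmeticFunction.vonMangoldt n ^ 2 / n ≤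
      4 * L ^ 2 * (1 / n) := by
    intro n hn
    rw [Finset.mem_range, Nat.lt_succ_iff] at hn
    have h2 : (n : ℝ) ≤ X := le_trans (by exact_mod_cast hn) (Nat.floor_le hX0.le)
    have h3 : ArithmeticFunction.vonMangoldt n ≤ 2 * L := by
      refine le_trans ArithmeticFunction.vonMangoldt_le_log ?_
      rcases Nat.eq_zero_or_pos n with h0 | h0
      · subst h0; simp; exact hL
      · refine le_trans (Real.log_le_log (by exact_mod_cast h0) h2) hX
    have h4 : 0 ≤ ArithmeticFunction.vonMangoldt n := ArithmeticFunction.vonMangoldt_nonneg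
    have h5 : ArithmeticFunction.vonMangoldt n ^ 2 ≤ 4 * L ^ 2 := by nlinarith
    calc _ = ArithmeticFunction.vonMangoldt n ^ 2 * (1 / (n : ℝ)) := by ring
      _ ≤ _ := mul_le_mul_of_nonneg_right h5 (by positivity)
  refine le_trans (Finset.sum_le_sum h1) ?_
  rw [← Finset.mul_sum]
  apply mul_le_mul_of_nonneg_left _ (by positivity)
  refine le_trans (harm_le _) ?_
  have h6 : Real.log (⌊X⌋₊ : ℝ) ≤ Real.log X := by
    apply Real.log_le_log
    · exact_mod_cast Nat.floor_pos.mpr hX1
    · exact Nat.floor_le hX0.le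
  linarith

theorem g_cont {C : ℝ} (hC : 0 < C) (hgL : ∀ x y : ℝ, |g x - g y| ≤ C * |x - y|) :
    Continuous g := by
  have : LipschitzWith (Real.toNNReal C) g := by
    apply LipschitzWith.of_dist_le_mul
    intro x y
    rw [Real.dist_eq, Real.dist_eq, Real.coe_toNNReal _ hC.le]
    exact hgL x y
  exact this.continuous

theorem evt {b C : ℝ} (hb : 0 < b) : ∀ᶠ T : ℝ in atTop,
    C / (16 * Real.pi * b) * (9 + 16 * Real.log T) ≤ T ^ b / 2 := by
  have h1 : (fun T : ℝ => C / (16 * Real.pi * b) * (9 + 16 * Real.log T)) =o[atTop]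
      (fun T : ℝ => T ^ b) := by
    apply Asymptotics.IsLittleO.const_mul_left
    apply Asymptotics.IsLittleO.add
    · rw [Asymptotics.isLittleO_const_left]
      right
      exact tendsto_norm_atTop_atTop.comp (tendsto_rpow_atTop hb)
    · exact (isLittleO_log_rpow_atTop hb).const_mul_left 16
  have h2 := h1.bound (show (0 : ℝ) < 1 / 2 by norm_num)
  filter_upwards [h2, eventually_ge_atTop 1] with T hT hT1
  have h3 : (0 : ℝ) ≤ T ^ b := Real.rpow_nonneg (by linarith) b
  rw [Real.norm_of_nonneg h3] at hT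
  have := le_trans (le_abs_self _) hT
  linarith

theorem ortho (hO : OrPtSt) (hP : PlSt) (hG : GFactSt) : OrthoSt := by
  intro b hb0 hb1
  obtain ⟨Ta, hTa2, hTa⟩ := hO b hb0 hb1
  obtain ⟨hg0, hgev, -, -, C, hC, hgC, hgL⟩ := hG
  have hev : ∀ᶠ T : ℝ in atTop, C / (16 * Real.pi * b) * (9 + 16 * Real.log T) ≤ T ^ b / 2 ∧
      4 * b * C ≤ T := (evt hb0).and (eventually_ge_atTop _)
  obtain ⟨Tb, hTb⟩ := eventually_atTop.mp hev
  refine ⟨max Ta Tb, le_trans hTa2 (le_max_left _ _), ?_⟩
  intro T hT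
  have hT1 : Ta ≤ T := le_trans (le_max_left _ _) hT
  have hT2 : Tb ≤ T := le_trans (le_max_right _ _) hT
  obtain ⟨hsum, hcont, hpt⟩ := hTa T hT1
  obtain ⟨hc1, hc2⟩ := hTb T hT2
  refine ⟨hsum, hcont, ?_⟩
  have hT0 : 2 ≤ T := le_trans hTa2 hT1
  have hTpos : 0 < T := by linarith
  set L := Real.log T with hL
  have hLpos : 0 < L := Real.log_pos (by linarith)
  set la := b * L with hla
  have hlapos : 0 < la := mul_pos hb0 hLpos
  set Δ := Dl b T with hΔ
  set r := 1 / (8 * T ^ b) with hr
  have hTb0 : 0 < T ^ b := Real.rpow_pos_of_pos hTpos b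
  have hr0 : 0 < r := by rw [hr]; positivity
  set R := Finset.range (⌊2 * T ^ b⌋₊ + 1) with hRdef
  have hpi := Real.pi_pos
  -- the majorant
  set M : ℝ → ℝ := fun u => 1 / (4 * Real.pi ^ 2) *
      (L ^ 2 * ((g (0 / la) + C * r / la) * ‖EE T (0 - u)‖ ^ 2) +
        ∑ n ∈ R, ArithmeticFunction.vonMangoldt n ^ 2 / n *
          ((g (Real.log n / la) + C * r / la) * ‖EE T (Real.log n - u)‖ ^ 2 +
            (g (-Real.log n / la) + C * r / la) * ‖EE T (-Real.log n - u)‖ ^ 2)) + C with hM
  have hMc : Continuous M := by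
    rw [hM]
    have h1 : ∀ ξ : ℝ, Continuous (fun u : ℝ => EE T (ξ - u)) := ee_cont T
    apply Continuous.add _ continuous_const
    apply Continuous.mul continuous_const
    apply Continuous.add
    · exact continuous_const.mul (continuous_const.mul ((h1 0).norm.pow 2))
    · apply continuous_finsetSum
      intro n _
      exact continuous_const.mul ((continuous_const.mul ((h1 _).norm.pow 2)).add
        (continuous_const.mul ((h1 _).norm.pow 2)))
  have hle : ∀ u ∈ Set.Icc (-la) la, g (u / la) * ‖mainSum T Δ u‖ ^ 2 ≤ M u := by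
    intro u hu
    have hu' : |u| ≤ la := abs_le.mpr hu
    have h1 := mul_le_mul_of_nonneg_left (hpt u hu') (hg0 (u / la))
    refine le_trans h1 ?_
    rw [hM]
    simp only
    rw [mul_add]
    apply add_le_add _ (by rw [mul_one]; exact hgC _)
    rw [← mul_assoc, mul_comm (g (u / la)), mul_assoc]
    apply mul_le_mul_of_nonneg_left _ (by positivity)
    rw [mul_add]
    apply add_le_add
    · have h2 := bump (T := T) (Δ := Δ) hlapos hC hg0 hgL hr0.le 0 u
      have h3 : (if |u| ≤ r then L ^ 2 * ‖Wh T Δ (-u)‖ ^ 2 else 0) =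
          L ^ 2 * (if |0 - u| ≤ r then ‖Wh T Δ (0 - u)‖ ^ 2 else 0) := by
        rw [zero_sub, abs_neg]
        split_ifs <;> simp
      rw [h3]
      calc _ = L ^ 2 * (g (u / la) * (if |0 - u| ≤ r then ‖Wh T Δ (0 - u)‖ ^ 2 else 0)) := by ring
        _ ≤ _ := mul_le_mul_of_nonneg_left h2 (by positivity)
    · rw [Finset.mul_sum]
      apply Finset.sum_le_sum
      intro n _
      have h2 := bump (T := T) (Δ := Δ) hlapos hC hg0 hgL hr0.le (Real.log n) u
      have h3 := bump (T := T) (Δ := Δ) hlapos hC hg0 hgL hr0.le (-Real.log n) u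
      have h4 : 0 ≤ ArithmeticFunction.vonMangoldt n ^ 2 / (n : ℝ) := by positivity
      calc _ = ArithmeticFunction.vonMangoldt n ^ 2 / n *
            (g (u / la) * (if |Real.log n - u| ≤ r then ‖Wh T Δ (Real.log n - u)‖ ^ 2 else 0) +
              g (u / la) * (if |-Real.log n - u| ≤ r then
                ‖Wh T Δ (-Real.log n - u)‖ ^ 2 else 0)) := by ring
        _ ≤ _ := mul_le_mul_of_nonneg_left (add_le_add h2 h3) h4
  have hgc : Continuous g := g_cont hC hgL
  have hint1 : IntervalIntegrable (fun u => g (u / la) * ‖mainSum T Δ u‖ ^ 2) volume (-la) la := by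
    apply ContinuousOn.intervalIntegrable
    rw [Set.uIcc_of_le (by linarith)]
    apply ContinuousOn.mul
    · exact (hgc.comp (continuous_id.div_const la)).continuousOn
    · exact (hcont.norm).pow 2
  have hint2 : IntervalIntegrable M volume (-la) la := hMc.intervalIntegrable _ _
  have hI1 := intervalIntegral.integral_mono_on (by linarith) hint1 hint2 hle
  refine le_trans hI1 ?_
  -- evaluate the integral of the majorant
  have hEi : ∀ ξ : ℝ, IntervalIntegrable (fun u => ‖EE T (ξ - u)‖ ^ 2) volume (-la) la :=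
    fun ξ => ((ee_cont T ξ).norm.pow 2).intervalIntegrable _ _
  have hMI : ∫ u in (-la)..la, M u = 1 / (4 * Real.pi ^ 2) *
      (L ^ 2 * ((g (0 / la) + C * r / la) * ∫ u in (-la)..la, ‖EE T (0 - u)‖ ^ 2) +
        ∑ n ∈ R, ArithmeticFunction.vonMangoldt n ^ 2 / n *
          ((g (Real.log n / la) + C * r / la) * (∫ u in (-la)..la, ‖EE T (Real.log n - u)‖ ^ 2) +
            (g (-Real.log n / la) + C * r / la) *
              ∫ u in (-la)..la, ‖EE T (-Real.log n - u)‖ ^ 2)) + 2 * la * C := by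
    rw [hM]
    rw [intervalIntegral.integral_add, intervalIntegral.integral_const,
      intervalIntegral.integral_const_mul, intervalIntegral.integral_add,
      intervalIntegral.integral_const_mul, intervalIntegral.integral_const_mul,
      intervalIntegral.integral_finsetSum]
    · congr 1
      · congr 1
        congr 1
        apply Finset.sum_congr rfl
        intro n _
        rw [intervalIntegral.integral_const_mul, intervalIntegral.integral_add,
          intervalIntegral.integral_const_mul, intervalIntegral.integral_const_mul]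
        · exact (hEi _).const_mul _
        · exact (hEi _).const_mul _
      · rw [smul_eq_mul]; ring
    · intro n _
      exact (((hEi _).const_mul _).add ((hEi _).const_mul _)).const_mul _
    · exact ((hEi _).const_mul _).const_mul _
    · have : Continuous (fun u : ℝ => ∑ n ∈ R, ArithmeticFunction.vonMangoldt n ^ 2 / n *
          ((g (Real.log n / la) + C * r / la) * ‖EE T (Real.log n - u)‖ ^ 2 +
            (g (-Real.log n / la) + C * r / la) * ‖EE T (-Real.log n - u)‖ ^ 2)) := by
        apply continuous_finsetSum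
        intro n _
        exact continuous_const.mul ((continuous_const.mul ((ee_cont T _).norm.pow 2)).add
          (continuous_const.mul ((ee_cont T _).norm.pow 2)))
      exact this.intervalIntegrable _ _
    · have : Continuous (fun u : ℝ => M u - C) := hMc.sub continuous_const
      have h5 := this.intervalIntegrable (μ := volume) (-la) la
      simpa [hM] using h5
    · exact intervalIntegrable_const
  rw [hMI]
  have hEle : ∀ ξ : ℝ, ∫ u in (-la)..la, ‖EE T (ξ - u)‖ ^ 2 ≤ 2 * Real.pi * T :=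
    fun ξ => ee_int hP ξ hTpos.le hlapos.le
  set S := ∑ n ∈ R, ArithmeticFunction.vonMangoldt n ^ 2 / (n : ℝ) with hS
  set G := ∑ n ∈ R, ArithmeticFunction.vonMangoldt n ^ 2 / (n : ℝ) * g (Real.log n / la) with hGd
  have hcr : 0 ≤ C * r / la := by positivity
  have hA : L ^ 2 * ((g (0 / la) + C * r / la) * ∫ u in (-la)..la, ‖EE T (0 - u)‖ ^ 2) ≤
      L ^ 2 * ((g 0 + C * r / la) * (2 * Real.pi * T)) := by
    rw [zero_div]
    apply mul_le_mul_of_nonneg_left _ (by positivity)
    exact mul_le_mul_of_nonneg_left (hEle 0) (add_nonneg (hg0 0) hcr)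
  have hB : ∑ n ∈ R, ArithmeticFunction.vonMangoldt n ^ 2 / n *
          ((g (Real.log n / la) + C * r / la) * (∫ u in (-la)..la, ‖EE T (Real.log n - u)‖ ^ 2) +
            (g (-Real.log n / la) + C * r / la) *
              ∫ u in (-la)..la, ‖EE T (-Real.log n - u)‖ ^ 2) ≤
      (2 * G + 2 * (C * r / la) * S) * (2 * Real.pi * T) := by
    have h1 : (2 * G + 2 * (C * r / la) * S) * (2 * Real.pi * T) =
        ∑ n ∈ R, ArithmeticFunction.vonMangoldt n ^ 2 / (n : ℝ) *
          ((g (Real.log n / la) + C * r / la) * (2 * Real.pi * T) +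
            (g (Real.log n / la) + C * r / la) * (2 * Real.pi * T)) := by
      rw [hS, hGd, Finset.mul_sum, Finset.mul_sum, ← Finset.sum_add_distrib, Finset.sum_mul]
      apply Finset.sum_congr rfl
      intro n _
      ring
    rw [h1]
    apply Finset.sum_le_sum
    intro n _
    apply mul_le_mul_of_nonneg_left _ (by positivity)
    rw [neg_div, hgev]
    apply add_le_add
    · exact mul_le_mul_of_nonneg_left (hEle _) (add_nonneg (hg0 _) hcr)
    · exact mul_le_mul_of_nonneg_left (hEle _) (add_nonneg (hg0 _) hcr)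
  have hkey : 1 / (4 * Real.pi ^ 2) *
      (L ^ 2 * ((g 0 + C * r / la) * (2 * Real.pi * T)) +
        (2 * G + 2 * (C * r / la) * S) * (2 * Real.pi * T)) =
      T / (2 * Real.pi) * (L ^ 2 * g 0 + 2 * G) +
        T / (2 * Real.pi) * (C * r / la) * (L ^ 2 + 2 * S) := by
    field_simp
    ring
  have hSle : S ≤ 4 * L ^ 2 * (1 + 2 * L) := by
    apply lam_le
    · have : 1 ≤ T ^ b := Real.one_le_rpow (by linarith) hb0.le
      linarith
    · rw [Real.log_mul (by norm_num) hTb0.ne', Real.log_rpow hTpos]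
      have h1 : Real.log 2 ≤ L := Real.log_le_log (by norm_num) hT0
      nlinarith
  have hfin : T / (2 * Real.pi) * (C * r / la) * (L ^ 2 + 2 * S) + 2 * la * C ≤ T * L := by
    have h1 : T / (2 * Real.pi) * (C * r / la) * (L ^ 2 + 2 * S) ≤
        T / (2 * Real.pi) * (C * r / la) * (L ^ 2 * (9 + 16 * L)) := by
      apply mul_le_mul_of_nonneg_left _ (by positivity)
      nlinarith
    have h2 : T / (2 * Real.pi) * (C * r / la) * (L ^ 2 * (9 + 16 * L)) =
        T * L * (C / (16 * Real.pi * b) * (9 + 16 * L) / T ^ b) := by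
      rw [hr, hla]
      field_simp
      ring
    have h3 : C / (16 * Real.pi * b) * (9 + 16 * L) / T ^ b ≤ 1 / 2 := by
      rw [div_le_iff₀ hTb0]
      linarith
    have h4 : T * L * (C / (16 * Real.pi * b) * (9 + 16 * L) / T ^ b) ≤ T * L * (1 / 2) :=
      mul_le_mul_of_nonneg_left h3 (by positivity)
    have h5 : 2 * la * C ≤ T * L * (1 / 2) := by
      rw [hla]
      nlinarith
    linarith
  have h6 : 1 / (4 * Real.pi ^ 2) *
      (L ^ 2 * ((g (0 / la) + C * r / la) * ∫ u in (-la)..la, ‖EE T (0 - u)‖ ^ 2) +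
        ∑ n ∈ R, ArithmeticFunction.vonMangoldt n ^ 2 / n *
          ((g (Real.log n / la) + C * r / la) * (∫ u in (-la)..la, ‖EE T (Real.log n - u)‖ ^ 2) +
            (g (-Real.log n / la) + C * r / la) *
              ∫ u in (-la)..la, ‖EE T (-Real.log n - u)‖ ^ 2)) ≤
      1 / (4 * Real.pi ^ 2) *
      (L ^ 2 * ((g 0 + C * r / la) * (2 * Real.pi * T)) +
        (2 * G + 2 * (C * r / la) * S) * (2 * Real.pi * T)) :=
    mul_le_mul_of_nonneg_left (add_le_add hA hB) (by positivity)
  rw [hkey] at h6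
  linarith

end Pool.Agent.H46.MT.Ortho
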