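import Pool.Agent.H46.MT.Defs

/-!
# The pair sum as a weighted mean square of the exponential sum
-/

set_option autoImplicit false

namespace Pool.Agent.H46.MT.PairId

open MeasureTheory Filter Topology Pool.Agent.H46.MT
open scoped ComplexConjugate

theorem zOf_refl (ρ : ℂ) : zOf (1 - conj ρ) = conj (zOf ρ) := by
  unfold zOf
  rw [map_div₀, map_sub, Complex.conj_I, map_div₀, map_one]
  have h2 : conj (2 : ℂ) = 2 := by
    have := Complex.conj_natCast 2
    simpa using this
  rw [h2, div_neg, ← neg_div]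
  congr 1
  ring

theorem exp_eq (u : ℝ) (ρ : ℂ) : Complex.exp (u * (ρ - 1 / 2)) = Complex.exp (Complex.I * u * zOf ρ) := by
  congr 1
  unfold zOf
  field_simp

theorem ff_eq (T Δ u : ℝ) (ρ : ℂ) :
    ff T Δ u ρ = wt T Δ (zOf ρ) * Complex.exp (Complex.I * u * zOf ρ) := by
  unfold ff
  rw [exp_eq]

/-- reflection of the exponential sum -/
theorem expSum_neg (hZ : ZSymSt) (hW : Wt1St) {T Δ T₁ T₂ u : ℝ} (hT : 0 < T) (hΔ : 0 < Δ)
    (h1 : 0 ≤ T₁) : expSum T Δ T₁ T₂ (-u) = conj (expSum T Δ T₁ T₂ u) := by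
  unfold expSum
  rw [map_sum]
  apply Finset.sum_nbij' (fun ρ => 1 - conj ρ) (fun ρ => 1 - conj ρ)
  · intro ρ hρ
    exact mem_Zf.2 (hZ T₁ T₂ h1 ρ (mem_Zf.1 hρ)).1
  · intro ρ hρ
    exact mem_Zf.2 (hZ T₁ T₂ h1 ρ (mem_Zf.1 hρ)).1
  · intro ρ _
    simp
  · intro ρ _
    simp
  · intro ρ hρ
    rw [(hZ T₁ T₂ h1 ρ (mem_Zf.1 hρ)).2.1, ff_eq, ff_eq, map_mul, map_mul, zOf_refl,
      ((hW T Δ hT hΔ).2.1 (zOf ρ)), ← Complex.exp_conj, map_mul, map_mul]
    simp

theorem continuous_g (hG : GFactSt) : Continuous g := by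
  obtain ⟨-, -, -, -, C, hC, -, hlip⟩ := hG
  have h : LipschitzWith C.toNNReal g := by
    apply LipschitzWith.of_dist_le_mul
    intro x y
    rw [Real.dist_eq, Real.dist_eq, Real.coe_toNNReal C hC.le]
    exact hlip x y
  exact h.continuous

theorem pairid (hK : KSqSt) (hG : GFactSt) (hZ : ZSymSt) (hW : Wt1St) : PairIdSt := by
  intro b T T₁ T₂ hb hT hT1
  have hgc := continuous_g hG
  have hT0 : 0 < T := by linarith
  have hL : 0 < Real.log T := Real.log_pos hT
  set L := b * Real.log T with hLdef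
  have hLpos : 0 < L := mul_pos hb hL
  have hΔ : 0 < Dl b T := Real.rpow_pos_of_pos hT0 _
  set S : ℝ → ℂ := fun u => expSum T (Dl b T) T₁ T₂ u with hS
  -- the pair sum as an integral
  have key : pairSum b T T₁ T₂ =
      ∫ β in (-1 : ℝ)..1, (g β : ℂ) * (S (β * L) * S (-(β * L))) := by
    unfold pairSum
    have e1 : ∀ ρ ρ' : ℂ, (mult ρ : ℂ) * (mult ρ' : ℂ) *
        (wt T (Dl b T) (zOf ρ) * wt T (Dl b T) (zOf ρ')) *
        K (((b * Real.log T : ℝ) : ℂ) * (zOf ρ - zOf ρ')) ^ 2 =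
        ∫ β in (-1 : ℝ)..1, (g β : ℂ) * (((mult ρ : ℂ) * ff T (Dl b T) (β * L) ρ) *
          ((mult ρ' : ℂ) * ff T (Dl b T) (-(β * L)) ρ')) := by
      intro ρ ρ'
      rw [hK, ← intervalIntegral.integral_const_mul]
      apply intervalIntegral.integral_congr
      intro β _
      simp only
      rw [ff_eq, ff_eq]
      have e2 : Complex.exp (Complex.I * β * ((((b * Real.log T : ℝ) : ℂ)) * (zOf ρ - zOf ρ'))) =
          Complex.exp (Complex.I * ((β * L : ℝ) : ℂ) * zOf ρ) *
            Complex.exp (Complex.I * ((-(β * L) : ℝ) : ℂ) * zOf ρ') := by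
        rw [← Complex.exp_add]
        congr 1
        rw [hLdef]
        push_cast
        ring
      rw [e2]
      ring
    have hcont : ∀ ρ ρ' : ℂ, IntervalIntegrable (fun β : ℝ => (g β : ℂ) *
        (((mult ρ : ℂ) * ff T (Dl b T) (β * L) ρ) *
          ((mult ρ' : ℂ) * ff T (Dl b T) (-(β * L)) ρ'))) volume (-1) 1 := by
      intro ρ ρ'
      apply Continuous.intervalIntegrable
      unfold ff
      have h1 : Continuous (fun β : ℝ => ((g β : ℝ) : ℂ)) := Complex.continuous_ofReal.comp hgc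
      have h2 : Continuous (fun β : ℝ => Complex.exp (((β * L : ℝ) : ℂ) * (ρ - 1 / 2))) := by
        fun_prop
      have h3 : Continuous (fun β : ℝ => Complex.exp (((-(β * L) : ℝ) : ℂ) * (ρ' - 1 / 2))) := by
        fun_prop
      exact h1.mul ((continuous_const.mul (continuous_const.mul h2)).mul
        (continuous_const.mul (continuous_const.mul h3)))
    calc _ = ∑ ρ ∈ Zf T₁ T₂, ∑ ρ' ∈ Zf T₁ T₂, ∫ β in (-1 : ℝ)..1, (g β : ℂ) *
          (((mult ρ : ℂ) * ff T (Dl b T) (β * L) ρ) *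
          ((mult ρ' : ℂ) * ff T (Dl b T) (-(β * L)) ρ')) :=
          Finset.sum_congr rfl (fun ρ _ => Finset.sum_congr rfl (fun ρ' _ => e1 ρ ρ'))
      _ = ∫ β in (-1 : ℝ)..1, ∑ ρ ∈ Zf T₁ T₂, ∑ ρ' ∈ Zf T₁ T₂, (g β : ℂ) *
          (((mult ρ : ℂ) * ff T (Dl b T) (β * L) ρ) *
          ((mult ρ' : ℂ) * ff T (Dl b T) (-(β * L)) ρ')) := by
          rw [intervalIntegral.integral_finsetSum]
          · apply Finset.sum_congr rfl
            intro ρ _
            rw [intervalIntegral.integral_finsetSum]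
            intro ρ' _
            exact hcont ρ ρ'
          · intro ρ _
            have := IntervalIntegrable.sum (Zf T₁ T₂) (fun ρ' (_ : ρ' ∈ Zf T₁ T₂) => hcont ρ ρ')
            refine this.congr ?_
            intro β _
            simp only [Finset.sum_apply]
      _ = _ := by
          apply intervalIntegral.integral_congr
          intro β _
          simp only [hS]
          unfold expSum
          rw [Finset.sum_mul_sum, Finset.mul_sum]
          apply Finset.sum_congr rfl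
          intro ρ _
          rw [Finset.mul_sum]
  have e3 : ∀ β : ℝ, S (β * L) * S (-(β * L)) = ((‖S (β * L)‖ ^ 2 : ℝ) : ℂ) := by
    intro β
    rw [hS]
    simp only
    rw [expSum_neg hZ hW hT0 hΔ hT1, Complex.mul_conj, Complex.normSq_eq_norm_sq]
  have e4 : pairSum b T T₁ T₂ = ((∫ β in (-1 : ℝ)..1, g β * ‖S (β * L)‖ ^ 2 : ℝ) : ℂ) := by
    rw [key, ← intervalIntegral.integral_ofReal]
    apply intervalIntegral.integral_congr
    intro β _
    simp only
    rw [e3]
    push_cast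
    ring
  rw [e4, Complex.ofReal_re]
  have e5 := intervalIntegral.integral_comp_mul_right (a := -1) (b := 1)
    (fun u => g (u / L) * ‖S u‖ ^ 2) hLpos.ne'
  have e6 : ∀ β : ℝ, β * L / L = β := fun β => mul_div_cancel_right₀ β hLpos.ne'
  simp only [e6] at e5
  rw [e5, neg_one_mul, one_mul, smul_eq_mul, one_div]

end Pool.Agent.H46.MT.PairId
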