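import Pool.Agent.H46.MT.Defs
import Pool.Agent.H69.PT.U2

/-!
# MP_cb7589_nt: Plancherel, upper bound
-/

namespace Pool.Agent.H46.MT.Pl

open MeasureTheory Filter Topology FourierTransform

/-- the cut off function -/
noncomputable def cut (F : ℝ → ℂ) (A B : ℝ) : ℝ → ℂ := (Set.Ioc A B).indicator F

theorem fourier_cut (F : ℝ → ℂ) (A B : ℝ) (hAB : A ≤ B) (u : ℝ) :
    ∫ t in A..B, F t * Complex.exp (Complex.I * u * t) =
      𝓕 (cut F A B) (-(2 * Real.pi)⁻¹ * u) := by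
  have hpi : (Real.pi : ℂ) ≠ 0 := by exact_mod_cast Real.pi_ne_zero
  rw [Real.fourier_real_eq_integral_exp_smul, intervalIntegral.integral_of_le hAB,
    ← integral_indicator measurableSet_Ioc]
  refine integral_congr_ae (Filter.Eventually.of_forall fun t => ?_)
  show (Set.Ioc A B).indicator (fun t => F t * Complex.exp (Complex.I * u * t)) t =
    Complex.exp (((-2 * Real.pi * t * (-(2 * Real.pi)⁻¹ * u) : ℝ) : ℂ) * Complex.I) • cut F A B t
  unfold cut
  by_cases ht : t ∈ Set.Ioc A B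
  · rw [Set.indicator_of_mem ht, Set.indicator_of_mem ht, smul_eq_mul, mul_comm (F t)]
    congr 2
    push_cast
    field_simp
  · rw [Set.indicator_of_notMem ht, Set.indicator_of_notMem ht, smul_zero]

theorem pl : PlSt := by
  intro F A B R hAB hR hF
  have hFi : IntegrableOn F (Set.Ioc A B) := (hF.integrableOn_Icc).mono_set Set.Ioc_subset_Icc_self
  have h1 : Integrable (cut F A B) := hFi.integrable_indicator measurableSet_Ioc
  obtain ⟨M, hM⟩ := isCompact_Icc.exists_bound_of_continuousOn hF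
  have hb : ∀ x, ‖cut F A B x‖ ≤ max M 0 := by
    intro x
    unfold cut
    by_cases hx : x ∈ Set.Ioc A B
    · rw [Set.indicator_of_mem hx]
      exact (hM x (Set.Ioc_subset_Icc_self hx)).trans (le_max_left _ _)
    · rw [Set.indicator_of_notMem hx, norm_zero]
      exact le_max_right _ _
  have h2 : MemLp (cut F A B) 2 := PoolH69PT.memLp_two_of_bound h1 hb
  obtain ⟨h3, h4⟩ := PoolH69PT.plancherel (cut F A B) h1 h2
  have h5 : Integrable (fun ξ => ‖𝓕 (cut F A B) ξ‖ ^ 2) := PoolH69PT.integrable_sq h3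
  have h6 : (∫ x, ‖cut F A B x‖ ^ 2) = ∫ t in A..B, ‖F t‖ ^ 2 := by
    rw [intervalIntegral.integral_of_le hAB, ← integral_indicator measurableSet_Ioc]
    refine integral_congr_ae (Filter.Eventually.of_forall fun t => ?_)
    show ‖cut F A B t‖ ^ 2 = (Set.Ioc A B).indicator (fun t => ‖F t‖ ^ 2) t
    unfold cut
    by_cases ht : t ∈ Set.Ioc A B
    · rw [Set.indicator_of_mem ht, Set.indicator_of_mem ht]
    · rw [Set.indicator_of_notMem ht, Set.indicator_of_notMem ht]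
      simp
  have hc : (-(2 * Real.pi)⁻¹ : ℝ) ≠ 0 := neg_ne_zero.mpr (inv_ne_zero (by positivity))
  have h7 : Integrable (fun u : ℝ => ‖𝓕 (cut F A B) (-(2 * Real.pi)⁻¹ * u)‖ ^ 2) :=
    h5.comp_mul_left' hc
  have h8 : (∫ u : ℝ, ‖𝓕 (cut F A B) (-(2 * Real.pi)⁻¹ * u)‖ ^ 2) =
      2 * Real.pi * ∫ ξ : ℝ, ‖𝓕 (cut F A B) ξ‖ ^ 2 := by
    rw [Measure.integral_comp_mul_left (fun ξ : ℝ => ‖𝓕 (cut F A B) ξ‖ ^ 2)
      (-(2 * Real.pi)⁻¹), smul_eq_mul]
    congr 1
    rw [inv_neg, inv_inv, abs_neg, abs_of_pos (by positivity)]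
  calc ∫ u in (-R)..R, ‖∫ t in A..B, F t * Complex.exp (Complex.I * u * t)‖ ^ 2
      = ∫ u in (-R)..R, ‖𝓕 (cut F A B) (-(2 * Real.pi)⁻¹ * u)‖ ^ 2 := by
        refine intervalIntegral.integral_congr (fun u _ => ?_)
        show ‖∫ t in A..B, F t * Complex.exp (Complex.I * u * t)‖ ^ 2 = _
        rw [fourier_cut F A B hAB u]
    _ = ∫ u in Set.Ioc (-R) R, ‖𝓕 (cut F A B) (-(2 * Real.pi)⁻¹ * u)‖ ^ 2 :=
        intervalIntegral.integral_of_le (by linarith)
    _ ≤ ∫ u : ℝ, ‖𝓕 (cut F A B) (-(2 * Real.pi)⁻¹ * u)‖ ^ 2 :=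
        setIntegral_le_integral h7 (Filter.Eventually.of_forall fun u => by positivity)
    _ = 2 * Real.pi * ∫ t in A..B, ‖F t‖ ^ 2 := by rw [h8, h4, h6]

end Pool.Agent.H46.MT.Pl
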