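import Pool.Agent.H46.MT.Defs
import Pool.Agent.H46.MT.Nlow

/-!
# Module 30: the upper bound for the pair sum
-/

namespace Pool.Agent.H46.MT.Upper

open MeasureTheory Filter Topology Pool.Agent.H46.MT
open scoped ComplexConjugate

theorem norm_wt_real (hW : Wt1St) {T Δ : ℝ} (hT : 0 < T) (hΔ : 0 < Δ) (t : ℝ) :
    ‖wt T Δ t‖ ≤ 1 := by
  obtain ⟨-, -, h3, -⟩ := hW T Δ hT hΔ
  obtain ⟨r, hr0, hr1, hr⟩ := h3 t
  rw [hr, Complex.norm_real, Real.norm_eq_abs, abs_of_pos hr0]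
  exact hr1

theorem gauss_int {T Δ : ℝ} (hΔ : 0 < Δ) :
    Integrable (fun t : ℝ => Real.exp (-((T - t) ^ 2 / Δ ^ 2) / 2)) ∧
    ∫ t : ℝ, Real.exp (-((T - t) ^ 2 / Δ ^ 2) / 2) ≤ 3 * Δ := by
  have hb : 0 < 1 / (2 * Δ ^ 2) := by positivity
  have h1 : ∀ x : ℝ, Real.exp (-(x ^ 2 / Δ ^ 2) / 2) = Real.exp (-(1 / (2 * Δ ^ 2)) * x ^ 2) := by
    intro x
    congr 1
    field_simp
  have hi : Integrable (fun x : ℝ => Real.exp (-(x ^ 2 / Δ ^ 2) / 2)) := by
    simp_rw [h1]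
    exact integrable_exp_neg_mul_sq hb
  constructor
  · exact hi.comp_sub_left T
  · have h2 := integral_sub_left_eq_self (fun x : ℝ => Real.exp (-(x ^ 2 / Δ ^ 2) / 2)) volume T
    rw [h2]
    simp_rw [h1]
    rw [integral_gaussian]
    have h3 : Real.pi / (1 / (2 * Δ ^ 2)) ≤ (3 * Δ) ^ 2 := by
      have := Real.pi_lt_d2
      rw [div_div_eq_mul_div, div_one]
      nlinarith [sq_nonneg Δ, mul_pos hΔ hΔ]
    exact Real.sqrt_le_iff.mpr ⟨by positivity, h3⟩

theorem tail_le (hW : Wt1St) (hW4 : Wt4St) {T Δ H T₁ T₂ u : ℝ} (hT : 0 < T) (hΔ : 0 < Δ)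
    (hH : 0 < H) (h1 : T₁ ≤ T - H) (h2 : 2 * T + H ≤ T₂) :
    ‖(∫ t in T₁..T₂, wt T Δ t * Complex.exp (Complex.I * u * t)) - Wh T Δ (-u)‖ ≤
      6 * T * Real.exp (-(H ^ 2 / Δ ^ 2) / 2) := by
  obtain ⟨hd, -, -, -, hl, hr, -⟩ := hW T Δ hT hΔ
  obtain ⟨hint, hval⟩ := hW4 T Δ (-u) 0 hT hΔ
  have hint' : Integrable (fun t : ℝ => wt T Δ t) := by simpa using hint
  have hcont : Continuous (fun t : ℝ => wt T Δ t * Complex.exp (Complex.I * u * t)) := by
    have h3 : Continuous (fun t : ℝ => wt T Δ t) := hd.continuous.comp Complex.continuous_ofReal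
    exact h3.mul (by fun_prop)
  have hnorm : ∀ t : ℝ, ‖wt T Δ t * Complex.exp (Complex.I * u * t)‖ = ‖wt T Δ t‖ := by
    intro t
    rw [norm_mul, Complex.norm_exp]
    simp
  have hf : Integrable (fun t : ℝ => wt T Δ t * Complex.exp (Complex.I * u * t)) :=
    hint'.norm.mono' hcont.aestronglyMeasurable (Eventually.of_forall fun t => (hnorm t).le)
  have hval' : (∫ t : ℝ, wt T Δ t * Complex.exp (Complex.I * u * t)) = Wh T Δ (-u) := by
    have h4 : ∀ t : ℝ, wt T Δ t * Complex.exp (Complex.I * u * t) =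
        wt T Δ (t - Complex.I * (0 : ℝ)) * Complex.exp (-(Complex.I * ((-u : ℝ) : ℂ) * t)) := by
      intro t
      push_cast
      congr 2
      · ring
      · ring
    simp_rw [h4]
    rw [hval]
    simp
  have hs1 := intervalIntegral.integral_Iic_add_Ioi (b := T₁) hf.integrableOn hf.integrableOn
  have hs2 := intervalIntegral.integral_interval_add_Ioi (a := T₁) (b := T₂)
    hf.integrableOn hf.integrableOn
  have heq : (∫ t in T₁..T₂, wt T Δ t * Complex.exp (Complex.I * u * t)) - Wh T Δ (-u) =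
      -((∫ t in Set.Iic T₁, wt T Δ t * Complex.exp (Complex.I * u * t)) +
        ∫ t in Set.Ioi T₂, wt T Δ t * Complex.exp (Complex.I * u * t)) := by
    rw [← hval', ← hs1, ← hs2]
    ring
  rw [heq, norm_neg]
  have hA : ‖∫ t in Set.Iic T₁, wt T Δ t * Complex.exp (Complex.I * u * t)‖ ≤
      3 * T * Real.exp (-(H ^ 2 / Δ ^ 2) / 2) := by
    obtain ⟨hgi, hgv⟩ := gauss_int (T := T) hΔ
    have hgi' := hgi.const_mul (T / Δ * Real.exp (-(H ^ 2 / Δ ^ 2) / 2))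
    refine (norm_integral_le_of_norm_le hgi'.integrableOn
      ((ae_restrict_iff' measurableSet_Iic).mpr (Eventually.of_forall fun t ht => ?_))).trans ?_
    · rw [hnorm t]
      have ht' : t ≤ T - H := le_trans ht h1
      have h5 := hl (t : ℂ) (by simpa using (by linarith : t ≤ T))
      refine h5.trans ?_
      rw [mul_assoc, ← Real.exp_add]
      refine mul_le_mul_of_nonneg_left (Real.exp_le_exp.mpr ?_) (by positivity)
      have h6 : H ^ 2 / Δ ^ 2 ≤ (T - t) ^ 2 / Δ ^ 2 := by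
        gcongr
        linarith
      simp only [Complex.ofReal_im, Complex.ofReal_re]
      have h7 : (0 : ℝ) ^ 2 / Δ ^ 2 = 0 := by simp
      rw [h7]
      linarith
    · refine (setIntegral_le_integral hgi' (Eventually.of_forall fun t => by positivity)).trans ?_
      rw [integral_const_mul]
      calc T / Δ * Real.exp (-(H ^ 2 / Δ ^ 2) / 2) *
            ∫ t : ℝ, Real.exp (-((T - t) ^ 2 / Δ ^ 2) / 2)
          ≤ T / Δ * Real.exp (-(H ^ 2 / Δ ^ 2) / 2) * (3 * Δ) := by gcongr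
        _ = 3 * T * Real.exp (-(H ^ 2 / Δ ^ 2) / 2) := by field_simp
  have hB : ‖∫ t in Set.Ioi T₂, wt T Δ t * Complex.exp (Complex.I * u * t)‖ ≤
      3 * T * Real.exp (-(H ^ 2 / Δ ^ 2) / 2) := by
    obtain ⟨hgi, hgv⟩ := gauss_int (T := 2 * T) hΔ
    have hgi' := hgi.const_mul (T / Δ * Real.exp (-(H ^ 2 / Δ ^ 2) / 2))
    refine (norm_integral_le_of_norm_le hgi'.integrableOn
      ((ae_restrict_iff' measurableSet_Ioi).mpr (Eventually.of_forall fun t ht => ?_))).trans ?_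
    · rw [hnorm t]
      have ht' : 2 * T + H ≤ t := h2.trans (le_of_lt ht)
      have h5 := hr (t : ℂ) (by simpa using (by linarith : 2 * T ≤ t))
      refine h5.trans ?_
      rw [mul_assoc, ← Real.exp_add]
      refine mul_le_mul_of_nonneg_left (Real.exp_le_exp.mpr ?_) (by positivity)
      have h6 : H ^ 2 / Δ ^ 2 ≤ (2 * T - t) ^ 2 / Δ ^ 2 := by
        have : H ^ 2 ≤ (2 * T - t) ^ 2 := by nlinarith
        gcongr
      have h8 : (t - 2 * T) ^ 2 = (2 * T - t) ^ 2 := by ring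
      simp only [Complex.ofReal_im, Complex.ofReal_re]
      have h7 : (0 : ℝ) ^ 2 / Δ ^ 2 = 0 := by simp
      rw [h7, h8]
      linarith
    · refine (setIntegral_le_integral hgi' (Eventually.of_forall fun t => by positivity)).trans ?_
      rw [integral_const_mul]
      calc T / Δ * Real.exp (-(H ^ 2 / Δ ^ 2) / 2) *
            ∫ t : ℝ, Real.exp (-((2 * T - t) ^ 2 / Δ ^ 2) / 2)
          ≤ T / Δ * Real.exp (-(H ^ 2 / Δ ^ 2) / 2) * (3 * Δ) := by gcongr
        _ = 3 * T * Real.exp (-(H ^ 2 / Δ ^ 2) / 2) := by field_simp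
  refine (norm_add_le _ _).trans ?_
  linarith

/-- the part of the Gamma factor beyond the constant `L` -/
noncomputable def FJ (T Δ : ℝ) (t : ℝ) : ℂ := ((kap t - Real.log T : ℝ) : ℂ) * wt T Δ t

/-- its oscillating integral -/
noncomputable def Jf (T Δ T₁ T₂ u : ℝ) : ℂ :=
  ∫ t in T₁..T₂, FJ T Δ t * Complex.exp (Complex.I * u * t)

theorem wt_cont (hW : Wt1St) {T Δ : ℝ} (hT : 0 < T) (hΔ : 0 < Δ) :
    Continuous (fun t : ℝ => wt T Δ t) := by
  obtain ⟨hd, -⟩ := hW T Δ hT hΔ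
  exact hd.continuous.comp Complex.continuous_ofReal

theorem FJ_cont (hW : Wt1St) {T Δ : ℝ} (hT : 0 < T) (hΔ : 0 < Δ) : Continuous (FJ T Δ) := by
  unfold FJ
  exact (Complex.continuous_ofReal.comp (Nlow.kap_cont.sub continuous_const)).mul
    (wt_cont hW hT hΔ)

theorem Jf_cont (hW : Wt1St) {T Δ : ℝ} (hT : 0 < T) (hΔ : 0 < Δ) (T₁ T₂ : ℝ) :
    Continuous (Jf T Δ T₁ T₂) := by
  unfold Jf
  refine intervalIntegral.continuous_parametric_intervalIntegral_of_continuous' ?_ _ _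
  have h1 := FJ_cont hW hT hΔ
  have h2 : Continuous (fun p : ℝ × ℝ => FJ T Δ p.2) := h1.comp continuous_snd
  have h3 : Continuous (fun p : ℝ × ℝ => Complex.exp (Complex.I * p.1 * p.2)) := by fun_prop
  exact h2.mul h3

theorem Jf_sq (hP : PlSt) (hW : Wt1St) {T Δ T₁ T₂ C R : ℝ} (hT : 0 < T) (hΔ : 0 < Δ)
    (hR : 0 ≤ R) (h12 : T₁ ≤ T₂) (hT1 : T / 2 ≤ T₁) (hT12 : 2 ≤ T₁) (hT2 : T₂ ≤ 3 * T)
    (hC : 0 ≤ C)
    (hD : ∀ t : ℝ, 2 ≤ t → |kap t - Real.log t| ≤ C) :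
    ∫ u in (-R)..R, ‖Jf T Δ T₁ T₂ u‖ ^ 2 ≤ 6 * Real.pi * (C + 2) ^ 2 * T := by
  have h1 := hP (FJ T Δ) T₁ T₂ R h12 hR (FJ_cont hW hT hΔ).continuousOn
  refine h1.trans ?_
  have h2 : ∫ t in T₁..T₂, ‖FJ T Δ t‖ ^ 2 ≤ ∫ _t in T₁..T₂, (C + 2) ^ 2 := by
    refine intervalIntegral.integral_mono_on h12
      (((FJ_cont hW hT hΔ).norm.pow 2).intervalIntegrable _ _) (by simp) ?_
    intro t ht
    have h3 := hD t (hT12.trans ht.1)
    have ht0 : 0 < t := by linarith [ht.1]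
    have h4 : |Real.log t - Real.log T| ≤ 2 := by
      rw [abs_le]
      have h5 : Real.log (T / 2) ≤ Real.log t := Real.log_le_log (by positivity)
        (hT1.trans ht.1)
      rw [Real.log_div hT.ne' two_ne_zero] at h5
      have h6 : Real.log t ≤ Real.log (3 * T) := Real.log_le_log ht0 (ht.2.trans hT2)
      rw [Real.log_mul three_ne_zero hT.ne'] at h6
      have h7 : Real.log 2 ≤ 2 := by
        have := Real.log_two_lt_d9
        linarith
      have h8 : Real.log 3 ≤ 2 := (Real.log_le_sub_one_of_pos (by norm_num)).trans (by norm_num)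
      constructor <;> linarith
    have h9 : ‖FJ T Δ t‖ ≤ C + 2 := by
      unfold FJ
      rw [norm_mul, Complex.norm_real, Real.norm_eq_abs]
      have h10 : |kap t - Real.log T| ≤ C + 2 := by
        have : kap t - Real.log T = (kap t - Real.log t) + (Real.log t - Real.log T) := by ring
        rw [this]
        exact (abs_add_le _ _).trans (add_le_add h3 h4)
      calc |kap t - Real.log T| * ‖wt T Δ t‖ ≤ (C + 2) * 1 :=
            mul_le_mul h10 (norm_wt_real hW hT hΔ t) (norm_nonneg _) (by positivity)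
        _ = C + 2 := mul_one _
    exact pow_le_pow_left₀ (norm_nonneg _) h9 2
  rw [intervalIntegral.integral_const, smul_eq_mul] at h2
  have hpi := Real.pi_pos
  calc 2 * Real.pi * ∫ t in T₁..T₂, ‖FJ T Δ t‖ ^ 2
      ≤ 2 * Real.pi * ((T₂ - T₁) * (C + 2) ^ 2) := by gcongr
    _ ≤ 2 * Real.pi * ((3 * T) * (C + 2) ^ 2) := by
        gcongr
        linarith
    _ = 6 * Real.pi * (C + 2) ^ 2 * T := by ring

theorem S_sub_main (hW : Wt1St) (hW4 : Wt4St) {T Δ H T₁ T₂ u : ℝ} (hT : 0 < T) (hΔ : 0 < Δ)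
    (hH : 0 < H) (h1 : T₁ ≤ T - H) (h2 : 2 * T + H ≤ T₂) (hL : 0 ≤ Real.log T)
    (hsm : Real.log T * (6 * T * Real.exp (-(H ^ 2 / Δ ^ 2) / 2)) ≤ 1)
    (hEF : ‖expSum T Δ T₁ T₂ u - ((1 / (2 * Real.pi) : ℝ) : ℂ) *
      ((∫ t in T₁..T₂, (kap t : ℂ) * (wt T Δ t * Complex.exp (Complex.I * u * t))) -
        primeSum T Δ u)‖ ≤ 1) :
    ‖expSum T Δ T₁ T₂ u - mainSum T Δ u‖ ≤ 2 + ‖Jf T Δ T₁ T₂ u‖ := by
  have htail := tail_le hW hW4 (u := u) hT hΔ hH h1 h2
  set W1 : ℂ := ∫ t in T₁..T₂, wt T Δ t * Complex.exp (Complex.I * u * t) with hW1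
  set I : ℂ := ∫ t in T₁..T₂, (kap t : ℂ) * (wt T Δ t * Complex.exp (Complex.I * u * t)) with hI
  have hwc := wt_cont hW hT hΔ
  have hI1 : IntervalIntegrable (fun t : ℝ => FJ T Δ t * Complex.exp (Complex.I * u * t))
      volume T₁ T₂ := by
    have : Continuous (fun t : ℝ => FJ T Δ t * Complex.exp (Complex.I * u * t)) :=
      (FJ_cont hW hT hΔ).mul (by fun_prop)
    exact this.intervalIntegrable _ _
  have hI2 : IntervalIntegrable (fun t : ℝ => (Real.log T : ℂ) *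
      (wt T Δ t * Complex.exp (Complex.I * u * t))) volume T₁ T₂ := by
    have : Continuous (fun t : ℝ => (Real.log T : ℂ) *
      (wt T Δ t * Complex.exp (Complex.I * u * t))) :=
      continuous_const.mul (hwc.mul (by fun_prop))
    exact this.intervalIntegrable _ _
  have hdec : I = Jf T Δ T₁ T₂ u + (Real.log T : ℂ) * W1 := by
    rw [hI, hW1, Jf, ← intervalIntegral.integral_const_mul, ← intervalIntegral.integral_add hI1 hI2]
    refine intervalIntegral.integral_congr fun t _ => ?_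
    simp only [FJ]
    push_cast
    ring
  have hpi := Real.pi_gt_three
  have heq : expSum T Δ T₁ T₂ u - mainSum T Δ u =
      (expSum T Δ T₁ T₂ u - ((1 / (2 * Real.pi) : ℝ) : ℂ) * (I - primeSum T Δ u)) +
      ((1 / (2 * Real.pi) : ℝ) : ℂ) * (Jf T Δ T₁ T₂ u +
        (Real.log T : ℂ) * (W1 - Wh T Δ (-u))) := by
    rw [hdec]
    unfold mainSum
    ring
  rw [heq]
  refine (norm_add_le _ _).trans ?_
  have h3 : ‖((1 / (2 * Real.pi) : ℝ) : ℂ) * (Jf T Δ T₁ T₂ u +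
        (Real.log T : ℂ) * (W1 - Wh T Δ (-u)))‖ ≤ 1 + ‖Jf T Δ T₁ T₂ u‖ := by
    rw [norm_mul, Complex.norm_real, Real.norm_eq_abs, abs_of_pos (by positivity)]
    have h4 : ‖Jf T Δ T₁ T₂ u + (Real.log T : ℂ) * (W1 - Wh T Δ (-u))‖ ≤
        ‖Jf T Δ T₁ T₂ u‖ + 1 := by
      refine (norm_add_le _ _).trans ?_
      rw [norm_mul, Complex.norm_real, Real.norm_eq_abs, abs_of_nonneg hL]
      have := mul_le_mul_of_nonneg_left htail hL
      linarith
    have h5 : 1 / (2 * Real.pi) ≤ 1 := by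
      rw [div_le_one (by positivity)]
      linarith
    calc 1 / (2 * Real.pi) * ‖Jf T Δ T₁ T₂ u + (Real.log T : ℂ) * (W1 - Wh T Δ (-u))‖
        ≤ 1 * (‖Jf T Δ T₁ T₂ u‖ + 1) := by
          exact mul_le_mul h5 h4 (norm_nonneg _) zero_le_one
      _ = 1 + ‖Jf T Δ T₁ T₂ u‖ := by ring
  linarith

theorem expSum_cont (T Δ T₁ T₂ : ℝ) : Continuous (expSum T Δ T₁ T₂) := by
  unfold expSum ff
  fun_prop

theorem sq_ineq {a b s e : ℝ} (he : 0 < e) (ha : 0 ≤ a) (hb : 0 ≤ b) (hs0 : 0 ≤ s)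
    (hs : s ≤ a + b) : s ^ 2 ≤ (1 + e) * a ^ 2 + (1 + 1 / e) * b ^ 2 := by
  have h1 : s ^ 2 ≤ (a + b) ^ 2 := pow_le_pow_left₀ hs0 hs 2
  have h2 : 2 * (a * b) ≤ e * a ^ 2 + 1 / e * b ^ 2 := by
    have h3 : 0 ≤ (e * a - b) ^ 2 / e := by positivity
    have h4 : (e * a - b) ^ 2 / e = e * a ^ 2 + 1 / e * b ^ 2 - 2 * (a * b) := by
      field_simp
      ring
    linarith
  nlinarith

theorem mean_ineq (hW : Wt1St) (hW4 : Wt4St) (hG : GFactSt) {T Δ H T₁ T₂ la e Cg : ℝ}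
    (hT : 0 < T) (hΔ : 0 < Δ) (hla : 0 < la) (he : 0 < e)
    (hH : 0 < H) (h1 : T₁ ≤ T - H) (h2 : 2 * T + H ≤ T₂) (hL : 0 ≤ Real.log T)
    (hCg : ∀ x, g x ≤ Cg)
    (hsm : Real.log T * (6 * T * Real.exp (-(H ^ 2 / Δ ^ 2) / 2)) ≤ 1)
    (hEF : ∀ u : ℝ, |u| ≤ la → ‖expSum T Δ T₁ T₂ u - ((1 / (2 * Real.pi) : ℝ) : ℂ) *
      ((∫ t in T₁..T₂, (kap t : ℂ) * (wt T Δ t * Complex.exp (Complex.I * u * t))) -
        primeSum T Δ u)‖ ≤ 1)
    (hmc : ContinuousOn (fun u : ℝ => mainSum T Δ u) (Set.Icc (-la) la)) :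
    ∫ u in (-la)..la, g (u / la) * ‖expSum T Δ T₁ T₂ u‖ ^ 2 ≤
      (1 + e) * (∫ u in (-la)..la, g (u / la) * ‖mainSum T Δ u‖ ^ 2) +
      (1 + 1 / e) * Cg * (16 * la + 2 * ∫ u in (-la)..la, ‖Jf T Δ T₁ T₂ u‖ ^ 2) := by
  obtain ⟨hg0, -, -, hg00, Cl, hCl, -, hlip⟩ := hG
  have hgc : Continuous g := by
    have : LipschitzWith (Real.toNNReal Cl) g := by
      refine LipschitzWith.of_dist_le_mul fun x y => ?_
      rw [Real.dist_eq, Real.dist_eq, Real.coe_toNNReal _ hCl.le]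
      exact hlip x y
    exact this.continuous
  have hgu : Continuous (fun u : ℝ => g (u / la)) := hgc.comp (by fun_prop)
  have hCg0 : 0 ≤ Cg := (hg0 0).trans (hCg 0)
  have hle : -la ≤ la := by linarith
  have hi1 : IntervalIntegrable (fun u : ℝ => g (u / la) * ‖expSum T Δ T₁ T₂ u‖ ^ 2)
      volume (-la) la :=
    (hgu.mul ((expSum_cont T Δ T₁ T₂).norm.pow 2)).intervalIntegrable _ _
  have hi2 : IntervalIntegrable (fun u : ℝ => g (u / la) * ‖mainSum T Δ u‖ ^ 2)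
      volume (-la) la := by
    refine ContinuousOn.intervalIntegrable ?_
    rw [Set.uIcc_of_le hle]
    exact hgu.continuousOn.mul (hmc.norm.pow 2)
  have hi3 : IntervalIntegrable (fun u : ℝ => ‖Jf T Δ T₁ T₂ u‖ ^ 2) volume (-la) la :=
    ((Jf_cont hW hT hΔ T₁ T₂).norm.pow 2).intervalIntegrable _ _
  have hi4 : IntervalIntegrable (fun u : ℝ => (1 + e) * (g (u / la) * ‖mainSum T Δ u‖ ^ 2) +
      (1 + 1 / e) * Cg * (8 + 2 * ‖Jf T Δ T₁ T₂ u‖ ^ 2)) volume (-la) la :=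
    (hi2.const_mul _).add (((intervalIntegrable_const).add (hi3.const_mul 2)).const_mul _)
  have hmono : ∫ u in (-la)..la, g (u / la) * ‖expSum T Δ T₁ T₂ u‖ ^ 2 ≤
      ∫ u in (-la)..la, ((1 + e) * (g (u / la) * ‖mainSum T Δ u‖ ^ 2) +
        (1 + 1 / e) * Cg * (8 + 2 * ‖Jf T Δ T₁ T₂ u‖ ^ 2)) := by
    refine intervalIntegral.integral_mono_on hle hi1 hi4 fun u hu => ?_
    have hu' : |u| ≤ la := abs_le.mpr hu
    have h3 := S_sub_main hW hW4 (u := u) hT hΔ hH h1 h2 hL hsm (hEF u hu')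
    have h4 : ‖expSum T Δ T₁ T₂ u‖ ≤ ‖mainSum T Δ u‖ +
        ‖expSum T Δ T₁ T₂ u - mainSum T Δ u‖ := by
      have := norm_add_le (mainSum T Δ u) (expSum T Δ T₁ T₂ u - mainSum T Δ u)
      rwa [add_sub_cancel] at this
    have h5 := sq_ineq he (norm_nonneg _) (norm_nonneg _) (norm_nonneg _) h4
    have h6 : ‖expSum T Δ T₁ T₂ u - mainSum T Δ u‖ ^ 2 ≤ 8 + 2 * ‖Jf T Δ T₁ T₂ u‖ ^ 2 := by
      have h7 := pow_le_pow_left₀ (norm_nonneg _) h3 2
      nlinarith [sq_nonneg (2 - ‖Jf T Δ T₁ T₂ u‖)]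
    have h8 := hg0 (u / la)
    have h9 := hCg (u / la)
    have h10 : 0 ≤ 1 + 1 / e := by positivity
    calc g (u / la) * ‖expSum T Δ T₁ T₂ u‖ ^ 2
        ≤ g (u / la) * ((1 + e) * ‖mainSum T Δ u‖ ^ 2 +
          (1 + 1 / e) * (8 + 2 * ‖Jf T Δ T₁ T₂ u‖ ^ 2)) := by
          refine mul_le_mul_of_nonneg_left (h5.trans ?_) h8
          gcongr
      _ = (1 + e) * (g (u / la) * ‖mainSum T Δ u‖ ^ 2) +
          (1 + 1 / e) * (g (u / la) * (8 + 2 * ‖Jf T Δ T₁ T₂ u‖ ^ 2)) := by ring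
      _ ≤ (1 + e) * (g (u / la) * ‖mainSum T Δ u‖ ^ 2) +
          (1 + 1 / e) * (Cg * (8 + 2 * ‖Jf T Δ T₁ T₂ u‖ ^ 2)) := by
          gcongr
      _ = _ := by ring
  refine hmono.trans (le_of_eq ?_)
  rw [intervalIntegral.integral_add (hi2.const_mul _)
    (((intervalIntegrable_const).add (hi3.const_mul 2)).const_mul _),
    intervalIntegral.integral_const_mul, intervalIntegral.integral_const_mul,
    intervalIntegral.integral_add intervalIntegrable_const (hi3.const_mul 2),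
    intervalIntegral.integral_const_mul, intervalIntegral.integral_const, smul_eq_mul]
  ring

theorem final_ineq {P T L X la b J G1 g0 η η2 e M R Cg K1 Sg : ℝ} (hη : 0 < η) (hb : 0 < b)
    (hb1 : b < 1) (hT : 0 < T) (hL : 1 ≤ L) (hX : X = T * L / (2 * Real.pi))
    (hla : la = b * L) (hJ : J = g0 / b + 2 * b * G1) (hη2 : η2 = η / 16)
    (he : e = η / (4 * (|J| + η + 1))) (hCg : 0 ≤ Cg) (hK1 : 0 ≤ K1)
    (hP : P = 1 / la * R)
    (hR : R ≤ (1 + e) * M + (1 + 1 / e) * Cg * (K1 * T))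
    (hM : M ≤ T / (2 * Real.pi) * (L ^ 2 * g0 + 2 * Sg) + T * L)
    (hSg : Sg ≤ la ^ 2 * (G1 + η2))
    (hL1 : 16 * Real.pi / (b * η) ≤ L)
    (hL2 : 8 * Real.pi * ((1 + 1 / e) * Cg * K1) / (b * η) ≤ L) :
    P ≤ (J + η) * X := by
  have hpi := Real.pi_pos
  have hL0 : 0 < L := by linarith
  have hla0 : 0 < la := by rw [hla]; positivity
  have hX0 : 0 < X := by rw [hX]; positivity
  have hJa : 0 ≤ |J| := abs_nonneg J
  have he0 : 0 < e := by rw [he]; positivity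
  have hM2 : 1 / la * M ≤ X * (J + η / 4) := by
    have h1 : M ≤ T / (2 * Real.pi) * (L ^ 2 * g0 + 2 * (la ^ 2 * (G1 + η2))) + T * L := by
      refine hM.trans ?_
      gcongr
    have h2 : 1 / la * M ≤ 1 / la *
        (T / (2 * Real.pi) * (L ^ 2 * g0 + 2 * (la ^ 2 * (G1 + η2))) + T * L) := by gcongr
    refine h2.trans ?_
    have h3 : 1 / la * (T / (2 * Real.pi) * (L ^ 2 * g0 + 2 * (la ^ 2 * (G1 + η2))) + T * L) =
        X * (J + 2 * b * η2) + T / b := by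
      rw [hX, hla, hJ]
      field_simp
      ring
    rw [h3]
    have h4 : T / b ≤ X * (η / 8) := by
      rw [div_le_iff₀ (by positivity)] at hL1
      rw [hX, div_le_iff₀ hb]
      have h5 : T * L / (2 * Real.pi) * (η / 8) * b = T * (L * (b * η)) / (16 * Real.pi) := by
        field_simp
        ring
      rw [h5, le_div_iff₀ (by positivity)]
      exact mul_le_mul_of_nonneg_left hL1 hT.le
    have h6 : X * (J + 2 * b * η2) ≤ X * (J + η / 8) := by
      refine mul_le_mul_of_nonneg_left ?_ hX0.le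
      rw [hη2]
      nlinarith
    nlinarith
  have hY : (1 + e) * (J + η / 4) ≤ J + η / 2 := by
    have h7 : e * (J + η / 4) ≤ η / 4 := by
      have h8 : J + η / 4 ≤ |J| + η + 1 := by
        have := le_abs_self J
        linarith
      calc e * (J + η / 4) ≤ e * (|J| + η + 1) := by gcongr
        _ = η / 4 := by
            rw [he]
            field_simp
    linarith
  have hE : 1 / la * ((1 + 1 / e) * Cg * (K1 * T)) ≤ X * (η / 4) := by
    rw [div_le_iff₀ (by positivity)] at hL2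
    rw [hX, hla]
    have h9 : 1 / (b * L) * ((1 + 1 / e) * Cg * (K1 * T)) =
        (8 * Real.pi * ((1 + 1 / e) * Cg * K1)) * (T / (8 * Real.pi * (b * L))) := by
      field_simp
    have h10 : T * L / (2 * Real.pi) * (η / 4) =
        (L * L * (b * η)) * (T / (8 * Real.pi * (b * L))) := by
      field_simp
      ring
    rw [h9, h10]
    refine mul_le_mul_of_nonneg_right (hL2.trans ?_) (by positivity)
    have : L * (b * η) ≤ L * (L * (b * η)) := by
      have h11 : 0 < L * (b * η) := by positivity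
      nlinarith
    linarith
  have hfin : P ≤ (1 + e) * (1 / la * M) + 1 / la * ((1 + 1 / e) * Cg * (K1 * T)) := by
    rw [hP]
    calc 1 / la * R ≤ 1 / la * ((1 + e) * M + (1 + 1 / e) * Cg * (K1 * T)) := by gcongr
      _ = _ := by ring
  have h12 : (1 + e) * (1 / la * M) ≤ (1 + e) * (X * (J + η / 4)) :=
    mul_le_mul_of_nonneg_left hM2 (by linarith)
  have h13 : (1 + e) * (X * (J + η / 4)) ≤ X * (J + η / 2) := by
    have := mul_le_mul_of_nonneg_left hY hX0.le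
    linarith
  nlinarith

theorem small_event {δ : ℝ} (hδ : 0 < δ) :
    ∀ᶠ T : ℝ in atTop, Real.log T * (6 * T * Real.exp (-(T ^ (2 * δ)) / 2)) ≤ 1 := by
  have h1 := tendsto_rpow_mul_exp_neg_mul_atTop_nhds_zero (2 / (2 * δ)) (1 / 2) (by norm_num)
  have h2 : Tendsto (fun T : ℝ => T ^ (2 * δ)) atTop atTop :=
    tendsto_rpow_atTop (by positivity)
  have h3 := h1.comp h2
  have h4 : ∀ᶠ T : ℝ in atTop, ((fun x : ℝ => x ^ (2 / (2 * δ)) * Real.exp (-(1 / 2) * x)) ∘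
      fun T : ℝ => T ^ (2 * δ)) T < 1 / 6 := h3.eventually_lt_const (by norm_num)
  filter_upwards [h4, eventually_ge_atTop (1 : ℝ)] with T hT hT1
  have hT0 : 0 < T := by linarith
  simp only [Function.comp] at hT
  have h5 : (T ^ (2 * δ)) ^ (2 / (2 * δ)) = T ^ (2 : ℝ) := by
    rw [← Real.rpow_mul hT0.le]
    congr 1
    field_simp
  rw [h5] at hT
  have h6 : Real.log T ≤ T := (Real.log_le_sub_one_of_pos hT0).trans (by linarith)
  have h7 : T ^ (2 : ℝ) = T * T := by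
    rw [Real.rpow_two]
    ring
  rw [h7] at hT
  have h8 : Real.exp (-(T ^ (2 * δ)) / 2) = Real.exp (-(1 / 2) * T ^ (2 * δ)) := by
    congr 1
    ring
  rw [h8]
  calc Real.log T * (6 * T * Real.exp (-(1 / 2) * T ^ (2 * δ)))
      ≤ T * (6 * T * Real.exp (-(1 / 2) * T ^ (2 * δ))) := by gcongr
    _ = 6 * (T * T * Real.exp (-(1 / 2) * T ^ (2 * δ))) := by ring
    _ ≤ 1 := by linarith

theorem upper (hF : EFSt) (hO : OrthoSt) (hM : MertSt) (hP : PlSt) (hG : GFactSt)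
    (hI : PairIdSt) (hD : DigSt) (hW : Wt1St) (hW4 : Wt4St) : UpperSt := by
  intro b η C hb hb1 hη
  obtain ⟨TF, hTF⟩ := hF b C hb hb1
  obtain ⟨TO, hTO2, hTO⟩ := hO b hb hb1
  obtain ⟨l₀, hl₀, hMert⟩ := hM (η / 16) (by positivity)
  obtain ⟨Cd, hCd, hdig⟩ := hD
  have hG' := hG
  obtain ⟨hg0, -, -, hg00, Cg, hCg, hCgb, -⟩ := hG'
  have hpi := Real.pi_pos
  set δ : ℝ := dl b with hδdef
  have hδ : 0 < δ := by
    rw [hδdef]
    unfold dl
    linarith
  have hδ1 : δ < 1 := by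
    rw [hδdef]
    unfold dl
    linarith
  set e : ℝ := η / (4 * (|Jb b| + η + 1)) with hedef
  have he : 0 < e := by
    have := abs_nonneg (Jb b)
    rw [hedef]
    positivity
  set K1 : ℝ := 16 * b + 12 * Real.pi * (Cd + 2) ^ 2 with hK1
  have hK10 : 0 < K1 := by rw [hK1]; positivity
  have e1 : ∀ᶠ T : ℝ in atTop, max (max TF TO) 16 ≤ T := eventually_ge_atTop _
  have e2 : ∀ᶠ T : ℝ in atTop, 8 ≤ T ^ δ := (tendsto_rpow_atTop hδ).eventually_ge_atTop _
  have e3 : ∀ᶠ T : ℝ in atTop, max (max (l₀ / b) (16 * Real.pi / (b * η)))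
      (max (8 * Real.pi * ((1 + 1 / e) * Cg * K1) / (b * η)) 1) ≤ Real.log T :=
    Real.tendsto_log_atTop.eventually_ge_atTop _
  have e4 := small_event hδ
  obtain ⟨T₀, hT₀⟩ := eventually_atTop.mp (((e1.and e2).and e3).and e4)
  refine ⟨T₀, fun T hTT T₁ T₂ hR hg1 hg2 => ?_⟩
  obtain ⟨⟨⟨a1, a2⟩, a3⟩, a4⟩ := hT₀ T hTT
  have hTF' : TF ≤ T := (le_max_left _ _).trans ((le_max_left _ _).trans a1)
  have hTO' : TO ≤ T := (le_max_right _ _).trans ((le_max_left _ _).trans a1)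
  have hT16 : 16 ≤ T := (le_max_right _ _).trans a1
  have hT0 : 0 < T := by linarith
  have hl : l₀ / b ≤ Real.log T := (le_max_left _ _).trans ((le_max_left _ _).trans a3)
  have hLa : 16 * Real.pi / (b * η) ≤ Real.log T :=
    (le_max_right _ _).trans ((le_max_left _ _).trans a3)
  have hLb : 8 * Real.pi * ((1 + 1 / e) * Cg * K1) / (b * η) ≤ Real.log T :=
    (le_max_left _ _).trans ((le_max_right _ _).trans a3)
  have hL1 : 1 ≤ Real.log T := (le_max_right _ _).trans ((le_max_right _ _).trans a3)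
  have hL0 : 0 < Real.log T := by linarith
  have hla0 : 0 < b * Real.log T := by positivity
  have hH0 : 0 < Hh b T := by unfold Hh; positivity
  have hΔ0 : 0 < Dl b T := by unfold Dl; positivity
  have hTH : Hh b T * T ^ δ = T := by
    unfold Hh
    rw [← Real.rpow_add hT0]
    have : 1 - dl b + δ = 1 := by rw [hδdef]; ring
    rw [this, Real.rpow_one]
  have hH8 : 8 * Hh b T ≤ T := by nlinarith
  have hHD : Hh b T ^ 2 / Dl b T ^ 2 = T ^ (2 * δ) := by
    unfold Hh Dl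
    rw [← Real.rpow_natCast, ← Real.rpow_natCast, ← Real.rpow_mul hT0.le,
      ← Real.rpow_mul hT0.le, ← Real.rpow_sub hT0]
    congr 1
    rw [hδdef]
    unfold dl
    push_cast
    ring
  have hsm : Real.log T * (6 * T * Real.exp (-(Hh b T ^ 2 / Dl b T ^ 2) / 2)) ≤ 1 := by
    rw [hHD]
    exact a4
  obtain ⟨r1, r2, r3, r4⟩ := hR
  have hTh : T / 2 ≤ T₁ := by linarith
  have hT12 : 2 ≤ T₁ := by linarith
  have h12 : T₁ ≤ T₂ := by linarith
  have hT23 : T₂ ≤ 3 * T := by linarith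
  obtain ⟨-, hmc, hOr⟩ := hTO T hTO'
  have hEF : ∀ u : ℝ, |u| ≤ b * Real.log T →
      ‖expSum T (Dl b T) T₁ T₂ u - ((1 / (2 * Real.pi) : ℝ) : ℂ) *
      ((∫ t in T₁..T₂, (kap t : ℂ) * (wt T (Dl b T) t * Complex.exp (Complex.I * u * t))) -
        primeSum T (Dl b T) u)‖ ≤ 1 := by
    intro u hu
    refine hTF T hTF' T₁ T₂ ⟨r1, r2, r3, r4⟩ hg1 hg2 u (hu.trans ?_)
    nlinarith
  have hmean := mean_ineq hW hW4 hG (e := e) hT0 hΔ0 hla0 he hH0 r2 r3 hL0.le hCgb hsm hEF hmc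
  have hJ := Jf_sq hP hW (R := b * Real.log T) hT0 hΔ0 hla0.le h12 hTh hT12 hT23 hCd.le
    (fun t ht => (hdig (1 / 2) t le_rfl (by norm_num) ht).2)
  have hlogT : Real.log T ≤ T := (Real.log_le_sub_one_of_pos hT0).trans (by linarith)
  have hR2 : ∫ u in (-(b * Real.log T))..(b * Real.log T),
      g (u / (b * Real.log T)) * ‖expSum T (Dl b T) T₁ T₂ u‖ ^ 2 ≤
      (1 + e) * (∫ u in (-(b * Real.log T))..(b * Real.log T),
        g (u / (b * Real.log T)) * ‖mainSum T (Dl b T) u‖ ^ 2) +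
      (1 + 1 / e) * Cg * (K1 * T) := by
    refine hmean.trans ?_
    have h5 : 16 * (b * Real.log T) + 2 * ∫ u in (-(b * Real.log T))..(b * Real.log T),
        ‖Jf T (Dl b T) T₁ T₂ u‖ ^ 2 ≤ K1 * T := by
      have h6 : 16 * (b * Real.log T) ≤ 16 * b * T := by
        have : b * Real.log T ≤ b * T := by gcongr
        linarith
      rw [hK1]
      nlinarith
    have h7 : 0 ≤ (1 + 1 / e) * Cg := by positivity
    have h8 := mul_le_mul_of_nonneg_left h5 h7
    linarith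
  have hl' : l₀ ≤ b * Real.log T := by
    rw [div_le_iff₀ hb] at hl
    linarith
  have hS := hMert (b * Real.log T) hl' (⌊2 * T ^ b⌋₊ + 1)
  have hPI := hI b T T₁ T₂ hb (by linarith) (by linarith)
  exact final_ineq hη hb hb1 hT0 hL1 rfl rfl rfl rfl hedef hCg.le hK10.le hPI hR2 hOr hS hLa hLb

end Pool.Agent.H46.MT.Upper
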