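import Pool.Agent.H46.MT.Defs

/-!
# The weight `wt` (module [10] of MP_cb7589_nt)
-/

set_option autoImplicit false

namespace Pool.Agent.H46.MT.Wt

open MeasureTheory Filter Topology Pool.Agent.H46.MT
open scoped ComplexConjugate

/-- The integrand. -/
noncomputable def GG (Δ : ℝ) (z : ℂ) (t : ℝ) : ℂ := Complex.exp (-(((t : ℂ) - z) / Δ) ^ 2)

/-- The real Gaussian. -/
noncomputable def gs (Δ x t : ℝ) : ℝ := Real.exp (-((t - x) ^ 2 / Δ ^ 2))

theorem wt_eq (T Δ : ℝ) (z : ℂ) :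
    wt T Δ z = ((1 / (√Real.pi * Δ) : ℝ) : ℂ) * ∫ t in T..(2 * T), GG Δ z t := rfl

theorem norm_GG (Δ : ℝ) (z : ℂ) (t : ℝ) :
    ‖GG Δ z t‖ = Real.exp (z.im ^ 2 / Δ ^ 2) * gs Δ z.re t := by
  unfold GG gs
  rw [Complex.norm_exp, ← Real.exp_add]
  congr 1
  have h1 : -(((t : ℂ) - z) / Δ) ^ 2 = (((z.im ^ 2 / Δ ^ 2 - (t - z.re) ^ 2 / Δ ^ 2 : ℝ)) : ℂ) +
      ((2 * (t - z.re) * z.im / Δ ^ 2 : ℝ) : ℂ) * Complex.I := by
    have h2 : z = (z.re : ℂ) + (z.im : ℂ) * Complex.I := (Complex.re_add_im z).symm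
    have h3 : -(((t : ℂ) - z) / Δ) ^ 2 = -(((t : ℂ) - z) ^ 2 / (Δ : ℂ) ^ 2) := by
      rw [div_pow]
    rw [h3]
    nth_rewrite 1 [h2]
    push_cast
    have h4 : ((t : ℂ) - ((z.re : ℂ) + (z.im : ℂ) * Complex.I)) ^ 2 =
        ((t : ℂ) - z.re) ^ 2 - (z.im : ℂ) ^ 2 - 2 * ((t : ℂ) - z.re) * z.im * Complex.I := by
      linear_combination ((z.im : ℂ) ^ 2) * Complex.I_sq
    rw [h4]
    ring
  rw [h1]
  simp only [Complex.add_re, Complex.ofReal_re, Complex.mul_re, Complex.I_re, mul_zero,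
    Complex.ofReal_im, Complex.I_im, mul_one, sub_self, add_zero]
  ring

theorem gs_pos (Δ x t : ℝ) : 0 < gs Δ x t := Real.exp_pos _

theorem gs_cont (Δ x : ℝ) : Continuous (gs Δ x) := by
  unfold gs
  fun_prop

theorem GG_cont (Δ : ℝ) (z : ℂ) : Continuous (GG Δ z) := by
  unfold GG
  fun_prop

theorem gs_integrable {Δ : ℝ} (hΔ : 0 < Δ) (x : ℝ) : Integrable (gs Δ x) := by
  have h1 := integrable_exp_neg_mul_sq (b := 1 / Δ ^ 2) (by positivity)
  have h2 := h1.comp_sub_right x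
  refine h2.congr (Eventually.of_forall fun t => ?_)
  simp only [gs]
  congr 1
  ring

theorem gs_integral {Δ : ℝ} (hΔ : 0 < Δ) (x : ℝ) : ∫ t, gs Δ x t = √Real.pi * Δ := by
  have h1 := integral_gaussian (1 / Δ ^ 2)
  have h2 := integral_sub_right_eq_self (μ := volume)
    (fun t : ℝ => Real.exp (-(1 / Δ ^ 2) * t ^ 2)) x
  have h3 : (fun t : ℝ => Real.exp (-(1 / Δ ^ 2) * (t - x) ^ 2)) = gs Δ x := by
    funext t
    simp only [gs]
    congr 1
    ring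
  rw [h3] at h2
  rw [h2, h1]
  have h4 : Real.pi / (1 / Δ ^ 2) = Real.pi * Δ ^ 2 := by
    field_simp
  rw [h4, Real.sqrt_mul Real.pi_pos.le, Real.sqrt_sq hΔ.le]

theorem cc_pos {Δ : ℝ} (hΔ : 0 < Δ) : 0 < √Real.pi * Δ :=
  mul_pos (Real.sqrt_pos.mpr Real.pi_pos) hΔ

theorem one_le_sqrt_pi : 1 ≤ √Real.pi := by
  rw [Real.one_le_sqrt]
  linarith [Real.pi_gt_three]

theorem norm_wt_le {T Δ : ℝ} (hT : 0 < T) (hΔ : 0 < Δ) (z : ℂ) :
    ‖wt T Δ z‖ ≤ 1 / (√Real.pi * Δ) * (Real.exp (z.im ^ 2 / Δ ^ 2) *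
      ∫ t in T..(2 * T), gs Δ z.re t) := by
  rw [wt_eq, norm_mul, Complex.norm_real, Real.norm_eq_abs,
    abs_of_pos (one_div_pos.mpr (cc_pos hΔ))]
  apply mul_le_mul_of_nonneg_left _ (one_div_pos.mpr (cc_pos hΔ)).le
  refine (intervalIntegral.norm_integral_le_integral_norm (by linarith)).trans (le_of_eq ?_)
  rw [← intervalIntegral.integral_const_mul]
  apply intervalIntegral.integral_congr
  intro t _
  exact norm_GG Δ z t

theorem ii_le {T Δ : ℝ} (hT : 0 < T) (hΔ : 0 < Δ) (x : ℝ) :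
    ∫ t in T..(2 * T), gs Δ x t ≤ √Real.pi * Δ := by
  rw [intervalIntegral.integral_of_le (by linarith), ← gs_integral hΔ x]
  exact setIntegral_le_integral (gs_integrable hΔ x)
    (Eventually.of_forall fun t => (gs_pos Δ x t).le)

theorem ii_le' {T Δ x m : ℝ} (hT : 0 < T)
    (h : ∀ t, T ≤ t → t ≤ 2 * T → gs Δ x t ≤ m) :
    ∫ t in T..(2 * T), gs Δ x t ≤ T * m := by
  have h1 : ∫ t in T..(2 * T), gs Δ x t ≤ ∫ _t in T..(2 * T), m := by
    apply intervalIntegral.integral_mono_on (by linarith)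
      ((gs_cont Δ x).intervalIntegrable _ _) (continuous_const.intervalIntegrable _ _)
    intro t ht
    exact h t ht.1 ht.2
  rw [intervalIntegral.integral_const, smul_eq_mul] at h1
  have : (2 * T - T) * m = T * m := by ring
  linarith

theorem norm_wt_le' {T Δ m : ℝ} (hT : 0 < T) (hΔ : 0 < Δ) (hm : 0 ≤ m) (z : ℂ)
    (h : ∀ t, T ≤ t → t ≤ 2 * T → gs Δ z.re t ≤ m) :
    ‖wt T Δ z‖ ≤ T / Δ * (Real.exp (z.im ^ 2 / Δ ^ 2) * m) := by
  refine (norm_wt_le hT hΔ z).trans ?_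
  have h1 := ii_le' hT h
  have h2 := Real.exp_pos (z.im ^ 2 / Δ ^ 2)
  calc 1 / (√Real.pi * Δ) * (Real.exp (z.im ^ 2 / Δ ^ 2) * ∫ t in T..(2 * T), gs Δ z.re t)
      ≤ 1 / (√Real.pi * Δ) * (Real.exp (z.im ^ 2 / Δ ^ 2) * (T * m)) := by
        apply mul_le_mul_of_nonneg_left _ (one_div_pos.mpr (cc_pos hΔ)).le
        exact mul_le_mul_of_nonneg_left h1 h2.le
    _ ≤ 1 / Δ * (Real.exp (z.im ^ 2 / Δ ^ 2) * (T * m)) := by
        apply mul_le_mul_of_nonneg_right _ (by positivity)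
        apply one_div_le_one_div_of_le hΔ
        nlinarith [one_le_sqrt_pi]
    _ = T / Δ * (Real.exp (z.im ^ 2 / Δ ^ 2) * m) := by ring

theorem GG_integrable {Δ : ℝ} (hΔ : 0 < Δ) (z : ℂ) : Integrable (GG Δ z) := by
  refine ((gs_integrable hΔ z.re).const_mul (Real.exp (z.im ^ 2 / Δ ^ 2))).mono'
    (GG_cont Δ z).aestronglyMeasurable (Eventually.of_forall fun t => ?_)
  rw [norm_GG]

theorem GG_integral {Δ : ℝ} (hΔ : 0 < Δ) (z : ℂ) :
    ∫ t, GG Δ z t = ((√Real.pi * Δ : ℝ) : ℂ) := by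
  have hb : 0 < (((1 / Δ ^ 2 : ℝ)) : ℂ).re := by
    rw [Complex.ofReal_re]
    positivity
  have h1 := GaussianFourier.integral_cexp_neg_mul_sq_add_real_mul_I hb (-z.im)
  have h2 := integral_sub_right_eq_self (μ := volume)
    (fun t : ℝ => Complex.exp (-((1 / Δ ^ 2 : ℝ) : ℂ) * ((t : ℂ) + ((-z.im : ℝ) : ℂ) * Complex.I) ^ 2))
    z.re
  have h3 : (fun t : ℝ => Complex.exp (-((1 / Δ ^ 2 : ℝ) : ℂ) *
      (((t - z.re : ℝ) : ℂ) + ((-z.im : ℝ) : ℂ) * Complex.I) ^ 2)) = GG Δ z := by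
    funext t
    unfold GG
    congr 1
    have h4 : z = (z.re : ℂ) + (z.im : ℂ) * Complex.I := (Complex.re_add_im z).symm
    nth_rewrite 3 [h4]
    push_cast
    ring
  rw [h3] at h2
  rw [h2, h1]
  have h5 : (Real.pi : ℂ) / ((1 / Δ ^ 2 : ℝ) : ℂ) = ((Real.pi * Δ ^ 2 : ℝ) : ℂ) := by
    have : (Δ : ℂ) ≠ 0 := by exact_mod_cast hΔ.ne'
    push_cast
    field_simp
  have h6 : (1 / 2 : ℂ) = ((1 / 2 : ℝ) : ℂ) := by push_cast; rfl
  rw [h5, h6, ← Complex.ofReal_cpow (by positivity), ← Real.sqrt_eq_rpow,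
    Real.sqrt_mul Real.pi_pos.le, Real.sqrt_sq hΔ.le]

theorem alg_aux (a b c : ℂ) (h : a + b = c) : a - c = -b := by
  rw [← h]
  ring

theorem near_one {T Δ : ℝ} (_hT : 0 < T) (hΔ : 0 < Δ) (z : ℂ) (H : ℝ) (hH : 0 < H)
    (h1 : T + H ≤ z.re) (h2 : z.re ≤ 2 * T - H) :
    ‖wt T Δ z - 1‖ ≤ 2 * Real.exp (z.im ^ 2 / Δ ^ 2 - H ^ 2 / Δ ^ 2) := by
  have hc := cc_pos hΔ
  have hi := GG_integrable hΔ z
  have h3 := integral_add_compl (μ := volume) (measurableSet_Ioc (a := T) (b := 2 * T)) hi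
  rw [GG_integral hΔ z] at h3
  have h4 : wt T Δ z - 1 = -(((1 / (√Real.pi * Δ) : ℝ) : ℂ) *
      ∫ t in (Set.Ioc T (2 * T))ᶜ, GG Δ z t) := by
    rw [wt_eq, intervalIntegral.integral_of_le (by linarith)]
    have h5 : ((1 / (√Real.pi * Δ) : ℝ) : ℂ) * ((√Real.pi * Δ : ℝ) : ℂ) = 1 := by
      rw [← Complex.ofReal_mul, one_div, inv_mul_cancel₀ hc.ne', Complex.ofReal_one]
    rw [← h3, mul_add] at h5
    exact alg_aux _ _ _ h5
  rw [h4, norm_neg, norm_mul, Complex.norm_real, Real.norm_eq_abs,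
    abs_of_pos (one_div_pos.mpr hc)]
  have h6 : ‖∫ t in (Set.Ioc T (2 * T))ᶜ, GG Δ z t‖ ≤
      ∫ t in (Set.Ioc T (2 * T))ᶜ, Real.exp (z.im ^ 2 / Δ ^ 2) * (Real.exp (-(H ^ 2 / Δ ^ 2)) *
        (gs Δ (z.re + H) t + gs Δ (z.re - H) t)) := by
    refine (norm_integral_le_integral_norm _).trans ?_
    apply setIntegral_mono_on hi.norm.integrableOn
    · exact ((((gs_integrable hΔ _).add (gs_integrable hΔ _)).const_mul _).const_mul _).integrableOn
    · exact measurableSet_Ioc.compl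
    · intro t ht
      rw [norm_GG]
      apply mul_le_mul_of_nonneg_left _ (Real.exp_pos _).le
      have hΔ2 : 0 < Δ ^ 2 := by positivity
      rw [Set.mem_compl_iff, Set.mem_Ioc, not_and_or, not_lt, not_le] at ht
      rcases ht with ht | ht
      · have h7 : gs Δ z.re t ≤ Real.exp (-(H ^ 2 / Δ ^ 2)) * gs Δ (z.re - H) t := by
          unfold gs
          rw [← Real.exp_add]
          apply Real.exp_le_exp.mpr
          rw [← neg_add, neg_le_neg_iff, ← add_div]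
          apply div_le_div_of_nonneg_right _ hΔ2.le
          nlinarith [mul_nonneg hH.le (show 0 ≤ z.re - H - t by linarith)]
        have h8 := mul_pos (Real.exp_pos (-(H ^ 2 / Δ ^ 2))) (gs_pos Δ (z.re + H) t)
        rw [mul_add]
        linarith
      · have h7 : gs Δ z.re t ≤ Real.exp (-(H ^ 2 / Δ ^ 2)) * gs Δ (z.re + H) t := by
          unfold gs
          rw [← Real.exp_add]
          apply Real.exp_le_exp.mpr
          rw [← neg_add, neg_le_neg_iff, ← add_div]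
          apply div_le_div_of_nonneg_right _ hΔ2.le
          nlinarith [mul_nonneg hH.le (show 0 ≤ t - z.re - H by linarith)]
        have h8 := mul_pos (Real.exp_pos (-(H ^ 2 / Δ ^ 2))) (gs_pos Δ (z.re - H) t)
        rw [mul_add]
        linarith
  have h9 : ∫ t in (Set.Ioc T (2 * T))ᶜ, Real.exp (z.im ^ 2 / Δ ^ 2) *
      (Real.exp (-(H ^ 2 / Δ ^ 2)) * (gs Δ (z.re + H) t + gs Δ (z.re - H) t)) ≤
      ∫ t, Real.exp (z.im ^ 2 / Δ ^ 2) *
      (Real.exp (-(H ^ 2 / Δ ^ 2)) * (gs Δ (z.re + H) t + gs Δ (z.re - H) t)) := by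
    apply setIntegral_le_integral
    · exact (((gs_integrable hΔ _).add (gs_integrable hΔ _)).const_mul _).const_mul _
    · refine Eventually.of_forall fun t => ?_
      have e1 := gs_pos Δ (z.re + H) t
      have e2 := gs_pos Δ (z.re - H) t
      have e3 := Real.exp_pos (z.im ^ 2 / Δ ^ 2)
      have e4 := Real.exp_pos (-(H ^ 2 / Δ ^ 2))
      simp only [Pi.zero_apply]
      positivity
  have h10 : ∫ t, Real.exp (z.im ^ 2 / Δ ^ 2) *
      (Real.exp (-(H ^ 2 / Δ ^ 2)) * (gs Δ (z.re + H) t + gs Δ (z.re - H) t)) =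
      Real.exp (z.im ^ 2 / Δ ^ 2) * (Real.exp (-(H ^ 2 / Δ ^ 2)) * (2 * (√Real.pi * Δ))) := by
    rw [integral_const_mul, integral_const_mul,
      integral_add (gs_integrable hΔ _) (gs_integrable hΔ _), gs_integral hΔ, gs_integral hΔ]
    ring
  have h11 := (h6.trans h9).trans h10.le
  calc 1 / (√Real.pi * Δ) * ‖∫ t in (Set.Ioc T (2 * T))ᶜ, GG Δ z t‖
      ≤ 1 / (√Real.pi * Δ) * (Real.exp (z.im ^ 2 / Δ ^ 2) *
        (Real.exp (-(H ^ 2 / Δ ^ 2)) * (2 * (√Real.pi * Δ)))) :=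
        mul_le_mul_of_nonneg_left h11 (one_div_pos.mpr hc).le
    _ = 2 * (Real.exp (z.im ^ 2 / Δ ^ 2) * Real.exp (-(H ^ 2 / Δ ^ 2))) := by
        field_simp
    _ = 2 * Real.exp (z.im ^ 2 / Δ ^ 2 - H ^ 2 / Δ ^ 2) := by
        rw [← Real.exp_add, sub_eq_add_neg]

/-- The derivative of the integrand in `z`. -/
noncomputable def GD (Δ : ℝ) (z : ℂ) (t : ℝ) : ℂ := GG Δ z t * (2 * (((t : ℂ) - z) / Δ) / Δ)

theorem GD_cont (Δ : ℝ) : Continuous (fun p : ℂ × ℝ => GD Δ p.1 p.2) := by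
  have h1 : Continuous (fun p : ℂ × ℝ => ((p.2 : ℂ) - p.1) / (Δ : ℂ)) :=
    ((Complex.continuous_ofReal.comp continuous_snd).sub continuous_fst).div_const _
  have h2 : Continuous (fun p : ℂ × ℝ => Complex.exp (-(((p.2 : ℂ) - p.1) / (Δ : ℂ)) ^ 2)) :=
    Complex.continuous_exp.comp ((h1.pow 2).neg)
  exact h2.mul ((continuous_const.mul h1).div_const _)

theorem GD_cont' (Δ : ℝ) (z : ℂ) : Continuous (GD Δ z) := by
  have h1 : Continuous (fun t : ℝ => ((t : ℂ) - z) / (Δ : ℂ)) :=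
    (Complex.continuous_ofReal.sub continuous_const).div_const _
  exact (GG_cont Δ z).mul ((continuous_const.mul h1).div_const _)

theorem GD_deriv (Δ : ℝ) (z : ℂ) (t : ℝ) : HasDerivAt (fun w : ℂ => GG Δ w t) (GD Δ z t) z := by
  have h1 : HasDerivAt (fun w : ℂ => -(((t : ℂ) - w) / Δ) ^ 2)
      (2 * (((t : ℂ) - z) / Δ) / Δ) z := by
    have h2 : HasDerivAt (fun w : ℂ => ((t : ℂ) - w) / Δ) (-1 / Δ) z :=
      ((hasDerivAt_id z).const_sub (t : ℂ)).div_const (Δ : ℂ)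
    have h3 := (h2.pow 2).neg
    have h4 : -(((2 : ℕ) : ℂ) * (((t : ℂ) - z) / Δ) ^ (2 - 1) * (-1 / (Δ : ℂ))) =
        2 * (((t : ℂ) - z) / Δ) / Δ := by
      simp only [Nat.cast_ofNat, Nat.add_one_sub_one, pow_one]
      ring
    rw [h4] at h3
    exact h3
  exact h1.cexp

theorem GD_bound (T Δ : ℝ) (z₀ : ℂ) : ∃ M : ℝ, ∀ t : ℝ, t ∈ Set.uIcc T (2 * T) →
    ∀ z ∈ Metric.closedBall z₀ 1, ‖GD Δ z t‖ ≤ M := by
  obtain ⟨M, hM⟩ := ((isCompact_closedBall z₀ 1).prod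
    (isCompact_uIcc (a := T) (b := 2 * T))).exists_bound_of_continuousOn
      (GD_cont Δ).continuousOn
  refine ⟨M, fun t ht z hz => ?_⟩
  exact hM (z, t) (Set.mk_mem_prod hz ht)

theorem diff_wt {T Δ : ℝ} : Differentiable ℂ (wt T Δ) := by
  intro z₀
  obtain ⟨M, hM⟩ := GD_bound T Δ z₀
  have hs : Metric.closedBall z₀ 1 ∈ 𝓝 z₀ := Metric.closedBall_mem_nhds z₀ one_pos
  have k1 : ∀ᶠ z in 𝓝 z₀, AEStronglyMeasurable (GG Δ z)
      (volume.restrict (Set.uIoc T (2 * T))) :=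
    Eventually.of_forall fun z => (GG_cont Δ z).aestronglyMeasurable
  have k2 : IntervalIntegrable (GG Δ z₀) volume T (2 * T) :=
    (GG_cont Δ z₀).intervalIntegrable _ _
  have k3 : AEStronglyMeasurable (GD Δ z₀) (volume.restrict (Set.uIoc T (2 * T))) :=
    (GD_cont' Δ z₀).aestronglyMeasurable
  have k4 : ∀ᵐ t ∂(volume : Measure ℝ), t ∈ Set.uIoc T (2 * T) →
      ∀ z ∈ Metric.closedBall z₀ 1, ‖GD Δ z t‖ ≤ (fun _ : ℝ => M) t :=
    Eventually.of_forall fun t ht z hz => hM t (Set.uIoc_subset_uIcc ht) z hz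
  have k5 : IntervalIntegrable (fun _ : ℝ => M) volume T (2 * T) :=
    continuous_const.intervalIntegrable _ _
  have k6 : ∀ᵐ t ∂(volume : Measure ℝ), t ∈ Set.uIoc T (2 * T) →
      ∀ z ∈ Metric.closedBall z₀ 1, HasDerivAt (fun w : ℂ => GG Δ w t) (GD Δ z t) z :=
    Eventually.of_forall fun t _ z _ => GD_deriv Δ z t
  have h := (intervalIntegral.hasDerivAt_integral_of_dominated_loc_of_deriv_le
    hs k1 k2 k3 k4 k5 k6).2
  have h1 : DifferentiableAt ℂ (fun z : ℂ => ∫ t in T..(2 * T), GG Δ z t) z₀ :=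
    h.differentiableAt
  exact h1.const_mul (((1 / (√Real.pi * Δ) : ℝ) : ℂ))

theorem real_wt {T Δ : ℝ} (hT : 0 < T) (hΔ : 0 < Δ) (x : ℝ) :
    ∃ r : ℝ, 0 < r ∧ r ≤ 1 ∧ wt T Δ x = r := by
  have hc := cc_pos hΔ
  refine ⟨1 / (√Real.pi * Δ) * ∫ t in T..(2 * T), gs Δ x t, ?_, ?_, ?_⟩
  · apply mul_pos (one_div_pos.mpr hc)
    exact intervalIntegral.intervalIntegral_pos_of_pos ((gs_cont Δ x).intervalIntegrable _ _)
      (gs_pos Δ x) (by linarith)
  · have h1 := mul_le_mul_of_nonneg_left (ii_le hT hΔ x) (one_div_pos.mpr hc).le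
    refine h1.trans (le_of_eq ?_)
    rw [one_div, inv_mul_cancel₀ hc.ne']
  · rw [wt_eq, Complex.ofReal_mul, ← intervalIntegral.integral_ofReal]
    congr 1
    apply intervalIntegral.integral_congr
    intro t _
    simp only [GG, gs]
    push_cast
    congr 1
    rw [div_pow]

theorem conj_wt (T Δ : ℝ) (z : ℂ) : wt T Δ (conj z) = conj (wt T Δ z) := by
  rw [wt_eq, wt_eq, map_mul, Complex.conj_ofReal, ← intervalIntegral.intervalIntegral_conj]
  congr 1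
  apply intervalIntegral.integral_congr
  intro t _
  simp only [GG]
  rw [← Complex.exp_conj]
  congr 1
  simp

theorem wt1 : Wt1St := by
  intro T Δ hT hΔ
  have hc := cc_pos hΔ
  refine ⟨diff_wt, conj_wt T Δ, real_wt hT hΔ, ?_, ?_, ?_, ?_⟩
  · intro z
    refine (norm_wt_le hT hΔ z).trans ?_
    have h1 := ii_le hT hΔ z.re
    have h2 := Real.exp_pos (z.im ^ 2 / Δ ^ 2)
    calc 1 / (√Real.pi * Δ) * (Real.exp (z.im ^ 2 / Δ ^ 2) * ∫ t in T..(2 * T), gs Δ z.re t)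
        ≤ 1 / (√Real.pi * Δ) * (Real.exp (z.im ^ 2 / Δ ^ 2) * (√Real.pi * Δ)) := by
          apply mul_le_mul_of_nonneg_left _ (one_div_pos.mpr hc).le
          exact mul_le_mul_of_nonneg_left h1 h2.le
      _ = Real.exp (z.im ^ 2 / Δ ^ 2) := by field_simp
  · intro z hz
    have h := norm_wt_le' (m := Real.exp (-((T - z.re) ^ 2 / Δ ^ 2))) hT hΔ (Real.exp_pos _).le z
      (by
        intro t ht _
        unfold gs
        apply Real.exp_le_exp.mpr
        rw [neg_le_neg_iff]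
        apply div_le_div_of_nonneg_right _ (by positivity)
        nlinarith)
    rw [← Real.exp_add, ← sub_eq_add_neg] at h
    exact h
  · intro z hz
    have h := norm_wt_le' (m := Real.exp (-((z.re - 2 * T) ^ 2 / Δ ^ 2))) hT hΔ
      (Real.exp_pos _).le z
      (by
        intro t _ ht
        unfold gs
        apply Real.exp_le_exp.mpr
        rw [neg_le_neg_iff]
        apply div_le_div_of_nonneg_right _ (by positivity)
        nlinarith)
    rw [← Real.exp_add, ← sub_eq_add_neg] at h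
    exact h
  · intro z H hH h1 h2
    exact near_one hT hΔ z H hH h1 h2

end Pool.Agent.H46.MT.Wt
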