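import Pool.Agent.H46.MT.Defs

/-! Fourier transform of the weight along horizontal lines. -/

namespace Pool.Agent.H46.MT.WtF

open MeasureTheory Filter Topology Pool.Agent.H46.MT

/-- the Gaussian -/
noncomputable def ka (Δ c : ℝ) (t τ : ℝ) : ℂ := Complex.exp (-(((τ : ℂ) - (t - Complex.I * c)) / Δ) ^ 2)

theorem norm_ka (Δ c : ℝ) (hΔ : 0 < Δ) (t τ : ℝ) :
    ‖ka Δ c t τ‖ ≤ Real.exp (-(1 / (2 * Δ ^ 2)) * t ^ 2) *
      (Real.exp (c ^ 2 / Δ ^ 2) * Real.exp (τ ^ 2 / Δ ^ 2)) := by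
  unfold ka
  rw [Complex.norm_exp, ← Real.exp_add, ← Real.exp_add, Real.exp_le_exp]
  have e : -(((τ : ℂ) - (t - Complex.I * c)) / Δ) ^ 2 =
      ((-(((τ - t) ^ 2 - c ^ 2) / Δ ^ 2) : ℝ) : ℂ) + ((-(2 * c * (τ - t) / Δ ^ 2) : ℝ) : ℂ) * Complex.I := by
    have hΔ' : (Δ : ℂ) ≠ 0 := by exact_mod_cast hΔ.ne'
    push_cast
    field_simp
    ring_nf
    rw [Complex.I_sq]
    ring
  rw [e]
  have h1 : (((-(((τ - t) ^ 2 - c ^ 2) / Δ ^ 2) : ℝ) : ℂ) +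
      ((-(2 * c * (τ - t) / Δ ^ 2) : ℝ) : ℂ) * Complex.I).re = -(((τ - t) ^ 2 - c ^ 2) / Δ ^ 2) := by
    rw [Complex.add_re, Complex.ofReal_re, Complex.re_ofReal_mul, Complex.I_re, mul_zero, add_zero]
  rw [h1]
  have h2 : t ^ 2 / 2 - τ ^ 2 ≤ (τ - t) ^ 2 := by nlinarith [sq_nonneg (2 * τ - t)]
  have h3 : -(1 / (2 * Δ ^ 2)) * t ^ 2 + (c ^ 2 / Δ ^ 2 + τ ^ 2 / Δ ^ 2) =
      -((t ^ 2 / 2 - τ ^ 2 - c ^ 2) / Δ ^ 2) := by field_simp; ring
  rw [h3, neg_le_neg_iff]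
  gcongr

theorem int_ka (T Δ c : ℝ) (hΔ : 0 < Δ) (ξ : ℝ) :
    Integrable (Function.uncurry fun t τ : ℝ => ka Δ c t τ * Complex.exp (-(Complex.I * ξ * t)))
      ((volume : Measure ℝ).prod (volume.restrict (Set.Ioc T (2 * T)))) := by
  have h1 : Integrable (fun t : ℝ => Real.exp (-(1 / (2 * Δ ^ 2)) * t ^ 2)) :=
    integrable_exp_neg_mul_sq (by positivity)
  have h2 : Integrable (fun τ : ℝ => Real.exp (c ^ 2 / Δ ^ 2) * Real.exp (τ ^ 2 / Δ ^ 2))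
      (volume.restrict (Set.Ioc T (2 * T))) := by
    have : Continuous (fun τ : ℝ => Real.exp (c ^ 2 / Δ ^ 2) * Real.exp (τ ^ 2 / Δ ^ 2)) := by fun_prop
    exact (this.continuousOn.integrableOn_Icc (a := T) (b := 2 * T)).mono_set Set.Ioc_subset_Icc_self
  refine (h1.mul_prod h2).mono' ?_ ?_
  · refine Continuous.aestronglyMeasurable ?_
    unfold Function.uncurry ka
    fun_prop
  · refine Filter.Eventually.of_forall fun p => ?_
    simp only [Function.uncurry]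
    rw [norm_mul]
    have h3 : ‖Complex.exp (-(Complex.I * ξ * p.1))‖ = 1 := by
      rw [Complex.norm_exp]
      simp
    rw [h3, mul_one]
    exact norm_ka Δ c hΔ p.1 p.2

theorem wt_eq (T Δ c t : ℝ) (hT : 0 < T) : wt T Δ (t - Complex.I * c) =
    ((1 / (√Real.pi * Δ) : ℝ) : ℂ) * ∫ τ in Set.Ioc T (2 * T), ka Δ c t τ := by
  unfold wt
  rw [intervalIntegral.integral_of_le (by linarith)]
  rfl

theorem gauss (Δ c ξ τ : ℝ) (hΔ : 0 < Δ) :
    ∫ t : ℝ, ka Δ c t τ * Complex.exp (-(Complex.I * ξ * t)) =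
      ((√Real.pi * Δ : ℝ) : ℂ) * (Complex.exp (-(Complex.I * ξ * τ)) *
        ((Real.exp (c * ξ) : ℂ) * (Real.exp (-(Δ ^ 2 * ξ ^ 2 / 4)) : ℂ))) := by
  have hΔ' : (Δ : ℂ) ≠ 0 := by exact_mod_cast hΔ.ne'
  have hb : (-(1 / (Δ : ℂ) ^ 2)).re < 0 := by
    have : (-(1 / (Δ : ℂ) ^ 2)) = ((-(1 / Δ ^ 2) : ℝ) : ℂ) := by push_cast; ring
    rw [this, Complex.ofReal_re]
    have : 0 < 1 / Δ ^ 2 := by positivity
    linarith
  have h1 := integral_cexp_quadratic hb (2 * (τ + Complex.I * c) / Δ ^ 2 - Complex.I * ξ)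
    (-((τ + Complex.I * c) ^ 2 / Δ ^ 2))
  have h2 : ∀ t : ℝ, ka Δ c t τ * Complex.exp (-(Complex.I * ξ * t)) =
      Complex.exp (-(1 / (Δ : ℂ) ^ 2) * (t : ℂ) ^ 2 + (2 * (τ + Complex.I * c) / Δ ^ 2 - Complex.I * ξ) * t +
        -((τ + Complex.I * c) ^ 2 / Δ ^ 2)) := by
    intro t
    unfold ka
    rw [← Complex.exp_add]
    congr 1
    field_simp
    ring
  simp_rw [h2]
  rw [h1]
  have h3 : (Real.pi / -(-(1 / (Δ : ℂ) ^ 2))) ^ (1 / 2 : ℂ) = ((√Real.pi * Δ : ℝ) : ℂ) := by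
    have e : (Real.pi / -(-(1 / (Δ : ℂ) ^ 2))) = ((Real.pi * Δ ^ 2 : ℝ) : ℂ) := by
      push_cast
      field_simp
    have e2 : (√Real.pi * Δ : ℝ) = (Real.pi * Δ ^ 2) ^ (1 / 2 : ℝ) := by
      rw [← Real.sqrt_eq_rpow, Real.sqrt_mul Real.pi_pos.le, Real.sqrt_sq hΔ.le]
    rw [e, e2, Complex.ofReal_cpow (by positivity)]
    push_cast
    rfl
  rw [h3]
  congr 1
  rw [← Complex.ofReal_mul, ← Real.exp_add, Complex.ofReal_exp, ← Complex.exp_add]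
  congr 1
  push_cast
  have hI : Complex.I ^ 2 = -1 := Complex.I_sq
  field_simp
  ring_nf
  rw [Complex.I_sq]
  ring

theorem wt4 : Wt4St := by
  intro T Δ ξ c hT hΔ
  have hi := int_ka T Δ c hΔ
  constructor
  · have h0 := hi 0
    have h1 := h0.integral_prod_left
    refine (h1.const_mul ((1 / (√Real.pi * Δ) : ℝ) : ℂ)).congr ?_
    refine Filter.Eventually.of_forall fun t => ?_
    simp only [Function.uncurry]
    rw [wt_eq T Δ c t hT]
    simp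
  · have h1 : ∀ t : ℝ, wt T Δ (t - Complex.I * c) * Complex.exp (-(Complex.I * ξ * t)) =
        ((1 / (√Real.pi * Δ) : ℝ) : ℂ) * ∫ τ in Set.Ioc T (2 * T),
          ka Δ c t τ * Complex.exp (-(Complex.I * ξ * t)) := by
      intro t
      rw [wt_eq T Δ c t hT, mul_assoc, ← integral_mul_const]
    simp_rw [h1]
    rw [integral_const_mul, integral_integral_swap (hi ξ)]
    simp_rw [gauss Δ c ξ _ hΔ]
    rw [integral_const_mul, integral_mul_const]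
    unfold Wh
    rw [intervalIntegral.integral_of_le (by linarith), ← mul_assoc]
    have h2 : ((1 / (√Real.pi * Δ) : ℝ) : ℂ) * ((√Real.pi * Δ : ℝ) : ℂ) = 1 := by
      rw [← Complex.ofReal_mul]
      have : 0 < √Real.pi := Real.sqrt_pos.2 Real.pi_pos
      rw [one_div, inv_mul_cancel₀ (by positivity)]
      simp
    rw [h2]
    ring

end Pool.Agent.H46.MT.WtF
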