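import Pool.Agent.H46.MT.Defs
import Pool.Agent.H46.MT.ZArg
import Pool.Agent.H53.MT.Order

/-!
# Zeros off the real axis, their symmetry, and the logarithmic derivative of the completed function
-/

open Complex Set MeasureTheory Filter Topology
open scoped ComplexConjugate

namespace Pool.Agent.H46.MT.ZSym

theorem strip : StripSt := by
  intro s him h0
  have h1 : s.re < 1 := by
    by_contra h
    push Not at h
    exact riemannZeta_ne_zero_of_one_le_re h h0
  refine ⟨?_, h1⟩
  by_contra h
  push Not at h
  have him' : (1 - s).im ≠ 0 := by simpa using him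
  have hc : completedRiemannZeta s = 0 := (ZArg.completed_zero_iff him).mpr h0
  have hc' : completedRiemannZeta (1 - s) = 0 := by rw [completedRiemannZeta_one_sub]; exact hc
  have hz := (ZArg.completed_zero_iff him').mp hc'
  refine riemannZeta_ne_zero_of_one_le_re ?_ hz
  simp
  exact h

theorem zsym : ZSymSt := by
  intro T₁ T₂ hT ρ hρ
  obtain ⟨h0, h1, h2, h3, h4⟩ := hρ
  have hne : ρ ≠ 1 := by rintro rfl; simp at h2
  refine ⟨⟨H53.MT.zeta_symm_zero h1 h2 h0, by simpa using h2, by simpa using h1, by simpa using h3,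
    by simpa using h4⟩, H53.MT.orderNat_symm h1 h2, ?_⟩
  exact Nat.one_le_iff_ne_zero.mpr ((H53.MT.orderNat_zeta_ne_zero_iff hne).mpr h0)

theorem dec : DecSt := by
  intro s hre him hz
  have hs1 := ZArg.ne_one_of_im him
  have hU : IsOpen {z : ℂ | z.im ≠ 0} := isOpen_ne_fun Complex.continuous_im continuous_const
  have he : completedRiemannZeta =ᶠ[𝓝 s] fun z => Gammaℝ z * riemannZeta z := by
    filter_upwards [hU.mem_nhds him] with z hz
    rw [ZArg.completed_eq hz, mul_comm]
  have hG : DifferentiableAt ℂ Gammaℝ s := by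
    have hz2 : ∀ m : ℕ, s / 2 ≠ -m := by
      intro m hm
      apply him
      have h5 : s = 2 * (s / 2) := by ring
      rw [h5, hm]
      simp
    have hpi : (Real.pi : ℂ) ≠ 0 := by exact_mod_cast Real.pi_ne_zero
    have : DifferentiableAt ℂ (fun s : ℂ => (Real.pi : ℂ) ^ (-s / 2) * Complex.Gamma (s / 2)) s := by
      apply DifferentiableAt.mul
      · exact DifferentiableAt.const_cpow (by fun_prop) (Or.inl hpi)
      · exact (Complex.differentiableAt_Gamma _ hz2).comp s (by fun_prop)
    exact this
  have h1 : logDeriv completedRiemannZeta s = logDeriv (fun z => Gammaℝ z * riemannZeta z) s := by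
    rw [logDeriv_apply, logDeriv_apply, he.deriv_eq, he.self_of_nhds]
  rw [h1]
  exact logDeriv_mul s (ZArg.gammaR_ne him) hz hG (differentiableAt_riemannZeta hs1)

end Pool.Agent.H46.MT.ZSym
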