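import Pool.Agent.H46.MT.Defs
import Pool.Agent.H46.MT.ZSym
import Pool.Agent.H46.MT.Grow
import Pool.Agent.H46.MT.Loc
import Pool.Agent.H46.MT.Good
import Pool.Agent.H46.MT.Arg
import Pool.Agent.H46.MT.ZArg
import Pool.Agent.H46.MT.Hor
import Pool.Agent.H46.MT.Dig1
import Pool.Agent.H46.MT.Dig2
import Pool.Agent.H46.MT.Wt
import Pool.Agent.H46.MT.WtF
import Pool.Agent.H46.MT.EPr
import Pool.Agent.H46.MT.EAr
import Pool.Agent.H46.MT.EF
import Pool.Agent.H46.MT.Pl
import Pool.Agent.H46.MT.OrPt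
import Pool.Agent.H46.MT.Ortho
import Pool.Agent.H46.MT.Mert
import Pool.Agent.H46.MT.KBas
import Pool.Agent.H46.MT.KSq
import Pool.Agent.H46.MT.GFact
import Pool.Agent.H46.MT.GInt
import Pool.Agent.H46.MT.KSt
import Pool.Agent.H46.MT.Comb
import Pool.Agent.H46.MT.PairId
import Pool.Agent.H46.MT.LA
import Pool.Agent.H46.MT.LAz
import Pool.Agent.H46.MT.Edge
import Pool.Agent.H46.MT.Nlow
import Pool.Agent.H46.MT.Upper
import Pool.Agent.H46.MT.Final

/-!
# The proportion of simple critical-line zeros exceeds `2 - 1/c_MT`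
-/

namespace Pool.Agent.H46.MT.Main

theorem main : FinalSt := by
  have hZ2 : Zeta2St := Grow.zeta2
  have hGr : GrowSt := Grow.grow
  have hSt : StripSt := ZSym.strip
  have hZS : ZSymSt := ZSym.zsym
  have hDec : DecSt := ZSym.dec
  have hLoc : LocSt := Loc.loc hGr hZ2 hZS
  have hGH : GHSt := Good.good hGr hZ2 hSt hLoc
  have hD : DigSt := Dig2.dig Dig1.digser
  have hZA : ZArgSt := ZArg.zarg Arg.arg hSt
  have hHor : HorSt := Hor.hor hD hDec
  have hW1 : Wt1St := Wt.wt1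
  have hW4 : Wt4St := WtF.wt4
  have hEP : EPrSt := EPr.epr hW1 hW4
  have hEA : EArSt := EAr.ear hW1 hD
  have hEF : EFSt := EF.ef hZA hHor hDec hEP hEA hW1
  have hGF : GFactSt := GFact.gfact
  have hOr : OrthoSt := Ortho.ortho OrPt.orpt Pl.pl hGF
  have hKB : KBasicSt := KBas.kbasic
  have hPI : PairIdSt := PairId.pairid KSq.ksq hGF hZS hW1
  have hLAz : LAzSt := LAz.laz LA.la KBas.kpos hKB
  have hEd : EdgeSt := edge hLoc
  have hN : NlowSt := Nlow.nlow hEF hGH hD hW1 hEd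
  have hU : UpperSt := Upper.upper hEF hOr (Mert.mert hGF) Pl.pl hGF hPI hD hW1 hW4
  exact Final.final hLAz hU hN hEd hGH (KSt.kstab hKB) (Comb.comb hKB) GInt.gint hGF GInt.cst
    hW1 hZS hKB

end Pool.Agent.H46.MT.Main
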