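import Pool.Agent.H46.MT.Defs

/-!
# Pointwise near orthogonality of the bumps
-/

namespace Pool.Agent.H46.MT.OrPt

open MeasureTheory Filter Topology
open scoped ComplexConjugate

/-- the coefficients -/
noncomputable def cf (n : ℕ) : ℝ := ArithmeticFunction.vonMangoldt n / √(n : ℝ)

theorem cf_nonneg (n : ℕ) : 0 ≤ cf n :=
  div_nonneg ArithmeticFunction.vonMangoldt_nonneg (Real.sqrt_nonneg _)

theorem cf_le_one (n : ℕ) : cf n ≤ 1 := by
  unfold cf
  rcases Nat.eq_zero_or_pos n with h | h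
  · subst h; simp
  · have hn : (0 : ℝ) < n := by exact_mod_cast h
    have h1 : ArithmeticFunction.vonMangoldt n ≤ Real.log n := ArithmeticFunction.vonMangoldt_le_log
    have h2 : Real.log n ≤ √(n : ℝ) := by
      have h3 : Real.log (√(n : ℝ)) ≤ √(n : ℝ) / Real.exp 1 := by
        have h4 := Real.add_one_le_exp (Real.log (√(n : ℝ)) - 1)
        rw [Real.exp_sub, Real.exp_log (by positivity)] at h4
        linarith
      have h5 : Real.log n = 2 * Real.log (√(n : ℝ)) := by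
        rw [Real.log_sqrt hn.le]; ring
      have h6 : 2 ≤ Real.exp 1 := by
        have := Real.exp_one_gt_d9
        linarith
      have h7 : √(n : ℝ) / Real.exp 1 ≤ √(n : ℝ) / 2 :=
        div_le_div_of_nonneg_left (Real.sqrt_nonneg _) (by norm_num) h6
      linarith
    rw [div_le_one (by positivity)]
    exact h1.trans h2

theorem cf_eq_zero {n : ℕ} (hn : n < 2) : cf n = 0 := by
  interval_cases n <;> simp [cf]

theorem norm_Wh_le (T Δ ξ : ℝ) (hT : 0 < T) :
    ‖Wh T Δ ξ‖ ≤ T * Real.exp (-(Δ ^ 2 * ξ ^ 2 / 4)) := by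
  unfold Wh
  rw [norm_mul]
  have h1 : ‖∫ t in T..(2 * T), Complex.exp (-(Complex.I * ξ * t))‖ ≤ T := by
    have h2 := intervalIntegral.norm_integral_le_of_norm_le_const (a := T) (b := 2 * T) (C := 1)
      (f := fun t : ℝ => Complex.exp (-(Complex.I * ξ * t))) (fun t _ => by
        have : -(Complex.I * ξ * t) = ((-(ξ * t) : ℝ) : ℂ) * Complex.I := by push_cast; ring
        rw [this, Complex.norm_exp_ofReal_mul_I])
    refine h2.trans (le_of_eq ?_)
    rw [one_mul, abs_of_pos (by linarith)]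
    ring
  have h3 : ‖((Real.exp (-(Δ ^ 2 * ξ ^ 2 / 4)) : ℝ) : ℂ)‖ = Real.exp (-(Δ ^ 2 * ξ ^ 2 / 4)) := by
    rw [Complex.norm_real, Real.norm_of_nonneg (Real.exp_pos _).le]
  rw [h3]
  exact mul_le_mul_of_nonneg_right h1 (Real.exp_pos _).le

theorem cont_Wh (T Δ : ℝ) : Continuous (fun ξ : ℝ => Wh T Δ ξ) := by
  unfold Wh
  refine Continuous.mul ?_ (by fun_prop)
  exact intervalIntegral.continuous_parametric_intervalIntegral_of_continuous' (by fun_prop) _ _

/-- the elementary bound `exp (-2 log^2 n) ≤ 2 / n^2` -/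
theorem exp_log_sq_le (n : ℕ) (hn : 1 ≤ n) :
    Real.exp (-(2 * Real.log n ^ 2)) ≤ 2 / (n : ℝ) ^ 2 := by
  have hn0 : (0 : ℝ) < n := by exact_mod_cast hn
  have h1 : -(2 * Real.log n ^ 2) ≤ 1 / 2 + -(2 * Real.log n) := by
    nlinarith [sq_nonneg (Real.log n - 1 / 2)]
  have h2 : Real.exp (1 / 2) ≤ 2 := by
    have h3 : Real.exp (1 / 2) ^ 2 = Real.exp 1 := by
      rw [← Real.exp_nat_mul]; norm_num
    have h4 := Real.exp_one_lt_d9
    by_contra h
    rw [not_le] at h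
    nlinarith [Real.exp_pos (1 / 2)]
  calc Real.exp (-(2 * Real.log n ^ 2)) ≤ Real.exp (1 / 2 + -(2 * Real.log n)) :=
        Real.exp_le_exp.2 h1
    _ = Real.exp (1 / 2) * ((n : ℝ) ^ 2)⁻¹ := by
        rw [Real.exp_add, Real.exp_neg]
        congr 2
        conv_rhs => rw [← Real.exp_log hn0, ← Real.exp_nat_mul]
        norm_num
    _ ≤ 2 * ((n : ℝ) ^ 2)⁻¹ := mul_le_mul_of_nonneg_right h2 (by positivity)
    _ = _ := by rw [div_eq_mul_inv]

theorem sq_lower (a u : ℝ) : a ^ 2 / 2 - u ^ 2 ≤ (a - u) ^ 2 := by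
  nlinarith [sq_nonneg (a - 2 * u)]

/-- uniform bound for one bump -/
theorem bump_le (Δ u A : ℝ) (hΔ : 32 ≤ Δ ^ 2) (hu : |u| ≤ A) (n : ℕ) (hn : 1 ≤ n)
    (ξ : ℝ) (hξ : Real.log n ^ 2 / 2 - u ^ 2 ≤ ξ ^ 2) :
    Real.exp (-(Δ ^ 2 * ξ ^ 2 / 8)) ≤ Real.exp (4 * A ^ 2) * (2 / (n : ℝ) ^ 2) := by
  have h3 : u ^ 2 ≤ A ^ 2 := by
    rw [← sq_abs u]
    exact pow_le_pow_left₀ (abs_nonneg u) hu 2
  calc Real.exp (-(Δ ^ 2 * ξ ^ 2 / 8))
      ≤ Real.exp (4 * A ^ 2 + -(2 * Real.log n ^ 2)) := by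
        refine Real.exp_le_exp.2 ?_
        have h6 : 32 * ξ ^ 2 ≤ Δ ^ 2 * ξ ^ 2 := mul_le_mul_of_nonneg_right hΔ (sq_nonneg _)
        linarith
    _ = Real.exp (4 * A ^ 2) * Real.exp (-(2 * Real.log n ^ 2)) := Real.exp_add _ _
    _ ≤ _ := mul_le_mul_of_nonneg_left (exp_log_sq_le n hn) (Real.exp_pos _).le

theorem xi_p (n : ℕ) (u : ℝ) : Real.log n ^ 2 / 2 - u ^ 2 ≤ (Real.log n - u) ^ 2 := sq_lower _ _

theorem xi_m (n : ℕ) (u : ℝ) : Real.log n ^ 2 / 2 - u ^ 2 ≤ (-Real.log n - u) ^ 2 := by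
  have := sq_lower (-Real.log n) u
  rwa [neg_sq] at this

/-- bound for a coefficient times a bump -/
theorem cfWh_le (T Δ u A : ℝ) (hT : 0 < T) (hΔ : 32 ≤ Δ ^ 2) (hu : |u| ≤ A) (n : ℕ)
    (ξ : ℝ) (hξ : Real.log n ^ 2 / 2 - u ^ 2 ≤ ξ ^ 2) (q : ℝ)
    (hq : Real.exp (-(Δ ^ 2 * ξ ^ 2 / 8)) ≤ q) :
    ‖(cf n : ℂ) * Wh T Δ ξ‖ ≤ T * q * Real.exp (4 * A ^ 2) * 2 * (1 / (n : ℝ) ^ 2) := by
  have hq0 : 0 ≤ q := (Real.exp_pos _).le.trans hq
  rcases Nat.eq_zero_or_pos n with h | h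
  · subst h
    rw [cf_eq_zero (by norm_num)]
    simp
  · have h1 := bump_le Δ u A hΔ hu n h ξ hξ
    have h2 := norm_Wh_le T Δ ξ hT
    have h3 : Real.exp (-(Δ ^ 2 * ξ ^ 2 / 4)) =
        Real.exp (-(Δ ^ 2 * ξ ^ 2 / 8)) * Real.exp (-(Δ ^ 2 * ξ ^ 2 / 8)) := by
      rw [← Real.exp_add]; congr 1; ring
    rw [norm_mul, Complex.norm_real, Real.norm_of_nonneg (cf_nonneg n)]
    calc cf n * ‖Wh T Δ ξ‖ ≤ 1 * (T * Real.exp (-(Δ ^ 2 * ξ ^ 2 / 4))) :=
          mul_le_mul (cf_le_one n) h2 (norm_nonneg _) zero_le_one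
      _ = T * (Real.exp (-(Δ ^ 2 * ξ ^ 2 / 8)) * Real.exp (-(Δ ^ 2 * ξ ^ 2 / 8))) := by
          rw [one_mul, h3]
      _ ≤ T * (q * (Real.exp (4 * A ^ 2) * (2 / (n : ℝ) ^ 2))) := by
          refine mul_le_mul_of_nonneg_left ?_ hT.le
          exact mul_le_mul hq h1 (Real.exp_pos _).le hq0
      _ = _ := by ring

theorem summable_sq : Summable (fun n : ℕ => 1 / (n : ℝ) ^ 2) := hasSum_zeta_two.summable

theorem tsum_sq_le : ∑' n : ℕ, 1 / (n : ℝ) ^ 2 ≤ 2 := by
  rw [hasSum_zeta_two.tsum_eq]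
  have := Real.pi_lt_d2
  nlinarith [Real.pi_pos]

/-- the bound for the whole term -/
theorem tm_le (T Δ u A : ℝ) (hT : 0 < T) (hΔ : 32 ≤ Δ ^ 2) (hu : |u| ≤ A) (n : ℕ) :
    ‖(cf n : ℂ) * (Wh T Δ (Real.log n - u) + Wh T Δ (-Real.log n - u))‖ ≤
      T * Real.exp (4 * A ^ 2) * 4 * (1 / (n : ℝ) ^ 2) := by
  have h1 := cfWh_le T Δ u A hT hΔ hu n _ (xi_p n u) 1 (by
    rw [Real.exp_le_one_iff]
    have : 0 ≤ Δ ^ 2 * (Real.log n - u) ^ 2 / 8 := by positivity
    linarith)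
  have h2 := cfWh_le T Δ u A hT hΔ hu n _ (xi_m n u) 1 (by
    rw [Real.exp_le_one_iff]
    have : 0 ≤ Δ ^ 2 * (-Real.log n - u) ^ 2 / 8 := by positivity
    linarith)
  rw [mul_add]
  refine (norm_add_le _ _).trans ?_
  linarith

theorem summ (T Δ u A : ℝ) (hT : 0 < T) (hΔ : 32 ≤ Δ ^ 2) (hu : |u| ≤ A) :
    Summable (fun n : ℕ => (cf n : ℂ) * (Wh T Δ (Real.log n - u) + Wh T Δ (-Real.log n - u))) :=
  Summable.of_norm_bounded (summable_sq.mul_left _) (tm_le T Δ u A hT hΔ hu)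

theorem cont_main (T Δ A : ℝ) (hT : 0 < T) (hΔ : 32 ≤ Δ ^ 2) :
    ContinuousOn (fun u : ℝ => mainSum T Δ u) (Set.Icc (-A) A) := by
  unfold mainSum primeSum
  refine ContinuousOn.mul continuousOn_const (ContinuousOn.sub (ContinuousOn.mul
    continuousOn_const ?_) ?_)
  · exact ((cont_Wh T Δ).comp continuous_neg).continuousOn
  · refine continuousOn_tsum (u := fun n : ℕ => T * Real.exp (4 * A ^ 2) * 4 * (1 / (n : ℝ) ^ 2))
      (fun n => ?_) (summable_sq.mul_left _) (fun n u hu => ?_)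
    · refine Continuous.continuousOn ?_
      refine continuous_const.mul (Continuous.add ?_ ?_)
      · exact (cont_Wh T Δ).comp (continuous_const.sub continuous_id)
      · exact (cont_Wh T Δ).comp (continuous_const.sub continuous_id)
    · exact tm_le T Δ u A hT hΔ (abs_le.2 ⟨hu.1, hu.2⟩) n

/-! ## separation of the centres -/

theorem n_le (T b A r : ℝ) (hT : 1 ≤ T) (hA : A = b * Real.log T) (hr : r ≤ 1 / 8) (n : ℕ)
    (hn : 1 ≤ n) (h : Real.log n ≤ A + r) : (n : ℝ) ≤ 2 * T ^ b := by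
  have hn0 : (0 : ℝ) < n := by exact_mod_cast hn
  have h1 : (n : ℝ) ≤ Real.exp (A + r) := by
    rw [← Real.exp_log hn0]
    exact Real.exp_le_exp.2 h
  have h2 : Real.exp A = T ^ b := by
    rw [Real.rpow_def_of_pos (by linarith), hA, mul_comm]
  have h3 : Real.exp r ≤ 2 := by
    calc Real.exp r ≤ Real.exp (Real.log 2) := by
          refine Real.exp_le_exp.2 ?_
          have := Real.log_two_gt_d9
          linarith
      _ = 2 := Real.exp_log (by norm_num)
  have h4 : 0 < T ^ b := Real.rpow_pos_of_pos (by linarith) _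
  rw [Real.exp_add, h2] at h1
  nlinarith

theorem sep_aux (T b : ℝ) (hT : 1 ≤ T) (n m : ℕ) (hn : 1 ≤ n) (hnm : n < m)
    (h : (m : ℝ) ≤ 2 * T ^ b) : 2 * (1 / (8 * T ^ b)) < Real.log m - Real.log n := by
  have hn0 : (0 : ℝ) < n := by exact_mod_cast hn
  have hm0 : (0 : ℝ) < m := by
    have : 0 < m := by omega
    exact_mod_cast this
  have h4 : 0 < T ^ b := Real.rpow_pos_of_pos (by linarith) _
  have h1 : Real.log n - Real.log m ≤ -(1 / m) := by
    rw [← Real.log_div hn0.ne' hm0.ne']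
    have h2 := Real.log_le_sub_one_of_pos (x := (n : ℝ) / m) (by positivity)
    have h3 : (n : ℝ) / m - 1 ≤ -(1 / m) := by
      have h5 : (n : ℝ) + 1 ≤ m := by exact_mod_cast hnm
      have h6 : (n : ℝ) / m ≤ (m - 1) / m := div_le_div_of_nonneg_right (by linarith) hm0.le
      have h7 : ((m : ℝ) - 1) / m = 1 - 1 / m := by field_simp
      linarith
    linarith
  have h8 : 2 * (1 / (8 * T ^ b)) < 1 / m := by
    have h9 : 2 * (1 / (8 * T ^ b)) = 1 / (4 * T ^ b) := by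
      field_simp
      norm_num
    rw [h9]
    exact one_div_lt_one_div_of_lt hm0 (by linarith)
  linarith

theorem sep (T b : ℝ) (hT : 1 ≤ T) (n m : ℕ) (hn : 1 ≤ n) (hm : 1 ≤ m)
    (h : (m : ℝ) ≤ 2 * T ^ b) (h' : (n : ℝ) ≤ 2 * T ^ b) (u : ℝ)
    (h1 : |Real.log n - u| ≤ 1 / (8 * T ^ b)) (h2 : |Real.log m - u| ≤ 1 / (8 * T ^ b)) :
    n = m := by
  by_contra hne
  rw [abs_le] at h1 h2
  rcases Nat.lt_or_gt_of_ne hne with h3 | h3
  · have := sep_aux T b hT n m hn h3 h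
    linarith [h1.1, h1.2, h2.1, h2.2]
  · have := sep_aux T b hT m n hm h3 h'
    linarith [h1.1, h1.2, h2.1, h2.2]

/-! ## active and inactive bumps -/

/-- the active part of a bump -/
noncomputable def act (T Δ r ξ : ℝ) : ℂ := if |ξ| ≤ r then Wh T Δ ξ else 0

/-- the inactive part of a bump -/
noncomputable def ina (T Δ r ξ : ℝ) : ℂ := if |ξ| ≤ r then 0 else Wh T Δ ξ

theorem act_add_ina (T Δ r ξ : ℝ) : act T Δ r ξ + ina T Δ r ξ = Wh T Δ ξ := by
  unfold act ina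
  split_ifs <;> simp

theorem act_sq (T Δ r ξ : ℝ) : ‖act T Δ r ξ‖ ^ 2 = if |ξ| ≤ r then ‖Wh T Δ ξ‖ ^ 2 else 0 := by
  unfold act
  split_ifs <;> simp

theorem ina_le (T Δ r u A : ℝ) (hT : 0 < T) (hΔ : 32 ≤ Δ ^ 2) (hu : |u| ≤ A) (hr : 0 ≤ r) (n : ℕ)
    (ξ : ℝ) (hξ : Real.log n ^ 2 / 2 - u ^ 2 ≤ ξ ^ 2) :
    ‖(cf n : ℂ) * ina T Δ r ξ‖ ≤
      T * Real.exp (-(Δ ^ 2 * r ^ 2 / 8)) * Real.exp (4 * A ^ 2) * 2 * (1 / (n : ℝ) ^ 2) := by
  unfold ina
  split_ifs with h
  · rw [mul_zero, norm_zero]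
    positivity
  · rw [not_le] at h
    refine cfWh_le T Δ u A hT hΔ hu n ξ hξ _ (Real.exp_le_exp.2 ?_)
    have h1 : r ^ 2 ≤ ξ ^ 2 := by
      rw [← sq_abs ξ]
      exact pow_le_pow_left₀ hr h.le 2
    have h2 : Δ ^ 2 * r ^ 2 ≤ Δ ^ 2 * ξ ^ 2 := mul_le_mul_of_nonneg_left h1 (sq_nonneg _)
    linarith

theorem ina0_le (T Δ r u : ℝ) (hT : 0 < T) (hr : 0 ≤ r) :
    ‖ina T Δ r (-u)‖ ≤ T * Real.exp (-(Δ ^ 2 * r ^ 2 / 8)) := by
  unfold ina
  split_ifs with h
  · rw [norm_zero]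
    positivity
  · rw [not_le] at h
    refine (norm_Wh_le T Δ (-u) hT).trans ?_
    refine mul_le_mul_of_nonneg_left (Real.exp_le_exp.2 ?_) hT.le
    have h1 : r ^ 2 ≤ (-u) ^ 2 := by
      rw [← sq_abs (-u)]
      exact pow_le_pow_left₀ hr h.le 2
    have h2 : Δ ^ 2 * r ^ 2 ≤ Δ ^ 2 * (-u) ^ 2 := mul_le_mul_of_nonneg_left h1 (sq_nonneg _)
    have h3 : 0 ≤ Δ ^ 2 * (-u) ^ 2 := by positivity
    linarith

/-- the right side of the estimate without the constant -/
noncomputable def rhs (T Δ b r u : ℝ) : ℝ :=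
  (if |u| ≤ r then Real.log T ^ 2 * ‖Wh T Δ (-u)‖ ^ 2 else 0) +
    ∑ n ∈ Finset.range (⌊2 * T ^ b⌋₊ + 1), ArithmeticFunction.vonMangoldt n ^ 2 / n *
      ((if |Real.log n - u| ≤ r then ‖Wh T Δ (Real.log n - u)‖ ^ 2 else 0) +
        (if |-Real.log n - u| ≤ r then ‖Wh T Δ (-Real.log n - u)‖ ^ 2 else 0))

theorem cf_sq (n : ℕ) : ArithmeticFunction.vonMangoldt n ^ 2 / n = cf n ^ 2 := by
  unfold cf
  rw [div_pow, Real.sq_sqrt (Nat.cast_nonneg n)]

theorem rhs_eq (T Δ b r u : ℝ) : rhs T Δ b r u = ‖(Real.log T : ℂ) * act T Δ r (-u)‖ ^ 2 +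
    ∑ n ∈ Finset.range (⌊2 * T ^ b⌋₊ + 1), (‖(cf n : ℂ) * act T Δ r (Real.log n - u)‖ ^ 2 +
      ‖(cf n : ℂ) * act T Δ r (-Real.log n - u)‖ ^ 2) := by
  unfold rhs
  congr 1
  · rw [norm_mul, mul_pow, act_sq, abs_neg, Complex.norm_real, Real.norm_eq_abs, sq_abs]
    split_ifs <;> simp
  · refine Finset.sum_congr rfl fun n _ => ?_
    rw [norm_mul, mul_pow, act_sq, norm_mul, mul_pow, act_sq, Complex.norm_real,
      Real.norm_eq_abs, sq_abs, cf_sq]
    ring

/-- at most one bump is active -/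
theorem active (T Δ b u : ℝ) (hT : 3 ≤ T) (hb : 0 < b) (hu : |u| ≤ b * Real.log T) :
    ‖(Real.log T : ℂ) * act T Δ (1 / (8 * T ^ b)) (-u) -
      ∑' n : ℕ, ((cf n : ℂ) * act T Δ (1 / (8 * T ^ b)) (Real.log n - u) +
        (cf n : ℂ) * act T Δ (1 / (8 * T ^ b)) (-Real.log n - u))‖ ^ 2
      ≤ rhs T Δ b (1 / (8 * T ^ b)) u ∧
    ‖(Real.log T : ℂ) * act T Δ (1 / (8 * T ^ b)) (-u) -
      ∑' n : ℕ, ((cf n : ℂ) * act T Δ (1 / (8 * T ^ b)) (Real.log n - u) +
        (cf n : ℂ) * act T Δ (1 / (8 * T ^ b)) (-Real.log n - u))‖ ≤ T ^ 2 := by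
  have hT0 : 0 < T := by linarith
  have hT1 : 1 ≤ T := by linarith
  have hTb : 1 ≤ T ^ b := Real.one_le_rpow hT1 hb.le
  set r : ℝ := 1 / (8 * T ^ b) with hr
  have hr0 : 0 < r := by positivity
  have hr8 : r ≤ 1 / 8 := by
    rw [hr]
    exact one_div_le_one_div_of_le (by norm_num) (by linarith)
  have hlog2 : (1 : ℝ) / 2 < Real.log 2 := by
    have := Real.log_two_gt_d9
    linarith
  have hlogn : ∀ n : ℕ, 2 ≤ n → 1 / 2 < Real.log n := fun n hn =>
    hlog2.trans_le (Real.log_le_log (by norm_num) (by exact_mod_cast hn))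
  have hWh : ∀ ξ, ‖act T Δ r ξ‖ ≤ T := by
    intro ξ
    unfold act
    split_ifs
    · refine (norm_Wh_le T Δ ξ hT0).trans ?_
      have : Real.exp (-(Δ ^ 2 * ξ ^ 2 / 4)) ≤ 1 := by
        rw [Real.exp_le_one_iff]
        have : 0 ≤ Δ ^ 2 * ξ ^ 2 / 4 := by positivity
        linarith
      nlinarith
    · rw [norm_zero]; exact hT0.le
  have hlogT0 : 0 ≤ Real.log T := Real.log_nonneg hT1
  have hlogT : Real.log T ≤ T := (Real.log_le_sub_one_of_pos hT0).trans (by linarith)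
  have hcW : ∀ n ξ, ‖(cf n : ℂ) * act T Δ r ξ‖ ≤ T ^ 2 := by
    intro n ξ
    rw [norm_mul, Complex.norm_real, Real.norm_of_nonneg (cf_nonneg n)]
    calc cf n * ‖act T Δ r ξ‖ ≤ 1 * T :=
          mul_le_mul (cf_le_one n) (hWh ξ) (norm_nonneg _) zero_le_one
      _ ≤ T ^ 2 := by nlinarith
  have hnn : ∀ n : ℕ, 0 ≤ ‖(cf n : ℂ) * act T Δ r (Real.log n - u)‖ ^ 2 +
      ‖(cf n : ℂ) * act T Δ r (-Real.log n - u)‖ ^ 2 := fun n => by positivity
  rw [rhs_eq]
  by_cases h0 : |u| ≤ r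
  · -- the centre `0` is active
    have hz : ∀ n : ℕ, (cf n : ℂ) * act T Δ r (Real.log n - u) +
        (cf n : ℂ) * act T Δ r (-Real.log n - u) = 0 := by
      intro n
      by_cases hn : n < 2
      · rw [cf_eq_zero hn]; simp
      · have h1 := hlogn n (by omega)
        rw [abs_le] at h0
        have h2 : ¬ |Real.log n - u| ≤ r := by
          rw [abs_le]; intro h; linarith [h.1, h.2, h0.1, h0.2]
        have h3 : ¬ |-Real.log n - u| ≤ r := by
          rw [abs_le]; intro h; linarith [h.1, h.2, h0.1, h0.2]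
        unfold act
        rw [if_neg h2, if_neg h3]
        simp
    simp only [hz, tsum_zero, sub_zero]
    constructor
    · have := Finset.sum_nonneg fun n (_ : n ∈ Finset.range (⌊2 * T ^ b⌋₊ + 1)) => hnn n
      linarith
    · rw [norm_mul, Complex.norm_real, Real.norm_of_nonneg hlogT0]
      have := hWh (-u)
      nlinarith [norm_nonneg (act T Δ r (-u))]
  · have hA0 : act T Δ r (-u) = 0 := by
      unfold act
      rw [abs_neg, if_neg h0]
    rw [hA0, mul_zero, zero_sub, norm_neg, norm_zero]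
    -- a single term
    have single : ∀ n0 : ℕ, 2 ≤ n0 → Real.log n0 ≤ b * Real.log T + r →
        ((cf n0 : ℂ) * act T Δ r (Real.log n0 - u) = 0 ∨
          (cf n0 : ℂ) * act T Δ r (-Real.log n0 - u) = 0) →
        (∀ n : ℕ, n ≠ n0 → (cf n : ℂ) * act T Δ r (Real.log n - u) +
          (cf n : ℂ) * act T Δ r (-Real.log n - u) = 0) →
        ‖∑' n : ℕ, ((cf n : ℂ) * act T Δ r (Real.log n - u) +
          (cf n : ℂ) * act T Δ r (-Real.log n - u))‖ ^ 2 ≤ 0 ^ 2 +
          ∑ n ∈ Finset.range (⌊2 * T ^ b⌋₊ + 1), (‖(cf n : ℂ) * act T Δ r (Real.log n - u)‖ ^ 2 +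
            ‖(cf n : ℂ) * act T Δ r (-Real.log n - u)‖ ^ 2) ∧
        ‖∑' n : ℕ, ((cf n : ℂ) * act T Δ r (Real.log n - u) +
          (cf n : ℂ) * act T Δ r (-Real.log n - u))‖ ≤ T ^ 2 := by
      intro n0 hn0 hlog hor hz
      rw [tsum_eq_single n0 hz]
      have hmem : n0 ∈ Finset.range (⌊2 * T ^ b⌋₊ + 1) := by
        rw [Finset.mem_range]
        have := Nat.le_floor (n_le T b _ r hT1 rfl hr8 n0 (by omega) hlog)
        omega
      have hs := Finset.single_le_sum (f := fun n : ℕ =>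
        ‖(cf n : ℂ) * act T Δ r (Real.log n - u)‖ ^ 2 +
          ‖(cf n : ℂ) * act T Δ r (-Real.log n - u)‖ ^ 2) (fun n _ => hnn n) hmem
      rcases hor with h | h
      · rw [h, norm_zero] at hs
        rw [h, zero_add]
        exact ⟨by linarith, hcW _ _⟩
      · rw [h, norm_zero] at hs
        rw [h, add_zero]
        exact ⟨by linarith, hcW _ _⟩
    by_cases hex : ∃ n0 : ℕ, 2 ≤ n0 ∧ (|Real.log n0 - u| ≤ r ∨ |-Real.log n0 - u| ≤ r)
    · obtain ⟨n0, hn0, hcase⟩ := hex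
      have hl0 := hlogn n0 hn0
      rcases hcase with hc | hc
      · have hc' := abs_le.1 hc
        have hu' := abs_le.1 hu
        have hm : ∀ n : ℕ, (cf n : ℂ) * act T Δ r (-Real.log n - u) = 0 := by
          intro n
          by_cases hn : n < 2
          · rw [cf_eq_zero hn]; simp
          · have h1 := hlogn n (by omega)
            have h3 : ¬ |-Real.log n - u| ≤ r := by
              rw [abs_le]; intro h; linarith [h.1, h.2]
            unfold act
            rw [if_neg h3, mul_zero]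
        refine single n0 hn0 (by linarith) (Or.inr (hm n0)) fun n hne => ?_
        rw [hm n, add_zero]
        by_cases hn : n < 2
        · rw [cf_eq_zero hn]; simp
        · have h3 : ¬ |Real.log n - u| ≤ r := by
            intro h
            have h' := abs_le.1 h
            exact hne (sep T b hT1 n n0 (by omega) (by omega)
              (n_le T b _ r hT1 rfl hr8 n0 (by omega) (by linarith))
              (n_le T b _ r hT1 rfl hr8 n (by omega) (by linarith)) u h hc)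
          unfold act
          rw [if_neg h3, mul_zero]
      · have hc' := abs_le.1 hc
        have hu' := abs_le.1 hu
        have hm : ∀ n : ℕ, (cf n : ℂ) * act T Δ r (Real.log n - u) = 0 := by
          intro n
          by_cases hn : n < 2
          · rw [cf_eq_zero hn]; simp
          · have h1 := hlogn n (by omega)
            have h3 : ¬ |Real.log n - u| ≤ r := by
              rw [abs_le]; intro h; linarith [h.1, h.2]
            unfold act
            rw [if_neg h3, mul_zero]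
        refine single n0 hn0 (by linarith) (Or.inl (hm n0)) fun n hne => ?_
        rw [hm n, zero_add]
        by_cases hn : n < 2
        · rw [cf_eq_zero hn]; simp
        · have h3 : ¬ |-Real.log n - u| ≤ r := by
            intro h
            have h' := abs_le.1 h
            refine hne (sep T b hT1 n n0 (by omega) (by omega)
              (n_le T b _ r hT1 rfl hr8 n0 (by omega) (by linarith))
              (n_le T b _ r hT1 rfl hr8 n (by omega) (by linarith)) (-u) ?_ ?_)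
            · rw [← abs_neg]
              refine le_trans (le_of_eq ?_) h
              congr 1; ring
            · rw [← abs_neg]
              refine le_trans (le_of_eq ?_) hc
              congr 1; ring
          unfold act
          rw [if_neg h3, mul_zero]
    · have hz : ∀ n : ℕ, (cf n : ℂ) * act T Δ r (Real.log n - u) +
          (cf n : ℂ) * act T Δ r (-Real.log n - u) = 0 := by
        intro n
        by_cases hn : n < 2
        · rw [cf_eq_zero hn]; simp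
        · have h2 : ¬ |Real.log n - u| ≤ r := fun h => hex ⟨n, by omega, Or.inl h⟩
          have h3 : ¬ |-Real.log n - u| ≤ r := fun h => hex ⟨n, by omega, Or.inr h⟩
          unfold act
          rw [if_neg h2, if_neg h3]
          simp
      simp only [hz, tsum_zero, norm_zero]
      constructor
      · have := Finset.sum_nonneg fun n (_ : n ∈ Finset.range (⌊2 * T ^ b⌋₊ + 1)) => hnn n
        linarith
      · positivity

/-! ## growth -/

theorem growth (b : ℝ) (hb1 : b < 1) : ∃ T₀ : ℝ, 3 ≤ T₀ ∧ ∀ T : ℝ, T₀ ≤ T →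
    4 * Real.log T ^ 2 + 10 * Real.log T ≤ T ^ (2 * dl b) / 512 ∧ 1 ≤ Real.log T := by
  have hδ : 0 < dl b := by unfold dl; linarith
  refine ⟨max 3 (Real.exp (5376 / dl b ^ 3)), le_max_left _ _, fun T hT => ?_⟩
  have hT3 : 3 ≤ T := (le_max_left _ _).trans hT
  have hT0 : 0 < T := by linarith
  have hL1 : 1 ≤ Real.log T := by
    rw [Real.le_log_iff_exp_le hT0]
    have := Real.exp_one_lt_d9
    linarith
  have hL2 : 5376 / dl b ^ 3 ≤ Real.log T := by
    rw [Real.le_log_iff_exp_le hT0]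
    exact (le_max_right _ _).trans hT
  refine ⟨?_, hL1⟩
  set L := Real.log T with hL
  have h1 : T ^ (2 * dl b) = Real.exp (2 * dl b * L) := by
    rw [Real.rpow_def_of_pos hT0, mul_comm]
  have h2 := Real.pow_div_factorial_le_exp (2 * dl b * L) (by positivity) 3
  have h3 : 14 * 512 * 6 ≤ 8 * dl b ^ 3 * L := by
    rw [div_le_iff₀ (by positivity)] at hL2
    linarith
  rw [h1]
  have h4 : (2 * dl b * L) ^ 3 / (Nat.factorial 3 : ℕ) = 8 * dl b ^ 3 * L * L ^ 2 / 6 := by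
    have : (Nat.factorial 3 : ℕ) = 6 := rfl
    rw [this]
    push_cast
    ring
  rw [h4] at h2
  have h5 : 14 * 512 * 6 * L ^ 2 ≤ 8 * dl b ^ 3 * L * L ^ 2 :=
    mul_le_mul_of_nonneg_right h3 (sq_nonneg _)
  have h6 : L ≤ L ^ 2 := by nlinarith
  rw [le_div_iff₀ (by norm_num)]
  linarith

theorem orpt : OrPtSt := by
  intro b hb hb1
  obtain ⟨T₀, hT₀, hgr⟩ := growth b hb1
  refine ⟨T₀, by linarith, fun T hT => ?_⟩
  obtain ⟨hg, hL1⟩ := hgr T hT
  have hT3 : 3 ≤ T := hT₀.trans hT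
  have hT0 : 0 < T := by linarith
  have hT1 : 1 ≤ T := by linarith
  have hδ : 0 < dl b := by unfold dl; linarith
  have hTb : 0 < T ^ b := Real.rpow_pos_of_pos hT0 _
  have hD : (Dl b T) ^ 2 = (T ^ b) ^ 2 * T ^ (2 * dl b) := by
    unfold Dl
    rw [Real.rpow_add hT0, mul_pow]
    congr 1
    rw [← Real.rpow_natCast (T ^ dl b), ← Real.rpow_mul hT0.le]
    congr 1
    push_cast
    ring
  have hTd : 14 * 512 ≤ T ^ (2 * dl b) := by
    rw [le_div_iff₀ (by norm_num)] at hg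
    nlinarith
  have hTb1 : 1 ≤ T ^ b := Real.one_le_rpow hT1 hb.le
  have hΔ : 32 ≤ (Dl b T) ^ 2 := by
    rw [hD]
    have : 1 ≤ (T ^ b) ^ 2 := one_le_pow₀ hTb1
    nlinarith
  refine ⟨fun u hu => summ T (Dl b T) u _ hT0 hΔ hu, cont_main T (Dl b T) _ hT0 hΔ,
    fun u hu => ?_⟩
  have hact := active T (Dl b T) b u hT3 hb hu
  set Δ := Dl b T with hΔdef
  set r : ℝ := 1 / (8 * T ^ b) with hr
  have hr0 : 0 < r := by positivity
  set q : ℝ := Real.exp (-(Δ ^ 2 * r ^ 2 / 8)) with hq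
  have hq1 : Δ ^ 2 * r ^ 2 / 8 = T ^ (2 * dl b) / 512 := by
    rw [hD, hr]
    field_simp
    ring
  set A := b * Real.log T with hA
  have hA0 : 0 ≤ A := by rw [hA]; exact mul_nonneg hb.le (by linarith)
  have hAL : A ^ 2 ≤ Real.log T ^ 2 := by
    refine pow_le_pow_left₀ hA0 ?_ 2
    rw [hA]
    nlinarith
  -- decomposition
  have hap : ∀ n : ℕ, ‖(cf n : ℂ) * ina T Δ r (Real.log n - u)‖ ≤
      T * q * Real.exp (4 * A ^ 2) * 2 * (1 / (n : ℝ) ^ 2) := fun n =>
    ina_le T Δ r u A hT0 hΔ hu hr0.le n _ (xi_p n u)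
  have ham : ∀ n : ℕ, ‖(cf n : ℂ) * ina T Δ r (-Real.log n - u)‖ ≤
      T * q * Real.exp (4 * A ^ 2) * 2 * (1 / (n : ℝ) ^ 2) := fun n =>
    ina_le T Δ r u A hT0 hΔ hu hr0.le n _ (xi_m n u)
  have hsum1 : Summable fun n : ℕ => ((cf n : ℂ) * ina T Δ r (Real.log n - u) +
      (cf n : ℂ) * ina T Δ r (-Real.log n - u)) :=
    (Summable.of_norm_bounded (summable_sq.mul_left _) hap).add
      (Summable.of_norm_bounded (summable_sq.mul_left _) ham)
  have hsum0 := summ T Δ u A hT0 hΔ hu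
  have hsplit : ∀ n : ℕ, ((cf n : ℂ) * act T Δ r (Real.log n - u) +
      (cf n : ℂ) * act T Δ r (-Real.log n - u)) =
      (cf n : ℂ) * (Wh T Δ (Real.log n - u) + Wh T Δ (-Real.log n - u)) -
      ((cf n : ℂ) * ina T Δ r (Real.log n - u) + (cf n : ℂ) * ina T Δ r (-Real.log n - u)) := by
    intro n
    rw [← act_add_ina T Δ r (Real.log n - u), ← act_add_ina T Δ r (-Real.log n - u)]
    ring
  have hps : ∑' n : ℕ, ((cf n : ℂ) * act T Δ r (Real.log n - u) +
      (cf n : ℂ) * act T Δ r (-Real.log n - u)) = primeSum T Δ u -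
      ∑' n : ℕ, ((cf n : ℂ) * ina T Δ r (Real.log n - u) +
        (cf n : ℂ) * ina T Δ r (-Real.log n - u)) := by
    simp only [hsplit]
    rw [hsum0.tsum_sub hsum1]
    rfl
  obtain ⟨a, ha⟩ : ∃ a : ℂ, a = (Real.log T : ℂ) * act T Δ r (-u) -
      ∑' n : ℕ, ((cf n : ℂ) * act T Δ r (Real.log n - u) +
        (cf n : ℂ) * act T Δ r (-Real.log n - u)) := ⟨_, rfl⟩
  obtain ⟨e, he⟩ : ∃ e : ℂ, e = (Real.log T : ℂ) * ina T Δ r (-u) -
      ∑' n : ℕ, ((cf n : ℂ) * ina T Δ r (Real.log n - u) +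
        (cf n : ℂ) * ina T Δ r (-Real.log n - u)) := ⟨_, rfl⟩
  have hmain : mainSum T Δ u = ((1 / (2 * Real.pi) : ℝ) : ℂ) * (a + e) := by
    unfold mainSum
    congr 1
    rw [ha, he, hps, ← act_add_ina T Δ r (-u)]
    ring
  rw [← ha] at hact
  obtain ⟨hact1, hact2⟩ := hact
  -- the size of the inactive part
  have hE0 : 0 < Real.exp (4 * A ^ 2) := Real.exp_pos _
  have hq0 : 0 < q := Real.exp_pos _
  have hts : ‖∑' n : ℕ, ((cf n : ℂ) * ina T Δ r (Real.log n - u) +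
        (cf n : ℂ) * ina T Δ r (-Real.log n - u))‖ ≤ T * q * Real.exp (4 * A ^ 2) * 8 := by
    have h1 : ‖∑' n : ℕ, ((cf n : ℂ) * ina T Δ r (Real.log n - u) +
        (cf n : ℂ) * ina T Δ r (-Real.log n - u))‖ ≤
        ∑' n : ℕ, T * q * Real.exp (4 * A ^ 2) * 4 * (1 / (n : ℝ) ^ 2) := by
      refine tsum_of_norm_bounded (summable_sq.mul_left _).hasSum fun n => ?_
      refine (norm_add_le _ _).trans ?_
      have := hap n
      have := ham n
      linarith
    rw [tsum_mul_left] at h1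
    have h2 := tsum_sq_le
    have h3 : 0 ≤ T * q * Real.exp (4 * A ^ 2) * 4 := by positivity
    have h4 := mul_le_mul_of_nonneg_left h2 h3
    linarith
  have hlogT : Real.log T ≤ T := (Real.log_le_sub_one_of_pos hT0).trans (by linarith)
  have he1 : ‖e‖ ≤ 1 / (81 * T ^ 2) := by
    have h1 : ‖e‖ ≤ Real.log T * (T * q) + T * q * Real.exp (4 * A ^ 2) * 8 := by
      rw [he]
      refine (norm_sub_le _ _).trans (add_le_add ?_ hts)
      rw [norm_mul, Complex.norm_real, Real.norm_of_nonneg (by linarith)]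
      exact mul_le_mul_of_nonneg_left (ina0_le T Δ r u hT0 hr0.le) (by linarith)
    have h2 : Real.exp (4 * A ^ 2) ≤ Real.exp (4 * Real.log T ^ 2) :=
      Real.exp_le_exp.2 (by linarith)
    have h3 : 1 ≤ Real.exp (4 * Real.log T ^ 2) := Real.one_le_exp (by positivity)
    have h4 : q * Real.exp (4 * Real.log T ^ 2) ≤ 1 / T ^ 10 := by
      have h5 : 1 / T ^ 10 = Real.exp (-(10 * Real.log T)) := by
        rw [Real.exp_neg, one_div]
        congr 1
        conv_lhs => rw [← Real.exp_log hT0, ← Real.exp_nat_mul]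
        norm_num
      rw [h5, hq, ← Real.exp_add]
      refine Real.exp_le_exp.2 ?_
      rw [hq1]
      linarith
    have h6 : Real.log T * (T * q) + T * q * Real.exp (4 * A ^ 2) * 8 ≤
        9 * T ^ 2 * (q * Real.exp (4 * Real.log T ^ 2)) := by
      have h7 : Real.log T * (T * q) ≤ T ^ 2 * (q * Real.exp (4 * Real.log T ^ 2)) := by
        calc Real.log T * (T * q) ≤ T * (T * q) :=
              mul_le_mul_of_nonneg_right hlogT (by positivity)
          _ = T ^ 2 * (q * 1) := by ring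
          _ ≤ _ := mul_le_mul_of_nonneg_left (mul_le_mul_of_nonneg_left h3 hq0.le)
              (by positivity)
      have h8 : T * q * Real.exp (4 * A ^ 2) * 8 ≤
          8 * T ^ 2 * (q * Real.exp (4 * Real.log T ^ 2)) := by
        calc T * q * Real.exp (4 * A ^ 2) * 8 ≤ T * q * Real.exp (4 * Real.log T ^ 2) * 8 := by
              gcongr
          _ = 8 * T * (q * Real.exp (4 * Real.log T ^ 2)) := by ring
          _ ≤ _ := by
              refine mul_le_mul_of_nonneg_right ?_ (by positivity)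
              nlinarith
      linarith
    calc ‖e‖ ≤ 9 * T ^ 2 * (q * Real.exp (4 * Real.log T ^ 2)) := h1.trans h6
      _ ≤ 9 * T ^ 2 * (1 / T ^ 10) := mul_le_mul_of_nonneg_left h4 (by positivity)
      _ = 9 / (T ^ 6 * T ^ 2) := by field_simp
      _ ≤ 9 / (729 * T ^ 2) := by
          refine div_le_div_of_nonneg_left (by norm_num) (by positivity) ?_
          refine mul_le_mul_of_nonneg_right ?_ (by positivity)
          calc (729 : ℝ) = 3 ^ 6 := by norm_num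
            _ ≤ T ^ 6 := pow_le_pow_left₀ (by norm_num) hT3 6
      _ = 1 / (81 * T ^ 2) := by field_simp; norm_num
  have hT2 : 0 < T ^ 2 := by positivity
  have he2 : T ^ 2 * ‖e‖ ≤ 1 / 81 := by
    have := mul_le_mul_of_nonneg_left he1 hT2.le
    have h2 : T ^ 2 * (1 / (81 * T ^ 2)) = 1 / 81 := by field_simp
    linarith
  have he3 : ‖e‖ ≤ 1 / 81 := by
    have h1 : 1 ≤ T ^ 2 := one_le_pow₀ hT1
    nlinarith [norm_nonneg e]
  have hpi : 0 < Real.pi := Real.pi_pos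
  have h1 : ‖mainSum T Δ u‖ ^ 2 = 1 / (4 * Real.pi ^ 2) * ‖a + e‖ ^ 2 := by
    rw [hmain, norm_mul, mul_pow, Complex.norm_real, Real.norm_of_nonneg (by positivity)]
    congr 1
    field_simp
    norm_num
  have h2 : ‖a + e‖ ^ 2 ≤ rhs T Δ b r u + 1 := by
    have h3 : ‖a + e‖ ≤ ‖a‖ + ‖e‖ := norm_add_le _ _
    have h4 : ‖a + e‖ ^ 2 ≤ (‖a‖ + ‖e‖) ^ 2 := pow_le_pow_left₀ (norm_nonneg _) h3 2
    have h5 : ‖a‖ * ‖e‖ ≤ T ^ 2 * ‖e‖ := mul_le_mul_of_nonneg_right hact2 (norm_nonneg _)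
    have h6 : ‖e‖ ^ 2 ≤ 1 := by
      have := norm_nonneg e
      nlinarith
    nlinarith
  have h3 : 1 / (4 * Real.pi ^ 2) ≤ 1 := by
    rw [div_le_one (by positivity)]
    have := Real.pi_gt_three
    nlinarith
  have h4 : 0 < 1 / (4 * Real.pi ^ 2) := by positivity
  have h5 : ‖mainSum T Δ u‖ ^ 2 ≤ 1 / (4 * Real.pi ^ 2) * rhs T Δ b r u + 1 := by
    rw [h1]
    have := mul_le_mul_of_nonneg_left h2 h4.le
    linarith
  exact h5

end Pool.Agent.H46.MT.OrPt
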